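import Pool.Agent.J6H39.CG.Stm

/-! Project CG: facts on the Fourier transforms of test functions (`S_F`). -/

set_option autoImplicit false

open MeasureTheory Set Filter Topology Complex
open scoped FourierTransform ContDiff SchwartzMap

namespace Pool.Agent.J6H39.CG

/-- the Schwartz map of a test function -/
noncomputable def sm {V : ℝ → ℝ} (h : Tst V) : 𝓢(ℝ, ℂ) :=
  HasCompactSupport.toSchwartzMap (f := fun x : ℝ => (V x : ℂ))
    (h.cpt.comp_left (g := fun x : ℝ => (x : ℂ)) (by simp)) (Complex.ofRealCLM.contDiff.comp h.smooth)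

theorem sm_coe {V : ℝ → ℝ} (h : Tst V) (x : ℝ) : sm h x = (V x : ℂ) := rfl

theorem uu_eq {V : ℝ → ℝ} (h : Tst V) (ξ : ℝ) : uu V ξ = (𝓕 (sm h)) ξ := rfl

theorem uu_int (V : ℝ → ℝ) (ξ : ℝ) : uu V ξ = ∫ x : ℝ, cexp (-(2 * Real.pi * I * x * ξ)) * (V x : ℂ) := by
  rw [uu, Real.fourier_eq']
  refine integral_congr_ae (Eventually.of_forall fun x => ?_)
  simp only [RCLike.inner_apply, conj_trivial, smul_eq_mul]
  congr 2
  push_cast
  ring

theorem uu_cont {V : ℝ → ℝ} (h : Tst V) : Continuous (uu V) := (𝓕 (sm h)).continuous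

theorem uu_mom {V : ℝ → ℝ} (h : Tst V) (n : ℕ) : Integrable (fun ξ : ℝ => (1 + |ξ|) ^ n * ‖uu V ξ‖) := by
  have h1 : ∀ m : ℕ, Integrable (fun ξ : ℝ => |ξ| ^ m * ‖uu V ξ‖) := by
    intro m
    have := (𝓕 (sm h)).integrable_pow_mul volume m
    simpa [uu_eq h] using this
  have h2 : (fun ξ : ℝ => (1 + |ξ|) ^ n * ‖uu V ξ‖) =
      fun ξ => ∑ m ∈ Finset.range (n + 1), (n.choose m : ℝ) * (|ξ| ^ (n - m) * ‖uu V ξ‖) := by
    funext ξ
    rw [add_pow, Finset.sum_mul]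
    refine Finset.sum_congr rfl fun m _ => ?_
    rw [one_pow, one_mul]
    ring
  rw [h2]
  exact integrable_finsetSum _ fun m _ => (h1 (n - m)).const_mul _

theorem uu_ker {V : ℝ → ℝ} (h : Tst V) : Ker (fun ξ => ‖uu V ξ‖) :=
  ⟨(uu_cont h).norm, fun _ => norm_nonneg _, uu_mom h⟩

theorem uu_ker2 {V : ℝ → ℝ} (h : Tst V) : Ker (fun ξ => ‖uu V ξ‖ * (1 + ξ ^ 2)) := by
  refine ⟨(uu_cont h).norm.mul (by fun_prop), fun ξ => by positivity, fun n => ?_⟩
  refine (uu_mom h (n + 2)).mono' ?_ (Eventually.of_forall fun ξ => ?_)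
  · exact (Continuous.mul (by fun_prop) ((uu_cont h).norm.mul (by fun_prop))).aestronglyMeasurable
  · rw [Real.norm_of_nonneg (by positivity), pow_add]
    have h1 : 1 + ξ ^ 2 ≤ (1 + |ξ|) ^ 2 := by
      have := sq_abs ξ
      nlinarith [abs_nonneg ξ]
    calc (1 + |ξ|) ^ n * (‖uu V ξ‖ * (1 + ξ ^ 2)) = (1 + |ξ|) ^ n * (1 + ξ ^ 2) * ‖uu V ξ‖ := by ring
      _ ≤ (1 + |ξ|) ^ n * (1 + |ξ|) ^ 2 * ‖uu V ξ‖ := by gcongr

theorem uu_integrable {V : ℝ → ℝ} (h : Tst V) : Integrable (uu V) := (𝓕 (sm h)).integrable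

theorem uu_inv {V : ℝ → ℝ} (h : Tst V) (x : ℝ) :
    ∫ ξ : ℝ, uu V ξ * cexp (2 * Real.pi * I * x * ξ) = V x := by
  have h1 : (𝓕⁻ (𝓕 (sm h))) x = sm h x := by
    rw [FourierTransform.fourierInv_fourier_eq]
  rw [sm_coe] at h1
  rw [← h1, SchwartzMap.fourierInv_coe, Real.fourierInv_eq']
  refine integral_congr_ae (Eventually.of_forall fun ξ => ?_)
  simp only [RCLike.inner_apply, conj_trivial, smul_eq_mul]
  rw [uu_eq h, mul_comm]
  congr 2
  push_cast
  ring

theorem uu_conj (V : ℝ → ℝ) (ξ : ℝ) : (starRingEnd ℂ) (uu V ξ) = uu V (-ξ) := by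
  rw [uu_int, uu_int, ← integral_conj]
  refine integral_congr_ae (Eventually.of_forall fun x => ?_)
  simp only
  rw [map_mul, conj_ofReal, ← Complex.exp_conj]
  congr 2
  simp [Complex.conj_ofNat]

theorem tst_sq {V : ℝ → ℝ} (h : Tst V) : Tst (fun x => V x ^ 2) := by
  refine ⟨h.smooth.pow 2, ?_⟩
  exact h.cpt.comp_left (g := fun x : ℝ => x ^ 2) (by simp)

theorem tst_refl {V : ℝ → ℝ} (h : Tst V) (a : ℝ) : Tst (fun x => V (a - x)) := by
  refine ⟨h.smooth.comp (by fun_prop), ?_⟩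
  have := h.cpt.comp_homeomorph (Homeomorph.subLeft a)
  exact this

theorem tst_scale {V : ℝ → ℝ} (h : Tst V) {M : ℝ} (hM : 0 < M) : Tst (fun x => V (x / M)) := by
  refine ⟨h.smooth.comp (by fun_prop), ?_⟩
  have := h.cpt.comp_homeomorph (Homeomorph.mulRight₀ M⁻¹ (inv_ne_zero hM.ne'))
  simpa [div_eq_mul_inv, Function.comp_def] using this

theorem uu_refl (V : ℝ → ℝ) (a ξ : ℝ) :
    uu (fun x => V (a - x)) ξ = cexp (-(2 * Real.pi * I * a * ξ)) * (starRingEnd ℂ) (uu V ξ) := by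
  rw [uu_conj, uu_int, uu_int, ← integral_const_mul]
  rw [← integral_sub_left_eq_self _ _ a]
  refine integral_congr_ae (Eventually.of_forall fun x => ?_)
  simp only
  rw [← mul_assoc, ← Complex.exp_add, sub_sub_cancel]
  congr 2
  push_cast
  ring

theorem uu_scale (V : ℝ → ℝ) {M : ℝ} (hM : 0 < M) (ξ : ℝ) : uu (fun x => V (x / M)) ξ = M * uu V (M * ξ) := by
  rw [uu_int, uu_int]
  have h1 := MeasureTheory.Measure.integral_comp_div (fun y : ℝ => cexp (-(2 * Real.pi * I * y * ((M * ξ : ℝ) : ℂ))) * (V y : ℂ)) M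
  rw [abs_of_pos hM] at h1
  rw [show ((M : ℂ) * ∫ x : ℝ, cexp (-(2 * Real.pi * I * x * ((M * ξ : ℝ) : ℂ))) * (V x : ℂ)) =
    M • ∫ x : ℝ, cexp (-(2 * Real.pi * I * x * ((M * ξ : ℝ) : ℂ))) * (V x : ℂ) by rw [real_smul], ← h1]
  refine integral_congr_ae (Eventually.of_forall fun x => ?_)
  simp only
  congr 2
  push_cast
  have : (M : ℂ) ≠ 0 := by exact_mod_cast hM.ne'
  field_simp

theorem uu_sq {V : ℝ → ℝ} (h : Tst V) (η : ℝ) :
    uu (fun x => V x ^ 2) η = ∫ ξ, uu V ξ * uu V (η - ξ) := by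
  have hVi : Integrable (fun x : ℝ => (V x : ℂ)) := (sm h).integrable
  -- Fubini
  have hF : Integrable (Function.uncurry fun (ξ x : ℝ) =>
      uu V ξ * (cexp (-(2 * Real.pi * I * x * (η - ξ))) * (V x : ℂ))) (volume.prod volume) := by
    have h1 : Integrable (fun p : ℝ × ℝ => uu V p.1 * (V p.2 : ℂ)) (volume.prod volume) :=
      (uu_integrable h).mul_prod hVi
    refine h1.mono ?_ (Eventually.of_forall fun p => ?_)
    · have hV : Continuous V := h.smooth.continuous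
      have hu := uu_cont h
      apply Continuous.aestronglyMeasurable
      simp only [Function.uncurry_def]
      fun_prop
    · simp only [Function.uncurry_def, norm_mul]
      have : ‖cexp (-(2 * Real.pi * I * p.2 * (η - p.1)))‖ = 1 := by
        rw [show -(2 * Real.pi * I * (p.2 : ℂ) * (η - p.1)) = ((-(2 * Real.pi * p.2 * (η - p.1)) : ℝ) : ℂ) * I by
          push_cast; ring]
        exact Complex.norm_exp_ofReal_mul_I _
      rw [this, one_mul]
  have h2 : ∀ ξ : ℝ, uu V ξ * uu V (η - ξ) =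
      ∫ x : ℝ, uu V ξ * (cexp (-(2 * Real.pi * I * x * (η - ξ))) * (V x : ℂ)) := by
    intro ξ
    rw [integral_const_mul, uu_int V (η - ξ)]
    push_cast
    rfl
  rw [integral_congr_ae (Eventually.of_forall h2), integral_integral_swap hF, uu_int]
  refine integral_congr_ae (Eventually.of_forall fun x => ?_)
  simp only
  have h3 : ∀ ξ : ℝ, uu V ξ * (cexp (-(2 * Real.pi * I * x * (η - ξ))) * (V x : ℂ)) =
      (cexp (-(2 * Real.pi * I * x * η)) * (V x : ℂ)) * (uu V ξ * cexp (2 * Real.pi * I * x * ξ)) := by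
    intro ξ
    have : cexp (-(2 * Real.pi * I * x * (η - ξ))) =
        cexp (-(2 * Real.pi * I * x * η)) * cexp (2 * Real.pi * I * x * ξ) := by
      rw [← Complex.exp_add]
      congr 1
      ring
    rw [this]
    ring
  rw [integral_congr_ae (Eventually.of_forall h3), integral_const_mul, uu_inv h]
  push_cast
  ring

theorem t_F : S_F := by
  intro V h
  exact ⟨uu_cont h, uu_ker h, uu_ker2 h, uu_inv h, uu_conj V, tst_sq h, uu_sq h,
    fun a => ⟨tst_refl h a, uu_refl V a⟩, fun M hM => ⟨tst_scale h hM, uu_scale V hM⟩⟩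

end Pool.Agent.J6H39.CG
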