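import Pool.Agent.J6H39.CG.Stm
import Pool.Agent.HopfPinch.AnS1

/-! # Project CG, module D1: the exact formula for the Dirichlet polynomial minus the multiplier -/

set_option autoImplicit false

open MeasureTheory Set Filter Topology Complex
open scoped FourierTransform ContDiff

namespace Pool.Agent.J6H39.CG

open Pool.Agent.J6H39.KV (dv dv_series pow_laplace norm_le_strip)

namespace D1

/-! ### the principal part of `ζ(s)^k` at `1` -/

/-- the iterated divided differences of `((s-1) ζ(s))^k` at `1` -/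
noncomputable def dk (k : ℕ) : ℕ → ℂ → ℂ
  | 0 => fun s => riemannZeta₁ s ^ k
  | j + 1 => dslope (dk k j) 1

theorem dk_diff (k j : ℕ) : Differentiable ℂ (dk k j) := by
  induction j with
  | zero => exact differentiable_riemannZeta₁.pow k
  | succ j ih =>
    rw [dk, ← differentiableOn_univ]
    exact (Complex.differentiableOn_dslope univ_mem).2 ih.differentiableOn

theorem dk_step (k j : ℕ) (s : ℂ) : dk k j s = dk k j 1 + (s - 1) * dk k (j + 1) s := by
  have h := sub_smul_dslope (dk k j) 1 s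
  rw [smul_eq_mul] at h
  rw [dk, h]
  ring

theorem dk_sum (k m : ℕ) (s : ℂ) :
    riemannZeta₁ s ^ k = ∑ j ∈ Finset.range m, dk k j 1 * (s - 1) ^ j + (s - 1) ^ m * dk k m s := by
  induction m with
  | zero => simp [dk]
  | succ m ih =>
    rw [ih, Finset.sum_range_succ, dk_step k m s]
    ring

/-- the regular part -/
noncomputable def Er (k : ℕ) (s : ℂ) : ℂ := dk k k s

/-- the coefficients of the principal part -/
noncomputable def cp (k p : ℕ) : ℂ := dk k (k - 1 - p) 1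

/-- the principal part -/
noncomputable def Pp (k : ℕ) (s : ℂ) : ℂ := ∑ p ∈ Finset.range k, cp k p * (1 / (s - 1) ^ (p + 1))

theorem Er_diff (k : ℕ) : Differentiable ℂ (Er k) := dk_diff k k

theorem decomp (k : ℕ) {s : ℂ} (h1 : s ≠ 1) : riemannZeta s ^ k = Pp k s + Er k s := by
  have hs1 : s - 1 ≠ 0 := sub_ne_zero.2 h1
  have h2 : riemannZeta s ^ k = riemannZeta₁ s ^ k / (s - 1) ^ k := by
    rw [riemannZeta_eq_inv_sub_mul h1, mul_pow, inv_pow]
    field_simp
  rw [h2, dk_sum k k s, add_div]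
  congr 1
  · rw [Pp, Finset.sum_div, ← Finset.sum_range_reflect]
    refine Finset.sum_congr rfl fun p hp => ?_
    rw [Finset.mem_range] at hp
    unfold cp
    have e : (s - 1) ^ k = (s - 1) ^ (k - 1 - p) * (s - 1) ^ (p + 1) := by
      rw [← pow_add]
      congr 1
      omega
    rw [e]
    field_simp
  · unfold Er
    field_simp

/-- the regular part grows at most like a power in the strip -/
theorem Er_growth (k : ℕ) : ∃ C : ℝ, 0 ≤ C ∧ ∀ s : ℂ, 1 / 2 ≤ s.re → s.re ≤ 3 →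
    ‖Er k s‖ ≤ C * (5 + |s.im|) ^ (2 * k) := by
  have hcomp : IsCompact (Icc (1 / 2 : ℝ) 3 ×ℂ Icc (-1 : ℝ) 1) := isCompact_Icc.reProdIm isCompact_Icc
  obtain ⟨C2, hC2⟩ := hcomp.exists_bound_of_continuousOn (f := Er k) (Er_diff k).continuous.continuousOn
  refine ⟨3 ^ k + ∑ p ∈ Finset.range k, ‖cp k p‖ + |C2|, by positivity, fun s h1 h2 => ?_⟩
  have e4 : (1 : ℝ) ≤ (5 + |s.im|) ^ (2 * k) := one_le_pow₀ (by have := abs_nonneg s.im; linarith)
  rcases le_or_gt 1 |s.im| with h3 | h3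
  · have hs1 : s ≠ 1 := by
      rintro rfl
      simp at h3
      linarith
    have n2 : 1 ≤ ‖s - 1‖ := by
      have := Complex.abs_im_le_norm (s - 1)
      simp only [sub_im, one_im, sub_zero] at this
      exact h3.trans this
    have n3 : ‖s‖ ≤ 4 + |s.im| := by
      refine (Complex.norm_le_abs_re_add_abs_im s).trans ?_
      rw [abs_of_nonneg (by linarith)]
      linarith
    have e1 : Er k s = riemannZeta s ^ k - Pp k s := by rw [decomp k hs1]; ring
    have e2 : ‖riemannZeta s ^ k‖ ≤ 3 ^ k * (5 + |s.im|) ^ (2 * k) := by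
      rw [norm_pow, riemannZeta_eq_inv_sub_mul hs1, norm_mul, norm_inv]
      have h4 : ‖s - 1‖⁻¹ * ‖riemannZeta₁ s‖ ≤ 3 * (5 + |s.im|) ^ 2 := by
        calc ‖s - 1‖⁻¹ * ‖riemannZeta₁ s‖ ≤ 1 * (3 * (‖s‖ + 1) ^ 2) := by
              refine mul_le_mul (inv_le_one_of_one_le₀ n2) (Pool.Agent.H437R2.z1_norm_le h1) (norm_nonneg _)
                zero_le_one
          _ ≤ 3 * (5 + |s.im|) ^ 2 := by
              rw [one_mul]
              have h5 : ‖s‖ + 1 ≤ 5 + |s.im| := by linarith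
              gcongr
      calc (‖s - 1‖⁻¹ * ‖riemannZeta₁ s‖) ^ k ≤ (3 * (5 + |s.im|) ^ 2) ^ k := by gcongr
        _ = _ := by rw [mul_pow, ← pow_mul]
    have e3 : ‖Pp k s‖ ≤ ∑ p ∈ Finset.range k, ‖cp k p‖ := by
      unfold Pp
      refine (norm_sum_le _ _).trans (Finset.sum_le_sum fun p _ => ?_)
      rw [norm_mul, norm_div, norm_pow, norm_one, mul_one_div]
      exact div_le_self (norm_nonneg _) (one_le_pow₀ n2)
    rw [e1]
    refine (norm_sub_le _ _).trans ?_
    rw [add_mul, add_mul]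
    have e5 : ∑ p ∈ Finset.range k, ‖cp k p‖ ≤ (∑ p ∈ Finset.range k, ‖cp k p‖) * (5 + |s.im|) ^ (2 * k) :=
      le_mul_of_one_le_right (Finset.sum_nonneg fun _ _ => norm_nonneg _) e4
    have e6 : 0 ≤ |C2| * (5 + |s.im|) ^ (2 * k) := by positivity
    linarith
  · have hmem : s ∈ (Icc (1 / 2 : ℝ) 3 ×ℂ Icc (-1 : ℝ) 1) := by
      rw [Complex.mem_reProdIm]
      exact ⟨⟨h1, h2⟩, ⟨by linarith [(abs_lt.1 h3).1], by linarith [(abs_lt.1 h3).2]⟩⟩
    have e5 := hC2 s hmem
    have e6 : (0 : ℝ) ≤ 3 ^ k + ∑ p ∈ Finset.range k, ‖cp k p‖ := by positivity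
    calc ‖Er k s‖ ≤ |C2| := e5.trans (le_abs_self _)
      _ ≤ (3 ^ k + ∑ p ∈ Finset.range k, ‖cp k p‖ + |C2|) * 1 := by linarith
      _ ≤ _ := by gcongr

/-! ### the multiplier and Laplace transforms -/

section lap

variable {V : ℝ → ℝ}

theorem lap (hi : Integrable (uu V))
    (hinv : ∀ x : ℝ, ∫ ξ : ℝ, uu V ξ * cexp (2 * Real.pi * I * x * ξ) = V x) (T ε : ℝ) {r : ℂ}
    (hr : 0 < r.re) (p : ℕ) :
    Integrable (fun ξ : ℝ => uu V ξ * (1 / (r - ε * (I * hh T * ξ)) ^ (p + 1))) ∧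
    ∫ ξ : ℝ, uu V ξ * (1 / (r - ε * (I * hh T * ξ)) ^ (p + 1)) =
      (1 / (p.factorial : ℂ)) *
        ∫ x in Ioi (0 : ℝ), (x : ℂ) ^ p * cexp (-(r * x)) * (V (ε * x / Real.log T) : ℂ) := by
  have hpf : (p.factorial : ℂ) ≠ 0 := by exact_mod_cast p.factorial_ne_zero
  have hre : ∀ ξ : ℝ, (r - ε * (I * hh T * ξ)).re = r.re := by
    intro ξ
    simp
  have h1 : ∀ ξ : ℝ, uu V ξ * (1 / (r - ε * (I * hh T * ξ)) ^ (p + 1)) = (1 / (p.factorial : ℂ)) *
      ∫ x in Ioi (0 : ℝ), uu V ξ * ((x : ℂ) ^ p * cexp (-(r * x))) * cexp (ε * (I * hh T * ξ) * x) := by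
    intro ξ
    have h2 := (pow_laplace p (r := r - ε * (I * hh T * ξ)) (by rw [hre]; exact hr)).2
    have h3 : ∫ x in Ioi (0 : ℝ), uu V ξ * ((x : ℂ) ^ p * cexp (-(r * x))) * cexp (ε * (I * hh T * ξ) * x) =
        uu V ξ * ∫ x in Ioi (0 : ℝ), (x : ℂ) ^ p * cexp (-((r - ε * (I * hh T * ξ)) * x)) := by
      rw [← integral_const_mul]
      refine setIntegral_congr_fun measurableSet_Ioi fun x _ => ?_
      have : cexp (-((r - ε * (I * hh T * ξ)) * x)) = cexp (-(r * x)) * cexp (ε * (I * hh T * ξ) * x) := by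
        rw [← Complex.exp_add]
        congr 1
        ring
      rw [this]
      ring
    rw [h3, h2]
    field_simp
  have hg := (pow_laplace p hr).1
  have hprod : Integrable (fun z : ℝ × ℝ => uu V z.1 * ((z.2 : ℂ) ^ p * cexp (-(r * z.2))) *
      cexp (ε * (I * hh T * z.1) * z.2)) (volume.prod (volume.restrict (Ioi 0))) := by
    have h4 := hi.mul_prod hg
    refine h4.mono (h4.aestronglyMeasurable.mul (Continuous.aestronglyMeasurable (by fun_prop))) ?_
    refine Eventually.of_forall fun z => ?_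
    rw [norm_mul]
    have h5 : ‖cexp (ε * (I * hh T * z.1) * z.2)‖ = 1 := by
      rw [Complex.norm_exp]
      have : (ε * (I * hh T * z.1) * z.2 : ℂ).re = 0 := by simp
      rw [this, Real.exp_zero]
    rw [h5, mul_one]
  constructor
  · simp_rw [h1]
    exact hprod.integral_prod_left.const_mul _
  · simp_rw [h1]
    rw [integral_const_mul]
    congr 1
    rw [integral_integral_swap hprod]
    refine setIntegral_congr_fun measurableSet_Ioi fun x _ => ?_
    have h6 : ∀ ξ : ℝ, uu V ξ * ((x : ℂ) ^ p * cexp (-(r * x))) * cexp (ε * (I * hh T * ξ) * x) =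
        ((x : ℂ) ^ p * cexp (-(r * x))) * (uu V ξ * cexp (2 * Real.pi * I * (ε * x / Real.log T : ℝ) * ξ)) := by
      intro ξ
      have : (ε * (I * hh T * ξ) * x : ℂ) = 2 * Real.pi * I * (ε * x / Real.log T : ℝ) * ξ := by
        unfold hh
        push_cast
        ring
      rw [this]
      ring
    simp only [h6]
    rw [integral_const_mul, hinv]

/-- the Dirichlet polynomial as a function of `s` -/
noncomputable def Dd (k : ℕ) (V : ℝ → ℝ) (T : ℝ) (s : ℂ) : ℂ :=
  ∑' n : ℕ, (dv k n : ℂ) * (n : ℂ) ^ (-s) * (V (Real.log n / Real.log T) : ℂ)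

theorem dv_zero (k : ℕ) : dv k 0 = 0 := by
  unfold dv
  exact ArithmeticFunction.map_zero

theorem norm_osc (y ξ : ℝ) : ‖cexp (2 * Real.pi * I * y * ξ)‖ = 1 := by
  rw [Complex.norm_exp]
  have : (2 * Real.pi * I * y * ξ : ℂ).re = 0 := by simp
  rw [this, Real.exp_zero]

/-- the Dirichlet series side -/
theorem series_side (hi : Integrable (uu V))
    (hinv : ∀ x : ℝ, ∫ ξ : ℝ, uu V ξ * cexp (2 * Real.pi * I * x * ξ) = V x) (T : ℝ) (k : ℕ) {s : ℂ}
    (hs : 1 < s.re) :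
    ∫ ξ : ℝ, uu V ξ * riemannZeta (s - I * hh T * ξ) ^ k = Dd k V T s := by
  obtain ⟨a, ha⟩ : ∃ a : ℕ → ℂ, a = fun n => LSeries.term (fun n => (dv k n : ℂ)) s n := ⟨_, rfl⟩
  have hsum : Summable a := by rw [ha]; exact (dv_series k hs).1
  have ha0 : ∀ n : ℕ, a n = (dv k n : ℂ) * (n : ℂ) ^ (-s) := by
    intro n
    rw [ha]
    rcases eq_or_ne n 0 with rfl | hn
    · simp [dv_zero]
    · simp only
      rw [LSeries.term_of_ne_zero hn, Complex.cpow_neg, div_eq_mul_inv]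
  have hz : ∀ ξ : ℝ, riemannZeta (s - I * hh T * ξ) ^ k =
      ∑' n : ℕ, a n * cexp (2 * Real.pi * I * (Real.log n / Real.log T : ℝ) * ξ) := by
    intro ξ
    have hs' : 1 < (s - I * hh T * ξ).re := by simpa using hs
    rw [← (dv_series k hs').2, LSeries]
    refine tsum_congr fun n => ?_
    rcases eq_or_ne n 0 with rfl | hn
    · rw [ha]
      simp
    · rw [LSeries.term_of_ne_zero hn, ha0]
      have hn0 : (n : ℂ) ≠ 0 := by exact_mod_cast hn
      have e1 : -(s - I * hh T * ξ) = -s + I * hh T * ξ := by ring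
      rw [div_eq_mul_inv, ← Complex.cpow_neg, e1, Complex.cpow_add _ _ hn0, ← mul_assoc]
      congr 1
      rw [Complex.cpow_def_of_ne_zero hn0, ← Complex.natCast_log]
      congr 1
      unfold hh
      push_cast
      ring
  simp_rw [hz, ← tsum_mul_left]
  have hFi : ∀ n : ℕ, Integrable (fun ξ : ℝ => uu V ξ * (a n *
      cexp (2 * Real.pi * I * (Real.log n / Real.log T : ℝ) * ξ))) := by
    intro n
    refine (hi.mul_const (a n)).mono (hi.aestronglyMeasurable.mul
      (Continuous.aestronglyMeasurable (by fun_prop))) (Eventually.of_forall fun ξ => ?_)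
    rw [norm_mul, norm_mul, norm_mul, norm_osc, mul_one]
  have hFn : ∀ n : ℕ, ∫ ξ : ℝ, ‖uu V ξ * (a n *
      cexp (2 * Real.pi * I * (Real.log n / Real.log T : ℝ) * ξ))‖ = (∫ ξ, ‖uu V ξ‖) * ‖a n‖ := by
    intro n
    rw [← integral_mul_const]
    refine integral_congr_ae (Eventually.of_forall fun ξ => ?_)
    simp only
    rw [norm_mul, norm_mul, norm_osc, mul_one]
  have h1 := hasSum_integral_of_summable_integral_norm hFi (by
    simp_rw [hFn]
    exact hsum.norm.mul_left _)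
  rw [← h1.tsum_eq]
  unfold Dd
  refine tsum_congr fun n => ?_
  rw [← ha0]
  have h2 : ∀ ξ : ℝ, uu V ξ * (a n * cexp (2 * Real.pi * I * (Real.log n / Real.log T : ℝ) * ξ)) =
      a n * (uu V ξ * cexp (2 * Real.pi * I * (Real.log n / Real.log T : ℝ) * ξ)) := by
    intro ξ
    ring
  simp_rw [h2]
  rw [integral_const_mul, hinv]

theorem Dd_diff (hV : HasCompactSupport V) (k : ℕ) {T : ℝ} (hT : 0 < Real.log T) :
    Differentiable ℂ (Dd k V T) := by
  obtain ⟨A, hA⟩ := hV.isCompact.isBounded.exists_norm_le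
  have hA' : ∀ x : ℝ, A < x → V x = 0 := by
    intro x hx
    by_contra hne
    have := hA x (subset_tsupport _ hne)
    rw [Real.norm_eq_abs] at this
    linarith [le_abs_self x]
  obtain ⟨N, hN⟩ := exists_nat_gt (Real.exp ((|A| + 1) * Real.log T))
  have hD : Dd k V T = fun s => ∑ n ∈ Finset.range N,
      (dv k n : ℂ) * (n : ℂ) ^ (-s) * (V (Real.log n / Real.log T) : ℂ) := by
    funext s
    unfold Dd
    refine tsum_eq_sum fun n hn => ?_
    rw [Finset.mem_range, not_lt] at hn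
    have h1 : Real.exp ((|A| + 1) * Real.log T) < n := hN.trans_le (by exact_mod_cast hn)
    have h2 : (|A| + 1) * Real.log T < Real.log n := by
      rw [Real.lt_log_iff_exp_lt ((Real.exp_pos _).trans h1)]
      exact h1
    have h3 : A < Real.log n / Real.log T := by
      rw [lt_div_iff₀ hT]
      have : A * Real.log T ≤ |A| * Real.log T := mul_le_mul_of_nonneg_right (le_abs_self _) hT.le
      linarith
    rw [hA' _ h3]
    simp
  rw [hD]
  refine Differentiable.fun_sum fun n _ => ?_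
  rcases eq_or_ne n 0 with rfl | hn
  · simp [dv_zero]
  · have hn0 : (n : ℂ) ≠ 0 := by exact_mod_cast hn
    have h1 : Differentiable ℂ (fun s : ℂ => (n : ℂ) ^ (-s)) := by
      intro s
      exact (differentiableAt_id.neg).const_cpow (Or.inl hn0)
    exact (h1.const_mul _).mul_const _

/-- the box -/
def Bx (R : ℝ) : Set ℂ := {s : ℂ | 1 / 2 < s.re ∧ s.re < 3 ∧ |s.im| < R}

theorem Bx_open (R : ℝ) : IsOpen (Bx R) := by
  have h1 : IsOpen {s : ℂ | 1 / 2 < s.re} := isOpen_lt continuous_const Complex.continuous_re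
  have h2 : IsOpen {s : ℂ | s.re < 3} := isOpen_lt Complex.continuous_re continuous_const
  have h3 : IsOpen {s : ℂ | |s.im| < R} := isOpen_lt Complex.continuous_im.abs continuous_const
  exact h1.inter (h2.inter h3)

theorem Bx_conn (R : ℝ) : IsPreconnected (Bx R) := by
  have h1 : Convex ℝ (Bx R) := by
    have e : Bx R = {s : ℂ | 1 / 2 < s.re} ∩ ({s : ℂ | s.re < 3} ∩ ({s : ℂ | -R < s.im} ∩ {s : ℂ | s.im < R})) := by
      ext s
      constructor
      · rintro ⟨h1, h2, h3⟩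
        exact ⟨h1, h2, (abs_lt.1 h3).1, (abs_lt.1 h3).2⟩
      · rintro ⟨h1, h2, h3, h4⟩
        exact ⟨h1, h2, abs_lt.2 ⟨h3, h4⟩⟩
    rw [e]
    exact (convex_halfSpace_re_gt _).inter ((convex_halfSpace_re_lt _).inter
      ((convex_halfSpace_im_gt _).inter (convex_halfSpace_im_lt _)))
  exact h1.isPreconnected

/-- the regular part of the multiplier -/
noncomputable def Hr (k : ℕ) (V : ℝ → ℝ) (T : ℝ) (s : ℂ) : ℂ := ∫ ξ : ℝ, uu V ξ * Er k (s - I * hh T * ξ)

theorem Hr_dom (hk : Ker (fun ξ => ‖uu V ξ‖)) (k : ℕ) {T : ℝ} (hT : Real.exp 7 ≤ T) (R : ℝ) (hR : 0 ≤ R) :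
    ∃ b : ℝ → ℝ, Integrable b ∧ ∀ ξ : ℝ, ∀ s : ℂ, 1 / 2 ≤ s.re → s.re ≤ 3 → |s.im| ≤ R →
      ‖uu V ξ * Er k (s - I * hh T * ξ)‖ ≤ b ξ := by
  obtain ⟨C, hC, hg⟩ := Er_growth k
  refine ⟨fun ξ => C * (5 + R) ^ (2 * k) * ((1 + |ξ|) ^ (2 * k) * ‖uu V ξ‖), (hk.mom (2 * k)).const_mul _, ?_⟩
  intro ξ s h1 h2 h3
  have hT0 : 0 < T := (Real.exp_pos _).trans_le hT
  have hL : 7 ≤ Real.log T := by rw [Real.le_log_iff_exp_le hT0]; exact hT
  have hh0 : 0 ≤ hh T := by unfold hh; have := Real.pi_pos; positivity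
  have hh1 : hh T ≤ 1 := by
    unfold hh
    rw [div_le_one (by linarith)]
    have := Real.pi_lt_d2
    linarith
  have e1 : (s - I * hh T * ξ).re = s.re := by simp
  have e2 : (s - I * hh T * ξ).im = s.im - hh T * ξ := by simp
  have h4 := hg (s - I * hh T * ξ) (by rw [e1]; exact h1) (by rw [e1]; exact h2)
  rw [e2] at h4
  have h5 : |s.im - hh T * ξ| ≤ R + |ξ| := by
    refine (abs_sub _ _).trans ?_
    rw [abs_mul, abs_of_nonneg hh0]
    have := mul_le_mul_of_nonneg_right hh1 (abs_nonneg ξ)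
    linarith
  have h6 : 5 + |s.im - hh T * ξ| ≤ (5 + R) * (1 + |ξ|) := by
    have := abs_nonneg ξ
    nlinarith
  rw [norm_mul]
  calc ‖uu V ξ‖ * ‖Er k (s - I * hh T * ξ)‖ ≤ ‖uu V ξ‖ * (C * ((5 + R) * (1 + |ξ|)) ^ (2 * k)) := by
        refine mul_le_mul_of_nonneg_left (h4.trans ?_) (norm_nonneg _)
        refine mul_le_mul_of_nonneg_left ?_ hC
        exact pow_le_pow_left₀ (by positivity) h6 _
    _ = _ := by rw [mul_pow]; ring

theorem Hr_meas (hc : Continuous (uu V)) (k : ℕ) (T : ℝ) (s : ℂ) :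
    AEStronglyMeasurable (fun ξ : ℝ => uu V ξ * Er k (s - I * hh T * ξ)) := by
  have h1 := (Er_diff k).continuous
  exact (hc.mul (h1.comp (by fun_prop))).aestronglyMeasurable

/-- the Laplace transform of the principal part -/
noncomputable def Gp (k : ℕ) (V : ℝ → ℝ) (T : ℝ) (s : ℂ) : ℂ :=
  ∑ p ∈ Finset.range k, cp k p * ((1 / (p.factorial : ℂ)) *
    ∫ x in Ioi (0 : ℝ), (x : ℂ) ^ p * cexp (-((s - 1) * x)) * (V (x / Real.log T) : ℂ))

theorem V_supp (hV : HasCompactSupport V) : ∃ A : ℝ, 0 ≤ A ∧ ∀ x : ℝ, A < |x| → V x = 0 := by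
  obtain ⟨A, hA⟩ := hV.isCompact.isBounded.exists_norm_le
  refine ⟨|A|, abs_nonneg _, fun x hx => ?_⟩
  by_contra hne
  have := hA x (subset_tsupport _ hne)
  rw [Real.norm_eq_abs] at this
  linarith [le_abs_self A]

theorem dom_int (hVc : Continuous V) (hV : HasCompactSupport V) {T : ℝ} (hT : 0 < Real.log T) (p : ℕ) (R : ℝ) :
    Integrable (fun x : ℝ => |x| ^ p * Real.exp (R * |x|) * |V (x / Real.log T)|) := by
  obtain ⟨A, hA, hA'⟩ := V_supp hV
  refine Continuous.integrable_of_hasCompactSupport (by fun_prop) ?_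
  refine HasCompactSupport.intro (isCompact_Icc : IsCompact (Icc (-(A * Real.log T)) (A * Real.log T))) ?_
  intro x hx
  have h1 : A < |x / Real.log T| := by
    rw [abs_div, abs_of_pos hT, lt_div_iff₀ hT]
    by_contra hcon
    rw [not_lt, abs_le] at hcon
    exact hx ⟨hcon.1, hcon.2⟩
  rw [hA' _ h1]
  simp

theorem Gp_diff (hVc : Continuous V) (hV : HasCompactSupport V) (k : ℕ) {T : ℝ} (hT : 0 < Real.log T) (R : ℝ) :
    DifferentiableOn ℂ (Gp k V T) (Metric.ball 0 R) := by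
  unfold Gp
  refine DifferentiableOn.fun_sum fun p _ => DifferentiableOn.const_mul (DifferentiableOn.const_mul ?_ _) _
  refine Pool.Agent.HP.differentiableOn_integral (volume.restrict (Ioi (0 : ℝ)))
    (fun x : ℝ => fun s : ℂ => (x : ℂ) ^ p * cexp (-((s - 1) * x)) * (V (x / Real.log T) : ℂ))
    (Metric.ball 0 R) Metric.isOpen_ball ?_ ?_
    (fun x => |x| ^ p * Real.exp ((R + 1) * |x|) * |V (x / Real.log T)|)
    (dom_int hVc hV hT p (R + 1)).integrableOn ?_
  · intro s _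
    exact Continuous.aestronglyMeasurable (by fun_prop)
  · intro x
    exact Differentiable.differentiableOn (by fun_prop)
  · intro x s hs
    rw [mem_ball_zero_iff] at hs
    rw [norm_mul, norm_mul, norm_pow, Complex.norm_real, Complex.norm_real, Real.norm_eq_abs, Real.norm_eq_abs,
      Complex.norm_exp]
    have h1 : (-((s - 1) * x)).re ≤ (R + 1) * |x| := by
      refine (Complex.re_le_norm _).trans ?_
      rw [norm_neg, norm_mul, Complex.norm_real, Real.norm_eq_abs]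
      refine mul_le_mul_of_nonneg_right ?_ (abs_nonneg _)
      refine (norm_sub_le _ _).trans ?_
      rw [norm_one]
      linarith
    gcongr

theorem Hr_diff (hc : Continuous (uu V)) (hk : Ker (fun ξ => ‖uu V ξ‖)) (k : ℕ) {T : ℝ}
    (hT : Real.exp 7 ≤ T) {R : ℝ} (hR : 0 ≤ R) : DifferentiableOn ℂ (Hr k V T) (Bx R) := by
  obtain ⟨b, hb, hle⟩ := Hr_dom hk k hT R hR
  unfold Hr
  refine Pool.Agent.HP.differentiableOn_integral volume
    (fun ξ : ℝ => fun s : ℂ => uu V ξ * Er k (s - I * hh T * ξ)) (Bx R) (Bx_open R) ?_ ?_ b hb ?_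
  · intro s _
    exact Hr_meas hc k T s
  · intro ξ
    have h1 : Differentiable ℂ (fun s : ℂ => Er k (s - I * hh T * ξ)) :=
      (Er_diff k).comp (by fun_prop)
    exact (h1.const_mul _).differentiableOn
  · intro ξ s hs
    exact hle ξ s hs.1.le hs.2.1.le hs.2.2.le

theorem Er_int (hc : Continuous (uu V)) (hk : Ker (fun ξ => ‖uu V ξ‖)) (k : ℕ) {T : ℝ}
    (hT : Real.exp 7 ≤ T) {s : ℂ} (h1 : 1 / 2 ≤ s.re) (h2 : s.re ≤ 3) :
    Integrable (fun ξ : ℝ => uu V ξ * Er k (s - I * hh T * ξ)) := by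
  obtain ⟨b, hb, hle⟩ := Hr_dom hk k hT |s.im| (abs_nonneg _)
  exact hb.mono' (Hr_meas hc k T s) (Eventually.of_forall fun ξ => hle ξ s h1 h2 le_rfl)

theorem split (hc : Continuous (uu V)) (hk : Ker (fun ξ => ‖uu V ξ‖)) (k : ℕ) {T : ℝ}
    (hT : Real.exp 7 ≤ T) {s : ℂ} (h1 : 1 / 2 ≤ s.re) (h2 : s.re ≤ 3) (h3 : s.re ≠ 1)
    (hint : ∀ p : ℕ, Integrable (fun ξ : ℝ => uu V ξ * (1 / (s - I * hh T * ξ - 1) ^ (p + 1)))) :
    ∫ ξ : ℝ, uu V ξ * riemannZeta (s - I * hh T * ξ) ^ k =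
      ∑ p ∈ Finset.range k, cp k p * (∫ ξ : ℝ, uu V ξ * (1 / (s - I * hh T * ξ - 1) ^ (p + 1))) + Hr k V T s := by
  have e1 : ∀ ξ : ℝ, uu V ξ * riemannZeta (s - I * hh T * ξ) ^ k =
      ∑ p ∈ Finset.range k, cp k p * (uu V ξ * (1 / (s - I * hh T * ξ - 1) ^ (p + 1))) +
        uu V ξ * Er k (s - I * hh T * ξ) := by
    intro ξ
    have hne : s - I * hh T * ξ ≠ 1 := by
      intro h
      have := congrArg Complex.re h
      simp at this
      exact h3 this
    rw [decomp k hne, Pp, mul_add, Finset.mul_sum]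
    congr 1
    refine Finset.sum_congr rfl fun p _ => ?_
    ring
  simp_rw [e1]
  rw [integral_add (integrable_finsetSum _ fun p _ => (hint p).const_mul _) (Er_int hc hk k hT h1 h2),
    integral_finsetSum _ fun p _ => (hint p).const_mul _]
  simp_rw [integral_const_mul]
  rfl

theorem ident_right (hc : Continuous (uu V)) (hk : Ker (fun ξ => ‖uu V ξ‖)) (hi : Integrable (uu V))
    (hinv : ∀ x : ℝ, ∫ ξ : ℝ, uu V ξ * cexp (2 * Real.pi * I * x * ξ) = V x) (k : ℕ) {T : ℝ}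
    (hT : Real.exp 7 ≤ T) {s : ℂ} (h1 : 1 < s.re) (h2 : s.re ≤ 3) :
    Dd k V T s - Gp k V T s = Hr k V T s := by
  have hr : 0 < (s - 1).re := by
    rw [sub_re, one_re]
    linarith
  have hq : ∀ (p : ℕ) (ξ : ℝ), uu V ξ * (1 / (s - I * hh T * ξ - 1) ^ (p + 1)) =
      uu V ξ * (1 / ((s - 1) - (1 : ℝ) * (I * hh T * ξ)) ^ (p + 1)) := by
    intro p ξ
    have : s - I * hh T * ξ - 1 = (s - 1) - (1 : ℝ) * (I * hh T * ξ) := by
      push_cast
      ring
    rw [this]
  rw [← series_side hi hinv T k h1, split hc hk k hT (by linarith) h2 h1.ne' ?_]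
  · have : Gp k V T s = ∑ p ∈ Finset.range k, cp k p *
        (∫ ξ : ℝ, uu V ξ * (1 / (s - I * hh T * ξ - 1) ^ (p + 1))) := by
      unfold Gp
      refine Finset.sum_congr rfl fun p _ => ?_
      simp_rw [hq p]
      rw [(lap hi hinv T 1 hr p).2]
      simp only [one_mul]
    rw [this]
    ring
  · intro p
    simp_rw [hq p]
    exact (lap hi hinv T 1 hr p).1

theorem ident_box (hVc : Continuous V) (hV : HasCompactSupport V) (hc : Continuous (uu V))
    (hk : Ker (fun ξ => ‖uu V ξ‖)) (hi : Integrable (uu V))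
    (hinv : ∀ x : ℝ, ∫ ξ : ℝ, uu V ξ * cexp (2 * Real.pi * I * x * ξ) = V x) (k : ℕ) {T : ℝ}
    (hT : Real.exp 7 ≤ T) {R : ℝ} (hR : 0 < R) :
    EqOn (fun s => Dd k V T s - Gp k V T s) (Hr k V T) (Bx R) := by
  have hT0 : 0 < T := (Real.exp_pos _).trans_le hT
  have hL : 0 < Real.log T := by
    have : 7 ≤ Real.log T := by rw [Real.le_log_iff_exp_le hT0]; exact hT
    linarith
  have hsub : Bx R ⊆ Metric.ball 0 (3 + R) := by
    intro s hs
    rw [mem_ball_zero_iff]
    refine lt_of_le_of_lt (Complex.norm_le_abs_re_add_abs_im s) ?_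
    have h1 : |s.re| < 3 := abs_lt.2 ⟨by linarith [hs.1], hs.2.1⟩
    have h2 := hs.2.2
    linarith
  have a1 : AnalyticOnNhd ℂ (fun s => Dd k V T s - Gp k V T s) (Bx R) :=
    DifferentiableOn.analyticOnNhd ((Dd_diff hV k hL).differentiableOn.sub
      ((Gp_diff hVc hV k hL (3 + R)).mono hsub)) (Bx_open R)
  have a2 : AnalyticOnNhd ℂ (Hr k V T) (Bx R) :=
    DifferentiableOn.analyticOnNhd (Hr_diff hc hk k hT hR.le) (Bx_open R)
  refine a1.eqOn_of_preconnected_of_eventuallyEq a2 (Bx_conn R) (z₀ := 2) ⟨?_, ?_, ?_⟩ ?_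
  · norm_num
  · norm_num
  · simpa using hR
  · have h1 : {s : ℂ | 1 < s.re} ∩ {s : ℂ | s.re < 3} ∈ 𝓝 (2 : ℂ) := by
      refine (IsOpen.inter (isOpen_lt continuous_const Complex.continuous_re)
        (isOpen_lt Complex.continuous_re continuous_const)).mem_nhds ⟨?_, ?_⟩
      · show (1 : ℝ) < (2 : ℂ).re
        norm_num
      · show (2 : ℂ).re < 3
        norm_num
    filter_upwards [h1] with s hs
    exact ident_right hc hk hi hinv k hT hs.1 (le_of_lt hs.2)

theorem ident_edge (hVc : Continuous V) (hV : HasCompactSupport V) (hc : Continuous (uu V))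
    (hk : Ker (fun ξ => ‖uu V ξ‖)) (hi : Integrable (uu V))
    (hinv : ∀ x : ℝ, ∫ ξ : ℝ, uu V ξ * cexp (2 * Real.pi * I * x * ξ) = V x) (k : ℕ) {T : ℝ}
    (hT : Real.exp 7 ≤ T) (t : ℝ) :
    Dd k V T (1 / 2 + t * I) - Gp k V T (1 / 2 + t * I) = Hr k V T (1 / 2 + t * I) := by
  have hT0 : 0 < T := (Real.exp_pos _).trans_le hT
  have hL : 0 < Real.log T := by
    have : 7 ≤ Real.log T := by rw [Real.le_log_iff_exp_le hT0]; exact hT
    linarith
  have hR : 0 < |t| + 1 := by positivity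
  obtain ⟨σ, hσ⟩ : ∃ σ : ℝ → ℂ, σ = fun δ : ℝ => 1 / 2 + (δ : ℂ) + t * I := ⟨_, rfl⟩
  have hre : ∀ δ, (σ δ).re = 1 / 2 + δ := by
    intro δ
    rw [hσ]
    simp
  have him : ∀ δ, (σ δ).im = t := by
    intro δ
    rw [hσ]
    simp
  have hσc : Continuous σ := by rw [hσ]; fun_prop
  have hbox : ∀ δ ∈ Ioc (0 : ℝ) 1, σ δ ∈ Bx (|t| + 1) := by
    intro δ hδ
    refine ⟨?_, ?_, ?_⟩
    · rw [hre]; linarith [hδ.1]
    · rw [hre]; linarith [hδ.2]
    · rw [him]; linarith
  have hball : ∀ δ ∈ Icc (0 : ℝ) 1, σ δ ∈ Metric.ball (0 : ℂ) (3 + (|t| + 1)) := by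
    intro δ hδ
    rw [mem_ball_zero_iff]
    refine lt_of_le_of_lt (Complex.norm_le_abs_re_add_abs_im _) ?_
    rw [hre, him, abs_of_nonneg (by linarith [hδ.1])]
    linarith [hδ.2]
  have h1 : EqOn (fun δ => Dd k V T (σ δ) - Gp k V T (σ δ)) (fun δ => Hr k V T (σ δ)) (Ioc 0 1) :=
    fun δ hδ => ident_box hVc hV hc hk hi hinv k hT hR (hbox δ hδ)
  have c1 : ContinuousOn (fun δ => Dd k V T (σ δ) - Gp k V T (σ δ)) (Icc 0 1) := by
    refine ContinuousOn.sub ?_ ?_
    · exact ((Dd_diff hV k hL).continuous.comp hσc).continuousOn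
    · exact (Gp_diff hVc hV k hL (3 + (|t| + 1))).continuousOn.comp hσc.continuousOn hball
  have c2 : ContinuousOn (fun δ => Hr k V T (σ δ)) (Icc 0 1) := by
    obtain ⟨b, hb, hle⟩ := Hr_dom hk k hT (|t| + 1) hR.le
    unfold Hr
    refine continuousOn_of_dominated (bound := b) ?_ ?_ hb ?_
    · intro δ _
      exact Hr_meas hc k T (σ δ)
    · intro δ hδ
      refine Eventually.of_forall fun ξ => hle ξ (σ δ) ?_ ?_ ?_
      · rw [hre]; linarith [hδ.1]
      · rw [hre]; linarith [hδ.2]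
      · rw [him]; linarith
    · refine Eventually.of_forall fun ξ => ?_
      have h1 := (Er_diff k).continuous
      exact (continuous_const.mul (h1.comp (by fun_prop))).continuousOn
  have h2 := h1.of_subset_closure c1 c2 Ioc_subset_Icc_self (by rw [closure_Ioc zero_ne_one])
  have h3 := h2 (left_mem_Icc.2 zero_le_one)
  have h4 : σ 0 = 1 / 2 + t * I := by
    rw [hσ]
    simp
  simp only [h4] at h3
  exact h3

/-- the integrand of the final formula -/
noncomputable def Ff (V : ℝ → ℝ) (T t : ℝ) (p : ℕ) (x : ℝ) : ℂ :=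
  (x : ℂ) ^ p * (V (x / Real.log T) : ℂ) * cexp ((1 / 2 - (t : ℂ) * I) * x)

theorem Ff_int (hVc : Continuous V) (hV : HasCompactSupport V) {T : ℝ} (hL : 0 < Real.log T) (t : ℝ) (p : ℕ) :
    Integrable (Ff V T t p) := by
  refine (dom_int hVc hV hL p (1 / 2)).mono' ?_ (Eventually.of_forall fun x => ?_)
  · unfold Ff
    exact Continuous.aestronglyMeasurable (by fun_prop)
  · unfold Ff
    rw [norm_mul, norm_mul, norm_pow, Complex.norm_real, Complex.norm_real, Real.norm_eq_abs, Real.norm_eq_abs,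
      Complex.norm_exp]
    have h1 : ((1 / 2 - (t : ℂ) * I) * x).re = 1 / 2 * x := by
      simp
    rw [h1]
    have h2 : Real.exp (1 / 2 * x) ≤ Real.exp (1 / 2 * |x|) := by
      refine Real.exp_le_exp.2 ?_
      have := le_abs_self x
      linarith
    have h3 := mul_le_mul_of_nonneg_left h2 (by positivity : (0 : ℝ) ≤ |x| ^ p * |V (x / Real.log T)|)
    linarith [h3, mul_right_comm (|x| ^ p) (Real.exp (1 / 2 * |x|)) (|V (x / Real.log T)|)]

theorem main (hVc : Continuous V) (hV : HasCompactSupport V) (hc : Continuous (uu V))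
    (hk : Ker (fun ξ => ‖uu V ξ‖)) (hi : Integrable (uu V))
    (hinv : ∀ x : ℝ, ∫ ξ : ℝ, uu V ξ * cexp (2 * Real.pi * I * x * ξ) = V x) (k : ℕ) {T : ℝ}
    (hT : Real.exp 7 ≤ T) (t : ℝ) :
    Dp k V T t - Aop V T (fun t => zh t ^ k) t =
      ∑ p ∈ Finset.range k, cp k p * (1 / (p.factorial : ℂ)) * ∫ x : ℝ, Ff V T t p x := by
  have hT0 : 0 < T := (Real.exp_pos _).trans_le hT
  have hL : 0 < Real.log T := by
    have : 7 ≤ Real.log T := by rw [Real.le_log_iff_exp_le hT0]; exact hT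
    linarith
  have hA : Aop V T (fun t => zh t ^ k) t = ∫ ξ : ℝ, uu V ξ * riemannZeta ((1 / 2 + t * I) - I * hh T * ξ) ^ k := by
    unfold Aop
    refine integral_congr_ae (Eventually.of_forall fun ξ => ?_)
    simp only [zh]
    congr 3
    push_cast
    ring
  have hr : 0 < (1 / 2 - (t : ℂ) * I).re := by simp
  have hq : ∀ (p : ℕ) (ξ : ℝ), uu V ξ * (1 / ((1 / 2 + t * I) - I * hh T * ξ - 1) ^ (p + 1)) =
      (-1 : ℂ) ^ (p + 1) * (uu V ξ * (1 / ((1 / 2 - (t : ℂ) * I) - (-1 : ℝ) * (I * hh T * ξ)) ^ (p + 1))) := by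
    intro p ξ
    have e1 : (1 / 2 + t * I) - I * hh T * ξ - 1 =
        (-1 : ℂ) * ((1 / 2 - (t : ℂ) * I) - (-1 : ℝ) * (I * hh T * ξ)) := by
      push_cast
      ring
    rw [e1, mul_pow]
    have e2 : ((-1 : ℂ) ^ (p + 1)) * (-1 : ℂ) ^ (p + 1) = 1 := by
      rw [← mul_pow]
      simp
    have e3 : (-1 : ℂ) ^ (p + 1) ≠ 0 := pow_ne_zero _ (by norm_num)
    have e4 : ∀ y : ℂ, 1 / ((-1 : ℂ) ^ (p + 1) * y) = (-1 : ℂ) ^ (p + 1) * (1 / y) := by
      intro y
      rw [one_div, mul_inv, one_div]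
      congr 1
      exact inv_eq_of_mul_eq_one_left e2
    rw [e4]
    ring
  have hneg : ∀ p : ℕ, ∫ ξ : ℝ, uu V ξ * (1 / ((1 / 2 + t * I) - I * hh T * ξ - 1) ^ (p + 1)) =
      -((1 / (p.factorial : ℂ)) * ∫ x in Iic (0 : ℝ), Ff V T t p x) := by
    intro p
    simp_rw [hq p]
    rw [integral_const_mul, (lap hi hinv T (-1) hr p).2]
    have e1 : ∫ x in Iic (0 : ℝ), Ff V T t p x = ∫ x in Ioi (0 : ℝ), Ff V T t p (-x) := by
      rw [integral_comp_neg_Ioi, neg_zero]
    have e2 : ∀ x : ℝ, Ff V T t p (-x) = (-1 : ℂ) ^ p *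
        ((x : ℂ) ^ p * cexp (-((1 / 2 - (t : ℂ) * I) * x)) * (V (-1 * x / Real.log T) : ℂ)) := by
      intro x
      unfold Ff
      have a1 : ((-x : ℝ) : ℂ) = -1 * (x : ℂ) := by push_cast; ring
      have a2 : -x / Real.log T = -1 * x / Real.log T := by ring
      have a3 : (1 / 2 - (t : ℂ) * I) * (-1 * (x : ℂ)) = -((1 / 2 - (t : ℂ) * I) * x) := by ring
      rw [a1, a2, a3, mul_pow]
      ring
    rw [e1]
    simp_rw [e2]
    rw [integral_const_mul, pow_succ]
    ring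
  have hint : ∀ p : ℕ, Integrable (fun ξ : ℝ => uu V ξ * (1 / ((1 / 2 + t * I) - I * hh T * ξ - 1) ^ (p + 1))) := by
    intro p
    simp_rw [hq p]
    exact (lap hi hinv T (-1) hr p).1.const_mul _
  have hre : ((1 / 2 : ℂ) + t * I).re = 1 / 2 := by simp
  have hsp := split hc hk k hT (s := 1 / 2 + t * I) (by rw [hre]) (by rw [hre]; norm_num)
    (by rw [hre]; norm_num) hint
  have hed := ident_edge hVc hV hc hk hi hinv k hT t
  have hD : Dp k V T t = Dd k V T (1 / 2 + t * I) := rfl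
  have hG : Gp k V T (1 / 2 + t * I) = ∑ p ∈ Finset.range k, cp k p * ((1 / (p.factorial : ℂ)) *
      ∫ x in Ioi (0 : ℝ), Ff V T t p x) := by
    unfold Gp
    refine Finset.sum_congr rfl fun p _ => ?_
    congr 2
    refine setIntegral_congr_fun measurableSet_Ioi fun x _ => ?_
    simp only [Ff]
    have a3 : -((1 / 2 + (t : ℂ) * I - 1) * x) = (1 / 2 - (t : ℂ) * I) * x := by ring
    rw [a3]
    ring
  have hsum : ∀ p : ℕ, ∫ x : ℝ, Ff V T t p x =
      (∫ x in Iic (0 : ℝ), Ff V T t p x) + ∫ x in Ioi (0 : ℝ), Ff V T t p x := by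
    intro p
    exact (intervalIntegral.integral_Iic_add_Ioi (Ff_int hVc hV hL t p).integrableOn
      (Ff_int hVc hV hL t p).integrableOn).symm
  rw [hA, hsp, hD, ← hed, hG]
  simp_rw [hneg, hsum]
  have : ∀ a b c : ℂ, a - (b + (a - c)) = c - b := by intro a b c; ring
  rw [this, ← Finset.sum_sub_distrib]
  refine Finset.sum_congr rfl fun p _ => ?_
  ring

end lap

end D1

theorem t_D1 (hF : S_F) : S_D1 := by
  intro k
  refine ⟨fun p => D1.cp k p * (1 / (p.factorial : ℂ)), fun V hV T hT t => ?_⟩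
  obtain ⟨hc, hk, -, hinv, -⟩ := hF V hV
  have hi : Integrable (uu V) := by
    have h := hk.mom 0
    simp only [pow_zero, one_mul] at h
    exact (integrable_norm_iff hc.aestronglyMeasurable).1 h
  exact D1.main hV.smooth.continuous hV.cpt hc hk hi hinv k hT t

end Pool.Agent.J6H39.CG
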