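import Pool.Agent.J6H39.CG.Stm

/-!
# Rapid decay of Laplace transforms
-/

set_option autoImplicit false

open MeasureTheory Set Filter Topology Complex
open scoped FourierTransform ContDiff

namespace Pool.Agent.J6H39.CG

lemma D2_deriv {g : ℝ → ℂ} (hg : ContDiff ℝ ∞ g) : ContDiff ℝ ∞ (deriv g) := by
  have h : ContDiff ℝ (∞ + 1) g := by simpa using hg
  exact (contDiff_succ_iff_deriv.1 h).2.2

lemma D2_exp (z : ℂ) (y : ℝ) : HasDerivAt (fun y : ℝ => cexp (z * y)) (cexp (z * y) * z) y := by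
  have h1 : HasDerivAt (fun y : ℝ => z * (y : ℂ)) (z * 1) y := (hasDerivAt_id y).ofReal_comp.const_mul z
  rw [mul_one] at h1
  exact h1.cexp

lemma D2_cont (z : ℂ) : Continuous fun y : ℝ => cexp (z * y) := by fun_prop

lemma D2_int {g : ℝ → ℂ} (hg : Continuous g) (hc : HasCompactSupport g) {e : ℝ → ℂ} (he : Continuous e) :
    Integrable (fun y => g y * e y) :=
  (hg.mul he).integrable_of_hasCompactSupport hc.mul_right

lemma D2_one (z : ℂ) {g : ℝ → ℂ} (hg : ContDiff ℝ ∞ g) (hc : HasCompactSupport g) :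
    z * ∫ y, g y * cexp (z * y) = -∫ y, deriv g y * cexp (z * y) := by
  have hd : ContDiff ℝ ∞ (deriv g) := D2_deriv hg
  have hdiff : ∀ x, HasDerivAt g (deriv g x) x := fun x =>
    ((hg.differentiable (by simp)) x).hasDerivAt
  have h := integral_mul_deriv_eq_deriv_mul_of_integrable (u := g) (v := fun y : ℝ => cexp (z * y))
    (u' := deriv g) (v' := fun y : ℝ => cexp (z * y) * z) (fun x _ => hdiff x) (fun x _ => D2_exp z x)
    (D2_int hg.continuous hc ((D2_cont z).mul continuous_const))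
    (D2_int hd.continuous hc.deriv (D2_cont z)) (D2_int hg.continuous hc (D2_cont z))
  rw [← h, ← integral_const_mul]
  refine integral_congr_ae (Eventually.of_forall fun y => ?_)
  simp only
  ring

lemma D2_ibp (z : ℂ) : ∀ (N : ℕ) (g : ℝ → ℂ), ContDiff ℝ ∞ g → HasCompactSupport g →
    z ^ N * ∫ y, g y * cexp (z * y) = (-1) ^ N * ∫ y, iteratedDeriv N g y * cexp (z * y) := by
  intro N
  induction N with
  | zero => intro g _ _; simp
  | succ N ih =>
    intro g hg hc
    have h1 := ih (deriv g) (D2_deriv hg) hc.deriv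
    rw [iteratedDeriv_succ', pow_succ, mul_assoc, D2_one z hg hc, mul_neg, h1]
    ring

lemma D2_supp {g : ℝ → ℂ} {a : ℝ} (h : ∀ y, y ∉ Icc (-a) a → g y = 0) :
    ∀ (N : ℕ) (y : ℝ), y ∉ Icc (-a) a → iteratedDeriv N g y = 0 := by
  intro N y hy
  have h1 : g =ᶠ[𝓝 y] fun _ => (0 : ℂ) := by
    filter_upwards [isClosed_Icc.isOpen_compl.mem_nhds hy] with x hx
    exact h x hx
  rw [h1.iteratedDeriv_eq N]
  simp

lemma D2_bound {g : ℝ → ℂ} (hg : ContDiff ℝ ∞ g) (hc : HasCompactSupport g) {a : ℝ}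
    (h : ∀ y, y ∉ Icc (-a) a → g y = 0) (N : ℕ) : ∃ A : ℝ, 0 ≤ A ∧ ∀ z : ℂ, 0 ≤ z.re →
      ‖z‖ ^ N * ‖∫ y, g y * cexp (z * y)‖ ≤ A * Real.exp (z.re * a) := by
  have hsm : Continuous (iteratedDeriv N g) := hg.continuous_iteratedDeriv N (by exact_mod_cast le_top)
  have hcs : HasCompactSupport (iteratedDeriv N g) :=
    HasCompactSupport.of_support_subset_isCompact (isCompact_Icc (a := -a) (b := a)) fun y hy => by
      by_contra hn
      exact hy (D2_supp h N y hn)
  have hint : Integrable (fun y => ‖iteratedDeriv N g y‖) := (hsm.integrable_of_hasCompactSupport hcs).norm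
  refine ⟨∫ y, ‖iteratedDeriv N g y‖, integral_nonneg fun _ => norm_nonneg _, fun z hz => ?_⟩
  have h1 := congrArg norm (D2_ibp z N g hg hc)
  rw [norm_mul, norm_mul, norm_pow, norm_pow, norm_neg, norm_one, one_pow, one_mul] at h1
  rw [h1, ← integral_mul_const]
  refine (norm_integral_le_integral_norm _).trans (integral_mono_of_nonneg
    (Eventually.of_forall fun _ => norm_nonneg _) (hint.mul_const _) (Eventually.of_forall fun y => ?_))
  simp only
  rw [norm_mul]
  by_cases hy : y ∈ Icc (-a) a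
  · refine mul_le_mul_of_nonneg_left ?_ (norm_nonneg _)
    rw [Complex.norm_exp]
    apply Real.exp_le_exp.2
    rw [Complex.re_mul_ofReal]
    exact mul_le_mul_of_nonneg_left hy.2 hz
  · rw [D2_supp h N y hy]
    simp

theorem t_D2 : S_D2 := by
  intro p V hV c C hc hcC
  obtain ⟨a, ha0, ha⟩ : ∃ a : ℝ, 0 ≤ a ∧ ∀ y, y ∉ Icc (-a) a → V y = 0 := by
    obtain ⟨r, hr⟩ := hV.cpt.isCompact.isBounded.subset_closedBall 0
    refine ⟨max r 0, le_max_right _ _, fun y hy => ?_⟩
    by_contra hne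
    apply hy
    have h1 : y ∈ Metric.closedBall (0 : ℝ) r := hr (subset_tsupport V hne)
    rw [mem_closedBall_zero_iff, Real.norm_eq_abs] at h1
    have h2 := h1.trans (le_max_left r 0)
    exact ⟨by linarith [(abs_le.1 h2).1], (abs_le.1 h2).2⟩
  obtain ⟨g, hg⟩ : ∃ g : ℝ → ℂ, g = fun y : ℝ => (y : ℂ) ^ p * (V y : ℂ) := ⟨_, rfl⟩
  have hgs : ContDiff ℝ ∞ g := by
    rw [hg]
    exact (Complex.ofRealCLM.contDiff.pow p).mul (Complex.ofRealCLM.contDiff.comp hV.smooth)
  have hgz : ∀ y, y ∉ Icc (-a) a → g y = 0 := by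
    intro y hy
    rw [hg]
    simp only
    rw [ha y hy]
    simp
  have hgc : HasCompactSupport g :=
    HasCompactSupport.of_support_subset_isCompact (isCompact_Icc (a := -a) (b := a)) fun y hy => by
      by_contra hn
      exact hy (hgz y hn)
  set N : ℕ := p + 1 + ⌈a / 2⌉₊ with hN
  obtain ⟨A, hA, hb⟩ := D2_bound hgs hgc hgz N
  refine ⟨A / c ^ N, Real.exp 1, by positivity, fun T hT t ht1 ht2 => ?_⟩
  have hT0 : 0 < T := (Real.exp_pos 1).trans_le hT
  have hL : 1 ≤ Real.log T := by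
    rw [Real.le_log_iff_exp_le hT0]
    exact hT
  have hL0 : 0 < Real.log T := by linarith
  have hT1 : 1 ≤ T := by
    have := Real.add_one_le_exp (1 : ℝ)
    linarith
  set L := Real.log T with hLdef
  -- change of variables
  have e1 : ∫ x : ℝ, (x : ℂ) ^ p * (V (x / L) : ℂ) * cexp ((1 / 2 - (t : ℂ) * I) * x) =
      (L : ℂ) ^ (p + 1) * ∫ y, g y * cexp (((1 / 2 - (t : ℂ) * I) * L) * y) := by
    have h1 := Measure.integral_comp_div (fun y : ℝ => g y * cexp (((1 / 2 - (t : ℂ) * I) * L) * y)) L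
    rw [abs_of_pos hL0, Complex.real_smul] at h1
    rw [pow_succ, mul_assoc, ← h1, ← integral_const_mul]
    refine integral_congr_ae (Eventually.of_forall fun x => ?_)
    have hLc : (L : ℂ) ≠ 0 := by exact_mod_cast hL0.ne'
    simp only
    rw [hg]
    simp only
    push_cast
    rw [div_pow]
    have e2 : (1 / 2 - (t : ℂ) * I) * L * (x / L) = (1 / 2 - (t : ℂ) * I) * x := by
      field_simp
    rw [e2]
    field_simp
  rw [e1, norm_mul, norm_pow, Complex.norm_real, Real.norm_eq_abs, abs_of_pos hL0]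
  obtain ⟨z, hz⟩ : ∃ z : ℂ, z = (1 / 2 - (t : ℂ) * I) * L := ⟨_, rfl⟩
  rw [← hz]
  have hzre : z.re = L / 2 := by
    rw [hz]
    simp
    ring
  have hzim : z.im = -(t * L) := by
    rw [hz]
    simp
  have ht0 : 0 < t := lt_of_lt_of_le (mul_pos hc hT0) ht1
  have hzn : c * T * L ≤ ‖z‖ := by
    have h1 := Complex.abs_im_le_norm z
    rw [hzim, abs_neg, abs_of_pos (mul_pos ht0 hL0)] at h1
    exact (mul_le_mul_of_nonneg_right ht1 hL0.le).trans h1
  have h2 := hb z (by rw [hzre]; linarith)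
  set J := ‖∫ y, g y * cexp (z * y)‖ with hJ
  have hJ0 : 0 ≤ J := norm_nonneg _
  -- the bound
  have h3 : (c * T * L) ^ N * J ≤ A * T ^ N := by
    refine (mul_le_mul_of_nonneg_right (pow_le_pow_left₀ (by positivity) hzn N) hJ0).trans
      (h2.trans (mul_le_mul_of_nonneg_left ?_ hA))
    have h4 : Real.exp (z.re * a) = T ^ (a / 2) := by
      rw [Real.rpow_def_of_pos hT0, hzre, ← hLdef]
      congr 1
      ring
    rw [h4, ← Real.rpow_natCast]
    refine Real.rpow_le_rpow_of_exponent_le hT1 ?_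
    rw [hN]
    push_cast
    have := Nat.le_ceil (a / 2)
    have : (0 : ℝ) ≤ p := Nat.cast_nonneg p
    linarith
  have h5 : L ^ (p + 1) ≤ L ^ N := pow_le_pow_right₀ hL (by omega)
  rw [mul_pow, mul_pow] at h3
  have hTN : (0 : ℝ) < T ^ N := by positivity
  have h6 : c ^ N * (L ^ N * J) ≤ A := by
    have h7 : T ^ N * (c ^ N * (L ^ N * J)) ≤ T ^ N * A := by
      calc T ^ N * (c ^ N * (L ^ N * J)) = c ^ N * T ^ N * L ^ N * J := by ring
        _ ≤ A * T ^ N := h3
        _ = T ^ N * A := by ring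
    exact le_of_mul_le_mul_left h7 hTN
  calc L ^ (p + 1) * J ≤ L ^ N * J := mul_le_mul_of_nonneg_right h5 hJ0
    _ ≤ A / c ^ N := by
        rw [le_div_iff₀ (by positivity)]
        linarith

end Pool.Agent.J6H39.CG
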