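import Pool.Agent.J6H39.CG.Ker

/-! Project CG: preparation of the assembly: the Dirichlet polynomial, weights, linearity. -/

set_option autoImplicit false

open MeasureTheory Set Filter Topology Complex
open scoped FourierTransform ContDiff SchwartzMap

namespace Pool.Agent.J6H39.CG

open Pool.Agent.J6H39.KV (dv)

/-! ### the Dirichlet polynomial -/

theorem dv_zero {k : ℕ} (hk : 1 ≤ k) : dv k 0 = 0 := by
  unfold dv
  exact ArithmeticFunction.map_zero

/-- the Dirichlet polynomial is a finite sum -/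
theorem Dp_fin {V : ℝ → ℝ} (hV : Tst V) {T : ℝ} (hT : 1 < T) : ∃ N : ℕ, ∀ (k : ℕ) (t : ℝ),
    Dp k V T t = ∑ n ∈ Finset.range N,
      (dv k n : ℂ) * (n : ℂ) ^ (-(1 / 2 + (t : ℂ) * I)) * (V (Real.log n / Real.log T) : ℂ) := by
  obtain ⟨R, hR⟩ := hV.cpt.isBounded.subset_closedBall (0 : ℝ)
  have hlT : 0 < Real.log T := Real.log_pos hT
  refine ⟨⌈Real.exp (R * Real.log T)⌉₊ + 1, fun k t => ?_⟩
  unfold Dp
  refine tsum_eq_sum fun n hn => ?_
  rw [Finset.mem_range, not_lt] at hn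
  have h1 : Real.exp (R * Real.log T) < n := by
    refine (Nat.le_ceil _).trans_lt ?_
    exact_mod_cast (show ⌈Real.exp (R * Real.log T)⌉₊ < n by omega)
  have h2 : R < Real.log n / Real.log T := by
    rw [lt_div_iff₀ hlT, Real.lt_log_iff_exp_lt (lt_trans (Real.exp_pos _) h1)]
    exact h1
  have h3 : V (Real.log n / Real.log T) = 0 := by
    by_contra hne
    have h4 := hR (subset_tsupport _ (Function.mem_support.2 hne))
    rw [Metric.mem_closedBall, dist_zero_right, Real.norm_eq_abs] at h4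
    have := le_abs_self (Real.log n / Real.log T)
    linarith
  rw [h3]
  simp

theorem Dp_cont {V : ℝ → ℝ} (hV : Tst V) {T : ℝ} (hT : 1 < T) (k : ℕ) : Continuous (Dp k V T) := by
  obtain ⟨N, hN⟩ := Dp_fin hV hT
  have e : Dp k V T = fun t : ℝ => ∑ n ∈ Finset.range N,
      (dv k n : ℂ) * (n : ℂ) ^ (-(1 / 2 + (t : ℂ) * I)) * (V (Real.log n / Real.log T) : ℂ) :=
    funext fun t => hN k t
  rw [e]
  refine continuous_finsetSum _ fun n _ => ?_
  rcases Nat.eq_zero_or_pos n with rfl | h0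
  · have : ∀ t : ℝ, ((0 : ℕ) : ℂ) ^ (-(1 / 2 + (t : ℂ) * I)) = 0 := by
      intro t
      rw [Nat.cast_zero, Complex.zero_cpow]
      intro h
      have := congrArg Complex.re h
      norm_num at this
    simp only [this]
    fun_prop
  · have hn : (n : ℂ) ≠ 0 := by exact_mod_cast h0.ne'
    have h1 : Continuous fun t : ℝ => (n : ℂ) ^ (-(1 / 2 + (t : ℂ) * I)) :=
      Continuous.const_cpow (by fun_prop) (Or.inl hn)
    exact (continuous_const.mul h1).mul continuous_const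

/-- a function vanishing on `[0, ∞)` has Dirichlet polynomial zero -/
theorem Dp_zero {V : ℝ → ℝ} (h0 : ∀ x, 0 ≤ x → V x = 0) {T : ℝ} (hT : 1 < T) (k : ℕ) (t : ℝ) : Dp k V T t = 0 := by
  unfold Dp
  refine (tsum_congr fun n => ?_).trans tsum_zero
  have h1 : 0 ≤ Real.log n / Real.log T :=
    div_nonneg (Real.log_natCast_nonneg n) (Real.log_pos hT).le
  rw [h0 _ h1]
  simp

/-! ### weights -/

theorem wt_bound {w : ℝ → ℝ} (hw : Wt w) : ∃ a b C : ℝ, 0 < a ∧ a ≤ b ∧ 0 ≤ C ∧ (∀ x, x ∉ Icc a b → w x = 0) ∧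
    (∀ x, |w x| ≤ C) := by
  obtain ⟨a, b, ha, hab, h⟩ := hw.supp
  obtain ⟨C, hC⟩ := (isCompact_Icc (a := a) (b := b)).exists_bound_of_continuousOn hw.smooth.continuous.continuousOn
  have hC0 : 0 ≤ C := (norm_nonneg _).trans (hC a ⟨le_rfl, hab⟩)
  refine ⟨a, b, C, ha, hab, hC0, h, fun x => ?_⟩
  by_cases hx : x ∈ Icc a b
  · exact hC x hx
  · rw [h x hx, abs_zero]; exact hC0

/-- the weight is dominated by `om` -/
theorem wt_om {w : ℝ → ℝ} (hw : Wt w) (m : ℕ) : ∃ a b C : ℝ, 0 < a ∧ a ≤ b ∧ 0 ≤ C ∧ ∀ T : ℝ, 0 < T → ∀ t : ℝ,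
    |w (t / T)| ≤ C * om m T t ∧ (w (t / T) ≠ 0 → a * T ≤ t ∧ t ≤ b * T) := by
  obtain ⟨a, b, C, ha, hab, hC0, h, hC⟩ := wt_bound hw
  refine ⟨a, b, C * (1 + b) ^ m, ha, hab, ?_, fun T hT t => ⟨?_, fun hne => ?_⟩⟩
  · have : 0 ≤ 1 + b := by linarith
    positivity
  · by_cases hx : t / T ∈ Icc a b
    · have h1 : |t| / T ≤ b := by
        have ht : 0 ≤ t / T := ha.le.trans hx.1
        have h2 : |t| / T = |t / T| := by rw [abs_div, abs_of_pos hT]
        rw [h2, abs_of_nonneg ht]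
        exact hx.2
      have h3 := om_base hT t
      have h4 : 1 ≤ (1 + b) ^ m * om m T t := by
        unfold om
        rw [← div_eq_mul_inv, le_div_iff₀ (by positivity), one_mul]
        exact pow_le_pow_left₀ (by linarith) (by linarith) m
      calc |w (t / T)| ≤ C * 1 := by rw [mul_one]; exact hC _
        _ ≤ C * ((1 + b) ^ m * om m T t) := by gcongr
        _ = _ := by ring
    · rw [h _ hx, abs_zero]
      have : 0 ≤ 1 + b := by linarith
      have := (om_pos m hT t).le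
      positivity
  · have hx : t / T ∈ Icc a b := by
      by_contra hx
      exact hne (h _ hx)
    exact ⟨(le_div_iff₀ hT).1 hx.1, (div_le_iff₀ hT).1 hx.2⟩

theorem wt_cont {w : ℝ → ℝ} (hw : Wt w) (T : ℝ) : Continuous (fun t : ℝ => w (t / T)) :=
  hw.smooth.continuous.comp (by fun_prop)

/-- integrability against a weight -/
theorem wt_int {w : ℝ → ℝ} (hw : Wt w) {T : ℝ} (hT : 0 < T) {φ : ℝ → ℝ} (hφ : Continuous φ) :
    Integrable (fun t => φ t * w (t / T)) := by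
  obtain ⟨a, b, C, ha, hab, hC0, h⟩ := wt_om hw 0
  refine (hφ.mul (wt_cont hw T)).integrable_of_hasCompactSupport ?_
  refine HasCompactSupport.intro (isCompact_Icc (a := a * T) (b := b * T)) fun t ht => ?_
  by_contra hne
  exact ht ((h T hT t).2 (right_ne_zero_of_mul hne))

theorem wt_int_c {w : ℝ → ℝ} (hw : Wt w) {T : ℝ} (hT : 0 < T) {φ : ℝ → ℂ} (hφ : Continuous φ) :
    Integrable (fun t => φ t * (w (t / T) : ℂ)) := by
  obtain ⟨a, b, C, ha, hab, hC0, h⟩ := wt_om hw 0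
  refine (hφ.mul (Complex.continuous_ofReal.comp (wt_cont hw T))).integrable_of_hasCompactSupport ?_
  refine HasCompactSupport.intro (isCompact_Icc (a := a * T) (b := b * T)) fun t ht => ?_
  by_contra hne
  have h1 := right_ne_zero_of_mul hne
  refine ht ((h T hT t).2 fun h2 => h1 ?_)
  simp only [Function.comp_apply, h2, Complex.ofReal_zero]

/-! ### linearity -/

theorem tst_integrable {V : ℝ → ℝ} (h : Tst V) : Integrable (fun x : ℝ => (V x : ℂ)) := (sm h).integrable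

theorem tst_add {V W : ℝ → ℝ} (hV : Tst V) (hW : Tst W) : Tst (fun x => V x + W x) :=
  ⟨hV.smooth.add hW.smooth, hV.cpt.add hW.cpt⟩

theorem tst_sub {V W : ℝ → ℝ} (hV : Tst V) (hW : Tst W) : Tst (fun x => V x - W x) :=
  ⟨hV.smooth.sub hW.smooth, hV.cpt.sub hW.cpt⟩

theorem uu_add {V W : ℝ → ℝ} (hV : Tst V) (hW : Tst W) (ξ : ℝ) :
    uu (fun x => V x + W x) ξ = uu V ξ + uu W ξ := by
  rw [uu_int, uu_int, uu_int, ← integral_add]
  · refine integral_congr_ae (Eventually.of_forall fun x => ?_)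
    simp only
    push_cast
    ring
  all_goals
  · refine (tst_integrable (by assumption)).bdd_mul (c := 1) (by fun_prop) (Eventually.of_forall fun x => ?_)
    rw [show -(2 * Real.pi * I * (x : ℂ) * (ξ : ℂ)) = ((-(2 * Real.pi * x * ξ) : ℝ) : ℂ) * I by push_cast; ring,
      Complex.norm_exp_ofReal_mul_I]

theorem aop_add {V W : ℝ → ℝ} (hV : Tst V) (hW : Tst W) {B : ℕ} {T : ℝ} (hT : Real.exp 7 ≤ T) {g : ℝ → ℂ}
    (hg : PG B g) (t : ℝ) : Aop (fun x => V x + W x) T g t = Aop V T g t + Aop W T g t := by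
  unfold Aop
  rw [← integral_add (aop_int hV hT hg t) (aop_int hW hT hg t)]
  refine integral_congr_ae (Eventually.of_forall fun ξ => ?_)
  simp only
  rw [uu_add hV hW]
  ring

/-! ### the cutoffs -/

/-- a bump function -/
noncomputable def bmp (x : ℝ) : ℝ := Real.smoothTransition (2 - x) * Real.smoothTransition (2 + x)

theorem bmp_tst : Tst bmp := by
  refine ⟨?_, ?_⟩
  · unfold bmp
    exact (Real.smoothTransition.contDiff.comp (by fun_prop)).mul (Real.smoothTransition.contDiff.comp (by fun_prop))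
  · refine HasCompactSupport.intro (isCompact_Icc (a := (-2 : ℝ)) (b := 2)) fun x hx => ?_
    rw [mem_Icc, not_and_or, not_le, not_le] at hx
    unfold bmp
    rcases hx with hx | hx
    · rw [Real.smoothTransition.zero_of_nonpos (x := 2 + x) (by linarith), mul_zero]
    · rw [Real.smoothTransition.zero_of_nonpos (x := 2 - x) (by linarith), zero_mul]

theorem bmp_one {x : ℝ} (hx : |x| ≤ 1) : bmp x = 1 := by
  rw [abs_le] at hx
  unfold bmp
  rw [Real.smoothTransition.one_of_one_le (by linarith [hx.2]), Real.smoothTransition.one_of_one_le (by linarith [hx.1]),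
    one_mul]

/-- the parts of the complement of the cutoff -/
noncomputable def Rp (k : ℕ) (V W : ℝ → ℝ) (M x : ℝ) : ℝ :=
  (bmp (x / M) - (V x ^ 2 + W (k - x) ^ 2)) * Real.smoothTransition x

noncomputable def Rm (k : ℕ) (V W : ℝ → ℝ) (M x : ℝ) : ℝ :=
  (bmp (x / M) - (V x ^ 2 + W (k - x) ^ 2)) * (1 - Real.smoothTransition x)

theorem tst_mul {V S : ℝ → ℝ} (hV : Tst V) (hS : ContDiff ℝ ∞ S) : Tst (fun x => V x * S x) :=
  ⟨hV.smooth.mul hS, hV.cpt.mul_right⟩

variable {k : ℕ} {V W : ℝ → ℝ} {M : ℝ}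

theorem base_tst (hV : Tst V) (hW : Tst W) (hM : 0 < M) :
    Tst (fun x => bmp (x / M) - (V x ^ 2 + W (k - x) ^ 2)) :=
  tst_sub (tst_scale bmp_tst hM) (tst_add (tst_sq hV) (tst_sq (tst_refl hW k)))

theorem Rp_tst (hV : Tst V) (hW : Tst W) (hM : 0 < M) : Tst (Rp k V W M) :=
  tst_mul (base_tst hV hW hM) Real.smoothTransition.contDiff

theorem Rm_tst (hV : Tst V) (hW : Tst W) (hM : 0 < M) : Tst (Rm k V W M) :=
  tst_mul (base_tst hV hW hM) (contDiff_const.sub Real.smoothTransition.contDiff)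

theorem base_zero (hM : (k : ℝ) ≤ M) (hM1 : 1 ≤ M) (h : ∀ x : ℝ, 0 ≤ x → x ≤ k → V x ^ 2 + W (k - x) ^ 2 = 1) {x : ℝ} (h0 : 0 ≤ x)
    (h1 : x ≤ k) : bmp (x / M) - (V x ^ 2 + W (k - x) ^ 2) = 0 := by
  rw [h x h0 h1, bmp_one, sub_self]
  have hM0 : 0 < M := by linarith
  rw [abs_div, abs_of_nonneg h0, abs_of_pos hM0, div_le_one hM0]
  linarith

theorem Rp_zero (hM : (k : ℝ) ≤ M) (hM1 : 1 ≤ M) (h : ∀ x : ℝ, 0 ≤ x → x ≤ k → V x ^ 2 + W (k - x) ^ 2 = 1) {x : ℝ}
    (hx : x ≤ k) : Rp k V W M x = 0 := by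
  unfold Rp
  rcases le_total x 0 with h0 | h0
  · rw [Real.smoothTransition.zero_of_nonpos h0, mul_zero]
  · rw [base_zero hM hM1 h h0 hx, zero_mul]

theorem Rm_zero (hk : 1 ≤ k) (hM : (k : ℝ) ≤ M) (hM1 : 1 ≤ M)
    (h : ∀ x : ℝ, 0 ≤ x → x ≤ k → V x ^ 2 + W (k - x) ^ 2 = 1) {x : ℝ} (hx : 0 ≤ x) : Rm k V W M x = 0 := by
  unfold Rm
  have hk1 : (1 : ℝ) ≤ k := by exact_mod_cast hk
  rcases le_total x k with h1 | h1
  · rw [base_zero hM hM1 h hx h1, zero_mul]
  · rw [Real.smoothTransition.one_of_one_le (by linarith), sub_self, mul_zero]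

/-- the decomposition of the multipliers -/
theorem aop_split (hV : Tst V) (hW : Tst W) (hM : 0 < M) {B : ℕ} {T : ℝ} (hT : Real.exp 7 ≤ T) {g : ℝ → ℂ}
    (hg : PG B g) (t : ℝ) :
    Aop (fun x => V x ^ 2) T g t + Aop (fun x => W (k - x) ^ 2) T g t + Aop (Rp k V W M) T g t +
      Aop (Rm k V W M) T g t = Aop (fun x => bmp (x / M)) T g t := by
  have h1 := tst_sq hV
  have h2 := tst_sq (tst_refl hW k)
  have h3 := Rp_tst (k := k) hV hW hM
  have h4 := Rm_tst (k := k) hV hW hM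
  rw [← aop_add h1 h2 hT hg, ← aop_add (tst_add h1 h2) h3 hT hg, ← aop_add (tst_add (tst_add h1 h2) h3) h4 hT hg]
  congr 1
  funext x
  unfold Rp Rm
  ring

end Pool.Agent.J6H39.CG
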