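import Pool.Agent.J6H39.CG.Fin1

/-! Project CG: the main identity. -/

set_option autoImplicit false

open MeasureTheory Set Filter Topology Complex
open scoped FourierTransform ContDiff SchwartzMap

namespace Pool.Agent.J6H39.CG

open Pool.Agent.J6H39.KV (dv)
open H345 (XX)

theorem NN_nonneg (k m : ℕ) {T : ℝ} (hT : 0 < T) : 0 ≤ NN k m T :=
  integral_nonneg fun t => mul_nonneg (by positivity) (om_pos m hT t).le

theorem NN_eq (k m : ℕ) (T : ℝ) : ∫ t, ‖zh t ^ k‖ ^ 2 * om m T t = NN k m T := by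
  unfold NN
  refine integral_congr_ae (Eventually.of_forall fun t => ?_)
  simp only
  rw [norm_pow, ← pow_mul, mul_comm k 2]

theorem om_integral {m : ℕ} (hm : 2 ≤ m) {T : ℝ} (hT : 1 ≤ T) :
    Integrable (om m T) ∧ ∫ t, om m T t ≤ Real.pi * T := by
  have hT0 : 0 < T := by linarith
  have h1 : Integrable (om m T) := by
    have := pg_int (m := m) (B := 0) (by omega) hT (φ := fun _ => (1 : ℝ)) continuous_const (C := 1) (by simp)
    simpa using this
  refine ⟨h1, ?_⟩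
  have h2 : ∀ t, om m T t ≤ (fun x : ℝ => (1 + x ^ 2)⁻¹) (t / T) := by
    intro t
    have h3 := om_base hT0 t
    have h4 : 1 + (t / T) ^ 2 ≤ (1 + |t| / T) ^ m := by
      calc 1 + (t / T) ^ 2 ≤ (1 + |t| / T) ^ 2 := by
            have : (t / T) ^ 2 = (|t| / T) ^ 2 := by rw [div_pow, div_pow, sq_abs]
            rw [this]
            have : 0 ≤ |t| / T := by positivity
            nlinarith
        _ ≤ (1 + |t| / T) ^ m := pow_le_pow_right₀ h3 hm
    unfold om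
    simp only
    gcongr
  have h5 : Integrable (fun t : ℝ => (fun x : ℝ => (1 + x ^ 2)⁻¹) (t / T)) :=
    integrable_inv_one_add_sq.comp_div hT0.ne'
  calc ∫ t, om m T t ≤ ∫ t, (fun x : ℝ => (1 + x ^ 2)⁻¹) (t / T) := integral_mono h1 h5 h2
    _ = _ := by
      have h6 := MeasureTheory.Measure.integral_comp_div (fun x : ℝ => (1 + x ^ 2)⁻¹) T
      refine h6.trans ?_
      rw [integral_univ_inv_one_add_sq, abs_of_pos hT0, smul_eq_mul]
      ring

/-- the size of the error -/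
noncomputable def Qd (k m : ℕ) (T : ℝ) : ℝ := NN k m T + T * Real.log T ^ (k ^ 2)

/-- errors -/
def Sm (k m : ℕ) (E : ℝ → ℝ) : Prop := ∀ ε : ℝ, 0 < ε → ∃ T₀ : ℝ, ∀ T : ℝ, T₀ ≤ T → E T ≤ ε * Qd k m T

theorem Sm.add {k m : ℕ} {E F : ℝ → ℝ} (hE : Sm k m E) (hF : Sm k m F) : Sm k m (fun T => E T + F T) := by
  intro ε hε
  obtain ⟨T₁, h1⟩ := hE (ε / 2) (by positivity)
  obtain ⟨T₂, h2⟩ := hF (ε / 2) (by positivity)
  refine ⟨max T₁ T₂, fun T hT => ?_⟩
  have := h1 T ((le_max_left _ _).trans hT)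
  have := h2 T ((le_max_right _ _).trans hT)
  simp only
  linarith

theorem Sm.mono {k m : ℕ} {E F : ℝ → ℝ} (hF : Sm k m F) (h : ∃ T₀ : ℝ, ∀ T : ℝ, T₀ ≤ T → E T ≤ F T) : Sm k m E := by
  intro ε hε
  obtain ⟨T₁, h1⟩ := hF ε hε
  obtain ⟨T₂, h2⟩ := h
  refine ⟨max T₁ T₂, fun T hT => ?_⟩
  exact (h2 T ((le_max_right _ _).trans hT)).trans (h1 T ((le_max_left _ _).trans hT))

theorem sm_of {k m : ℕ} (hk : 1 ≤ k) {E : ℝ → ℝ}
    (h : ∃ c : ℝ, 0 ≤ c ∧ ∀ η : ℝ, 0 < η → ∃ c' T₀ : ℝ, 0 ≤ c' ∧ ∀ T : ℝ, T₀ ≤ T →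
      E T ≤ c * η * (NN k m T + T) + c' * (T + NN k m T / Real.log T)) : Sm k m E := by
  intro ε hε
  obtain ⟨c, hc0, h⟩ := h
  obtain ⟨c', T₁, hc', h⟩ := h (ε / (2 * (c + 1))) (by positivity)
  set l : ℝ := max 1 (2 * c' / ε) with hl
  refine ⟨max T₁ (Real.exp l), fun T hT => ?_⟩
  have hT1 := h T ((le_max_left _ _).trans hT)
  have hTl : Real.exp l ≤ T := (le_max_right _ _).trans hT
  have hT0 : 0 < T := (Real.exp_pos _).trans_le hTl
  have hL : l ≤ Real.log T := by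
    rw [← Real.log_exp l]
    exact Real.log_le_log (Real.exp_pos _) hTl
  have hL1 : 1 ≤ Real.log T := (le_max_left _ _).trans hL
  have hLc : 2 * c' / ε ≤ Real.log T := (le_max_right _ _).trans hL
  have hL0 : 0 < Real.log T := by linarith
  have hk2 : 1 ≤ k ^ 2 := Nat.one_le_pow _ _ hk
  have hLp : Real.log T ≤ Real.log T ^ (k ^ 2) := by
    calc Real.log T = Real.log T ^ 1 := (pow_one _).symm
      _ ≤ _ := pow_le_pow_right₀ hL1 hk2
  have hN := NN_nonneg k m hT0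
  have e1 : c * (ε / (2 * (c + 1))) * (NN k m T + T) ≤ ε / 2 * (NN k m T + T * Real.log T ^ (k ^ 2)) := by
    have h2 : c * (ε / (2 * (c + 1))) ≤ ε / 2 := by
      rw [mul_div_assoc', div_le_div_iff₀ (by positivity) (by norm_num)]
      nlinarith
    have h3 : T ≤ T * Real.log T ^ (k ^ 2) := le_mul_of_one_le_right hT0.le (hL1.trans hLp)
    gcongr
  have e2 : c' * (T + NN k m T / Real.log T) ≤ ε / 2 * (NN k m T + T * Real.log T ^ (k ^ 2)) := by
    have h2 : c' ≤ ε / 2 * Real.log T := by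
      rw [div_le_iff₀ hε] at hLc
      linarith
    have h3 : c' * T ≤ ε / 2 * (T * Real.log T ^ (k ^ 2)) := by
      calc c' * T ≤ ε / 2 * Real.log T * T := by gcongr
        _ ≤ ε / 2 * Real.log T ^ (k ^ 2) * T := by gcongr
        _ = _ := by ring
    have h4 : c' * (NN k m T / Real.log T) ≤ ε / 2 * NN k m T := by
      rw [mul_div_assoc', div_le_iff₀ hL0]
      calc c' * NN k m T ≤ ε / 2 * Real.log T * NN k m T := by gcongr
        _ = _ := by ring
    rw [mul_add, mul_add]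
    linarith
  unfold Qd
  calc E T ≤ _ := hT1
    _ ≤ ε / 2 * (NN k m T + T * Real.log T ^ (k ^ 2)) + ε / 2 * (NN k m T + T * Real.log T ^ (k ^ 2)) :=
        add_le_add e1 e2
    _ = _ := by ring

/-- comparison of weighted squares -/
theorem cmp_sq {w : ℝ → ℝ} (hw : Wt w) {m : ℕ} {C T : ℝ} (hT : 0 < T)
    (hC : ∀ t, |w (t / T)| ≤ C * om m T t) {p q e : ℝ → ℝ} (hp : Continuous p) (hq : Continuous q)
    (hp0 : ∀ t, 0 ≤ p t) (hq0 : ∀ t, 0 ≤ q t) (he : ∀ t, w (t / T) ≠ 0 → |p t - q t| ≤ e t)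
    (hqi : Integrable (fun t => q t ^ 2 * om m T t)) (hei : Integrable (fun t => e t ^ 2 * om m T t))
    (hC0 : 0 ≤ C) {η : ℝ} (hη : 0 < η) :
    |(∫ t, p t ^ 2 * w (t / T)) - ∫ t, q t ^ 2 * w (t / T)| ≤
      C * (η * (∫ t, q t ^ 2 * om m T t) + (1 + 1 / η) * ∫ t, e t ^ 2 * om m T t) := by
  have i1 : Integrable (fun t => p t ^ 2 * w (t / T)) := wt_int hw hT (hp.pow 2)
  have i2 : Integrable (fun t => q t ^ 2 * w (t / T)) := wt_int hw hT (hq.pow 2)
  rw [← integral_sub i1 i2, ← integral_const_mul, ← integral_const_mul,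
    ← integral_add (hqi.const_mul _) (hei.const_mul _), ← integral_const_mul, ← Real.norm_eq_abs]
  refine norm_integral_le_of_norm_le (((hqi.const_mul _).add (hei.const_mul _)).const_mul _)
    (Eventually.of_forall fun t => ?_)
  rw [← sub_mul, norm_mul, Real.norm_eq_abs, Real.norm_eq_abs]
  have hom := om_pos m hT t
  by_cases hwt : w (t / T) = 0
  · rw [hwt, abs_zero, mul_zero]
    positivity
  · have h1 := he t hwt
    have h2 : |p t ^ 2 - q t ^ 2| ≤ η * q t ^ 2 + (1 + 1 / η) * e t ^ 2 := by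
      have e0 : 0 ≤ e t := (abs_nonneg _).trans h1
      have h3 : |p t ^ 2 - q t ^ 2| = |p t - q t| * (p t + q t) := by
        rw [show p t ^ 2 - q t ^ 2 = (p t - q t) * (p t + q t) by ring, abs_mul,
          abs_of_nonneg (add_nonneg (hp0 t) (hq0 t))]
      have h4 : p t ≤ q t + e t := by
        have := le_abs_self (p t - q t)
        linarith
      have h5 : |p t ^ 2 - q t ^ 2| ≤ e t * (2 * q t + e t) := by
        rw [h3]
        refine mul_le_mul h1 (by linarith) (add_nonneg (hp0 t) (hq0 t)) e0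
      have h6 : 2 * (q t * e t) ≤ η * q t ^ 2 + 1 / η * e t ^ 2 := by
        have h7 : 0 ≤ (η * q t - e t) ^ 2 / η := by positivity
        have h8 : (η * q t - e t) ^ 2 / η = η * q t ^ 2 + 1 / η * e t ^ 2 - 2 * (q t * e t) := by
          field_simp
          ring
        linarith
      nlinarith
    calc |p t ^ 2 - q t ^ 2| * |w (t / T)| ≤ (η * q t ^ 2 + (1 + 1 / η) * e t ^ 2) * (C * om m T t) :=
          mul_le_mul h2 (hC t) (abs_nonneg _) ((abs_nonneg _).trans h2)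
      _ = _ := by ring

section main

variable {k m : ℕ}

/-- the Dirichlet polynomial against the multiplier -/
theorem sm_DA (hDA : S_DA) (hk : 1 ≤ k) (hm : 2 * k + 2 ≤ m) {w : ℝ → ℝ} (hw : Wt w) {V : ℝ → ℝ} (hV : Tst V) :
    Sm k m (fun T => |(∫ t, ‖Dp k V T t‖ ^ 2 * w (t / T)) -
      ∫ t, ‖Aop V T (fun t => zh t ^ k) t‖ ^ 2 * w (t / T)|) := by
  obtain ⟨a, b, C, ha, hab, hC0, hC⟩ := wt_om hw m
  obtain ⟨K, T₁, hK, hD⟩ := hDA k V hV a b ha hab
  obtain ⟨K₂, hK₂, hB⟩ := t_KB m k hm _ (uu_ker hV)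
  refine sm_of hk ⟨C * K₂, by positivity, fun η hη => ⟨C * ((1 + 1 / η) * (K ^ 2 * Real.pi)), max T₁ (Real.exp 7), ?_, ?_⟩⟩
  · have := Real.pi_pos
    positivity
  intro T hT
  have hT7 : Real.exp 7 ≤ T := (le_max_right _ _).trans hT
  have hT1 : 1 ≤ T := exp7.trans hT7
  have hT1' : 1 < T := lt_of_lt_of_le (Real.one_lt_exp_iff.2 (by norm_num)) hT7
  have hT0 : 0 < T := by linarith
  have hL0 : 0 < Real.log T := Real.log_pos hT1'
  have hf : PG k (fun t => zh t ^ k) := t_ZG k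
  obtain ⟨hAi, hAle, hApg⟩ := t_AB V hV k T hT7 _ hf
  have hB' := hB T hT7 _ hf
  obtain ⟨-, -, -, -, hBi, hBle⟩ := hB'
  rw [NN_eq] at hBle
  have hqi : Integrable (fun t => ‖Aop V T (fun t => zh t ^ k) t‖ ^ 2 * om m T t) := pg_sq_int hm hT1 hApg
  have hqle : ∫ t, ‖Aop V T (fun t => zh t ^ k) t‖ ^ 2 * om m T t ≤ K₂ * NN k m T := by
    refine (integral_mono hqi hBi fun t => ?_).trans hBle
    refine mul_le_mul_of_nonneg_right ?_ (om_pos m hT0 t).le
    exact pow_le_pow_left₀ (norm_nonneg _) (hAle t) 2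
  have homi := om_integral (m := m) (by omega) hT1
  have h1 := cmp_sq hw hT0 (m := m) (C := C) (fun t => (hC T hT0 t).1) (p := fun t => ‖Dp k V T t‖)
    (q := fun t => ‖Aop V T (fun t => zh t ^ k) t‖) (e := fun _ => K) (Dp_cont hV hT1' k).norm hApg.1.norm
    (fun _ => norm_nonneg _) (fun _ => norm_nonneg _) ?_ hqi (homi.1.const_mul _) hC0 hη
  · have h2 : ∫ t, K ^ 2 * om m T t ≤ K ^ 2 * (Real.pi * T) := by
      rw [integral_const_mul]
      gcongr
      exact homi.2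
    have hN := NN_nonneg k m hT0
    calc _ ≤ _ := h1
      _ ≤ C * (η * (K₂ * NN k m T) + (1 + 1 / η) * (K ^ 2 * (Real.pi * T))) := by gcongr
      _ = C * K₂ * η * NN k m T + C * ((1 + 1 / η) * (K ^ 2 * Real.pi)) * T := by ring
      _ ≤ C * K₂ * η * (NN k m T + T) + C * ((1 + 1 / η) * (K ^ 2 * Real.pi)) * (T + NN k m T / Real.log T) := by
          have := Real.pi_pos
          have h3 : 0 ≤ NN k m T / Real.log T := by positivity
          gcongr
          · linarith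
          · linarith
  · intro t hwt
    have h3 := (hC T hT0 t).2 hwt
    exact (abs_norm_sub_norm_le _ _).trans (hD T ((le_max_left _ _).trans hT) t h3.1 h3.2)

/-- the functional equation -/
theorem sm_PH (hPH : S_PH) (hk : 1 ≤ k) (hm : 2 * k + 2 ≤ m) {w : ℝ → ℝ} (hw : Wt w) {W : ℝ → ℝ} (hW : Tst W) :
    Sm k m (fun T => |(∫ t, ‖Aop (fun x => W (k - x)) T (fun t => zh t ^ k) t‖ ^ 2 * w (t / T)) -
      ∫ t, ‖Aop W T (fun t => zh t ^ k) t‖ ^ 2 * w (t / T)|) := by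
  obtain ⟨a, b, C, ha, hab, hC0, hC⟩ := wt_om hw m
  obtain ⟨K, T₁, hK, hD⟩ := hPH k W hW a b ha hab
  obtain ⟨K₂, hK₂, hB⟩ := t_KB m k hm _ (uu_ker hW)
  obtain ⟨K₃, hK₃, hB₃⟩ := t_KB m k hm _ (uu_ker2 hW)
  refine sm_of hk ⟨C * K₂, by positivity, fun η hη => ⟨C * ((1 + 1 / η) * (K ^ 2 * K₃)), max T₁ (Real.exp 7), ?_, ?_⟩⟩
  · positivity
  intro T hT
  have hT7 : Real.exp 7 ≤ T := (le_max_right _ _).trans hT
  have hT1 : 1 ≤ T := exp7.trans hT7
  have hT1' : 1 < T := lt_of_lt_of_le (Real.one_lt_exp_iff.2 (by norm_num)) hT7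
  have hT0 : 0 < T := by linarith
  have hL1 : 1 ≤ Real.log T := by
    have : (7 : ℝ) ≤ Real.log T := by
      rw [← Real.log_exp 7]
      exact Real.log_le_log (Real.exp_pos _) hT7
    linarith
  have hL0 : 0 < Real.log T := by linarith
  have hf : PG k (fun t => zh t ^ k) := t_ZG k
  obtain ⟨hAi, hAle, hApg⟩ := t_AB W hW k T hT7 _ hf
  obtain ⟨hAi', hAle', hApg'⟩ := t_AB _ (tst_refl hW k) k T hT7 _ hf
  obtain ⟨-, -, -, -, hBi, hBle⟩ := hB T hT7 _ hf
  obtain ⟨-, -, -, -, hBi₃, hBle₃⟩ := hB₃ T hT7 _ hf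
  rw [NN_eq] at hBle hBle₃
  have hqi : Integrable (fun t => ‖Aop W T (fun t => zh t ^ k) t‖ ^ 2 * om m T t) := pg_sq_int hm hT1 hApg
  have hqle : ∫ t, ‖Aop W T (fun t => zh t ^ k) t‖ ^ 2 * om m T t ≤ K₂ * NN k m T := by
    refine (integral_mono hqi hBi fun t => ?_).trans hBle
    refine mul_le_mul_of_nonneg_right ?_ (om_pos m hT0 t).le
    exact pow_le_pow_left₀ (norm_nonneg _) (hAle t) 2
  have hei : Integrable (fun t => (K / Real.log T *
      Kop (fun ξ => ‖uu W ξ‖ * (1 + ξ ^ 2)) T (fun t => zh t ^ k) t) ^ 2 * om m T t) := by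
    have := hBi₃.const_mul ((K / Real.log T) ^ 2)
    refine this.congr (Eventually.of_forall fun t => ?_)
    simp only
    ring
  have hee : ∫ t, (K / Real.log T * Kop (fun ξ => ‖uu W ξ‖ * (1 + ξ ^ 2)) T (fun t => zh t ^ k) t) ^ 2 * om m T t ≤
      (K / Real.log T) ^ 2 * (K₃ * NN k m T) := by
    have e : (fun t => (K / Real.log T *
      Kop (fun ξ => ‖uu W ξ‖ * (1 + ξ ^ 2)) T (fun t => zh t ^ k) t) ^ 2 * om m T t) = fun t =>
      (K / Real.log T) ^ 2 * (Kop (fun ξ => ‖uu W ξ‖ * (1 + ξ ^ 2)) T (fun t => zh t ^ k) t ^ 2 * om m T t) := by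
      funext t
      ring
    rw [e, integral_const_mul]
    gcongr
  have h1 := cmp_sq hw hT0 (m := m) (C := C) (fun t => (hC T hT0 t).1)
    (p := fun t => ‖Aop (fun x => W (k - x)) T (fun t => zh t ^ k) t‖)
    (q := fun t => ‖Aop W T (fun t => zh t ^ k) t‖)
    (e := fun t => K / Real.log T * Kop (fun ξ => ‖uu W ξ‖ * (1 + ξ ^ 2)) T (fun t => zh t ^ k) t) hApg'.1.norm
    hApg.1.norm (fun _ => norm_nonneg _) (fun _ => norm_nonneg _) ?_ hqi hei hC0 hη
  · have hN := NN_nonneg k m hT0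
    have h5 : (K / Real.log T) ^ 2 ≤ K ^ 2 / Real.log T := by
      rw [div_pow]
      gcongr
      exact le_self_pow₀ hL1 two_ne_zero
    calc _ ≤ _ := h1
      _ ≤ C * (η * (K₂ * NN k m T) + (1 + 1 / η) * ((K / Real.log T) ^ 2 * (K₃ * NN k m T))) := by gcongr
      _ ≤ C * (η * (K₂ * NN k m T) + (1 + 1 / η) * (K ^ 2 / Real.log T * (K₃ * NN k m T))) := by gcongr
      _ = C * K₂ * η * NN k m T + C * ((1 + 1 / η) * (K ^ 2 * K₃)) * (NN k m T / Real.log T) := by ring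
      _ ≤ C * K₂ * η * (NN k m T + T) + C * ((1 + 1 / η) * (K ^ 2 * K₃)) * (T + NN k m T / Real.log T) := by
          gcongr
          · linarith
          · linarith
  · intro t hwt
    have h3 := (hC T hT0 t).2 hwt
    have h4 := hD T ((le_max_left _ _).trans hT) t h3.1 h3.2
    refine le_trans ?_ h4
    have h6 : ‖Aop W T (fun t => zh t ^ k) t‖ =
        ‖(starRingEnd ℂ) (XX (1 / 2 + (t : ℂ) * I)) ^ k * (starRingEnd ℂ) (Aop W T (fun t => zh t ^ k) t)‖ := by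
      rw [norm_mul, norm_pow, RCLike.norm_conj, RCLike.norm_conj, H345.norm_XX_half, one_pow, one_mul]
    rw [h6]
    exact abs_norm_sub_norm_le _ _

/-- self-adjointness -/
theorem sm_SA (hSA : S_SA) (hk : 1 ≤ k) (hm : 2 * k + 2 ≤ m) {w : ℝ → ℝ} (hw : Wt w) {V : ℝ → ℝ} (hV : Tst V) :
    Sm k m (fun T => ‖((∫ t, ‖Aop V T (fun t => zh t ^ k) t‖ ^ 2 * w (t / T) : ℝ) : ℂ) -
      ∫ t, Aop (fun x => V x ^ 2) T (fun t => zh t ^ k) t * (starRingEnd ℂ) (zh t ^ k) * (w (t / T) : ℂ)‖) := by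
  obtain ⟨K, hK, hS⟩ := hSA m k hm w hw V hV
  refine sm_of hk ⟨0, le_rfl, fun η hη => ⟨K, Real.exp 7, hK, fun T hT => ?_⟩⟩
  have hT1' : 1 < T := lt_of_lt_of_le (Real.one_lt_exp_iff.2 (by norm_num)) hT
  have hT0 : 0 < T := by linarith
  have hL0 : 0 < Real.log T := Real.log_pos hT1'
  have h1 := hS T hT _ (t_ZG k)
  rw [NN_eq] at h1
  have hN := NN_nonneg k m hT0
  have hLT : Real.log T ≤ T := (Real.log_le_sub_one_of_pos hT0).trans (by linarith)
  rw [zero_mul, zero_mul, zero_add]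
  calc _ ≤ _ := h1
    _ = K * (NN k m T / T) := by ring
    _ ≤ K * (NN k m T / Real.log T) := by gcongr
    _ ≤ K * (T + NN k m T / Real.log T) := by
        gcongr
        linarith

end main

end Pool.Agent.J6H39.CG
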