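import Pool.Agent.J6H39.CG.Fin2

/-! Project CG: the main identity, last part. -/

set_option autoImplicit false

open MeasureTheory Set Filter Topology Complex
open scoped FourierTransform ContDiff SchwartzMap

namespace Pool.Agent.J6H39.CG

open Pool.Agent.J6H39.KV (dv)
open H345 (XX)

section

variable {k m : ℕ}

/-- multipliers supported on the negative axis are bounded on `ζ^k` -/
theorem neg_mult (hDA : S_DA) {V : ℝ → ℝ} (hV : Tst V) (h0 : ∀ x, 0 ≤ x → V x = 0) {a b : ℝ} (ha : 0 < a)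
    (hab : a ≤ b) : ∃ K T₀ : ℝ, 0 ≤ K ∧ ∀ T : ℝ, T₀ ≤ T → ∀ t : ℝ, a * T ≤ t → t ≤ b * T →
      ‖Aop V T (fun t => zh t ^ k) t‖ ≤ K := by
  obtain ⟨K, T₀, hK, h⟩ := hDA k V hV a b ha hab
  refine ⟨K, max T₀ 2, hK, fun T hT t h1 h2 => ?_⟩
  have h3 := h T ((le_max_left _ _).trans hT) t h1 h2
  rw [Dp_zero h0 (by linarith [(le_max_right T₀ 2).trans hT]) k t, zero_sub, norm_neg] at h3
  exact h3

/-- multipliers supported beyond `k` are small on `ζ^k` -/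
theorem pos_mult (hDA : S_DA) (hPH : S_PH) {V : ℝ → ℝ} (hV : Tst V) (h0 : ∀ x : ℝ, x ≤ k → V x = 0) {a b : ℝ}
    (ha : 0 < a) (hab : a ≤ b) : ∃ (κ : ℝ → ℝ) (K T₀ : ℝ), Ker κ ∧ 0 ≤ K ∧ ∀ T : ℝ, T₀ ≤ T → ∀ t : ℝ,
      a * T ≤ t → t ≤ b * T →
      ‖Aop V T (fun t => zh t ^ k) t‖ ≤ K + K / Real.log T * Kop κ T (fun t => zh t ^ k) t := by
  have hV' : Tst (fun x => V (k - x)) := tst_refl hV k
  obtain ⟨K₁, T₁, hK₁, h1⟩ := neg_mult (k := k) hDA hV' (fun x hx => h0 _ (by linarith)) ha hab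
  obtain ⟨K₂, T₂, hK₂, h2⟩ := hPH k _ hV' a b ha hab
  refine ⟨_, max K₁ K₂, max (max T₁ T₂) 2, uu_ker2 hV', hK₁.trans (le_max_left _ _), fun T hT t ht1 ht2 => ?_⟩
  have hT1 : T₁ ≤ T := (le_max_left _ _).trans ((le_max_left _ _).trans hT)
  have hT2 : T₂ ≤ T := (le_max_right _ _).trans ((le_max_left _ _).trans hT)
  have hT3 : 2 ≤ T := (le_max_right _ _).trans hT
  have hL : 0 < Real.log T := Real.log_pos (by linarith)
  have e1 := h1 T hT1 t ht1 ht2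
  have e2 := h2 T hT2 t ht1 ht2
  have e3 : (fun x : ℝ => (fun x => V (k - x)) (k - x)) = V := by
    funext x
    simp
  rw [e3] at e2
  set A := Aop V T (fun t => zh t ^ k) t
  set B := (starRingEnd ℂ) (XX (1 / 2 + (t : ℂ) * I)) ^ k *
    (starRingEnd ℂ) (Aop (fun x => V (k - x)) T (fun t => zh t ^ k) t) with hB
  have e4 : ‖B‖ ≤ K₁ := by
    rw [hB, norm_mul, norm_pow, RCLike.norm_conj, RCLike.norm_conj, H345.norm_XX_half, one_pow, one_mul]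
    exact e1
  have e5 : ‖A‖ ≤ ‖A - B‖ + ‖B‖ := by
    have := norm_add_le (A - B) B
    rwa [sub_add_cancel] at this
  have hKn : 0 ≤ Kop (fun ξ => ‖uu (fun x => V (k - x)) ξ‖ * (1 + ξ ^ 2)) T (fun t => zh t ^ k) t :=
    kop_nonneg (uu_ker2 hV') _ _ _
  calc ‖A‖ ≤ ‖B‖ + ‖A - B‖ := by linarith
    _ ≤ K₁ + K₂ / Real.log T * Kop (fun ξ => ‖uu (fun x => V (k - x)) ξ‖ * (1 + ξ ^ 2)) T (fun t => zh t ^ k) t :=
        add_le_add e4 e2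
    _ ≤ _ := by
        gcongr
        · exact le_max_left _ _
        · exact le_max_right _ _

theorem num_fin {C η KR K₁ K₂ K₃ L X Y Z U T : ℝ} (hC : 0 ≤ C) (hη : 0 < η) (hKR : 0 ≤ KR)
    (hK₂ : 0 ≤ K₂) (hK₃ : 0 ≤ K₃) (hL : 0 < L) (hX : 0 ≤ X) (hT : 0 ≤ T) (h1 : Y ≤ KR * η ^ 2 * (X + T))
    (h2 : Z ≤ Real.pi * T) (h3 : U ≤ K₃ * X) (h4 : (K₂ / L) ^ 2 ≤ K₂ ^ 2 / L) :
    C * (η * X + 1 / η * (3 * Y + 3 * ((K₁ + K₂) ^ 2 * Z) + 3 * ((K₂ / L) ^ 2 * U))) ≤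
      C * (1 + 3 * KR) * η * (X + T) +
        C * (1 / η * (3 * ((K₁ + K₂) ^ 2 * Real.pi + K₂ ^ 2 * K₃))) * (T + X / L) := by
  have hpi := Real.pi_pos
  have hXL : 0 ≤ X / L := by positivity
  have a1 : η * X ≤ η * (X + T) := by gcongr; linarith
  have a2 : 1 / η * (3 * Y) ≤ 3 * KR * η * (X + T) := by
    calc 1 / η * (3 * Y) ≤ 1 / η * (3 * (KR * η ^ 2 * (X + T))) := by gcongr
      _ = _ := by field_simp
  have a3 : 1 / η * (3 * ((K₁ + K₂) ^ 2 * Z)) ≤ 1 / η * (3 * ((K₁ + K₂) ^ 2 * Real.pi)) * (T + X / L) := by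
    calc 1 / η * (3 * ((K₁ + K₂) ^ 2 * Z)) ≤ 1 / η * (3 * ((K₁ + K₂) ^ 2 * (Real.pi * T))) := by gcongr
      _ = 1 / η * (3 * ((K₁ + K₂) ^ 2 * Real.pi)) * T := by ring
      _ ≤ _ := by
        gcongr
        linarith
  have a4 : 1 / η * (3 * ((K₂ / L) ^ 2 * U)) ≤ 1 / η * (3 * (K₂ ^ 2 * K₃)) * (T + X / L) := by
    calc 1 / η * (3 * ((K₂ / L) ^ 2 * U)) ≤ 1 / η * (3 * ((K₂ / L) ^ 2 * (K₃ * X))) := by gcongr
      _ ≤ 1 / η * (3 * (K₂ ^ 2 / L * (K₃ * X))) := by gcongr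
      _ = 1 / η * (3 * (K₂ ^ 2 * K₃)) * (X / L) := by ring
      _ ≤ _ := by
        gcongr
        linarith
  have a5 : η * X + 1 / η * (3 * Y + 3 * ((K₁ + K₂) ^ 2 * Z) + 3 * ((K₂ / L) ^ 2 * U)) ≤
      (1 + 3 * KR) * η * (X + T) + 1 / η * (3 * ((K₁ + K₂) ^ 2 * Real.pi + K₂ ^ 2 * K₃)) * (T + X / L) := by
    linarith
  calc _ ≤ C * ((1 + 3 * KR) * η * (X + T) +
        1 / η * (3 * ((K₁ + K₂) ^ 2 * Real.pi + K₂ ^ 2 * K₃)) * (T + X / L)) := by gcongr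
    _ = _ := by ring

/-- the total multiplier reproduces `ζ^k` -/
theorem sm_RP (hDA : S_DA) (hPH : S_PH) (hRP : S_RP) (hk : 1 ≤ k) : ∃ m₀ : ℕ, ∀ m : ℕ, m₀ ≤ m → 2 * k + 2 ≤ m →
    ∀ {w : ℝ → ℝ}, Wt w → ∀ {V W : ℝ → ℝ}, Tst V → Tst W →
    (∀ x : ℝ, 0 ≤ x → x ≤ k → V x ^ 2 + W (k - x) ^ 2 = 1) →
    Sm k m (fun T => ‖(∫ t, Aop (fun x => V x ^ 2) T (fun t => zh t ^ k) t * (starRingEnd ℂ) (zh t ^ k) * (w (t / T) : ℂ)) +
      (∫ t, Aop (fun x => W (k - x) ^ 2) T (fun t => zh t ^ k) t * (starRingEnd ℂ) (zh t ^ k) * (w (t / T) : ℂ)) -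
      ((∫ t, ‖zh t‖ ^ (2 * k) * w (t / T) : ℝ) : ℂ)‖) := by
  obtain ⟨m₀, hm₀⟩ := hRP k
  refine ⟨m₀, fun m hm0 hm w hw V W hV hW h => ?_⟩
  obtain ⟨a, b, C, ha, hab, hC0, hC⟩ := wt_om hw m
  obtain ⟨KR, TR, hKR, hR⟩ := hm₀ m hm0 bmp bmp_tst (bmp_one (by simp))
  refine sm_of hk ⟨C * (1 + 3 * KR), by positivity, fun η hη => ?_⟩
  -- choice of `M`
  set M : ℝ := max (max 1 k) (1 / η) with hM
  have hM1 : 1 ≤ M := (le_max_left _ _).trans (le_max_left _ _)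
  have hMk : (k : ℝ) ≤ M := (le_max_right _ _).trans (le_max_left _ _)
  have hMη : 1 / η ≤ M := le_max_right _ _
  have hM0 : 0 < M := by linarith
  have hRmT := Rm_tst (k := k) hV hW hM0
  have hRpT := Rp_tst (k := k) hV hW hM0
  obtain ⟨K₁, T₁, hK₁, h1⟩ := neg_mult (k := k) hDA hRmT (fun x hx => Rm_zero hk hMk hM1 h hx) ha hab
  obtain ⟨κ, K₂, T₂, hκ, hK₂, h2⟩ := pos_mult (k := k) hDA hPH hRpT (fun x hx => Rp_zero hMk hM1 h hx) ha hab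
  obtain ⟨K₃, hK₃, hB⟩ := t_KB m k hm κ hκ
  refine ⟨C * (1 / η * (3 * ((K₁ + K₂) ^ 2 * Real.pi + K₂ ^ 2 * K₃))), max (max (max T₁ T₂) TR) (Real.exp 7), ?_, ?_⟩
  · have := Real.pi_pos
    positivity
  intro T hT
  have hT7 : Real.exp 7 ≤ T := (le_max_right _ _).trans hT
  have hT1 : 1 ≤ T := exp7.trans hT7
  have hT1' : 1 < T := lt_of_lt_of_le (Real.one_lt_exp_iff.2 (by norm_num)) hT7
  have hT0 : 0 < T := by linarith
  have hTT1 : T₁ ≤ T := (le_max_left _ _).trans ((le_max_left _ _).trans ((le_max_left _ _).trans hT))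
  have hTT2 : T₂ ≤ T := (le_max_right _ _).trans ((le_max_left _ _).trans ((le_max_left _ _).trans hT))
  have hTR : TR ≤ T := (le_max_right _ _).trans ((le_max_left _ _).trans hT)
  have hL1 : 1 ≤ Real.log T := by
    have : (7 : ℝ) ≤ Real.log T := by
      rw [← Real.log_exp 7]
      exact Real.log_le_log (Real.exp_pos _) hT7
    linarith
  have hL0 : 0 < Real.log T := by linarith
  have hN := NN_nonneg k m hT0
  have hf : PG k (fun t => zh t ^ k) := t_ZG k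
  set f : ℝ → ℂ := fun t => zh t ^ k with hfdef
  have pV := (t_AB _ (tst_sq hV) k T hT7 _ hf).2.2
  have pW := (t_AB _ (tst_sq (tst_refl hW k)) k T hT7 _ hf).2.2
  have pB := (t_AB _ (tst_scale bmp_tst hM0) k T hT7 _ hf).2.2
  obtain ⟨-, hKc, -, hfi, hKi, hKle⟩ := hB T hT7 _ hf
  rw [NN_eq] at hKle
  have hfN : ∫ t, ‖f t‖ ^ 2 * om m T t = NN k m T := NN_eq k m T
  -- `D`
  set A₁ := Aop (fun x => V x ^ 2) T f with hA₁
  set A₂ := Aop (fun x => W (k - x) ^ 2) T f with hA₂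
  set A₃ := Aop (fun x => bmp (x / M)) T f with hA₃
  have hcw : Continuous (fun t : ℝ => (w (t / T) : ℂ)) := Complex.continuous_ofReal.comp (wt_cont hw T)
  have hcf : Continuous (fun t => (starRingEnd ℂ) (f t)) := Complex.continuous_conj.comp hf.1
  have i1 : Integrable (fun t => A₁ t * (starRingEnd ℂ) (f t) * (w (t / T) : ℂ)) :=
    wt_int_c hw hT0 (φ := fun t => A₁ t * (starRingEnd ℂ) (f t)) (pV.1.mul hcf)
  have i2 : Integrable (fun t => A₂ t * (starRingEnd ℂ) (f t) * (w (t / T) : ℂ)) :=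
    wt_int_c hw hT0 (φ := fun t => A₂ t * (starRingEnd ℂ) (f t)) (pW.1.mul hcf)
  have i3 : Integrable (fun t => f t * (starRingEnd ℂ) (f t) * (w (t / T) : ℂ)) :=
    wt_int_c hw hT0 (φ := fun t => f t * (starRingEnd ℂ) (f t)) (hf.1.mul hcf)
  have e0 : ((∫ t, ‖zh t‖ ^ (2 * k) * w (t / T) : ℝ) : ℂ) = ∫ t, f t * (starRingEnd ℂ) (f t) * (w (t / T) : ℂ) := by
    rw [← integral_complex_ofReal]
    refine integral_congr_ae (Eventually.of_forall fun t => ?_)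
    simp only
    rw [Complex.mul_conj, Complex.normSq_eq_norm_sq, hfdef]
    simp only
    rw [norm_pow, ← pow_mul, mul_comm k 2]
    push_cast
    ring
  have i12 : Integrable (fun t => A₁ t * (starRingEnd ℂ) (f t) * (w (t / T) : ℂ) +
      A₂ t * (starRingEnd ℂ) (f t) * (w (t / T) : ℂ)) := i1.add i2
  rw [e0, ← integral_add i1 i2, ← integral_sub i12 i3]
  -- the majorant
  have hd1 : Integrable (fun t => ‖A₃ t - f t‖ ^ 2 * om m T t) := by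
    refine pg_sq_int (g := fun t => A₃ t - f t) hm hT1 ⟨pB.1.sub hf.1, ?_⟩
    obtain ⟨C₁, hC₁⟩ := pB.2
    obtain ⟨C₂, hC₂⟩ := hf.2
    refine ⟨C₁ + C₂, fun t => (norm_sub_le _ _).trans ?_⟩
    rw [add_mul]
    exact add_le_add (hC₁ t) (hC₂ t)
  have hRT : ∫ t, ‖A₃ t - f t‖ ^ 2 * om m T t ≤ KR / M ^ 2 * (NN k m T + T) := hR M T hM1 hTR
  have homi := om_integral (m := m) (by omega) hT1
  set bd : ℝ → ℝ := fun t => C * (η * (‖f t‖ ^ 2 * om m T t) + 1 / η * (3 * (‖A₃ t - f t‖ ^ 2 * om m T t +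
    (K₁ + K₂) ^ 2 * om m T t + (K₂ / Real.log T) ^ 2 * (Kop κ T f t ^ 2 * om m T t)))) with hbd
  have j1 : Integrable (fun t => ‖A₃ t - f t‖ ^ 2 * om m T t + (K₁ + K₂) ^ 2 * om m T t) := hd1.add (homi.1.const_mul _)
  have j2 : Integrable (fun t => (K₂ / Real.log T) ^ 2 * (Kop κ T f t ^ 2 * om m T t)) := hKi.const_mul _
  have j3 : Integrable (fun t => ‖A₃ t - f t‖ ^ 2 * om m T t + (K₁ + K₂) ^ 2 * om m T t +
      (K₂ / Real.log T) ^ 2 * (Kop κ T f t ^ 2 * om m T t)) := j1.add j2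
  have hbi : Integrable bd := ((hfi.const_mul _).add ((j3.const_mul _).const_mul _)).const_mul _
  have hbint : ∫ t, bd t = C * (η * NN k m T + 1 / η * (3 * (∫ t, ‖A₃ t - f t‖ ^ 2 * om m T t) +
      3 * ((K₁ + K₂) ^ 2 * ∫ t, om m T t) + 3 * ((K₂ / Real.log T) ^ 2 * ∫ t, Kop κ T f t ^ 2 * om m T t))) := by
    simp only [hbd]
    rw [integral_const_mul, integral_add (hfi.const_mul _) ((j3.const_mul _).const_mul _), integral_const_mul,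
      integral_const_mul, integral_const_mul, integral_add j1 j2, integral_add hd1 (homi.1.const_mul _),
      integral_const_mul, integral_const_mul, hfN]
    ring
  have hpt : ∀ t, ‖A₁ t * (starRingEnd ℂ) (f t) * (w (t / T) : ℂ) + A₂ t * (starRingEnd ℂ) (f t) * (w (t / T) : ℂ) -
      f t * (starRingEnd ℂ) (f t) * (w (t / T) : ℂ)‖ ≤ bd t := by
    intro t
    have hom := om_pos m hT0 t
    have hbd0 : 0 ≤ bd t := by
      simp only [hbd]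
      positivity
    have e1 : A₁ t * (starRingEnd ℂ) (f t) * (w (t / T) : ℂ) + A₂ t * (starRingEnd ℂ) (f t) * (w (t / T) : ℂ) -
      f t * (starRingEnd ℂ) (f t) * (w (t / T) : ℂ) = (A₁ t + A₂ t - f t) * (starRingEnd ℂ) (f t) * (w (t / T) : ℂ) := by
      ring
    rw [e1, norm_mul, norm_mul, RCLike.norm_conj, Complex.norm_real, Real.norm_eq_abs]
    by_cases hwt : w (t / T) = 0
    · rw [hwt, abs_zero, mul_zero]
      exact hbd0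
    · have h3 := (hC T hT0 t).2 hwt
      have q1 := h1 T hTT1 t h3.1 h3.2
      have q2 := h2 T hTT2 t h3.1 h3.2
      have hsp := aop_split (k := k) hV hW hM0 hT7 hf t
      set r₁ := Aop (Rm k V W M) T f t
      set r₂ := Aop (Rp k V W M) T f t
      have e2 : A₁ t + A₂ t - f t = (A₃ t - f t) - r₁ - r₂ := by
        have : A₁ t + A₂ t + r₂ + r₁ = A₃ t := hsp
        rw [← this]
        ring
      have hKn : 0 ≤ Kop κ T f t := kop_nonneg hκ _ _ _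
      have e3 : ‖A₁ t + A₂ t - f t‖ ≤ ‖A₃ t - f t‖ + (K₁ + K₂) + K₂ / Real.log T * Kop κ T f t := by
        rw [e2]
        refine (norm_sub_le _ _).trans ?_
        refine (add_le_add (norm_sub_le _ _) le_rfl).trans ?_
        linarith
      set d := ‖A₁ t + A₂ t - f t‖ with hd
      have e4 : d ^ 2 ≤ 3 * (‖A₃ t - f t‖ ^ 2 + (K₁ + K₂) ^ 2 + (K₂ / Real.log T) ^ 2 * Kop κ T f t ^ 2) := by
        set x := ‖A₃ t - f t‖
        set y := K₁ + K₂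
        set z := K₂ / Real.log T * Kop κ T f t with hz
        have hx : 0 ≤ x := norm_nonneg _
        have hy : 0 ≤ y := add_nonneg hK₁ hK₂
        have hz0 : 0 ≤ z := by positivity
        have e5 : d ^ 2 ≤ (x + y + z) ^ 2 := pow_le_pow_left₀ (norm_nonneg _) e3 2
        have e6 : (x + y + z) ^ 2 ≤ 3 * (x ^ 2 + y ^ 2 + z ^ 2) := by
          nlinarith [sq_nonneg (x - y), sq_nonneg (y - z), sq_nonneg (x - z)]
        have e7 : z ^ 2 = (K₂ / Real.log T) ^ 2 * Kop κ T f t ^ 2 := by rw [hz, mul_pow]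
        rw [← e7]
        exact e5.trans e6
      have e8 : d * ‖f t‖ ≤ η * ‖f t‖ ^ 2 + 1 / η * d ^ 2 := by
        have h7 : 0 ≤ (η * ‖f t‖ - d) ^ 2 / η := by positivity
        have h8 : (η * ‖f t‖ - d) ^ 2 / η = η * ‖f t‖ ^ 2 + 1 / η * d ^ 2 - 2 * (d * ‖f t‖) := by
          field_simp
          ring
        have h9 : 0 ≤ d * ‖f t‖ := mul_nonneg (norm_nonneg _) (norm_nonneg _)
        linarith
      calc d * ‖f t‖ * |w (t / T)| ≤ (η * ‖f t‖ ^ 2 + 1 / η * d ^ 2) * (C * om m T t) := by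
            refine mul_le_mul e8 (hC T hT0 t).1 (abs_nonneg _) ?_
            positivity
        _ ≤ (η * ‖f t‖ ^ 2 + 1 / η * (3 * (‖A₃ t - f t‖ ^ 2 + (K₁ + K₂) ^ 2 +
              (K₂ / Real.log T) ^ 2 * Kop κ T f t ^ 2))) * (C * om m T t) := by
            gcongr
        _ = bd t := by
            simp only [hbd]
            ring
  have hfin : ‖∫ t, (A₁ t * (starRingEnd ℂ) (f t) * (w (t / T) : ℂ) + A₂ t * (starRingEnd ℂ) (f t) * (w (t / T) : ℂ) -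
      f t * (starRingEnd ℂ) (f t) * (w (t / T) : ℂ))‖ ≤ ∫ t, bd t :=
    norm_integral_le_of_norm_le hbi (Eventually.of_forall hpt)
  refine hfin.trans ?_
  rw [hbint]
  have g1 : ∫ t, ‖A₃ t - f t‖ ^ 2 * om m T t ≤ KR * η ^ 2 * (NN k m T + T) := by
    refine hRT.trans ?_
    have g2 : KR / M ^ 2 ≤ KR * η ^ 2 := by
      rw [div_le_iff₀ (by positivity)]
      have g3 : 1 ≤ η * M := by
        rw [div_le_iff₀ hη] at hMη
        linarith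
      have g4 : 1 ≤ (η * M) ^ 2 := one_le_pow₀ g3
      calc KR = KR * 1 := (mul_one _).symm
        _ ≤ KR * (η * M) ^ 2 := by gcongr
        _ = _ := by ring
    gcongr
  have g5 : (K₂ / Real.log T) ^ 2 ≤ K₂ ^ 2 / Real.log T := by
    rw [div_pow]
    gcongr
    exact le_self_pow₀ hL1 two_ne_zero
  exact num_fin hC0 hη hKR hK₂ hK₃ hL0 hN hT0.le g1 homi.2 hKle g5

/-- **the main identity** -/
theorem main_id (hDA : S_DA) (hPH : S_PH) (hRP : S_RP) (hSA : S_SA) (hk : 1 ≤ k) : ∃ m₀ : ℕ, ∀ m : ℕ, m₀ ≤ m →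
    ∀ {w : ℝ → ℝ}, Wt w → ∀ {V W : ℝ → ℝ}, Tst V → Tst W →
    (∀ x : ℝ, 0 ≤ x → x ≤ k → V x ^ 2 + W (k - x) ^ 2 = 1) →
    Sm k m (fun T => |(∫ t, ‖zh t‖ ^ (2 * k) * w (t / T)) -
      ((∫ t, ‖Dp k V T t‖ ^ 2 * w (t / T)) + ∫ t, ‖Dp k W T t‖ ^ 2 * w (t / T))|) := by
  obtain ⟨m₀, hm₀⟩ := sm_RP (k := k) hDA hPH hRP hk
  refine ⟨max m₀ (2 * k + 2), fun m hm0 w hw V W hV hW h => ?_⟩
  have hm : 2 * k + 2 ≤ m := (le_max_right _ _).trans hm0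
  have s1 := sm_DA hDA hk hm hw hV
  have s2 := sm_DA hDA hk hm hw hW
  have s3 := sm_PH hPH hk hm hw hW
  have s4 := sm_SA hSA hk hm hw hV
  have s5 := sm_SA hSA hk hm hw (tst_refl hW k)
  have s6 := hm₀ m ((le_max_left _ _).trans hm0) hm hw hV hW h
  have s := ((((s1.add s2).add s3).add s4).add s5).add s6
  refine s.mono ⟨0, fun T _ => ?_⟩
  set I₁ := ∫ t, ‖Dp k V T t‖ ^ 2 * w (t / T)
  set I₂ := ∫ t, ‖Dp k W T t‖ ^ 2 * w (t / T)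
  set a₁ := ∫ t, ‖Aop V T (fun t => zh t ^ k) t‖ ^ 2 * w (t / T)
  set a₂ := ∫ t, ‖Aop W T (fun t => zh t ^ k) t‖ ^ 2 * w (t / T)
  set a₃ := ∫ t, ‖Aop (fun x => W (k - x)) T (fun t => zh t ^ k) t‖ ^ 2 * w (t / T)
  set n₀ := ∫ t, ‖zh t‖ ^ (2 * k) * w (t / T)
  set b₁ := ∫ t, Aop (fun x => V x ^ 2) T (fun t => zh t ^ k) t * (starRingEnd ℂ) (zh t ^ k) * (w (t / T) : ℂ)
  set b₂ := ∫ t, Aop (fun x => W (k - x) ^ 2) T (fun t => zh t ^ k) t * (starRingEnd ℂ) (zh t ^ k) * (w (t / T) : ℂ)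
  have e : ((n₀ - (I₁ + I₂) : ℝ) : ℂ) = -((I₁ - a₁ : ℝ) : ℂ) - ((I₂ - a₂ : ℝ) : ℂ) + ((a₃ - a₂ : ℝ) : ℂ) -
      ((a₁ : ℂ) - b₁) - ((a₃ : ℂ) - b₂) - (b₁ + b₂ - (n₀ : ℂ)) := by
    push_cast
    ring
  rw [← Real.norm_eq_abs (n₀ - (I₁ + I₂)), ← Complex.norm_real (n₀ - (I₁ + I₂)), e]
  have f1 : ‖((I₁ - a₁ : ℝ) : ℂ)‖ = |I₁ - a₁| := by rw [Complex.norm_real, Real.norm_eq_abs]
  have f2 : ‖((I₂ - a₂ : ℝ) : ℂ)‖ = |I₂ - a₂| := by rw [Complex.norm_real, Real.norm_eq_abs]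
  have f3 : ‖((a₃ - a₂ : ℝ) : ℂ)‖ = |a₃ - a₂| := by rw [Complex.norm_real, Real.norm_eq_abs]
  have g1 := norm_sub_le (-((I₁ - a₁ : ℝ) : ℂ) - ((I₂ - a₂ : ℝ) : ℂ) + ((a₃ - a₂ : ℝ) : ℂ) -
      ((a₁ : ℂ) - b₁) - ((a₃ : ℂ) - b₂)) (b₁ + b₂ - (n₀ : ℂ))
  have g2 := norm_sub_le (-((I₁ - a₁ : ℝ) : ℂ) - ((I₂ - a₂ : ℝ) : ℂ) + ((a₃ - a₂ : ℝ) : ℂ) -
      ((a₁ : ℂ) - b₁)) ((a₃ : ℂ) - b₂)
  have g3 := norm_sub_le (-((I₁ - a₁ : ℝ) : ℂ) - ((I₂ - a₂ : ℝ) : ℂ) + ((a₃ - a₂ : ℝ) : ℂ)) ((a₁ : ℂ) - b₁)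
  have g4 := norm_add_le (-((I₁ - a₁ : ℝ) : ℂ) - ((I₂ - a₂ : ℝ) : ℂ)) ((a₃ - a₂ : ℝ) : ℂ)
  have g5 := norm_sub_le (-((I₁ - a₁ : ℝ) : ℂ)) ((I₂ - a₂ : ℝ) : ℂ)
  rw [norm_neg, f1, f2] at g5
  rw [f3] at g4
  linarith

end

end Pool.Agent.J6H39.CG
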