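import Pool.Agent.J6H39.CG.Stm

/-! Project CG: a growth lemma which removes the upper bound from the hypotheses. -/

set_option autoImplicit false

open MeasureTheory Set Filter Topology Complex

namespace Pool.Agent.J6H39.CG

/-- **CG-GR**. Let `Φ(T) = ∫_0^T φ`, `Q(T) = T (log T)^p`, `N(T) = ∫ φ(t) (1+|t|/T)^(-m) dt`. If for every `ε > 0`
`∫_T^(2T) φ ≤ C_ε Q(T) + ε N(T)` for large `T`, then `Φ = O(Q)`.

Proof. By evenness and the dyadic decomposition `N(T) ≤ 2 Φ(T) + 2 ∑_{j≥0} 2^(-jm) Φ(2^(j+1) T)` (on `[2^j T, 2^(j+1) T]`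
the weight is `≤ 2^(-jm)`; integrable since `φ = O((1+|t|)^B)`, `m ≥ B+2`). Put
`c = 2 + 2 ∑_j 2^(-jm) 2^((B+1)(j+1)) (j+2)^p` (finite since `m ≥ B+2`), `ε = 1/(2c)`, and take `C, T₀` from the hypothesis,
`X = max T₀ 3`, `a_n = Φ(2^n X)`, `q_n = Q(2^n X)`. Fix `N` and let `W_n = q_n` for `n ≤ N`, `W_n = q_n 2^(B(n-N))` for
`n > N` (i.e. `W_n = q_n 2^(B (n-N))` with truncated subtraction). Then `W_{n+j} ≤ W_n 2^((B+1)j) (j+1)^p` (because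
`log (2^j Y) ≤ (j+1) log Y` for `log Y ≥ 1`), `W_i ≤ 2^(i-n) W_n` for `i ≤ n`, hence `∑_{i<n} W_i ≤ W_n`, the same for `q`,
and `q_n ≤ W_n`. `A = sup_n a_n/W_n` is finite (`Φ(T) = O(T^(B+1))` for `T ≥ 1`). So `N(2^n X) ≤ c A W_n`, hence
`a_{n+1} ≤ a_n + C q_n + A W_n/2`, and summing `a_n ≤ a_0 + C q_n + A W_n/2 ≤ (a_0/q_0 + C + A/2) W_n`. Hence
`A ≤ 2 (a_0/q_0 + C)`, a bound which does not depend on `N`; with `N = n`: `a_n ≤ 2 (a_0/q_0 + C) q_n` for all `n`. For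
`T ≥ X` take `2^n X ≤ T < 2^(n+1) X` and use monotonicity; for `2 ≤ T ≤ X` use `Φ(T) ≤ Φ(X)`. -/
def S_GR : Prop := ∀ (φ : ℝ → ℝ), Continuous φ → (∀ t, 0 ≤ φ t) → (∀ t, φ (-t) = φ t) → ∀ (p B m : ℕ), B + 2 ≤ m →
  (∃ C : ℝ, ∀ t, φ t ≤ C * (1 + |t|) ^ B) →
  (∀ ε : ℝ, 0 < ε → ∃ C T₀ : ℝ, ∀ T : ℝ, T₀ ≤ T →
    ∫ t in T..(2 * T), φ t ≤ C * (T * Real.log T ^ p) + ε * ∫ t, φ t * om m T t) →
  ∃ C₀ : ℝ, ∀ T : ℝ, 2 ≤ T → ∫ t in (0:ℝ)..T, φ t ≤ C₀ * (T * Real.log T ^ p)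

end Pool.Agent.J6H39.CG
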