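import Pool.Agent.J6H39.CG.Fin3
import Pool.Agent.J6H39.CG.Stm2

/-! Project CG: the equivalence. -/

set_option autoImplicit false

open MeasureTheory Set Filter Topology Complex
open scoped FourierTransform ContDiff SchwartzMap

namespace Pool.Agent.J6H39.CG

open Pool.Agent.J6H39.KV (dv)

theorem zh_conj (t : ℝ) : ‖zh (-t)‖ = ‖zh t‖ := by
  have h := riemannZeta_conj (1 / 2 + (t : ℂ) * I)
  have e : (starRingEnd ℂ) (1 / 2 + (t : ℂ) * I) = 1 / 2 + ((-t : ℝ) : ℂ) * I := by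
    simp [Complex.conj_ofNat]
  rw [e] at h
  unfold zh
  rw [h, RCLike.norm_conj]

theorem phi_cont (k : ℕ) : Continuous (fun t => ‖zh t‖ ^ (2 * k)) := zh_cont.norm.pow _

theorem phi_growth (k : ℕ) : ∃ C : ℝ, ∀ t, ‖zh t‖ ^ (2 * k) ≤ C * (1 + |t|) ^ (2 * k) := by
  refine ⟨16 ^ (2 * k), fun t => ?_⟩
  rw [← mul_pow]
  exact pow_le_pow_left₀ (norm_nonneg _) (zh_bound t) _

/-- a cutoff equal to one on `[1, 2]` -/
noncomputable def wone (x : ℝ) : ℝ := Real.smoothTransition (4 * x - 2) * Real.smoothTransition (3 - x)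

theorem wone_wt : Wt wone := by
  refine ⟨?_, 1 / 2, 3, by norm_num, by norm_num, fun x hx => ?_⟩
  · unfold wone
    exact (Real.smoothTransition.contDiff.comp (by fun_prop)).mul (Real.smoothTransition.contDiff.comp (by fun_prop))
  · rw [mem_Icc, not_and_or, not_le, not_le] at hx
    unfold wone
    rcases hx with hx | hx
    · rw [Real.smoothTransition.zero_of_nonpos (x := 4 * x - 2) (by linarith), zero_mul]
    · rw [Real.smoothTransition.zero_of_nonpos (x := 3 - x) (by linarith), mul_zero]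

theorem wone_nonneg (x : ℝ) : 0 ≤ wone x :=
  mul_nonneg (Real.smoothTransition.nonneg _) (Real.smoothTransition.nonneg _)

theorem wone_one {x : ℝ} (h1 : 1 ≤ x) (h2 : x ≤ 2) : wone x = 1 := by
  unfold wone
  rw [Real.smoothTransition.one_of_one_le (by linarith), Real.smoothTransition.one_of_one_le (by linarith), one_mul]

/-- an asymptotic formula gives an upper bound for all `T ≥ 2` -/
theorem ub_of_tendsto {φ : ℝ → ℝ} (hφ : Continuous φ) (h0 : ∀ t, 0 ≤ φ t) {p : ℕ} {γ : ℝ}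
    (h : Tendsto (fun T : ℝ => (∫ t in (0:ℝ)..T, φ t) / (T * Real.log T ^ p)) atTop (𝓝 γ)) :
    ∃ C₀ : ℝ, ∀ T : ℝ, 2 ≤ T → ∫ t in (0:ℝ)..T, φ t ≤ C₀ * (T * Real.log T ^ p) := by
  have h1 : ∀ᶠ T : ℝ in atTop, (∫ t in (0:ℝ)..T, φ t) / (T * Real.log T ^ p) ≤ γ + 1 :=
    h.eventually_le_const (by linarith)
  obtain ⟨T₁, hT₁⟩ := eventually_atTop.1 h1
  set X : ℝ := max T₁ 2
  have hpos : ∀ T : ℝ, 2 ≤ T → 0 < T * Real.log T ^ p := fun T hT => by
    have := Real.log_pos (show (1 : ℝ) < T by linarith)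
    positivity
  have h2 : 0 < 2 * Real.log 2 ^ p := hpos 2 le_rfl
  refine ⟨max (γ + 1) ((∫ t in (0:ℝ)..X, φ t) / (2 * Real.log 2 ^ p)), fun T hT => ?_⟩
  have hQ := hpos T hT
  rcases le_total X T with hX | hX
  · have h3 := hT₁ T ((le_max_left _ _).trans hX)
    rw [div_le_iff₀ hQ] at h3
    exact h3.trans (mul_le_mul_of_nonneg_right (le_max_left _ _) hQ.le)
  · have h4 : ∫ t in (0:ℝ)..T, φ t ≤ ∫ t in (0:ℝ)..X, φ t := by
      rw [← intervalIntegral.integral_add_adjacent_intervals (hφ.intervalIntegrable 0 T) (hφ.intervalIntegrable T X)]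
      have := intervalIntegral.integral_nonneg (μ := volume) hX (fun t _ => h0 t)
      linarith
    have h5 : 0 ≤ ∫ t in (0:ℝ)..X, φ t :=
      intervalIntegral.integral_nonneg (by linarith) (fun t _ => h0 t)
    have h6 : 2 * Real.log 2 ^ p ≤ T * Real.log T ^ p := by
      have hl2 : 0 < Real.log 2 := Real.log_pos (by norm_num)
      have : Real.log 2 ≤ Real.log T := Real.log_le_log (by norm_num) hT
      gcongr
    calc ∫ t in (0:ℝ)..T, φ t ≤ ∫ t in (0:ℝ)..X, φ t := h4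
      _ = (∫ t in (0:ℝ)..X, φ t) / (2 * Real.log 2 ^ p) * (2 * Real.log 2 ^ p) := by
          field_simp
      _ ≤ (∫ t in (0:ℝ)..X, φ t) / (2 * Real.log 2 ^ p) * (T * Real.log T ^ p) := by gcongr
      _ ≤ _ := mul_le_mul_of_nonneg_right (le_max_right _ _) hQ.le

section

variable {k : ℕ}

/-- the equivalence -/
theorem fin_equiv (hUB : S_UB) (hTB : S_TB) (hGR : S_GR) {V W : ℝ → ℝ}
    (hmain : ∃ m₀ : ℕ, ∀ m : ℕ, m₀ ≤ m → ∀ {w : ℝ → ℝ}, Wt w →
      Sm k m (fun T => |(∫ t, ‖zh t‖ ^ (2 * k) * w (t / T)) -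
        ((∫ t, ‖Dp k V T t‖ ^ 2 * w (t / T)) + ∫ t, ‖Dp k W T t‖ ^ 2 * w (t / T))|)) (γ : ℝ) :
    Tendsto (fun T : ℝ => (∫ t in (0:ℝ)..T, ‖zh t‖ ^ (2 * k)) / (T * Real.log T ^ (k ^ 2))) atTop (𝓝 γ) ↔
    ∀ w, Wt w → Tendsto (fun T : ℝ => ((∫ t, ‖Dp k V T t‖ ^ 2 * w (t / T)) + ∫ t, ‖Dp k W T t‖ ^ 2 * w (t / T)) /
      (T * Real.log T ^ (k ^ 2))) atTop (𝓝 (γ * ∫ x, w x)) := by
  obtain ⟨m₀, hmain⟩ := hmain
  set m := max m₀ (2 * k + 2) with hm
  have hm2 : 2 * k + 2 ≤ m := le_max_right _ _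
  have hs := fun {w : ℝ → ℝ} (hw : Wt w) => hmain m (le_max_left _ _) hw
  have hφ0 : ∀ t, 0 ≤ ‖zh t‖ ^ (2 * k) := fun t => by positivity
  have heven : ∀ t, ‖zh (-t)‖ ^ (2 * k) = ‖zh t‖ ^ (2 * k) := fun t => by rw [zh_conj]
  -- under the upper bound the difference is small
  have key : (∃ C₀ : ℝ, ∀ T : ℝ, 2 ≤ T → ∫ t in (0:ℝ)..T, ‖zh t‖ ^ (2 * k) ≤ C₀ * (T * Real.log T ^ (k ^ 2))) →
      ∀ w, Wt w → Tendsto (fun T : ℝ => (∫ t, ‖zh t‖ ^ (2 * k) * w (t / T)) / (T * Real.log T ^ (k ^ 2)) -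
        ((∫ t, ‖Dp k V T t‖ ^ 2 * w (t / T)) + ∫ t, ‖Dp k W T t‖ ^ 2 * w (t / T)) / (T * Real.log T ^ (k ^ 2)))
        atTop (𝓝 0) := by
    rintro ⟨C₀, hC₀⟩ w hw
    obtain ⟨K, hK, hN⟩ := hUB (fun t => ‖zh t‖ ^ (2 * k)) (phi_cont k) hφ0 heven (k ^ 2) m (by omega) C₀ hC₀
    rw [Metric.tendsto_atTop]
    intro ε hε
    obtain ⟨T₀, h⟩ := hs hw (ε / (2 * (K + 1))) (by positivity)
    refine ⟨max T₀ 3, fun T hT => ?_⟩
    have hT3 : 3 ≤ T := (le_max_right _ _).trans hT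
    have h1 := h T ((le_max_left _ _).trans hT)
    have h2 := (hN T hT3).2
    have hQ : 0 < T * Real.log T ^ (k ^ 2) := by
      have := Real.log_pos (show (1 : ℝ) < T by linarith)
      positivity
    rw [Real.dist_eq, sub_zero, ← sub_div, abs_div, abs_of_pos hQ, div_lt_iff₀ hQ]
    refine lt_of_le_of_lt h1 ?_
    unfold Qd NN
    calc ε / (2 * (K + 1)) * ((∫ t, ‖zh t‖ ^ (2 * k) * om m T t) + T * Real.log T ^ (k ^ 2))
        ≤ ε / (2 * (K + 1)) * (K * (T * Real.log T ^ (k ^ 2)) + T * Real.log T ^ (k ^ 2)) := by gcongr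
      _ = ε / 2 * (T * Real.log T ^ (k ^ 2)) := by
          field_simp
      _ < ε * (T * Real.log T ^ (k ^ 2)) := by
          have := mul_pos hε hQ
          linarith
  constructor
  · intro h w hw
    have hub := ub_of_tendsto (phi_cont k) hφ0 h
    obtain ⟨C₀, hC₀⟩ := hub
    have h1 := (hTB _ (phi_cont k) hφ0 (k ^ 2) C₀ hC₀ γ).1 h w hw
    have h2 := h1.sub (key ⟨C₀, hC₀⟩ w hw)
    simpa using h2
  · intro h
    -- the upper bound
    have hub : ∃ C₀ : ℝ, ∀ T : ℝ, 2 ≤ T → ∫ t in (0:ℝ)..T, ‖zh t‖ ^ (2 * k) ≤ C₀ * (T * Real.log T ^ (k ^ 2)) := by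
      refine hGR (fun t => ‖zh t‖ ^ (2 * k)) (phi_cont k) hφ0 heven (k ^ 2) (2 * k) m hm2 (phi_growth k) fun ε hε => ?_
      obtain ⟨T₁, h1⟩ := hs wone_wt ε hε
      have h2 := (h wone wone_wt).eventually_le_const
        (show γ * ∫ x, wone x < γ * (∫ x, wone x) + 1 by linarith)
      obtain ⟨T₂, h2⟩ := eventually_atTop.1 h2
      refine ⟨γ * (∫ x, wone x) + 1 + ε, max (max T₁ T₂) 3, fun T hT => ?_⟩
      have hT3 : 3 ≤ T := (le_max_right _ _).trans hT
      have hT0 : 0 < T := by linarith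
      have g1 := h1 T ((le_max_left _ _).trans ((le_max_left _ _).trans hT))
      have g2 := h2 T ((le_max_right _ _).trans ((le_max_left _ _).trans hT))
      have hQ : 0 < T * Real.log T ^ (k ^ 2) := by
        have := Real.log_pos (show (1 : ℝ) < T by linarith)
        positivity
      rw [div_le_iff₀ hQ] at g2
      have g3 := (le_abs_self _).trans g1
      have g4 : ∫ t in T..(2 * T), ‖zh t‖ ^ (2 * k) ≤ ∫ t, ‖zh t‖ ^ (2 * k) * wone (t / T) := by
        rw [intervalIntegral.integral_of_le (by linarith)]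
        have hi : Integrable (fun t => ‖zh t‖ ^ (2 * k) * wone (t / T)) := wt_int wone_wt hT0 (phi_cont k)
        calc ∫ t in Ioc T (2 * T), ‖zh t‖ ^ (2 * k) = ∫ t in Ioc T (2 * T), ‖zh t‖ ^ (2 * k) * wone (t / T) := by
              refine setIntegral_congr_fun measurableSet_Ioc fun t ht => ?_
              rw [wone_one, mul_one]
              · rw [le_div_iff₀ hT0]; linarith [ht.1]
              · rw [div_le_iff₀ hT0]; linarith [ht.2]
          _ ≤ ∫ t, ‖zh t‖ ^ (2 * k) * wone (t / T) :=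
              setIntegral_le_integral hi (Eventually.of_forall fun t => mul_nonneg (hφ0 t) (wone_nonneg _))
      have g5 : Qd k m T = (∫ t, ‖zh t‖ ^ (2 * k) * om m T t) + T * Real.log T ^ (k ^ 2) := rfl
      rw [g5] at g3
      linarith
    obtain ⟨C₀, hC₀⟩ := hub
    rw [hTB _ (phi_cont k) hφ0 (k ^ 2) C₀ hC₀ γ]
    intro w hw
    have h2 := (h w hw).add (key ⟨C₀, hC₀⟩ w hw)
    simpa using h2

/-! ### a cutoff for the half length -/

theorem st_symm (y : ℝ) : Real.smoothTransition (1 - y) = 1 - Real.smoothTransition y := by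
  unfold Real.smoothTransition
  have h := Real.smoothTransition.pos_denom y
  rw [sub_sub_cancel, add_comm (expNegInvGlue (1 - y)) (expNegInvGlue y)]
  field_simp
  ring

/-- the half cutoff -/
noncomputable def hc (k : ℕ) (δ x : ℝ) : ℝ :=
  Real.cos (Real.pi / 2 * Real.smoothTransition ((x - k / 2) / (2 * δ) + 1 / 2)) * Real.smoothTransition (x + 1)

theorem hc_tst (k : ℕ) {δ : ℝ} (hδ : 0 < δ) : Tst (hc k δ) := by
  refine ⟨?_, ?_⟩
  · unfold hc
    refine (Real.contDiff_cos.comp ?_).mul (Real.smoothTransition.contDiff.comp (by fun_prop))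
    exact contDiff_const.mul (Real.smoothTransition.contDiff.comp (by fun_prop))
  · refine HasCompactSupport.intro (isCompact_Icc (a := (-1 : ℝ)) (b := k / 2 + δ)) fun x hx => ?_
    rw [mem_Icc, not_and_or, not_le, not_le] at hx
    unfold hc
    rcases hx with hx | hx
    · rw [Real.smoothTransition.zero_of_nonpos (x := x + 1) (by linarith), mul_zero]
    · have h1 : 1 ≤ (x - k / 2) / (2 * δ) + 1 / 2 := by
        have : 1 / 2 ≤ (x - k / 2) / (2 * δ) := by
          rw [le_div_iff₀ (by positivity)]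
          linarith
        linarith
      rw [Real.smoothTransition.one_of_one_le h1, mul_one, Real.cos_pi_div_two, zero_mul]

theorem hc_zero (k : ℕ) {δ : ℝ} (hδ : 0 < δ) {x : ℝ} (hx : k / 2 + δ ≤ x) : hc k δ x = 0 := by
  unfold hc
  have h1 : 1 ≤ (x - k / 2) / (2 * δ) + 1 / 2 := by
    have : 1 / 2 ≤ (x - k / 2) / (2 * δ) := by
      rw [le_div_iff₀ (by positivity)]
      linarith
    linarith
  rw [Real.smoothTransition.one_of_one_le h1, mul_one, Real.cos_pi_div_two, zero_mul]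

theorem hc_sq (k : ℕ) {δ : ℝ} (hδ : 0 < δ) {x : ℝ} (h0 : 0 ≤ x) (h1 : x ≤ k) :
    hc k δ x ^ 2 + hc k δ (k - x) ^ 2 = 1 := by
  unfold hc
  rw [Real.smoothTransition.one_of_one_le (x := x + 1) (by linarith),
    Real.smoothTransition.one_of_one_le (x := (k : ℝ) - x + 1) (by linarith), mul_one, mul_one]
  have e : ((k : ℝ) - x - k / 2) / (2 * δ) + 1 / 2 = 1 - ((x - k / 2) / (2 * δ) + 1 / 2) := by
    field_simp
    ring
  rw [e, st_symm]
  have e2 : Real.pi / 2 * (1 - Real.smoothTransition ((x - k / 2) / (2 * δ) + 1 / 2)) =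
      Real.pi / 2 - Real.pi / 2 * Real.smoothTransition ((x - k / 2) / (2 * δ) + 1 / 2) := by ring
  rw [e2, Real.cos_pi_div_two_sub]
  exact Real.cos_sq_add_sin_sq _

end

end Pool.Agent.J6H39.CG
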