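import Pool.Agent.J6H39.CG.Stm

/-!
# CG-UB: an upper bound on `[0,T]` for all `T` gives the weighted one (dyadic summation).
-/

set_option autoImplicit false

open MeasureTheory Set Filter Topology

namespace Pool.Agent.J6H39.CG

namespace UBaux

theorem om_nonneg (m : ℕ) {T : ℝ} (hT : 0 < T) (t : ℝ) : 0 ≤ om m T t := by
  unfold om; positivity

theorem om_le_one (m : ℕ) {T : ℝ} (hT : 0 < T) (t : ℝ) : om m T t ≤ 1 := by
  unfold om
  refine inv_le_one_of_one_le₀ ?_
  refine one_le_pow₀ ?_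
  have : 0 ≤ |t| / T := by positivity
  linarith

theorem om_cont (m : ℕ) {T : ℝ} (hT : 0 < T) : Continuous (om m T) := by
  unfold om
  refine Continuous.inv₀ ?_ ?_
  · fun_prop
  · intro t
    have : 0 ≤ |t| / T := by positivity
    positivity

theorem om_even (m : ℕ) (T t : ℝ) : om m T (-t) = om m T t := by
  unfold om; rw [abs_neg]

/-- on `[2^n T, ∞)` the weight is at most `2^(-nm)` -/
theorem om_le (m n : ℕ) {T : ℝ} (hT : 0 < T) {t : ℝ} (ht : 2 ^ n * T ≤ t) :
    om m T t ≤ ((2 : ℝ) ^ n)⁻¹ ^ m := by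
  unfold om
  rw [← inv_pow]
  have h0 : (0:ℝ) < 2 ^ n := by positivity
  have h1 : (2 : ℝ) ^ n ≤ t / T := by rw [le_div_iff₀ hT]; exact ht
  have h2 : t ≤ |t| := le_abs_self t
  have h3 : t / T ≤ |t| / T := by gcongr
  have h4 : (2 : ℝ) ^ n ≤ 1 + |t| / T := by linarith
  gcongr

end UBaux

open UBaux

theorem t_UB : S_UB := by
  intro φ hc h0 hev p m hm C₀ hC
  have hC0 : 0 ≤ C₀ := by
    have h1 := hC 2 le_rfl
    have h2 : 0 ≤ ∫ t in (0:ℝ)..2, φ t := intervalIntegral.integral_nonneg (by norm_num) (fun t _ => h0 t)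
    have h3 : 0 < (2 : ℝ) * Real.log 2 ^ p := by
      have := Real.log_pos (by norm_num : (1:ℝ) < 2)
      positivity
    by_contra hneg
    push Not at hneg
    have := mul_neg_of_neg_of_pos hneg h3
    linarith
  have hsum : Summable (fun n : ℕ => ((n : ℝ) + 2) ^ p * (1 / 2 : ℝ) ^ n) := by
    have h1 : Summable (fun n : ℕ => ((n : ℝ)) ^ p * (1 / 2 : ℝ) ^ n) :=
      summable_pow_mul_geometric_of_norm_lt_one p (by norm_num)
    have h2 := (summable_nat_add_iff 2).2 h1
    have h3 := h2.mul_left 4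
    refine h3.congr ?_
    intro n
    push_cast
    rw [pow_add]
    ring
  set S : ℝ := ∑' n : ℕ, ((n : ℝ) + 2) ^ p * (1 / 2 : ℝ) ^ n with hS
  have hS0 : 0 ≤ S := tsum_nonneg (fun n => by positivity)
  refine ⟨2 * (C₀ * (1 + 2 * S)), by positivity, ?_⟩
  intro T hT3
  have hT : 0 < T := by linarith
  have hlog : 1 ≤ Real.log T := by
    rw [Real.le_log_iff_exp_le hT]
    have := Real.exp_one_lt_d9
    linarith
  have hcφ : Continuous (fun t => φ t * om m T t) := hc.mul (om_cont m hT)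
  have hnn : ∀ t, 0 ≤ φ t * om m T t := fun t => mul_nonneg (h0 t) (om_nonneg m hT t)
  have hii : ∀ a b : ℝ, IntervalIntegrable (fun t => φ t * om m T t) volume a b :=
    fun a b => hcφ.intervalIntegrable a b
  have hiφ : ∀ a b : ℝ, IntervalIntegrable φ volume a b := fun a b => hc.intervalIntegrable a b
  -- the bound for `∫_0^(2^n T) φ`
  have hD : ∀ n : ℕ, ∫ t in (0:ℝ)..(2 ^ n * T), φ t ≤ C₀ * (2 ^ n * ((n : ℝ) + 1) ^ p) * (T * Real.log T ^ p) := by
    intro n
    have h2 : (1 : ℝ) ≤ 2 ^ n := one_le_pow₀ (by norm_num)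
    have h3 : 2 ≤ 2 ^ n * T := by nlinarith
    have h4 := hC _ h3
    have h5 : Real.log (2 ^ n * T) ≤ ((n : ℝ) + 1) * Real.log T := by
      rw [Real.log_mul (by positivity) hT.ne', Real.log_pow]
      have h6 : Real.log 2 ≤ Real.log T := Real.log_le_log (by norm_num) (by linarith)
      have h7 : (n : ℝ) * Real.log 2 ≤ n * Real.log T := by gcongr
      linarith
    have h6 : 0 ≤ Real.log (2 ^ n * T) := Real.log_nonneg (by linarith)
    have h7 : Real.log (2 ^ n * T) ^ p ≤ (((n : ℝ) + 1) * Real.log T) ^ p := by gcongr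
    calc _ ≤ _ := h4
      _ ≤ C₀ * (2 ^ n * T * (((n : ℝ) + 1) * Real.log T) ^ p) := by gcongr
      _ = _ := by rw [mul_pow]; ring
  -- induction
  have hI : ∀ n : ℕ, ∫ t in (0:ℝ)..(2 ^ n * T), φ t * om m T t ≤
      C₀ * (1 + 2 * ∑ j ∈ Finset.range n, (((j : ℝ) + 2) ^ p * (1 / 2 : ℝ) ^ j)) * (T * Real.log T ^ p) := by
    intro n
    induction n with
    | zero =>
      have h1 := hD 0
      simp only [pow_zero, one_mul, CharP.cast_eq_zero, zero_add, one_pow, mul_one] at h1
      simp only [pow_zero, one_mul, Finset.range_zero, Finset.sum_empty, mul_zero, add_zero, mul_one]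
      refine le_trans ?_ h1
      refine intervalIntegral.integral_mono_on hT.le (hii _ _) (hiφ _ _) ?_
      intro t _
      have := om_le_one m hT t
      nlinarith [h0 t]
    | succ n ih =>
      have hsplit := intervalIntegral.integral_add_adjacent_intervals (hii 0 (2 ^ n * T))
        (hii (2 ^ n * T) (2 ^ (n + 1) * T))
      rw [← hsplit, Finset.sum_range_succ]
      have hle : (2 : ℝ) ^ n * T ≤ 2 ^ (n + 1) * T := by
        rw [pow_succ]; have : (0:ℝ) < 2 ^ n := by positivity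
        nlinarith
      have h1 : ∫ t in (2 ^ n * T)..(2 ^ (n + 1) * T), φ t * om m T t ≤
          ((2 : ℝ) ^ n)⁻¹ ^ m * ∫ t in (2 ^ n * T)..(2 ^ (n + 1) * T), φ t := by
        rw [← intervalIntegral.integral_const_mul]
        refine intervalIntegral.integral_mono_on hle (hii _ _) ((hiφ _ _).const_mul _) ?_
        intro t ht
        have := om_le m n hT ht.1
        rw [mul_comm]
        exact mul_le_mul_of_nonneg_right this (h0 t)
      have h2 : ∫ t in (2 ^ n * T)..(2 ^ (n + 1) * T), φ t ≤ ∫ t in (0:ℝ)..(2 ^ (n + 1) * T), φ t := by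
        have h3 := intervalIntegral.integral_add_adjacent_intervals (hiφ 0 (2 ^ n * T))
          (hiφ (2 ^ n * T) (2 ^ (n + 1) * T))
        have h4 : 0 ≤ ∫ t in (0:ℝ)..(2 ^ n * T), φ t :=
          intervalIntegral.integral_nonneg (by positivity) (fun t _ => h0 t)
        linarith
      have h3 := hD (n + 1)
      have h5 : ((2 : ℝ) ^ n)⁻¹ ^ m ≤ ((2 : ℝ) ^ n)⁻¹ ^ 2 := by
        refine pow_le_pow_of_le_one (by positivity) ?_ hm
        exact inv_le_one_of_one_le₀ (one_le_pow₀ (by norm_num))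
      have h6 : ∫ t in (2 ^ n * T)..(2 ^ (n + 1) * T), φ t * om m T t ≤
          ((2 : ℝ) ^ n)⁻¹ ^ 2 * (C₀ * (2 ^ (n + 1) * (((n + 1 : ℕ) : ℝ) + 1) ^ p) * (T * Real.log T ^ p)) := by
        refine h1.trans ?_
        have h7 : 0 ≤ ∫ t in (2 ^ n * T)..(2 ^ (n + 1) * T), φ t :=
          intervalIntegral.integral_nonneg hle (fun t _ => h0 t)
        refine mul_le_mul h5 (h2.trans h3) h7 (by positivity)
      have h8 : ((2 : ℝ) ^ n)⁻¹ ^ 2 * (C₀ * (2 ^ (n + 1) * (((n + 1 : ℕ) : ℝ) + 1) ^ p) * (T * Real.log T ^ p)) =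
          C₀ * (2 * (((n : ℝ) + 2) ^ p * (1 / 2 : ℝ) ^ n)) * (T * Real.log T ^ p) := by
        have h9 : ((2 : ℝ) ^ n)⁻¹ ^ 2 * 2 ^ (n + 1) = 2 * (1 / 2 : ℝ) ^ n := by
          have hh : (1 / 2 : ℝ) ^ n = ((2 : ℝ) ^ n)⁻¹ := by rw [one_div, inv_pow]
          have hx : (2 : ℝ) ^ n ≠ 0 := by positivity
          rw [hh, pow_succ (2 : ℝ) n]
          field_simp
        have h10 : (((n + 1 : ℕ) : ℝ) + 1) = (n : ℝ) + 2 := by push_cast; ring
        rw [h10]
        calc _ = (((2 : ℝ) ^ n)⁻¹ ^ 2 * 2 ^ (n + 1)) * (C₀ * ((n : ℝ) + 2) ^ p * (T * Real.log T ^ p)) := by ring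
          _ = _ := by rw [h9]; ring
      rw [h8] at h6
      calc _ ≤ _ := add_le_add ih h6
        _ = _ := by ring
  have hbound : ∀ n : ℕ, ∫ t in (-(2 ^ n * T))..(2 ^ n * T), φ t * om m T t ≤
      2 * (C₀ * (1 + 2 * S)) * (T * Real.log T ^ p) := by
    intro n
    have h1 := intervalIntegral.integral_add_adjacent_intervals (hii (-(2 ^ n * T)) 0) (hii 0 (2 ^ n * T))
    have h2 : ∫ t in (-(2 ^ n * T))..0, φ t * om m T t = ∫ t in (0:ℝ)..(2 ^ n * T), φ t * om m T t := by
      have h3 := intervalIntegral.integral_comp_neg (a := 0) (b := 2 ^ n * T) (fun t => φ t * om m T t)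
      simp only [neg_zero] at h3
      rw [← h3]
      refine intervalIntegral.integral_congr ?_
      intro t _
      simp only [hev, om_even]
    have h4 := hI n
    have h5 : ∑ j ∈ Finset.range n, (((j : ℝ) + 2) ^ p * (1 / 2 : ℝ) ^ j) ≤ S :=
      hsum.sum_le_tsum _ (fun j _ => by positivity)
    have h6 : C₀ * (1 + 2 * ∑ j ∈ Finset.range n, (((j : ℝ) + 2) ^ p * (1 / 2 : ℝ) ^ j)) * (T * Real.log T ^ p) ≤
        C₀ * (1 + 2 * S) * (T * Real.log T ^ p) := by gcongr
    rw [← h1, h2]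
    linarith
  have htop : Tendsto (fun n : ℕ => (2 : ℝ) ^ n * T) atTop atTop :=
    (tendsto_pow_atTop_atTop_of_one_lt (by norm_num)).atTop_mul_const hT
  have hbot : Tendsto (fun n : ℕ => -((2 : ℝ) ^ n * T)) atTop atBot :=
    tendsto_neg_atTop_atBot.comp htop
  have hint : Integrable (fun t => φ t * om m T t) := by
    refine integrable_of_intervalIntegral_norm_bounded (2 * (C₀ * (1 + 2 * S)) * (T * Real.log T ^ p))
      (fun n => ?_) hbot htop ?_
    · exact (hcφ.integrableOn_Icc).mono_set Ioc_subset_Icc_self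
    · refine Eventually.of_forall (fun n => ?_)
      refine le_trans (le_of_eq ?_) (hbound n)
      refine intervalIntegral.integral_congr ?_
      intro t _
      simp only [Real.norm_eq_abs, abs_of_nonneg (hnn t)]
  refine ⟨hint, ?_⟩
  have hlim := intervalIntegral_tendsto_integral hint hbot htop
  exact le_of_tendsto' hlim hbound

end Pool.Agent.J6H39.CG
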