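import Pool.Agent.J6H39.CG.Stm2
import Pool.Agent.J6H39.CG.UB

/-!
# CG-GR: the growth lemma
-/

set_option autoImplicit false

open MeasureTheory Set Filter Topology

namespace Pool.Agent.J6H39.CG

namespace GR

open UBaux

variable {φ : ℝ → ℝ}

/-- the weighted integral is at most twice a bound of the ones on `[0, 2^n T]` -/
theorem N_le (hc : Continuous φ) (h0 : ∀ t, 0 ≤ φ t) (hev : ∀ t, φ (-t) = φ t) (m : ℕ) {T : ℝ} (hT : 0 < T)
    {K : ℝ} (hK : 0 ≤ K) (h : ∀ n : ℕ, ∫ t in (0:ℝ)..(2 ^ n * T), φ t * om m T t ≤ K) :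
    ∫ t, φ t * om m T t ≤ 2 * K := by
  by_cases hint : Integrable (fun t => φ t * om m T t)
  · have hcφ : Continuous (fun t => φ t * om m T t) := hc.mul (om_cont m hT)
    have hii : ∀ a b : ℝ, IntervalIntegrable (fun t => φ t * om m T t) volume a b :=
      fun a b => hcφ.intervalIntegrable a b
    have hbound : ∀ n : ℕ, ∫ t in (-(2 ^ n * T))..(2 ^ n * T), φ t * om m T t ≤ 2 * K := by
      intro n
      have h1 := intervalIntegral.integral_add_adjacent_intervals (hii (-(2 ^ n * T)) 0) (hii 0 (2 ^ n * T))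
      have h2 : ∫ t in (-(2 ^ n * T))..0, φ t * om m T t = ∫ t in (0:ℝ)..(2 ^ n * T), φ t * om m T t := by
        have h3 := intervalIntegral.integral_comp_neg (a := 0) (b := 2 ^ n * T) (fun t => φ t * om m T t)
        simp only [neg_zero] at h3
        rw [← h3]
        refine intervalIntegral.integral_congr ?_
        intro t _
        simp only [hev, om_even]
      have h4 := h n
      rw [← h1, h2]
      linarith
    have htop : Tendsto (fun n : ℕ => (2 : ℝ) ^ n * T) atTop atTop :=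
      (tendsto_pow_atTop_atTop_of_one_lt (by norm_num)).atTop_mul_const hT
    have hbot : Tendsto (fun n : ℕ => -((2 : ℝ) ^ n * T)) atTop atBot :=
      tendsto_neg_atTop_atBot.comp htop
    exact le_of_tendsto' (intervalIntegral_tendsto_integral hint hbot htop) hbound
  · rw [integral_undef hint]
    positivity

/-- dyadic decomposition -/
theorem dyad (hc : Continuous φ) (h0 : ∀ t, 0 ≤ φ t) (m B p : ℕ) (hm : B + 2 ≤ m) {T : ℝ} (hT : 0 < T) {W : ℝ}
    (hW : ∀ n : ℕ, ∫ t in (0:ℝ)..(2 ^ n * T), φ t ≤ W * (2 ^ ((B + 1) * n) * ((n : ℝ) + 1) ^ p)) (hW0 : 0 ≤ W)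
    (n : ℕ) :
    ∫ t in (0:ℝ)..(2 ^ n * T), φ t * om m T t ≤
      W * (1 + 2 ^ (B + 1) * ∑ j ∈ Finset.range n, (((j : ℝ) + 2) ^ p * (1 / 2 : ℝ) ^ j)) := by
  have hcφ : Continuous (fun t => φ t * om m T t) := hc.mul (om_cont m hT)
  have hnn : ∀ t, 0 ≤ φ t * om m T t := fun t => mul_nonneg (h0 t) (om_nonneg m hT t)
  have hii : ∀ a b : ℝ, IntervalIntegrable (fun t => φ t * om m T t) volume a b :=
    fun a b => hcφ.intervalIntegrable a b
  have hiφ : ∀ a b : ℝ, IntervalIntegrable φ volume a b := fun a b => hc.intervalIntegrable a b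
  induction n with
  | zero =>
    have h1 := hW 0
    simp only [pow_zero, one_mul, CharP.cast_eq_zero, zero_add, one_pow, mul_one, mul_zero] at h1
    simp only [pow_zero, one_mul, Finset.range_zero, Finset.sum_empty, mul_zero, add_zero, mul_one]
    refine le_trans ?_ h1
    refine intervalIntegral.integral_mono_on hT.le (hii _ _) (hiφ _ _) ?_
    intro t _
    have := om_le_one m hT t
    nlinarith [h0 t]
  | succ n ih =>
    have hsplit := intervalIntegral.integral_add_adjacent_intervals (hii 0 (2 ^ n * T))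
      (hii (2 ^ n * T) (2 ^ (n + 1) * T))
    rw [← hsplit, Finset.sum_range_succ]
    have hle : (2 : ℝ) ^ n * T ≤ 2 ^ (n + 1) * T := by
      rw [pow_succ]; have : (0:ℝ) < 2 ^ n := by positivity
      nlinarith
    have h1 : ∫ t in (2 ^ n * T)..(2 ^ (n + 1) * T), φ t * om m T t ≤
        ((2 : ℝ) ^ n)⁻¹ ^ m * ∫ t in (2 ^ n * T)..(2 ^ (n + 1) * T), φ t := by
      rw [← intervalIntegral.integral_const_mul]
      refine intervalIntegral.integral_mono_on hle (hii _ _) ((hiφ _ _).const_mul _) ?_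
      intro t ht
      have := om_le m n hT ht.1
      rw [mul_comm]
      exact mul_le_mul_of_nonneg_right this (h0 t)
    have h2 : ∫ t in (2 ^ n * T)..(2 ^ (n + 1) * T), φ t ≤ ∫ t in (0:ℝ)..(2 ^ (n + 1) * T), φ t := by
      have h3 := intervalIntegral.integral_add_adjacent_intervals (hiφ 0 (2 ^ n * T))
        (hiφ (2 ^ n * T) (2 ^ (n + 1) * T))
      have h4 : 0 ≤ ∫ t in (0:ℝ)..(2 ^ n * T), φ t :=
        intervalIntegral.integral_nonneg (by positivity) (fun t _ => h0 t)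
      linarith
    have h3 := hW (n + 1)
    have h5 : ((2 : ℝ) ^ n)⁻¹ ^ m ≤ ((2 : ℝ) ^ n)⁻¹ ^ (B + 2) := by
      refine pow_le_pow_of_le_one (by positivity) ?_ hm
      exact inv_le_one_of_one_le₀ (one_le_pow₀ (by norm_num))
    have h6 : ∫ t in (2 ^ n * T)..(2 ^ (n + 1) * T), φ t * om m T t ≤
        ((2 : ℝ) ^ n)⁻¹ ^ (B + 2) * (W * (2 ^ ((B + 1) * (n + 1)) * (((n + 1 : ℕ) : ℝ) + 1) ^ p)) := by
      refine h1.trans ?_
      have h7 : 0 ≤ ∫ t in (2 ^ n * T)..(2 ^ (n + 1) * T), φ t :=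
        intervalIntegral.integral_nonneg hle (fun t _ => h0 t)
      refine mul_le_mul h5 (h2.trans h3) h7 (by positivity)
    have h8 : ((2 : ℝ) ^ n)⁻¹ ^ (B + 2) * (W * (2 ^ ((B + 1) * (n + 1)) * (((n + 1 : ℕ) : ℝ) + 1) ^ p)) =
        W * (2 ^ (B + 1) * (((n : ℝ) + 2) ^ p * (1 / 2 : ℝ) ^ n)) := by
      have h9 : ((2 : ℝ) ^ n)⁻¹ ^ (B + 2) * 2 ^ ((B + 1) * (n + 1)) = 2 ^ (B + 1) * (1 / 2 : ℝ) ^ n := by
        have hh : (1 / 2 : ℝ) ^ n = ((2 : ℝ) ^ n)⁻¹ := by rw [one_div, inv_pow]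
        have hx : (2 : ℝ) ^ n ≠ 0 := by positivity
        have e1 : (2 : ℝ) ^ ((B + 1) * (n + 1)) = 2 ^ (B + 1) * ((2 : ℝ) ^ n) ^ (B + 1) := by
          rw [← pow_mul, ← pow_add]
          congr 1
          ring
        rw [hh, e1, inv_pow, pow_succ ((2 : ℝ) ^ n) (B + 1)]
        field_simp
      have h10 : (((n + 1 : ℕ) : ℝ) + 1) = (n : ℝ) + 2 := by push_cast; ring
      rw [h10]
      calc _ = (((2 : ℝ) ^ n)⁻¹ ^ (B + 2) * 2 ^ ((B + 1) * (n + 1))) * (W * ((n : ℝ) + 2) ^ p) := by ring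
        _ = _ := by rw [h9]; ring
    rw [h8] at h6
    calc _ ≤ _ := add_le_add ih h6
      _ = _ := by ring

/-- the sum of the first terms of a sequence which doubles -/
theorem sum_le_of_double (w : ℕ → ℝ) (h0 : 0 ≤ w 0) (h : ∀ n, 2 * w n ≤ w (n + 1)) (n : ℕ) :
    ∑ i ∈ Finset.range n, w i ≤ w n := by
  induction n with
  | zero => simpa using h0
  | succ n ih =>
    rw [Finset.sum_range_succ]
    linarith [h n]

end GR

open GR UBaux

theorem t_GR : S_GR := by
  intro φ hc h0 hev p B m hm hgr hH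
  obtain ⟨G, hG⟩ := hgr
  have hiφ : ∀ a b : ℝ, IntervalIntegrable φ volume a b := fun a b => hc.intervalIntegrable a b
  have hmono : ∀ a b : ℝ, a ≤ b → ∫ t in (0:ℝ)..a, φ t ≤ ∫ t in (0:ℝ)..b, φ t := by
    intro a b hab
    have h3 := intervalIntegral.integral_add_adjacent_intervals (hiφ 0 a) (hiφ a b)
    have h4 : 0 ≤ ∫ t in a..b, φ t := intervalIntegral.integral_nonneg hab (fun t _ => h0 t)
    linarith
  have hnn : ∀ a : ℝ, 0 ≤ a → 0 ≤ ∫ t in (0:ℝ)..a, φ t := fun a ha =>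
    intervalIntegral.integral_nonneg ha (fun t _ => h0 t)
  have hG0 : 0 ≤ G := by
    have := (h0 0).trans (hG 0)
    simpa using this
  -- the series
  have hsum : Summable (fun n : ℕ => ((n : ℝ) + 2) ^ p * (1 / 2 : ℝ) ^ n) := by
    have h1 : Summable (fun n : ℕ => ((n : ℝ)) ^ p * (1 / 2 : ℝ) ^ n) :=
      summable_pow_mul_geometric_of_norm_lt_one p (by norm_num)
    have h2 := (summable_nat_add_iff 2).2 h1
    have h3 := h2.mul_left 4
    refine h3.congr ?_
    intro n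
    push_cast
    rw [pow_add]
    ring
  obtain ⟨S, hS⟩ : ∃ S : ℝ, S = ∑' n : ℕ, ((n : ℝ) + 2) ^ p * (1 / 2 : ℝ) ^ n := ⟨_, rfl⟩
  have hS0 : 0 ≤ S := by rw [hS]; exact tsum_nonneg (fun n => by positivity)
  obtain ⟨c, hcdef⟩ : ∃ c : ℝ, c = 2 * (1 + 2 ^ (B + 1) * S) := ⟨_, rfl⟩
  have hcpos : 0 < c := by rw [hcdef]; positivity
  obtain ⟨C1, T0, hCT⟩ := hH (1 / (2 * c)) (by positivity)
  obtain ⟨C, hCdef⟩ : ∃ C : ℝ, C = |C1| := ⟨_, rfl⟩
  have hC0 : 0 ≤ C := by rw [hCdef]; exact abs_nonneg _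
  obtain ⟨X, hXdef⟩ : ∃ X : ℝ, X = max T0 3 := ⟨_, rfl⟩
  have hX3 : 3 ≤ X := by rw [hXdef]; exact le_max_right _ _
  have hXT : T0 ≤ X := by rw [hXdef]; exact le_max_left _ _
  have hX0 : 0 < X := by linarith
  -- the sequences
  obtain ⟨a, ha⟩ : ∃ a : ℕ → ℝ, ∀ n, a n = ∫ t in (0:ℝ)..(2 ^ n * X), φ t := ⟨_, fun _ => rfl⟩
  obtain ⟨q, hq⟩ : ∃ q : ℕ → ℝ, ∀ n, q n = 2 ^ n * X * Real.log (2 ^ n * X) ^ p := ⟨_, fun _ => rfl⟩
  have hY : ∀ n : ℕ, 3 ≤ 2 ^ n * X := by
    intro n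
    have : (1:ℝ) ≤ 2 ^ n := one_le_pow₀ (by norm_num)
    nlinarith
  have hlog : ∀ T : ℝ, 3 ≤ T → 1 ≤ Real.log T := by
    intro T hT
    rw [Real.le_log_iff_exp_le (by linarith)]
    have := Real.exp_one_lt_d9
    linarith
  have ha0 : ∀ n, 0 ≤ a n := by
    intro n
    rw [ha]
    exact hnn _ (by linarith [hY n])
  have hq0 : ∀ n, 2 ^ n * X ≤ q n := by
    intro n
    rw [hq]
    exact le_mul_of_one_le_right (by positivity) (one_le_pow₀ (hlog _ (hY n)))
  have hqpos : ∀ n, 0 < q n := fun n => lt_of_lt_of_le (by positivity) (hq0 n)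
  have hq2 : ∀ n, 2 * q n ≤ q (n + 1) := by
    intro n
    rw [hq, hq]
    have h1 : (2:ℝ) ^ n * X ≤ 2 ^ (n + 1) * X := by
      rw [pow_succ]; have : (0:ℝ) < 2 ^ n := by positivity
      nlinarith
    have h2 : Real.log (2 ^ n * X) ≤ Real.log (2 ^ (n + 1) * X) := Real.log_le_log (by positivity) h1
    have h3 : 0 ≤ Real.log (2 ^ n * X) := by linarith [hlog _ (hY n)]
    have h4 : Real.log (2 ^ n * X) ^ p ≤ Real.log (2 ^ (n + 1) * X) ^ p := pow_le_pow_left₀ h3 h2 p
    calc 2 * (2 ^ n * X * Real.log (2 ^ n * X) ^ p) = 2 ^ (n + 1) * X * Real.log (2 ^ n * X) ^ p := by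
          rw [pow_succ]; ring
      _ ≤ _ := by gcongr
  have hqj : ∀ n j : ℕ, q (n + j) ≤ q n * (2 ^ j * ((j : ℝ) + 1) ^ p) := by
    intro n j
    rw [hq, hq]
    have e1 : (2:ℝ) ^ (n + j) * X = 2 ^ j * (2 ^ n * X) := by rw [pow_add]; ring
    have h5 : Real.log (2 ^ (n + j) * X) ≤ ((j : ℝ) + 1) * Real.log (2 ^ n * X) := by
      rw [e1, Real.log_mul (by positivity) (by positivity), Real.log_pow]
      have h6 : Real.log 2 ≤ Real.log (2 ^ n * X) := Real.log_le_log (by norm_num) (by linarith [hY n])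
      have h7 : (j : ℝ) * Real.log 2 ≤ j * Real.log (2 ^ n * X) := by gcongr
      linarith
    have h6 : 0 ≤ Real.log (2 ^ (n + j) * X) := by linarith [hlog _ (hY (n + j))]
    have h7 : Real.log (2 ^ (n + j) * X) ^ p ≤ (((j : ℝ) + 1) * Real.log (2 ^ n * X)) ^ p := by gcongr
    calc 2 ^ (n + j) * X * Real.log (2 ^ (n + j) * X) ^ p
        ≤ 2 ^ (n + j) * X * (((j : ℝ) + 1) * Real.log (2 ^ n * X)) ^ p := by gcongr
      _ = _ := by rw [mul_pow, pow_add]; ring
  -- the main estimate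
  obtain ⟨D, hD⟩ : ∃ D : ℝ, D = a 0 / q 0 + C := ⟨_, rfl⟩
  have hD0 : 0 ≤ D := by rw [hD]; exact add_nonneg (div_nonneg (ha0 0) (hqpos 0).le) hC0
  have hmain : ∀ N : ℕ, a N ≤ 2 * D * q N := by
    intro N
    obtain ⟨W, hW⟩ : ∃ W : ℕ → ℝ, ∀ n, W n = q n * 2 ^ (B * (n - N)) := ⟨_, fun _ => rfl⟩
    have hWq : ∀ n, q n ≤ W n := by
      intro n
      rw [hW]
      exact le_mul_of_one_le_right (hqpos n).le (one_le_pow₀ (by norm_num))
    have hWpos : ∀ n, 0 < W n := fun n => lt_of_lt_of_le (hqpos n) (hWq n)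
    have hWj : ∀ n j : ℕ, W (n + j) ≤ W n * (2 ^ ((B + 1) * j) * ((j : ℝ) + 1) ^ p) := by
      intro n j
      rw [hW, hW]
      have h1 : (2:ℝ) ^ (B * (n + j - N)) ≤ 2 ^ (B * (n - N)) * 2 ^ (B * j) := by
        rw [← pow_add, ← mul_add]
        refine pow_le_pow_right₀ (by norm_num) (Nat.mul_le_mul_left _ (by omega))
      calc q (n + j) * 2 ^ (B * (n + j - N))
          ≤ (q n * (2 ^ j * ((j : ℝ) + 1) ^ p)) * (2 ^ (B * (n - N)) * 2 ^ (B * j)) := by
            refine mul_le_mul (hqj n j) h1 (by positivity) ?_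
            have := hqpos n
            positivity
        _ = _ := by
            have : (2:ℝ) ^ ((B + 1) * j) = 2 ^ (B * j) * 2 ^ j := by
              rw [← pow_add]
              congr 1
              ring
            rw [this]
            ring
    have hW2 : ∀ n, 2 * W n ≤ W (n + 1) := by
      intro n
      rw [hW, hW]
      have h1 : (2:ℝ) ^ (B * (n - N)) ≤ 2 ^ (B * (n + 1 - N)) :=
        pow_le_pow_right₀ (by norm_num) (Nat.mul_le_mul_left _ (by omega))
      calc 2 * (q n * 2 ^ (B * (n - N))) = (2 * q n) * 2 ^ (B * (n - N)) := by ring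
        _ ≤ q (n + 1) * 2 ^ (B * (n + 1 - N)) := mul_le_mul (hq2 n) h1 (by positivity) (hqpos _).le
    -- the quotients are bounded
    have hbdd : BddAbove (range fun n => a n / W n) := by
      refine ⟨G * (2 * X) ^ (B + 1) * 2 ^ (B * N), ?_⟩
      rintro _ ⟨n, rfl⟩
      simp only
      rw [div_le_iff₀ (hWpos n), ha]
      have hY1 : 1 ≤ 2 ^ n * X := by linarith [hY n]
      have h1 : ∫ t in (0:ℝ)..(2 ^ n * X), φ t ≤ ∫ _ in (0:ℝ)..(2 ^ n * X), G * (2 * (2 ^ n * X)) ^ B := by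
        refine intervalIntegral.integral_mono_on (by positivity) (hiφ _ _) intervalIntegrable_const ?_
        intro t ht
        refine (hG t).trans ?_
        have h2 : 1 + |t| ≤ 2 * (2 ^ n * X) := by
          rw [abs_of_nonneg ht.1]
          linarith [ht.2]
        gcongr
      rw [intervalIntegral.integral_const, sub_zero, smul_eq_mul] at h1
      have h3 : (2:ℝ) ^ (B * n) ≤ 2 ^ (B * N) * 2 ^ (B * (n - N)) := by
        rw [← pow_add, ← mul_add]
        refine pow_le_pow_right₀ (by norm_num) (Nat.mul_le_mul_left _ (by omega))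
      have h4 : 2 ^ n * X * 2 ^ (B * (n - N)) ≤ W n := by
        rw [hW]
        exact mul_le_mul_of_nonneg_right (hq0 n) (by positivity)
      calc ∫ t in (0:ℝ)..(2 ^ n * X), φ t ≤ 2 ^ n * X * (G * (2 * (2 ^ n * X)) ^ B) := h1
        _ = G * (2 ^ n * X) * ((2 * X) ^ B * 2 ^ (B * n)) := by
            have : (2 * (2 ^ n * X)) ^ B = (2 * X) ^ B * (2:ℝ) ^ (B * n) := by
              rw [mul_comm B n, pow_mul, ← mul_pow]
              congr 1
              ring
            rw [this]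
            ring
        _ ≤ G * (2 ^ n * X) * ((2 * X) ^ (B + 1) * (2 ^ (B * N) * 2 ^ (B * (n - N)))) := by
            have h5 : (2 * X) ^ B ≤ (2 * X) ^ (B + 1) := pow_le_pow_right₀ (by linarith) (by omega)
            gcongr
        _ = G * (2 * X) ^ (B + 1) * 2 ^ (B * N) * (2 ^ n * X * 2 ^ (B * (n - N))) := by ring
        _ ≤ G * (2 * X) ^ (B + 1) * 2 ^ (B * N) * W n := by gcongr
    obtain ⟨A, hA⟩ : ∃ A : ℝ, A = ⨆ n, a n / W n := ⟨_, rfl⟩
    have hAn : ∀ n, a n ≤ A * W n := by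
      intro n
      rw [← div_le_iff₀ (hWpos n), hA]
      exact le_ciSup hbdd n
    have hA0 : 0 ≤ A := (div_nonneg (ha0 0) (hWpos 0).le).trans (by rw [hA]; exact le_ciSup hbdd 0)
    have hN : ∀ n : ℕ, ∫ t, φ t * om m (2 ^ n * X) t ≤ c * (A * W n) := by
      intro n
      have hTn : 0 < 2 ^ n * X := by positivity
      have hAW : 0 ≤ A * W n := mul_nonneg hA0 (hWpos n).le
      have h1 : ∀ j : ℕ, ∫ t in (0:ℝ)..(2 ^ j * (2 ^ n * X)), φ t ≤
          A * W n * (2 ^ ((B + 1) * j) * ((j : ℝ) + 1) ^ p) := by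
        intro j
        have e1 : (2:ℝ) ^ j * (2 ^ n * X) = 2 ^ (n + j) * X := by rw [pow_add]; ring
        rw [e1, ← ha]
        calc a (n + j) ≤ A * W (n + j) := hAn _
          _ ≤ A * (W n * (2 ^ ((B + 1) * j) * ((j : ℝ) + 1) ^ p)) := mul_le_mul_of_nonneg_left (hWj n j) hA0
          _ = _ := by ring
      have h2 := N_le hc h0 hev m hTn (K := A * W n * (1 + 2 ^ (B + 1) * S)) (by positivity) (fun j => by
        refine (dyad hc h0 m B p hm hTn h1 hAW j).trans ?_
        have h3 : ∑ i ∈ Finset.range j, (((i : ℝ) + 2) ^ p * (1 / 2 : ℝ) ^ i) ≤ S := by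
          rw [hS]
          exact hsum.sum_le_tsum _ (fun j _ => by positivity)
        gcongr)
      calc _ ≤ _ := h2
        _ = _ := by rw [hcdef]; ring
    have hstep : ∀ n, a (n + 1) ≤ a n + (C * q n + A / 2 * W n) := by
      intro n
      have h1 := hCT (2 ^ n * X) (hXT.trans (by
        have : (1:ℝ) ≤ 2 ^ n := one_le_pow₀ (by norm_num)
        nlinarith))
      have e1 : 2 * (2 ^ n * X) = 2 ^ (n + 1) * X := by rw [pow_succ]; ring
      rw [e1, ← hq] at h1
      have h2 := intervalIntegral.integral_add_adjacent_intervals (hiφ 0 (2 ^ n * X))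
        (hiφ (2 ^ n * X) (2 ^ (n + 1) * X))
      rw [← ha, ← ha] at h2
      have h3 : C1 * q n ≤ C * q n := by
        rw [hCdef]
        exact mul_le_mul_of_nonneg_right (le_abs_self _) (hqpos n).le
      have h4 : 1 / (2 * c) * ∫ t, φ t * om m (2 ^ n * X) t ≤ 1 / (2 * c) * (c * (A * W n)) :=
        mul_le_mul_of_nonneg_left (hN n) (by positivity)
      have h5 : 1 / (2 * c) * (c * (A * W n)) = A / 2 * W n := by
        field_simp
      linarith
    have hacc : ∀ n, a n ≤ a 0 + C * ∑ i ∈ Finset.range n, q i + A / 2 * ∑ i ∈ Finset.range n, W i := by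
      intro n
      induction n with
      | zero => simp
      | succ n ih =>
        rw [Finset.sum_range_succ, Finset.sum_range_succ, mul_add, mul_add]
        linarith [hstep n]
    have hle : ∀ n, a n / W n ≤ D + A / 2 := by
      intro n
      rw [div_le_iff₀ (hWpos n)]
      have h1 := hacc n
      have h2 := sum_le_of_double q (hqpos 0).le hq2 n
      have h3 := sum_le_of_double W (hWpos 0).le hW2 n
      have h4 : C * ∑ i ∈ Finset.range n, q i ≤ C * W n :=
        mul_le_mul_of_nonneg_left (h2.trans (hWq n)) hC0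
      have h5 : A / 2 * ∑ i ∈ Finset.range n, W i ≤ A / 2 * W n :=
        mul_le_mul_of_nonneg_left h3 (by positivity)
      have h6 : q 0 ≤ q n := by
        have hmq : Monotone q := monotone_nat_of_le_succ fun n => by linarith [hq2 n, hqpos n]
        exact hmq (Nat.zero_le n)
      have h7 : a 0 ≤ a 0 / q 0 * W n := by
        calc a 0 = a 0 / q 0 * q 0 := by rw [div_mul_cancel₀ _ (hqpos 0).ne']
          _ ≤ a 0 / q 0 * W n :=
            mul_le_mul_of_nonneg_left (h6.trans (hWq n)) (div_nonneg (ha0 0) (hqpos 0).le)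
      rw [hD]
      linarith
    have hA2 : A ≤ D + A / 2 := by
      conv_lhs => rw [hA]
      exact ciSup_le hle
    have hfin := hAn N
    have hWN : W N = q N := by
      rw [hW, Nat.sub_self, mul_zero, pow_zero, mul_one]
    rw [hWN] at hfin
    have : A * q N ≤ 2 * D * q N := mul_le_mul_of_nonneg_right (by linarith) (hqpos N).le
    linarith
  -- conclusion
  have hl2 : 0 < Real.log 2 := Real.log_pos (by norm_num)
  refine ⟨2 * D * (2 * 2 ^ p) + a 0 / Real.log 2 ^ p, fun T hT => ?_⟩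
  have hT0 : 0 < T := by linarith
  have hlT : Real.log 2 ≤ Real.log T := Real.log_le_log (by norm_num) hT
  have hlTp : Real.log 2 ^ p ≤ Real.log T ^ p := pow_le_pow_left₀ hl2.le hlT p
  have hlp : 0 < Real.log 2 ^ p := by positivity
  have hlp' : 0 < Real.log T ^ p := lt_of_lt_of_le hlp hlTp
  rw [add_mul]
  have p1 : 0 ≤ 2 * D * (2 * 2 ^ p) * (T * Real.log T ^ p) := by positivity
  have p2 : 0 ≤ a 0 / Real.log 2 ^ p * (T * Real.log T ^ p) := by
    have := ha0 0
    positivity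
  rcases le_or_gt X T with hXle | hXgt
  · obtain ⟨n, hn1, hn2⟩ := exists_nat_pow_near (x := T / X) (y := (2:ℝ)) (by rw [one_le_div hX0]; exact hXle)
      (by norm_num)
    rw [le_div_iff₀ hX0] at hn1
    rw [div_lt_iff₀ hX0] at hn2
    have h1 : ∫ t in (0:ℝ)..T, φ t ≤ a (n + 1) := by
      rw [ha]
      exact hmono _ _ hn2.le
    have h2 := hmain (n + 1)
    have h3 := hqj n 1
    have h4 : q n ≤ T * Real.log T ^ p := by
      rw [hq]
      have h5 : Real.log (2 ^ n * X) ≤ Real.log T := Real.log_le_log (by positivity) hn1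
      have h6 : 0 ≤ Real.log (2 ^ n * X) := by linarith [hlog _ (hY n)]
      have h7 : Real.log (2 ^ n * X) ^ p ≤ Real.log T ^ p := pow_le_pow_left₀ h6 h5 p
      gcongr
    have h5 : q (n + 1) ≤ (T * Real.log T ^ p) * (2 * 2 ^ p) := by
      refine h3.trans ?_
      have e : ((2:ℝ) ^ 1 * (((1:ℕ) : ℝ) + 1) ^ p) = 2 * 2 ^ p := by norm_num
      rw [e]
      gcongr
    have h6 : 2 * D * q (n + 1) ≤ 2 * D * ((T * Real.log T ^ p) * (2 * 2 ^ p)) :=
      mul_le_mul_of_nonneg_left h5 (by positivity)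
    have h7 : 2 * D * ((T * Real.log T ^ p) * (2 * 2 ^ p)) = 2 * D * (2 * 2 ^ p) * (T * Real.log T ^ p) := by ring
    linarith
  · have h1 : ∫ t in (0:ℝ)..T, φ t ≤ a 0 := by
      rw [ha, pow_zero, one_mul]
      exact hmono _ _ hXgt.le
    have h2 : a 0 ≤ a 0 / Real.log 2 ^ p * (T * Real.log T ^ p) := by
      calc a 0 = a 0 / Real.log 2 ^ p * Real.log 2 ^ p := by rw [div_mul_cancel₀ _ hlp.ne']
        _ ≤ a 0 / Real.log 2 ^ p * (T * Real.log T ^ p) := by
            refine mul_le_mul_of_nonneg_left ?_ (div_nonneg (ha0 0) hlp.le)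
            nlinarith
    linarith

end Pool.Agent.J6H39.CG
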