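import Pool.Agent.J6H39.CG.RBd

/-!
# CG-RB: moments slightly off the critical line, and the derivative
-/

set_option autoImplicit false

open MeasureTheory Set Filter Topology Complex

namespace Pool.Agent.J6H39.CG.RBx

/-- `ζ(s)^k` -/
noncomputable def Fz (k : ℕ) (s : ℂ) : ℂ := riemannZeta s ^ k

theorem Fz_diffAt (k : ℕ) {s : ℂ} (hs : s ≠ 1) : DifferentiableAt ℂ (Fz k) s :=
  (differentiableAt_riemannZeta hs).pow k

theorem zh_pow (k : ℕ) (t : ℝ) : zh t ^ k = Fz k (pt 0 t) := by
  unfold zh Fz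
  rw [pt_zero]

theorem zh_hasDeriv (k : ℕ) (t : ℝ) :
    HasDerivAt (fun t : ℝ => zh t ^ k) (deriv (Fz k) (pt 0 t) * I) t := by
  have h1 : HasDerivAt (Fz k) (deriv (Fz k) (pt 0 t)) (pt 0 t) :=
    (Fz_diffAt k (pt_ne (by norm_num) t)).hasDerivAt
  have h2 : HasDerivAt (fun t : ℝ => pt 0 t) I t := by
    unfold pt
    have h3 : HasDerivAt (fun t : ℝ => (t : ℂ) * I) (1 * I) t := (hasDerivAt_id t).ofReal_comp.mul_const I
    rw [one_mul] at h3
    exact h3.const_add _
  have h4 := HasDerivAt.comp (h := fun t : ℝ => pt 0 t) t h1 h2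
  refine h4.congr_of_eventuallyEq (Eventually.of_forall fun t => ?_)
  simp only [Function.comp]
  exact zh_pow k t

theorem deriv_zh (k : ℕ) : deriv (fun t : ℝ => zh t ^ k) = fun t => deriv (Fz k) (pt 0 t) * I :=
  funext fun t => (zh_hasDeriv k t).deriv

theorem pt_cont (x : ℝ) : Continuous (fun t : ℝ => pt x t) := by
  unfold pt
  fun_prop

theorem deriv_cont (k : ℕ) : Continuous (deriv (fun t : ℝ => zh t ^ k)) := by
  rw [deriv_zh]
  have hop : IsOpen ({1}ᶜ : Set ℂ) := isOpen_compl_singleton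
  have hd : DifferentiableOn ℂ (deriv (Fz k)) ({1}ᶜ : Set ℂ) :=
    DifferentiableOn.deriv (fun s hs => (Fz_diffAt k hs).differentiableWithinAt) hop
  refine Continuous.mul ?_ continuous_const
  rw [continuous_iff_continuousAt]
  intro t
  have hne : pt 0 t ∈ ({1}ᶜ : Set ℂ) := pt_ne (by norm_num) t
  exact ContinuousAt.comp (f := fun t : ℝ => pt 0 t)
    (hd.differentiableAt (hop.mem_nhds hne)).continuousAt (pt_cont 0).continuousAt

theorem ball_re {t r : ℝ} (hr : r ≤ 1 / 4) {z : ℂ} (hz : z ∈ Metric.closedBall (pt 0 t) r) :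
    1 / 4 ≤ z.re ∧ z.re ≤ 3 / 4 ∧ |z.im| ≤ |t| + 1 / 4 := by
  rw [Metric.mem_closedBall, dist_eq_norm] at hz
  have h1 := (abs_re_le_norm (z - pt 0 t)).trans hz
  have h2 := (abs_im_le_norm (z - pt 0 t)).trans hz
  rw [sub_re, pt_re] at h1
  rw [sub_im, pt_im] at h2
  have h3 := abs_le.1 h1
  have h4 : |z.im| ≤ |z.im - t| + |t| := by
    have := abs_add_le (z.im - t) t
    rwa [sub_add_cancel] at this
  exact ⟨by linarith [h3.1], by linarith [h3.2], by linarith⟩

theorem Fz_diffCont (k : ℕ) {t r : ℝ} (hr : r ≤ 1 / 4) : DiffContOnCl ℂ (Fz k) (Metric.ball (pt 0 t) r) := by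
  refine DifferentiableOn.diffContOnCl fun z hz => ?_
  have hz' := Metric.closure_ball_subset_closedBall hz
  exact (Fz_diffAt k (ne_one_of_re (by linarith [(ball_re hr hz').2.1]))).differentiableWithinAt

theorem deriv_PG (k : ℕ) : PG (2 * k) (deriv (fun t : ℝ => zh t ^ k)) := by
  obtain ⟨C, hC, hg⟩ := zeta_growth
  refine ⟨deriv_cont k, (C ^ k * 2 ^ (2 * k)) / (1 / 4), fun t => ?_⟩
  rw [deriv_zh]
  simp only [norm_mul, norm_I, mul_one]
  have h := Complex.norm_deriv_le_of_forall_mem_sphere_norm_le (c := pt 0 t) (R := 1 / 4)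
    (C := C ^ k * (2 * (1 + |t|)) ^ (2 * k)) (f := Fz k) (by norm_num) (Fz_diffCont k le_rfl) (by
      intro z hz
      obtain ⟨h1, h2, h3⟩ := ball_re le_rfl (Metric.sphere_subset_closedBall hz)
      have h4 := hg z (by linarith) (by linarith)
      unfold Fz
      rw [norm_pow]
      calc ‖riemannZeta z‖ ^ k ≤ (C * (2 * (1 + |t|)) ^ 2) ^ k := by
            have h5 : 1 + |z.im| ≤ 2 * (1 + |t|) := by linarith [abs_nonneg t]
            have h6 : ‖riemannZeta z‖ ≤ C * (2 * (1 + |t|)) ^ 2 := by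
              refine h4.trans ?_
              gcongr
            gcongr
        _ = _ := by rw [mul_pow, ← pow_mul])
  refine h.trans (le_of_eq ?_)
  rw [mul_pow]
  ring

/-- the mean square form of Cauchy's formula -/
theorem deriv_sq_le (k : ℕ) {t r : ℝ} (hr0 : 0 < r) (hr : r ≤ 1 / 4) :
    ‖deriv (Fz k) (pt 0 t)‖ ^ 2 ≤
      (2 * Real.pi * r ^ 2)⁻¹ * ∫ θ in (0 : ℝ)..(2 * Real.pi), ‖Fz k (circleMap (pt 0 t) r θ)‖ ^ 2 := by
  have hpi := Real.pi_pos
  set g : ℝ → ℝ := fun θ => ‖Fz k (circleMap (pt 0 t) r θ)‖ with hg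
  have hgc : Continuous g := by
    rw [continuous_iff_continuousAt]
    intro θ
    have hz : circleMap (pt 0 t) r θ ∈ Metric.closedBall (pt 0 t) r := circleMap_mem_closedBall _ hr0.le _
    have hne : circleMap (pt 0 t) r θ ≠ 1 := ne_one_of_re (by linarith [(ball_re hr hz).2.1])
    exact (ContinuousAt.comp (f := fun θ => circleMap (pt 0 t) r θ) (Fz_diffAt k hne).continuousAt
      (continuous_circleMap _ _).continuousAt).norm
  have h1 : ‖deriv (Fz k) (pt 0 t)‖ ≤ (2 * Real.pi * r)⁻¹ * ∫ θ in (0 : ℝ)..(2 * Real.pi), g θ := by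
    have e := (Fz_diffCont k (t := t) hr).deriv_eq_smul_circleIntegral hr0
    have e2 : ‖((2 : ℂ) * Real.pi * I)‖ = 2 * Real.pi := by
      rw [norm_mul, norm_mul, norm_I, Complex.norm_real, Real.norm_of_nonneg hpi.le]
      simp
    have e3 : ‖∮ z in C(pt 0 t, r), (1 / (z - pt 0 t) ^ 2) • Fz k z‖ ≤
        ∫ θ in (0 : ℝ)..(2 * Real.pi), r⁻¹ * g θ := by
      unfold circleIntegral
      refine (intervalIntegral.norm_integral_le_integral_norm (by positivity)).trans (le_of_eq ?_)
      refine intervalIntegral.integral_congr fun θ _ => ?_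
      simp only [norm_smul, hg, deriv_circleMap, norm_mul, norm_I, mul_one, norm_circleMap_zero,
        circleMap_sub_center, one_div, norm_inv, norm_pow, abs_of_pos hr0]
      field_simp
    rw [e, norm_smul, e2, intervalIntegral.integral_const_mul] at e3
    have e4 := mul_le_mul_of_nonneg_left e3 (show 0 ≤ (2 * Real.pi)⁻¹ by positivity)
    rw [inv_mul_cancel_left₀ (by positivity)] at e4
    refine e4.trans (le_of_eq ?_)
    field_simp
  have hi1 : IntervalIntegrable g volume 0 (2 * Real.pi) := hgc.intervalIntegrable _ _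
  have hi2 : IntervalIntegrable (fun θ => g θ ^ 2) volume 0 (2 * Real.pi) := (hgc.pow 2).intervalIntegrable _ _
  set A := ∫ θ in (0 : ℝ)..(2 * Real.pi), g θ with hA
  set A2 := ∫ θ in (0 : ℝ)..(2 * Real.pi), g θ ^ 2 with hA2
  have h2 : A ^ 2 ≤ 2 * Real.pi * A2 := by
    set a := A / (2 * Real.pi) with ha
    have h3 : 0 ≤ ∫ θ in (0 : ℝ)..(2 * Real.pi), (g θ - a) ^ 2 :=
      intervalIntegral.integral_nonneg (by positivity) fun θ _ => sq_nonneg _
    have e : (fun θ => (g θ - a) ^ 2) = fun θ => (g θ ^ 2 - 2 * a * g θ) + a ^ 2 := by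
      funext θ; ring
    rw [e, intervalIntegral.integral_add (hi2.sub (hi1.const_mul _)) (by simp),
      intervalIntegral.integral_sub hi2 (hi1.const_mul _), intervalIntegral.integral_const_mul,
      intervalIntegral.integral_const, smul_eq_mul, sub_zero, ← hA, ← hA2] at h3
    have e2 : A = 2 * Real.pi * a := by rw [ha]; field_simp
    rw [e2] at h3 ⊢
    have h4 : 0 ≤ A2 - 2 * Real.pi * a ^ 2 := by nlinarith
    nlinarith
  have hA0 : 0 ≤ A := intervalIntegral.integral_nonneg (by positivity) fun θ _ => norm_nonneg _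
  calc ‖deriv (Fz k) (pt 0 t)‖ ^ 2 ≤ ((2 * Real.pi * r)⁻¹ * A) ^ 2 := by gcongr
    _ = ((2 * Real.pi * r)⁻¹) ^ 2 * A ^ 2 := by ring
    _ ≤ ((2 * Real.pi * r)⁻¹) ^ 2 * (2 * Real.pi * A2) := by gcongr
    _ = (2 * Real.pi * r ^ 2)⁻¹ * A2 := by field_simp

theorem circle_eq (t r θ : ℝ) : circleMap (pt 0 t) r θ = pt (r * Real.cos θ) (t + r * Real.sin θ) := by
  apply Complex.ext
  · simp [circleMap, pt, Complex.exp_re, Complex.exp_im]
    exact Or.inl (Complex.cos_ofReal_re θ).symm
  · simp [circleMap, pt, Complex.exp_re, Complex.exp_im]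
    exact Or.inl (Complex.sin_ofReal_re θ).symm

theorem t_RB_aux : S_RB := by
  intro k
  refine ⟨4 * k + 2, fun m hm => ?_⟩
  obtain ⟨K, hK, hoff⟩ := off_line k hm
  obtain ⟨C, hC, hg⟩ := zeta_growth
  have hpi := Real.pi_pos
  obtain ⟨hPGc, D, hD⟩ := deriv_PG k
  refine ⟨K + 2 ^ m * K, Real.exp 7, by positivity, fun T hT => ?_⟩
  have hT0 : 0 < T := (Real.exp_pos 7).trans_le hT
  have hT1 : 1 ≤ T := (Real.one_le_exp (by norm_num)).trans hT
  have hL : 7 ≤ Real.log T := (Real.le_log_iff_exp_le hT0).2 hT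
  have hL0 : 0 < Real.log T := by linarith
  set L := Real.log T with hLdef
  set r := 1 / L with hr
  have hr0 : 0 < r := by positivity
  have hr7 : r ≤ 1 / 7 := by
    rw [hr, div_le_div_iff₀ hL0 (by norm_num)]
    linarith
  have hN0 : 0 ≤ NN k m T := integral_nonneg fun t => mul_nonneg (by positivity) (om_nonneg m hT0 t)
  have hderint : Integrable (fun t => ‖deriv (fun t => zh t ^ k) t‖ ^ 2 * om m T t) := by
    refine ((integrable_om hm hT1).const_mul (D ^ 2)).mono' ?_ (Eventually.of_forall fun t => ?_)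
    · exact ((hPGc.norm.pow 2).mul (om_cont m hT0)).aestronglyMeasurable
    · rw [Real.norm_of_nonneg (mul_nonneg (by positivity) (om_nonneg m hT0 t))]
      have h1 : ‖deriv (fun t => zh t ^ k) t‖ ^ 2 ≤ (D * (1 + |t|) ^ (2 * k)) ^ 2 :=
        pow_le_pow_left₀ (norm_nonneg _) (hD t) 2
      have h2 : (D * (1 + |t|) ^ (2 * k)) ^ 2 = D ^ 2 * (1 + |t|) ^ (4 * k) := by
        rw [mul_pow, ← pow_mul]; ring_nf
      rw [h2] at h1
      rw [← mul_assoc]
      exact mul_le_mul_of_nonneg_right h1 (om_nonneg m hT0 t)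
  refine ⟨fun x hx => ?_, fun t => (zh_hasDeriv k t).differentiableAt, ⟨2 * k, deriv_PG k⟩, hderint, ?_⟩
  · obtain ⟨h1, h2⟩ := hoff T hT x hx
    refine ⟨h1, h2.trans ?_⟩
    have h3 : 0 ≤ 2 ^ m * K * (NN k m T + T) := by positivity
    nlinarith
  · -- the product function
    set Q : ℝ → ℝ → ℝ := fun t θ => ‖riemannZeta (pt (r * Real.cos θ) (t + r * Real.sin θ))‖ ^ (2 * k) * om m T t
      with hQ
    have hrc : ∀ θ : ℝ, |r * Real.cos θ| ≤ r := by
      intro θ
      rw [abs_mul, abs_of_pos hr0]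
      nlinarith [Real.abs_cos_le_one θ]
    have hrs : ∀ θ : ℝ, |r * Real.sin θ| ≤ r := by
      intro θ
      rw [abs_mul, abs_of_pos hr0]
      nlinarith [Real.abs_sin_le_one θ]
    have hQc : Continuous (Function.uncurry Q) := by
      simp only [hQ, Function.uncurry_def]
      refine Continuous.mul (Continuous.pow (Continuous.norm ?_) _) ((om_cont m hT0).comp continuous_fst)
      rw [continuous_iff_continuousAt]
      rintro ⟨t, θ⟩
      have hne : pt (r * Real.cos θ) (t + r * Real.sin θ) ≠ 1 :=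
        pt_ne (by linarith [(abs_le.1 (hrc θ)).2]) _
      refine ContinuousAt.comp (f := fun z : ℝ × ℝ => pt (r * Real.cos z.2) (z.1 + r * Real.sin z.2))
        (differentiableAt_riemannZeta hne).continuousAt ?_
      unfold pt
      fun_prop
    have hQi : Integrable (Function.uncurry Q)
        ((volume : Measure ℝ).prod ((volume : Measure ℝ).restrict (Ioc 0 (2 * Real.pi)))) := by
      have h1 := ((integrable_om hm hT1).mul_prod
        (integrable_const (μ := (volume : Measure ℝ).restrict (Ioc 0 (2 * Real.pi))) (1 : ℝ))).const_mul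
        (C ^ (2 * k) * 2 ^ (4 * k))
      refine h1.mono' hQc.aestronglyMeasurable (Eventually.of_forall fun z => ?_)
      obtain ⟨t, θ⟩ := z
      simp only [hQ, Function.uncurry_apply_pair]
      have ho := om_nonneg m hT0 t
      rw [Real.norm_of_nonneg (mul_nonneg (by positivity) ho)]
      have h2 := abs_le.1 (hrc θ)
      have h3 := hg (pt (r * Real.cos θ) (t + r * Real.sin θ)) (by rw [pt_re]; linarith [h2.1])
        (by rw [pt_re]; linarith [h2.2])
      rw [pt_im] at h3
      have h4 : 1 + |t + r * Real.sin θ| ≤ 2 * (1 + |t|) := by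
        have := abs_add_le t (r * Real.sin θ)
        have := hrs θ
        linarith [abs_nonneg t]
      have h5 : ‖riemannZeta (pt (r * Real.cos θ) (t + r * Real.sin θ))‖ ≤ C * (2 * (1 + |t|)) ^ 2 := by
        refine h3.trans ?_
        gcongr
      calc ‖riemannZeta (pt (r * Real.cos θ) (t + r * Real.sin θ))‖ ^ (2 * k) * om m T t ≤
          (C * (2 * (1 + |t|)) ^ 2) ^ (2 * k) * om m T t := by gcongr
        _ = _ := by
          have e5 : ∀ X : ℝ, (C * (2 * X) ^ 2) ^ (2 * k) = C ^ (2 * k) * 2 ^ (4 * k) * X ^ (4 * k) := by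
            intro X
            rw [mul_pow, ← pow_mul, mul_pow]
            ring_nf
          rw [e5]
          ring
    have hswap : ∫ t, ∫ θ in Ioc 0 (2 * Real.pi), Q t θ = ∫ θ in Ioc 0 (2 * Real.pi), ∫ t, Q t θ :=
      integral_integral_swap hQi
    have hpoint : ∀ t : ℝ, ‖deriv (fun t => zh t ^ k) t‖ ^ 2 * om m T t ≤
        (2 * Real.pi * r ^ 2)⁻¹ * ∫ θ in Ioc 0 (2 * Real.pi), Q t θ := by
      intro t
      have h1 := deriv_sq_le k (t := t) hr0 (by linarith)
      rw [intervalIntegral.integral_of_le (by positivity)] at h1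
      have h2 : ‖deriv (fun t => zh t ^ k) t‖ = ‖deriv (Fz k) (pt 0 t)‖ := by
        rw [deriv_zh]
        simp
      have h3 : ∫ θ in Ioc 0 (2 * Real.pi), Q t θ =
          (∫ θ in Ioc 0 (2 * Real.pi), ‖Fz k (circleMap (pt 0 t) r θ)‖ ^ 2) * om m T t := by
        rw [← integral_mul_const]
        refine integral_congr_ae (Eventually.of_forall fun θ => ?_)
        simp only [hQ]
        unfold Fz
        rw [circle_eq, norm_pow, ← pow_mul, mul_comm k 2]
      rw [h2, h3, ← mul_assoc]
      exact mul_le_mul_of_nonneg_right h1 (om_nonneg m hT0 t)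
    have hinner : ∀ θ : ℝ, ∫ t, Q t θ ≤ 2 ^ m * (K * (NN k m T + T)) := by
      intro θ
      obtain ⟨a1, a2⟩ := hoff T hT (r * Real.cos θ) (hrc θ)
      set s := r * Real.sin θ with hs
      set φ : ℝ → ℝ := fun t => ‖riemannZeta (pt (r * Real.cos θ) t)‖ ^ (2 * k) with hφ
      have e : ∫ t, Q t θ = ∫ t, φ t * om m T (t - s) := by
        rw [← integral_add_right_eq_self (fun t => φ t * om m T (t - s)) s]
        refine integral_congr_ae (Eventually.of_forall fun t => ?_)
        simp only [hQ, hφ, add_sub_cancel_right]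
        rfl
      rw [e]
      have hb : ∀ t, φ t * om m T (t - s) ≤ 2 ^ m * (φ t * om m T t) := by
        intro t
        have h1 := om_shift' m hT1 t (-s)
        rw [abs_neg, ← sub_eq_add_neg] at h1
        have h2 : (1 + |s|) ^ m ≤ 2 ^ m := by
          have := hrs θ
          rw [← hs] at this
          gcongr
          linarith
        have h3 := om_nonneg m hT0 t
        have h4 : om m T (t - s) ≤ 2 ^ m * om m T t := h1.trans (mul_le_mul_of_nonneg_right h2 h3)
        have h5 : 0 ≤ φ t := by positivity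
        calc φ t * om m T (t - s) ≤ φ t * (2 ^ m * om m T t) := mul_le_mul_of_nonneg_left h4 h5
          _ = _ := by ring
      have hφi : Integrable (fun t => φ t * om m T (t - s)) := by
        refine (a1.const_mul (2 ^ m)).mono' ?_ (Eventually.of_forall fun t => ?_)
        · refine (Continuous.mul ((zeta_pt_cont ?_).norm.pow _) ((om_cont m hT0).comp (by fun_prop))).aestronglyMeasurable
          linarith [(abs_le.1 (hrc θ)).2]
        · rw [Real.norm_of_nonneg (mul_nonneg (by positivity) (om_nonneg m hT0 _))]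
          exact hb t
      refine (integral_mono hφi (a1.const_mul (2 ^ m)) hb).trans ?_
      rw [integral_const_mul]
      exact mul_le_mul_of_nonneg_left a2 (by positivity)
    have hθi : Integrable (fun θ => ∫ t, Q t θ) ((volume : Measure ℝ).restrict (Ioc 0 (2 * Real.pi))) :=
      hQi.integral_prod_right
    have hti : Integrable (fun t => ∫ θ in Ioc 0 (2 * Real.pi), Q t θ) := hQi.integral_prod_left
    have hfin : ∫ θ in Ioc 0 (2 * Real.pi), ∫ t, Q t θ ≤ 2 * Real.pi * (2 ^ m * (K * (NN k m T + T))) := by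
      refine (integral_mono hθi (integrable_const _) hinner).trans (le_of_eq ?_)
      rw [integral_const, smul_eq_mul]
      congr 1
      simp [hpi.le]
    calc ∫ t, ‖deriv (fun t => zh t ^ k) t‖ ^ 2 * om m T t ≤
        ∫ t, (2 * Real.pi * r ^ 2)⁻¹ * ∫ θ in Ioc 0 (2 * Real.pi), Q t θ :=
          integral_mono hderint (hti.const_mul _) hpoint
      _ = (2 * Real.pi * r ^ 2)⁻¹ * ∫ θ in Ioc 0 (2 * Real.pi), ∫ t, Q t θ := by
          rw [integral_const_mul, hswap]
      _ ≤ (2 * Real.pi * r ^ 2)⁻¹ * (2 * Real.pi * (2 ^ m * (K * (NN k m T + T)))) := by gcongr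
      _ = 2 ^ m * K * L ^ 2 * (NN k m T + T) := by
          rw [hr]
          field_simp
      _ ≤ (K + 2 ^ m * K) * L ^ 2 * (NN k m T + T) := by
          have : 0 ≤ K * L ^ 2 * (NN k m T + T) := by positivity
          nlinarith

/-- **CG-RB.** -/
theorem t_RB (_hZG : S_ZG) : S_RB := t_RB_aux

end Pool.Agent.J6H39.CG.RBx
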