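import Pool.Agent.J6H39.CG.Stm

/-!
# Project CG: reproduction (`S_RP`)
-/

set_option autoImplicit false

open MeasureTheory Set Filter Topology Complex
open scoped FourierTransform ContDiff ENNReal

namespace Pool.Agent.J6H39.CG

namespace RPaux

/-- Cauchy-Schwarz -/
lemma cs {α : Type*} [MeasurableSpace α] (ν : Measure α) {g : α → ℝ≥0∞} (hg : AEMeasurable g ν) :
    (∫⁻ x, g x ∂ν) ^ 2 ≤ ν univ * ∫⁻ x, g x ^ 2 ∂ν := by
  have h := ENNReal.lintegral_mul_le_Lp_mul_Lq ν (p := 2) (q := 2)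
    (by constructor <;> norm_num) hg (g := fun _ => 1) aemeasurable_const
  have h1 : ∫⁻ x, (g * (fun _ => 1 : α → ℝ≥0∞)) x ∂ν = ∫⁻ x, g x ∂ν := by simp
  rw [h1] at h
  have h2 : ∫⁻ _ : α, (1 : ℝ≥0∞) ^ (2 : ℝ) ∂ν = ν univ := by simp
  rw [h2] at h
  have h3 : ∫⁻ x, g x ^ (2 : ℝ) ∂ν = ∫⁻ x, g x ^ 2 ∂ν := by
    refine lintegral_congr fun x => ?_
    rw [← ENNReal.rpow_natCast]
    norm_num
  rw [h3] at h
  calc (∫⁻ x, g x ∂ν) ^ 2 ≤ ((∫⁻ x, g x ^ 2 ∂ν) ^ (1 / (2 : ℝ)) * ν univ ^ (1 / (2 : ℝ))) ^ 2 := by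
        gcongr
    _ = ν univ * ∫⁻ x, g x ^ 2 ∂ν := by
        rw [mul_pow, ← ENNReal.rpow_natCast, ← ENNReal.rpow_natCast, ← ENNReal.rpow_mul,
          ← ENNReal.rpow_mul]
        norm_num
        rw [mul_comm]

/-- the weight at nearby points -/
lemma om_shift (m : ℕ) {T : ℝ} (hT : 1 ≤ T) (t δ : ℝ) :
    om m T (t + δ) ≤ (1 + |δ|) ^ m * om m T t := by
  unfold om
  have hT0 : 0 < T := by linarith
  have h1 : 1 + |t| / T ≤ (1 + |δ|) * (1 + |t + δ| / T) := by
    have h2 : |t| ≤ |t + δ| + |δ| := by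
      have := abs_sub (t + δ) δ
      rwa [add_sub_cancel_right] at this
    have h3 : |t| / T ≤ |t + δ| / T + |δ| / T := by
      rw [← add_div]
      gcongr
    have h4 : |δ| / T ≤ |δ| := div_le_self (abs_nonneg _) hT
    have h5 : 0 ≤ |δ| * (|t + δ| / T) := by positivity
    nlinarith
  rw [inv_le_iff_one_le_mul₀ (by positivity), mul_assoc, mul_comm _ ((1 + |t + δ| / T) ^ m),
    ← mul_assoc, ← mul_pow]
  rw [← div_eq_mul_inv, one_le_div₀ (by positivity)]
  gcongr

lemma om_nonneg (m : ℕ) {T : ℝ} (hT : 0 ≤ T) (t : ℝ) : 0 ≤ om m T t := by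
  unfold om
  positivity

lemma om_cont (m : ℕ) {T : ℝ} (hT : 0 < T) : Continuous (om m T) := by
  unfold om
  refine Continuous.inv₀ (by fun_prop) fun t => ?_
  positivity

lemma NN_nonneg (k m : ℕ) {T : ℝ} (hT : 0 ≤ T) : 0 ≤ NN k m T := by
  unfold NN
  refine integral_nonneg fun t => ?_
  have := om_nonneg m hT t
  positivity

/-- the increments of a differentiable function -/
lemma incr {f : ℝ → ℂ} (hf : Differentiable ℝ f) (hf' : Continuous (deriv f)) (t δ : ℝ) :
    ‖f (t - δ) - f t‖ₑ ≤ ‖δ‖ₑ * ∫⁻ σ in Ioc (0 : ℝ) 1, ‖deriv f (t - σ * δ)‖ₑ := by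
  have h1 : f (t - δ) - f t = ∫ σ in (0 : ℝ)..1, (-δ : ℝ) • deriv f (t - σ * δ) := by
    have h2 : ∀ σ ∈ uIcc (0 : ℝ) 1, HasDerivAt (fun σ => f (t - σ * δ))
        ((-δ : ℝ) • deriv f (t - σ * δ)) σ := by
      intro σ _
      have h3 := (hf (t - σ * δ)).hasDerivAt
      have h4 : HasDerivAt (fun σ : ℝ => t - σ * δ) (-δ) σ := by
        have := ((hasDerivAt_id σ).mul_const δ).const_sub t
        simpa using this
      exact h3.scomp σ h4
    rw [intervalIntegral.integral_eq_sub_of_hasDerivAt h2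
      (Continuous.intervalIntegrable (by fun_prop) _ _)]
    simp
  rw [h1, intervalIntegral.integral_of_le zero_le_one]
  refine (enorm_integral_le_lintegral_enorm _).trans ?_
  rw [← lintegral_const_mul _ (by fun_prop)]
  refine lintegral_mono fun σ => ?_
  rw [enorm_smul, enorm_neg]

end RPaux

open RPaux

theorem t_RP (hF : S_F) (hZG : S_ZG) (hAB : S_AB) (hRB : S_RB) : S_RP := by
  intro k
  obtain ⟨m₀, hm₀⟩ := hRB k
  refine ⟨m₀, fun m hm V hV hV0 => ?_⟩
  obtain ⟨K, T₀, hK, hb⟩ := hm₀ m hm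
  obtain ⟨hFc, hFk, -, hFinv, -, -, -, -, hFM⟩ := hF V hV
  set u := uu V with hu
  set c1 : ℝ := ∫ ξ, (1 + |ξ|) ^ 1 * ‖u ξ‖ with hc1
  set c2 : ℝ := ∫ ξ, (1 + |ξ|) ^ (m + 1) * ‖u ξ‖ with hc2
  have hc10 : 0 ≤ c1 := integral_nonneg fun ξ => by positivity
  have hc20 : 0 ≤ c2 := integral_nonneg fun ξ => by positivity
  have hU : ∫ ξ, u ξ = 1 := by
    have := hFinv 0
    simpa [hV0] using this
  refine ⟨(2 * Real.pi) ^ 2 * c1 * c2 * K, max T₀ (Real.exp 7), by positivity,
    fun M T hM hT => ?_⟩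
  have hT7 : Real.exp 7 ≤ T := (le_max_right _ _).trans hT
  have hT1 : 1 ≤ T := by
    have := Real.add_one_le_exp (7 : ℝ)
    linarith
  have hT0 : 0 < T := by linarith
  have hM0 : 0 < M := by linarith
  have hL : 7 ≤ Real.log T := by
    rw [Real.le_log_iff_exp_le hT0]
    exact hT7
  obtain ⟨-, hfd, ⟨B, hf'c, -⟩, hf'i, hf'b⟩ := hb T ((le_max_left _ _).trans hT)
  set f : ℝ → ℂ := fun t => zh t ^ k with hf
  set h : ℝ := hh T with hh'
  have hh0 : 0 < h := by
    rw [hh']
    unfold hh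
    have := Real.pi_pos
    positivity
  have hh1 : h ≤ 1 := by
    rw [hh']
    unfold hh
    rw [div_le_one (by linarith)]
    have := Real.pi_lt_d2
    linarith
  have hVM : Tst (fun x => V (x / M)) := (hFM M hM0).1
  obtain ⟨hABi, -, -⟩ := hAB (fun x => V (x / M)) hVM k T hT7 f (hZG k)
  have huM : ∀ ξ, uu (fun x => V (x / M)) ξ = M * u (M * ξ) := (hFM M hM0).2
  -- the formula for the operator
  have hresc : ∀ t ξ : ℝ, uu (fun x => V (x / M)) ξ * f (t - h * ξ) =
      (fun η : ℝ => (M : ℂ) * (u η * f (t - h * η / M))) (M * ξ) := by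
    intro t ξ
    rw [huM]
    have h1 : h * (M * ξ) / M = h * ξ := by field_simp
    simp only [h1]
    ring
  have hint : ∀ t, Integrable fun η : ℝ => u η * f (t - h * η / M) := by
    intro t
    have h1 : Integrable fun ξ : ℝ =>
        (fun η : ℝ => (M : ℂ) * (u η * f (t - h * η / M))) (M * ξ) :=
      (hABi t).congr (Eventually.of_forall fun ξ => hresc t ξ)
    have h2 := (integrable_comp_mul_left_iff (fun η : ℝ => (M : ℂ) * (u η * f (t - h * η / M)))
      hM0.ne').1 h1
    have h3 := h2.const_mul ((M : ℂ)⁻¹)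
    refine h3.congr (Eventually.of_forall fun η => ?_)
    simp only
    rw [← mul_assoc, inv_mul_cancel₀ (by exact_mod_cast hM0.ne'), one_mul]
  have hA : ∀ t, Aop (fun x => V (x / M)) T f t = ∫ η : ℝ, u η * f (t - h * η / M) := by
    intro t
    unfold Aop
    rw [← hh']
    simp only [hresc]
    rw [Measure.integral_comp_mul_left (fun η : ℝ => (M : ℂ) * (u η * f (t - h * η / M))),
      integral_const_mul, abs_of_pos (by positivity), Complex.real_smul, ← mul_assoc]
    rw [Complex.ofReal_inv, inv_mul_cancel₀ (by exact_mod_cast hM0.ne'), one_mul]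
  have hui : Integrable u := by
    have h1 := hFk.mom 0
    simp only [pow_zero, one_mul] at h1
    exact (integrable_norm_iff hFc.aestronglyMeasurable).1 h1
  have hdiff : ∀ t, Aop (fun x => V (x / M)) T f t - f t =
      ∫ η : ℝ, u η * (f (t - h * η / M) - f t) := by
    intro t
    have h1 : f t = ∫ η : ℝ, u η * f t := by
      rw [integral_mul_const, hU, one_mul]
    rw [hA]
    conv_lhs => rw [h1]
    rw [← integral_sub (hint t) (hui.mul_const _)]
    exact integral_congr_ae (Eventually.of_forall fun η => by simp only; ring)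
  -- the pointwise bound
  set ν : Measure ℝ := volume.withDensity (fun η => ENNReal.ofReal (|η| * ‖u η‖)) with hν
  have hνm : Measurable (fun η : ℝ => ENNReal.ofReal (|η| * ‖u η‖)) := by
    have := hFc.measurable
    fun_prop
  have hf'm : Measurable (deriv f) := hf'c.measurable
  set G : ℝ → ℝ → ℝ≥0∞ := fun t η => ∫⁻ σ in Ioc (0 : ℝ) 1, ‖deriv f (t - σ * (h * η / M))‖ₑ
    with hG
  set G2 : ℝ → ℝ → ℝ≥0∞ := fun t η =>
    ∫⁻ σ in Ioc (0 : ℝ) 1, ‖deriv f (t - σ * (h * η / M))‖ₑ ^ 2 with hG2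
  have hpt : ∀ t, ‖Aop (fun x => V (x / M)) T f t - f t‖ₑ ≤
      ENNReal.ofReal (h / M) * ∫⁻ η, G t η ∂ν := by
    intro t
    rw [hdiff]
    refine (enorm_integral_le_lintegral_enorm _).trans ?_
    rw [hν, lintegral_withDensity_eq_lintegral_mul_non_measurable₀ _ hνm.aemeasurable
      (Eventually.of_forall fun η => ENNReal.ofReal_lt_top), ← lintegral_const_mul']
    swap
    · exact ENNReal.ofReal_ne_top
    refine lintegral_mono fun η => ?_
    rw [enorm_mul]
    have h1 := incr hfd hf'c t (h * η / M)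
    refine (mul_le_mul' le_rfl h1).trans (le_of_eq ?_)
    simp only [Pi.mul_apply]
    rw [← mul_assoc, ← mul_assoc]
    congr 1
    rw [← ofReal_norm, ← ofReal_norm, ← ENNReal.ofReal_mul (norm_nonneg _),
      ← ENNReal.ofReal_mul (by positivity)]
    congr 1
    rw [Real.norm_eq_abs, abs_div, abs_mul, abs_of_pos hh0, abs_of_pos hM0]
    ring
  -- the square
  have hm1 : Measurable (Function.uncurry fun (η : ℝ) (p : ℝ × ℝ) =>
      ‖deriv f (p.1 - p.2 * (h * η / M))‖ₑ ^ 2) := by
    have : Measurable fun q : ℝ × (ℝ × ℝ) => deriv f (q.2.1 - q.2.2 * (h * q.1 / M)) :=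
      hf'm.comp (by fun_prop)
    exact this.enorm.pow_const 2
  have hGm : ∀ t, Measurable (G t) := by
    intro t
    have : Measurable (Function.uncurry fun (η σ : ℝ) =>
        ‖deriv f (t - σ * (h * η / M))‖ₑ) := by
      have : Measurable fun q : ℝ × ℝ => deriv f (t - q.2 * (h * q.1 / M)) :=
        hf'm.comp (by fun_prop)
      exact this.enorm
    exact this.lintegral_prod_right'
  have hG2m : Measurable (Function.uncurry fun (t η : ℝ) => G2 t η) := by
    have : Measurable (fun q : (ℝ × ℝ) × ℝ =>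
        ‖deriv f (q.1.1 - q.2 * (h * q.1.2 / M))‖ₑ ^ 2) := by
      have : Measurable fun q : (ℝ × ℝ) × ℝ => deriv f (q.1.1 - q.2 * (h * q.1.2 / M)) :=
        hf'm.comp (by fun_prop)
      exact this.enorm.pow_const 2
    exact this.lintegral_prod_right'
  have hGG : ∀ t η, G t η ^ 2 ≤ G2 t η := by
    intro t η
    have h1 := cs (volume.restrict (Ioc (0 : ℝ) 1))
      (g := fun σ => ‖deriv f (t - σ * (h * η / M))‖ₑ)
      ((hf'm.comp (by fun_prop : Measurable fun σ : ℝ => t - σ * (h * η / M))).enorm.aemeasurable)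
    refine h1.trans (le_of_eq ?_)
    rw [Measure.restrict_apply_univ, Real.volume_Ioc]
    norm_num
    rfl
  have hν1 : ν univ ≤ ENNReal.ofReal c1 := by
    rw [hν, withDensity_apply _ MeasurableSet.univ, Measure.restrict_univ, hc1,
      ofReal_integral_eq_lintegral_ofReal (hFk.mom 1) (Eventually.of_forall fun ξ => by positivity)]
    refine lintegral_mono fun η => ENNReal.ofReal_le_ofReal ?_
    rw [pow_one]
    have := norm_nonneg (u η)
    nlinarith
  have hsq : ∀ t, ‖Aop (fun x => V (x / M)) T f t - f t‖ₑ ^ 2 ≤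
      ENNReal.ofReal (h / M) ^ 2 * (ENNReal.ofReal c1 * ∫⁻ η, G2 t η ∂ν) := by
    intro t
    calc ‖Aop (fun x => V (x / M)) T f t - f t‖ₑ ^ 2
        ≤ (ENNReal.ofReal (h / M) * ∫⁻ η, G t η ∂ν) ^ 2 := by
          gcongr
          exact hpt t
      _ = ENNReal.ofReal (h / M) ^ 2 * (∫⁻ η, G t η ∂ν) ^ 2 := mul_pow _ _ _
      _ ≤ ENNReal.ofReal (h / M) ^ 2 * (ν univ * ∫⁻ η, G t η ^ 2 ∂ν) := by
          gcongr
          exact cs ν (hGm t).aemeasurable
      _ ≤ _ := by
          gcongr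
          exact hGG t _
  -- integration over t
  set J : ℝ≥0∞ := ∫⁻ t, ENNReal.ofReal (om m T t) * ‖deriv f t‖ₑ ^ 2 with hJ
  have homm : Measurable (fun t => ENNReal.ofReal (om m T t)) :=
    (om_cont m hT0).measurable.ennreal_ofReal
  have hJJ : J ≤ ENNReal.ofReal (K * Real.log T ^ 2 * (NN k m T + T)) := by
    have h1 : J = ENNReal.ofReal (∫ t, ‖deriv f t‖ ^ 2 * om m T t) := by
      rw [ofReal_integral_eq_lintegral_ofReal hf'i (Eventually.of_forall fun t => by
        have := om_nonneg m hT0.le t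
        positivity)]
      refine lintegral_congr fun t => ?_
      rw [ENNReal.ofReal_mul (by positivity), mul_comm, ENNReal.ofReal_pow (norm_nonneg _),
        ofReal_norm]
    rw [h1]
    exact ENNReal.ofReal_le_ofReal hf'b
  have htr : ∀ δ : ℝ, ∫⁻ t, ENNReal.ofReal (om m T t) * ‖deriv f (t - δ)‖ₑ ^ 2 ≤
      ENNReal.ofReal ((1 + |δ|) ^ m) * J := by
    intro δ
    have h1 : ∫⁻ t, ENNReal.ofReal (om m T t) * ‖deriv f (t - δ)‖ₑ ^ 2 =
        ∫⁻ t, ENNReal.ofReal (om m T (t + δ)) * ‖deriv f t‖ₑ ^ 2 := by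
      rw [← lintegral_sub_right_eq_self (fun t => ENNReal.ofReal (om m T (t + δ)) *
        ‖deriv f t‖ₑ ^ 2) δ]
      refine lintegral_congr fun t => ?_
      rw [sub_add_cancel]
    rw [h1, hJ, ← lintegral_const_mul' _ _ ENNReal.ofReal_ne_top]
    refine lintegral_mono fun t => ?_
    rw [← mul_assoc, ← ENNReal.ofReal_mul (by positivity)]
    gcongr
    exact om_shift m hT1 t δ
  have hη : ∀ η : ℝ, ∫⁻ t, ENNReal.ofReal (om m T t) * G2 t η ≤
      ENNReal.ofReal ((1 + |η|) ^ m) * J := by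
    intro η
    have h1 : ∀ t, ENNReal.ofReal (om m T t) * G2 t η = ∫⁻ σ in Ioc (0 : ℝ) 1,
        ENNReal.ofReal (om m T t) * ‖deriv f (t - σ * (h * η / M))‖ₑ ^ 2 := by
      intro t
      rw [lintegral_const_mul' _ _ ENNReal.ofReal_ne_top]
    simp only [h1]
    rw [lintegral_lintegral_swap]
    · calc ∫⁻ σ in Ioc (0 : ℝ) 1, ∫⁻ t, ENNReal.ofReal (om m T t) *
            ‖deriv f (t - σ * (h * η / M))‖ₑ ^ 2
          ≤ ∫⁻ σ in Ioc (0 : ℝ) 1, ENNReal.ofReal ((1 + |η|) ^ m) * J := by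
            refine setLIntegral_mono measurable_const fun σ hσ => ?_
            refine (htr _).trans (mul_le_mul' (ENNReal.ofReal_le_ofReal
              (pow_le_pow_left₀ (by positivity) ?_ m)) le_rfl)
            rw [abs_mul, abs_div, abs_mul, abs_of_pos hh0, abs_of_pos hM0, abs_of_pos hσ.1]
            have h2 : h * |η| / M ≤ |η| := by
              rw [div_le_iff₀ hM0]
              have := abs_nonneg η
              nlinarith
            have h3 : 0 ≤ h * |η| / M := by positivity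
            have h4 := hσ.1
            have h5 := hσ.2
            nlinarith
        _ = ENNReal.ofReal ((1 + |η|) ^ m) * J := by
            rw [lintegral_const, Measure.restrict_apply_univ, Real.volume_Ioc]
            norm_num
    · have : Measurable fun q : ℝ × ℝ => deriv f (q.1 - q.2 * (h * η / M)) :=
        hf'm.comp (by fun_prop)
      exact ((homm.comp measurable_fst).mul (this.enorm.pow_const 2)).aemeasurable
  have hc2' : ∫⁻ η, ENNReal.ofReal ((1 + |η|) ^ m) ∂ν ≤ ENNReal.ofReal c2 := by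
    rw [hν, lintegral_withDensity_eq_lintegral_mul _ hνm (by fun_prop), hc2,
      ofReal_integral_eq_lintegral_ofReal (hFk.mom (m + 1))
        (Eventually.of_forall fun ξ => by positivity)]
    refine lintegral_mono fun η => ?_
    simp only [Pi.mul_apply]
    rw [← ENNReal.ofReal_mul (by positivity)]
    refine ENNReal.ofReal_le_ofReal ?_
    have h1 : |η| * ‖u η‖ * (1 + |η|) ^ m ≤ (1 + |η|) * ‖u η‖ * (1 + |η|) ^ m := by
      gcongr
      linarith
    refine h1.trans (le_of_eq (by ring))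
  have hmain : ∫⁻ t, ENNReal.ofReal (om m T t) *
      ‖Aop (fun x => V (x / M)) T f t - f t‖ₑ ^ 2 ≤
      ENNReal.ofReal ((2 * Real.pi) ^ 2 * c1 * c2 * K / M ^ 2 * (NN k m T + T)) := by
    calc ∫⁻ t, ENNReal.ofReal (om m T t) * ‖Aop (fun x => V (x / M)) T f t - f t‖ₑ ^ 2
        ≤ ∫⁻ t, (ENNReal.ofReal (h / M) ^ 2 * ENNReal.ofReal c1) *
            ∫⁻ η, ENNReal.ofReal (om m T t) * G2 t η ∂ν := by
          refine lintegral_mono fun t => ?_
          rw [lintegral_const_mul' _ _ ENNReal.ofReal_ne_top]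
          refine (mul_le_mul' le_rfl (hsq t)).trans (le_of_eq (by ring))
      _ = (ENNReal.ofReal (h / M) ^ 2 * ENNReal.ofReal c1) *
            ∫⁻ t, ∫⁻ η, ENNReal.ofReal (om m T t) * G2 t η ∂ν := by
          rw [lintegral_const_mul']
          exact ENNReal.mul_ne_top (ENNReal.pow_ne_top ENNReal.ofReal_ne_top)
            ENNReal.ofReal_ne_top
      _ = (ENNReal.ofReal (h / M) ^ 2 * ENNReal.ofReal c1) *
            ∫⁻ η, (∫⁻ t, ENNReal.ofReal (om m T t) * G2 t η) ∂ν := by
          rw [lintegral_lintegral_swap]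
          exact ((homm.comp measurable_fst).mul hG2m).aemeasurable
      _ ≤ (ENNReal.ofReal (h / M) ^ 2 * ENNReal.ofReal c1) *
            ∫⁻ η, ENNReal.ofReal ((1 + |η|) ^ m) * J ∂ν := by
          gcongr with η
          exact hη η
      _ = (ENNReal.ofReal (h / M) ^ 2 * ENNReal.ofReal c1) *
            ((∫⁻ η, ENNReal.ofReal ((1 + |η|) ^ m) ∂ν) * J) := by
          rw [lintegral_mul_const _ (by fun_prop)]
      _ ≤ (ENNReal.ofReal (h / M) ^ 2 * ENNReal.ofReal c1) *
            (ENNReal.ofReal c2 * ENNReal.ofReal (K * Real.log T ^ 2 * (NN k m T + T))) := by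
          gcongr
      _ = _ := by
          have hN := NN_nonneg k m hT0.le
          rw [← ENNReal.ofReal_pow (by positivity), ← ENNReal.ofReal_mul (by positivity),
            ← ENNReal.ofReal_mul (by positivity), ← ENNReal.ofReal_mul (by positivity)]
          congr 1
          have h1 : h = 2 * Real.pi / Real.log T := rfl
          have h2 : Real.log T ≠ 0 := by linarith
          rw [h1]
          field_simp
  have hN := NN_nonneg k m hT0.le
  by_cases hi : Integrable fun t => ‖Aop (fun x => V (x / M)) T f t - f t‖ ^ 2 * om m T t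
  · have h1 := ofReal_integral_eq_lintegral_ofReal hi (Eventually.of_forall fun t => by
      have := om_nonneg m hT0.le t
      positivity)
    have h2 : ∫⁻ t, ENNReal.ofReal (‖Aop (fun x => V (x / M)) T f t - f t‖ ^ 2 * om m T t) =
        ∫⁻ t, ENNReal.ofReal (om m T t) * ‖Aop (fun x => V (x / M)) T f t - f t‖ₑ ^ 2 := by
      refine lintegral_congr fun t => ?_
      rw [ENNReal.ofReal_mul (by positivity), mul_comm, ENNReal.ofReal_pow (norm_nonneg _),
        ofReal_norm]
    rw [h2] at h1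
    rw [← h1] at hmain
    exact (ENNReal.ofReal_le_ofReal_iff (by positivity)).1 hmain
  · rw [integral_undef hi]
    positivity

end Pool.Agent.J6H39.CG
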