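import Pool.Agent.J6H39.CG.Stm

/-!
# Sharp and smooth cutoffs
-/

set_option autoImplicit false

open MeasureTheory Set Filter Topology

namespace Pool.Agent.J6H39.CG

/-- the primitive -/
noncomputable def TBP (φ : ℝ → ℝ) (T : ℝ) : ℝ := ∫ t in (0:ℝ)..T, φ t

lemma TBP_deriv {φ : ℝ → ℝ} (hφ : Continuous φ) (T : ℝ) : HasDerivAt (TBP φ) (φ T) T :=
  intervalIntegral.integral_hasDerivAt_right (hφ.intervalIntegrable _ _)
    (hφ.stronglyMeasurableAtFilter _ _) hφ.continuousAt

lemma TBP_mono {φ : ℝ → ℝ} (hφ : Continuous φ) (h0 : ∀ t, 0 ≤ φ t) {a b : ℝ} (hab : a ≤ b) :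
    TBP φ a ≤ TBP φ b := by
  have h := intervalIntegral.integral_add_adjacent_intervals (hφ.intervalIntegrable 0 a)
    (hφ.intervalIntegrable a b) (μ := volume)
  have h2 : 0 ≤ ∫ t in a..b, φ t := intervalIntegral.integral_nonneg hab fun t _ => h0 t
  rw [TBP, TBP, ← h]
  linarith

lemma TBP_nonneg {φ : ℝ → ℝ} (h0 : ∀ t, 0 ≤ φ t) {a : ℝ} (ha : 0 ≤ a) : 0 ≤ TBP φ a :=
  intervalIntegral.integral_nonneg ha fun t _ => h0 t

lemma Wt_cpt {w : ℝ → ℝ} (hw : Wt w) : HasCompactSupport w := by
  obtain ⟨a, b, -, -, h⟩ := hw.supp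
  exact HasCompactSupport.of_support_subset_isCompact (isCompact_Icc (a := a) (b := b)) fun y hy => by
    by_contra hn
    exact hy (h y hn)

lemma Wt_deriv_cont {w : ℝ → ℝ} (hw : Wt w) : Continuous (deriv w) :=
  hw.smooth.continuous_deriv le_rfl

lemma Wt_hasDeriv {w : ℝ → ℝ} (hw : Wt w) (x : ℝ) : HasDerivAt w (deriv w x) x :=
  (hw.smooth.differentiable (by simp) x).hasDerivAt

lemma Wt_deriv_zero {w : ℝ → ℝ} {a b : ℝ} (h : ∀ x, x ∉ Icc a b → w x = 0) {x : ℝ}
    (hx : x ∉ Icc a b) : deriv w x = 0 := by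
  have h1 : w =ᶠ[𝓝 x] fun _ => (0 : ℝ) := by
    filter_upwards [isClosed_Icc.isOpen_compl.mem_nhds hx] with y hy
    exact h y hy
  rw [h1.deriv_eq]
  simp

/-- integration by parts against a weight -/
lemma TB_parts {w : ℝ → ℝ} (hw : Wt w) {u u' : ℝ → ℝ} (hu : ∀ x, HasDerivAt u (u' x) x)
    (hc : Continuous u') : ∫ x, u' x * w x = -∫ x, u x * deriv w x := by
  have huc : Continuous u := continuous_iff_continuousAt.2 fun x => (hu x).continuousAt
  have hcs := Wt_cpt hw
  have h := integral_mul_deriv_eq_deriv_mul_of_integrable (u := u) (v := w) (u' := u')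
    (v' := deriv w) (fun x _ => hu x) (fun x _ => Wt_hasDeriv hw x)
    ((huc.mul (Wt_deriv_cont hw)).integrable_of_hasCompactSupport hcs.deriv.mul_left)
    ((hc.mul hw.smooth.continuous).integrable_of_hasCompactSupport hcs.mul_left)
    ((huc.mul hw.smooth.continuous).integrable_of_hasCompactSupport hcs.mul_left)
  rw [h, neg_neg]

lemma TB_change {φ : ℝ → ℝ} (hφ : Continuous φ) {w : ℝ → ℝ} (hw : Wt w) {T : ℝ} (hT : 0 < T) :
    ∫ t, φ t * w (t / T) = -∫ s, TBP φ (T * s) * deriv w s := by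
  have h1 := Measure.integral_comp_div (fun s : ℝ => φ (T * s) * w s) T
  rw [abs_of_pos hT, smul_eq_mul, ← integral_const_mul] at h1
  have e1 : ∫ t, φ t * w (t / T) = ∫ s, (φ (T * s) * T) * w s := by
    rw [show (∫ t, φ t * w (t / T)) = ∫ t, φ (T * (t / T)) * w (t / T) from
      integral_congr_ae (Eventually.of_forall fun t => by
        simp only
        rw [mul_div_cancel₀ t hT.ne']), h1]
    refine integral_congr_ae (Eventually.of_forall fun s => ?_)
    simp only
    ring
  rw [e1]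
  refine TB_parts hw (u := fun s => TBP φ (T * s)) (fun s => ?_)
    ((hφ.comp (continuous_const.mul continuous_id)).mul continuous_const)
  have h2 : HasDerivAt (fun s : ℝ => T * s) (T * 1) s := (hasDerivAt_id s).const_mul T
  rw [mul_one] at h2
  exact (TBP_deriv hφ (T * s)).comp s h2

lemma TB_log {s : ℝ} (hs : 0 < s) :
    Tendsto (fun T : ℝ => Real.log (T * s) / Real.log T) atTop (𝓝 1) := by
  have h1 : Tendsto (fun T : ℝ => 1 + Real.log s / Real.log T) atTop (𝓝 (1 + 0)) :=
    tendsto_const_nhds.add (tendsto_const_nhds.div_atTop Real.tendsto_log_atTop)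
  rw [add_zero] at h1
  refine h1.congr' ?_
  filter_upwards [eventually_gt_atTop 1] with T hT
  have hl : 0 < Real.log T := Real.log_pos hT
  rw [Real.log_mul (by linarith) hs.ne']
  field_simp

lemma TB_logle {b T : ℝ} (hb : 0 < b) (hT : Real.exp 1 ≤ T) :
    Real.log (T * b) ≤ Real.log T * (1 + |Real.log b|) := by
  have hT0 : 0 < T := (Real.exp_pos 1).trans_le hT
  have hl : 1 ≤ Real.log T := by
    rw [Real.le_log_iff_exp_le hT0]
    exact hT
  rw [Real.log_mul hT0.ne' hb.ne']
  have h1 := le_abs_self (Real.log b)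
  have h2 : 1 * |Real.log b| ≤ Real.log T * |Real.log b| :=
    mul_le_mul_of_nonneg_right hl (abs_nonneg _)
  linarith

/-- the Abelian direction -/
lemma TB_abel {φ : ℝ → ℝ} (hφ : Continuous φ) (h0 : ∀ t, 0 ≤ φ t) {p : ℕ} {C₀ : ℝ}
    (hC : ∀ T : ℝ, 2 ≤ T → TBP φ T ≤ C₀ * (T * Real.log T ^ p)) {γ : ℝ}
    (h : Tendsto (fun T : ℝ => TBP φ T / (T * Real.log T ^ p)) atTop (𝓝 γ)) {w : ℝ → ℝ} (hw : Wt w) :
    Tendsto (fun T : ℝ => (∫ t, φ t * w (t / T)) / (T * Real.log T ^ p)) atTop (𝓝 (γ * ∫ x, w x)) := by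
  obtain ⟨a, b, ha, hab, hsupp⟩ := hw.supp
  have hb : 0 < b := ha.trans_le hab
  have e1 : γ * ∫ x, w x = -∫ s, γ * s * deriv w s := by
    have h1 := TB_parts hw (u := fun s => γ * s) (u' := fun _ => γ) (fun x => by
      have := (hasDerivAt_id x).const_mul γ
      rw [mul_one] at this
      exact this) continuous_const
    rw [← h1, integral_const_mul]
  rw [e1]
  have h1 : Tendsto (fun T : ℝ => ∫ s, TBP φ (T * s) / (T * Real.log T ^ p) * deriv w s) atTop
      (𝓝 (∫ s, γ * s * deriv w s)) := by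
    refine tendsto_integral_filter_of_dominated_convergence
      (fun s => C₀ * b * (1 + |Real.log b|) ^ p * |deriv w s|) ?_ ?_ ?_ ?_
    · filter_upwards with T
      refine Continuous.aestronglyMeasurable ?_
      have huc : Continuous (TBP φ) := continuous_iff_continuousAt.2 fun x =>
        (TBP_deriv hφ x).continuousAt
      exact ((huc.comp (continuous_const.mul continuous_id)).div_const _).mul (Wt_deriv_cont hw)
    · filter_upwards [eventually_ge_atTop (max (Real.exp 1) (2 / b))] with T hT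
      have hT1 : Real.exp 1 ≤ T := (le_max_left _ _).trans hT
      have hT2 : 2 / b ≤ T := (le_max_right _ _).trans hT
      have hT0 : 0 < T := (Real.exp_pos 1).trans_le hT1
      have hl : 1 ≤ Real.log T := by
        rw [Real.le_log_iff_exp_le hT0]
        exact hT1
      refine Eventually.of_forall fun s => ?_
      rw [norm_mul, Real.norm_eq_abs, Real.norm_eq_abs]
      by_cases hs : s ∈ Icc a b
      · refine mul_le_mul_of_nonneg_right ?_ (abs_nonneg _)
        have hs0 : 0 < s := ha.trans_le hs.1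
        have hd : 0 < T * Real.log T ^ p := by positivity
        rw [abs_of_nonneg (div_nonneg (TBP_nonneg h0 (by positivity)) hd.le), div_le_iff₀ hd]
        have hTb : 2 ≤ T * b := by
          rw [div_le_iff₀ hb] at hT2
          exact hT2
        have h2 : TBP φ (T * s) ≤ TBP φ (T * b) :=
          TBP_mono hφ h0 (mul_le_mul_of_nonneg_left hs.2 hT0.le)
        have h3 := hC (T * b) hTb
        have hC0 : 0 ≤ C₀ := by
          have h4 := (TBP_nonneg h0 (by norm_num : (0:ℝ) ≤ 2)).trans (hC 2 le_rfl)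
          have h5 : 0 < 2 * Real.log 2 ^ p := by
            have := Real.log_pos (by norm_num : (1:ℝ) < 2)
            positivity
          by_contra hneg
          push Not at hneg
          have := mul_neg_of_neg_of_pos hneg h5
          linarith
        have h4 : Real.log (T * b) ^ p ≤ (Real.log T * (1 + |Real.log b|)) ^ p :=
          pow_le_pow_left₀ (Real.log_nonneg (by linarith)) (TB_logle hb hT1) p
        calc TBP φ (T * s) ≤ C₀ * (T * b * Real.log (T * b) ^ p) := h2.trans h3
          _ ≤ C₀ * (T * b * (Real.log T * (1 + |Real.log b|)) ^ p) :=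
              mul_le_mul_of_nonneg_left (mul_le_mul_of_nonneg_left h4 (by positivity)) hC0
          _ = _ := by rw [mul_pow]; ring
      · rw [Wt_deriv_zero hsupp hs]
        simp
    · refine Integrable.const_mul ?_ _
      exact ((Wt_deriv_cont hw).integrable_of_hasCompactSupport (Wt_cpt hw).deriv).abs
    · refine Eventually.of_forall fun s => ?_
      by_cases hs : s ∈ Icc a b
      · refine Tendsto.mul_const _ ?_
        have hs0 : 0 < s := ha.trans_le hs.1
        have h2 : Tendsto (fun T : ℝ => T * s) atTop atTop := tendsto_id.atTop_mul_const hs0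
        have h3 := ((h.comp h2).mul_const s).mul ((TB_log hs0).pow p)
        rw [one_pow, mul_one] at h3
        refine h3.congr' ?_
        filter_upwards [eventually_gt_atTop 1, h2.eventually_gt_atTop 1] with T hT hTs
        have hl : 0 < Real.log T := Real.log_pos hT
        have hl2 : 0 < Real.log (T * s) := Real.log_pos hTs
        have hT0 : 0 < T := by linarith
        simp only [Function.comp_apply]
        rw [div_pow]
        field_simp
      · rw [Wt_deriv_zero hsupp hs]
        simp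
  refine (h1.neg).congr' ?_
  filter_upwards [eventually_gt_atTop 0] with T hT
  rw [TB_change hφ hw hT, neg_div, ← integral_div]
  congr 1
  refine integral_congr_ae (Eventually.of_forall fun s => ?_)
  simp only
  ring

lemma TB_C0 {φ : ℝ → ℝ} (h0 : ∀ t, 0 ≤ φ t) {p : ℕ} {C₀ : ℝ}
    (hC : ∀ T : ℝ, 2 ≤ T → TBP φ T ≤ C₀ * (T * Real.log T ^ p)) : 0 ≤ C₀ := by
  have h4 := (TBP_nonneg h0 (by norm_num : (0:ℝ) ≤ 2)).trans (hC 2 le_rfl)
  have h5 : 0 < 2 * Real.log 2 ^ p := by
    have := Real.log_pos (by norm_num : (1:ℝ) < 2)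
    positivity
  by_contra hneg
  push Not at hneg
  have := mul_neg_of_neg_of_pos hneg h5
  linarith

/-- a weight between two indicator functions -/
lemma TB_bump {c r R : ℝ} (hr : 0 < r) (hrR : r < R) (hRc : R < c) : ∃ w : ℝ → ℝ, Wt w ∧
    (∀ x, 0 ≤ w x) ∧ (∀ x, w x ≤ 1) ∧ (∀ x, |x - c| ≤ r → w x = 1) ∧ (∀ x, R ≤ |x - c| → w x = 0) ∧
    2 * r ≤ ∫ x, w x ∧ ∫ x, w x ≤ 2 * R := by
  let f : ContDiffBump c := ⟨r, R, hr, hrR⟩
  have hz : ∀ x, R ≤ |x - c| → f x = 0 := by
    intro x hx
    apply f.zero_of_le_dist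
    rw [Real.dist_eq]
    exact hx
  refine ⟨f, ⟨f.contDiff, c - R, c + R, by linarith, by linarith, fun x hx => hz x ?_⟩,
    fun x => f.nonneg, fun x => f.le_one, fun x hx => f.one_of_mem_closedBall ?_, hz, ?_, ?_⟩
  · by_contra hlt
    push Not at hlt
    apply hx
    rw [abs_lt] at hlt
    constructor <;> linarith
  · rw [Metric.mem_closedBall, Real.dist_eq]
    exact hx
  · have h := f.measure_closedBall_le_integral volume
    rw [Measure.real, Real.volume_closedBall, ENNReal.toReal_ofReal (by positivity)] at h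
    exact h
  · have h := f.integral_le_measure_closedBall volume
    rw [Measure.real, Real.volume_closedBall, ENNReal.toReal_ofReal (by
      have := hr.trans hrR
      positivity)] at h
    exact h

lemma TB_lower {φ : ℝ → ℝ} (hφ : Continuous φ) (h0 : ∀ t, 0 ≤ φ t) {w : ℝ → ℝ} (hw : Wt w)
    (hw1 : ∀ x, w x ≤ 1) (hw2 : ∀ x, 1 < x → w x = 0) {T : ℝ} (hT : 0 < T) :
    ∫ t, φ t * w (t / T) ≤ TBP φ T := by
  have hneg : ∀ x, x ≤ 0 → w x = 0 := by
    obtain ⟨a, b, ha, hab, h⟩ := hw.supp
    intro x hx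
    apply h
    intro hx2
    linarith [hx2.1]
  rw [TBP, intervalIntegral.integral_of_le hT.le, ← setIntegral_eq_integral_of_forall_compl_eq_zero
    (s := Ioc 0 T) (fun t ht => ?_)]
  · refine setIntegral_mono ?_ ?_ fun t => ?_
    · refine Continuous.integrableOn_Ioc ?_
      exact hφ.mul (hw.smooth.continuous.comp (continuous_id.div_const T))
    · exact hφ.integrableOn_Ioc
    · simp only
      have := mul_le_mul_of_nonneg_left (hw1 (t / T)) (h0 t)
      rwa [mul_one] at this
  · have : t / T ≤ 0 ∨ 1 < t / T := by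
      by_contra hcon
      push Not at hcon
      apply ht
      constructor
      · by_contra hn
        push Not at hn
        have := div_nonpos_of_nonpos_of_nonneg hn hT.le
        linarith [hcon.1]
      · have := hcon.2
        rwa [div_le_one hT] at this
    rcases this with h | h
    · rw [hneg _ h, mul_zero]
    · rw [hw2 _ h, mul_zero]

lemma TB_upper {φ : ℝ → ℝ} (hφ : Continuous φ) (h0 : ∀ t, 0 ≤ φ t) {w : ℝ → ℝ} (hw : Wt w)
    (hw0 : ∀ x, 0 ≤ w x) {ε : ℝ} (hε1 : ε ≤ 1) (hw1 : ∀ x, ε ≤ x → x ≤ 1 → w x = 1)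
    {T : ℝ} (hT : 0 < T) :
    TBP φ T ≤ TBP φ (ε * T) + ∫ t, φ t * w (t / T) := by
  have h := intervalIntegral.integral_add_adjacent_intervals (hφ.intervalIntegrable 0 (ε * T))
    (hφ.intervalIntegrable (ε * T) T) (μ := volume)
  rw [TBP, TBP, ← h]
  refine add_le_add le_rfl ?_
  have hle : ε * T ≤ T := by
    have := mul_le_mul_of_nonneg_right hε1 hT.le
    rwa [one_mul] at this
  rw [intervalIntegral.integral_of_le hle]
  have hint : Integrable (fun t => φ t * w (t / T)) := by
    refine Continuous.integrable_of_hasCompactSupport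
      (hφ.mul (hw.smooth.continuous.comp (continuous_id.div_const T))) ?_
    obtain ⟨a, b, ha, hab, h⟩ := hw.supp
    refine HasCompactSupport.of_support_subset_isCompact (isCompact_Icc (a := a * T) (b := b * T))
      fun y hy => ?_
    by_contra hn
    apply hy
    simp only
    rw [h (y / T) (fun h2 => hn ⟨by
      have := h2.1
      rwa [le_div_iff₀ hT] at this, by
      have := h2.2
      rwa [div_le_iff₀ hT] at this⟩), mul_zero]
  have h2 : ∫ t in Ioc (ε * T) T, φ t = ∫ t in Ioc (ε * T) T, φ t * w (t / T) := by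
    refine setIntegral_congr_fun measurableSet_Ioc fun t ht => ?_
    rw [hw1 (t / T) (by rw [le_div_iff₀ hT]; exact ht.1.le) (by rw [div_le_one hT]; exact ht.2),
      mul_one]
  rw [h2]
  exact setIntegral_le_integral hint (Eventually.of_forall fun t => mul_nonneg (h0 t) (hw0 _))

/-- the Tauberian direction -/
lemma TB_tauber {φ : ℝ → ℝ} (hφ : Continuous φ) (h0 : ∀ t, 0 ≤ φ t) {p : ℕ} {C₀ : ℝ}
    (hC : ∀ T : ℝ, 2 ≤ T → TBP φ T ≤ C₀ * (T * Real.log T ^ p)) {γ : ℝ}
    (h : ∀ w, Wt w → Tendsto (fun T : ℝ => (∫ t, φ t * w (t / T)) / (T * Real.log T ^ p)) atTop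
      (𝓝 (γ * ∫ x, w x))) :
    Tendsto (fun T : ℝ => TBP φ T / (T * Real.log T ^ p)) atTop (𝓝 γ) := by
  have hC0 := TB_C0 h0 hC
  have hγ : 0 ≤ γ := by
    obtain ⟨w, hw, hw0, -, -, -, hw5, -⟩ := TB_bump (c := 2) (r := 1 / 2) (R := 1) (by norm_num)
      (by norm_num) (by norm_num)
    have h1 : 0 ≤ γ * ∫ x, w x := by
      refine ge_of_tendsto (h w hw) ?_
      filter_upwards [eventually_ge_atTop 1] with T hT
      exact div_nonneg (integral_nonneg fun t => mul_nonneg (h0 t) (hw0 _))
        (mul_nonneg (by linarith) (pow_nonneg (Real.log_nonneg hT) p))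
    by_contra hneg
    push Not at hneg
    have := mul_neg_of_neg_of_pos hneg (by linarith : 0 < ∫ x, w x)
    linarith
  rw [Metric.tendsto_atTop]
  intro δ hδ
  -- the parameter
  obtain ⟨ε, hε0, hε1, hε2, hε3⟩ : ∃ ε : ℝ, 0 < ε ∧ ε < 1 / 4 ∧ γ * (3 * ε) < δ / 2 ∧
      C₀ * ε < δ / 2 := by
    obtain ⟨ε, hε⟩ : ∃ ε, ε = min (1 / 8) (δ / (8 * (γ + C₀ + 1))) := ⟨_, rfl⟩
    have hpos : 0 < γ + C₀ + 1 := by linarith
    have h1 : ε ≤ δ / (8 * (γ + C₀ + 1)) := by rw [hε]; exact min_le_right _ _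
    rw [le_div_iff₀ (by positivity)] at h1
    have hε0 : 0 < ε := by
      rw [hε]
      exact lt_min (by norm_num) (by positivity)
    refine ⟨ε, hε0, ?_, ?_, ?_⟩
    · have : ε ≤ 1 / 8 := by rw [hε]; exact min_le_left _ _
      linarith
    · nlinarith [mul_nonneg hC0 hε0.le]
    · nlinarith [mul_nonneg hγ hε0.le]
  obtain ⟨w₁, hw₁, -, h12, -, h14, h15, -⟩ := TB_bump (c := (1 + ε) / 2) (r := (1 - ε) / 2 - ε)
    (R := (1 - ε) / 2) (by linarith) (by linarith) (by linarith)
  obtain ⟨w₂, hw₂, h21, -, h23, -, -, h26⟩ := TB_bump (c := (1 + ε) / 2) (r := (1 - ε) / 2)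
    (R := 1 / 2) (by linarith) (by linarith) (by linarith)
  have ha := (h w₁ hw₁).eventually_const_lt (u := γ - δ / 2) (by nlinarith)
  have hb := (h w₂ hw₂).eventually_lt_const (u := γ + δ / 2) (by nlinarith)
  have hev : ∀ᶠ T : ℝ in atTop, dist (TBP φ T / (T * Real.log T ^ p)) γ < δ := by
    filter_upwards [ha, hb, eventually_ge_atTop (2 / ε), eventually_gt_atTop 1] with T hT1 hT2 hT3 hT4
    have hT0 : 0 < T := by linarith
    have hl : 0 < Real.log T := Real.log_pos hT4
    have hd : 0 < T * Real.log T ^ p := by positivity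
    have h1 : ∫ t, φ t * w₁ (t / T) ≤ TBP φ T := by
      refine TB_lower hφ h0 hw₁ h12 (fun x hx => h14 x ?_) hT0
      rw [le_abs]
      left
      linarith
    have h2 : TBP φ T ≤ TBP φ (ε * T) + ∫ t, φ t * w₂ (t / T) := by
      refine TB_upper hφ h0 hw₂ h21 (by linarith) (fun x hx1 hx2 => h23 x ?_) hT0
      rw [abs_le]
      constructor <;> linarith
    have hεT : 2 ≤ ε * T := by
      rw [div_le_iff₀ hε0] at hT3
      linarith
    have h3 : TBP φ (ε * T) ≤ C₀ * ε * (T * Real.log T ^ p) := by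
      refine (hC _ hεT).trans ?_
      have h4 : Real.log (ε * T) ^ p ≤ Real.log T ^ p := by
        refine pow_le_pow_left₀ (Real.log_nonneg (by linarith)) (Real.log_le_log (by linarith) ?_) p
        nlinarith
      have h5 : ε * T * Real.log (ε * T) ^ p ≤ ε * T * Real.log T ^ p :=
        mul_le_mul_of_nonneg_left h4 (by positivity)
      calc C₀ * (ε * T * Real.log (ε * T) ^ p) ≤ C₀ * (ε * T * Real.log T ^ p) :=
            mul_le_mul_of_nonneg_left h5 hC0
        _ = _ := by ring
    have h4 : (∫ t, φ t * w₁ (t / T)) / (T * Real.log T ^ p) ≤ TBP φ T / (T * Real.log T ^ p) :=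
      div_le_div_of_nonneg_right h1 hd.le
    have h5 : TBP φ T / (T * Real.log T ^ p) ≤
        C₀ * ε + (∫ t, φ t * w₂ (t / T)) / (T * Real.log T ^ p) := by
      rw [div_le_iff₀ hd, add_mul, div_mul_cancel₀ _ hd.ne']
      linarith
    rw [Real.dist_eq, abs_lt]
    constructor <;> linarith
  exact Filter.eventually_atTop.1 hev

theorem t_TB : S_TB := by
  intro φ hφ h0 p C₀ hC γ
  exact ⟨fun h w hw => TB_abel hφ h0 hC h hw, fun h => TB_tauber hφ h0 hC h⟩

end Pool.Agent.J6H39.CG
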