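import Pool.Agent.J6H39.CG.Fin4
import Pool.Agent.J6H39.CG.RB
import Pool.Agent.J6H39.CG.GR
import Pool.Agent.J6H39.CG.D1
import Pool.Agent.J6H39.CG.D2
import Pool.Agent.J6H59.CG.PH
import Pool.Agent.J6H39.CG.RP
import Pool.Agent.J6H39.CG.UB
import Pool.Agent.J6H39.CG.TB

/-! Project CG: assembly of the modules and the final form. -/

set_option autoImplicit false

open MeasureTheory Set Filter Topology Complex
open scoped FourierTransform ContDiff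

namespace Pool.Agent.J6H39.CG

open Pool.Agent.J6H39.KV (dv)

/-- the bound of `Dp - Aop` from its two parts -/
theorem t_DA : S_DA := by
  intro k V hV c C hc hcC
  obtain ⟨co, hco⟩ := t_D1 t_F k
  have h2 : ∀ p : ℕ, ∃ K T₀ : ℝ, 0 ≤ K ∧ ∀ T : ℝ, T₀ ≤ T → ∀ t : ℝ, c * T ≤ t → t ≤ C * T →
      ‖∫ x : ℝ, (x : ℂ) ^ p * (V (x / Real.log T) : ℂ) * cexp ((1 / 2 - (t : ℂ) * I) * x)‖ ≤ K :=
    fun p => t_D2 p V hV c C hc hcC
  choose K T₀ hK h using h2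
  obtain ⟨M, hM⟩ : ∃ M, ∀ i ∈ Finset.range k, T₀ i ≤ M := by
    obtain ⟨M, hM⟩ := ((Finset.range k).image T₀).exists_le
    exact ⟨M, fun i hi => hM _ (Finset.mem_image_of_mem _ hi)⟩
  refine ⟨∑ p ∈ Finset.range k, ‖co p‖ * K p, max M (Real.exp 7), ?_, fun T hT t h1 h3 => ?_⟩
  · exact Finset.sum_nonneg fun p _ => mul_nonneg (norm_nonneg _) (hK p)
  · rw [hco V hV T ((le_max_right _ _).trans hT) t]
    refine (norm_sum_le _ _).trans (Finset.sum_le_sum fun p hp => ?_)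
    rw [norm_mul]
    exact mul_le_mul_of_nonneg_left (h p T ((hM p hp).trans ((le_max_left _ _).trans hT)) t h1 h3) (norm_nonneg _)

theorem t_PH' : S_PH := Pool.Agent.J6H59.CG.t_PH t_ZG t_KB

theorem t_RP' : S_RP := t_RP t_F t_ZG t_AB (RBx.t_RB t_ZG)

/-- the main identity, assembled -/
theorem main_id' (hSA : S_SA) {k : ℕ} (hk : 1 ≤ k) {V W : ℝ → ℝ} (hV : Tst V) (hW : Tst W)
    (h : ∀ x : ℝ, 0 ≤ x → x ≤ k → V x ^ 2 + W (k - x) ^ 2 = 1) : ∃ m₀ : ℕ, ∀ m : ℕ, m₀ ≤ m →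
    ∀ {w : ℝ → ℝ}, Wt w → Sm k m (fun T => |(∫ t, ‖zh t‖ ^ (2 * k) * w (t / T)) -
      ((∫ t, ‖Dp k V T t‖ ^ 2 * w (t / T)) + ∫ t, ‖Dp k W T t‖ ^ 2 * w (t / T))|) := by
  obtain ⟨m₀, h0⟩ := main_id (k := k) t_DA t_PH' t_RP' hSA hk
  exact ⟨m₀, fun m hm w hw => h0 m hm hw hV hW h⟩

end Pool.Agent.J6H39.CG
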