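import Pool.Agent.J6H39.CG.Stm

/-!
# Project CG: composition and self-adjointness of the multiplier
-/

set_option autoImplicit false

open MeasureTheory Set Filter Topology Complex
open scoped FourierTransform ContDiff

namespace Pool.Agent.J6H39.CG

section SA

theorem sa_one {T : ℝ} (hT : Real.exp 7 ≤ T) : 1 ≤ T :=
  (Real.one_le_exp (by norm_num)).trans hT

theorem sa_hh {T : ℝ} (hT : Real.exp 7 ≤ T) : 0 ≤ hh T ∧ hh T ≤ 1 := by
  have h1 : 7 ≤ Real.log T := by
    rw [Real.le_log_iff_exp_le ((Real.exp_pos 7).trans_le hT)]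
    exact hT
  have h2 : Real.pi < 3.15 := Real.pi_lt_d2
  unfold hh
  constructor
  · have := Real.pi_pos
    positivity
  · rw [div_le_one (by linarith)]
    linarith

theorem sa_shift {h : ℝ} (h0 : 0 ≤ h) (h1 : h ≤ 1) (t ξ : ℝ) (s : ℝ) (hs : |s| = h * |ξ|) (B : ℕ) :
    (1 + |t + s|) ^ B ≤ (1 + |t|) ^ B * (1 + |ξ|) ^ B := by
  rw [← mul_pow]
  apply pow_le_pow_left₀ (by positivity)
  have h2 : |t + s| ≤ |t| + |s| := abs_add_le t s
  have h3 : |s| ≤ |ξ| := by
    rw [hs]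
    have := abs_nonneg ξ
    nlinarith
  have h4 : 0 ≤ |t| * |ξ| := by positivity
  nlinarith

theorem sa_pg {B : ℕ} {g : ℝ → ℂ} (hg : PG B g) : ∃ C : ℝ, 0 ≤ C ∧ ∀ t, ‖g t‖ ≤ C * (1 + |t|) ^ B := by
  obtain ⟨-, C, hC⟩ := hg
  refine ⟨|C|, abs_nonneg C, fun t => (hC t).trans ?_⟩
  exact mul_le_mul_of_nonneg_right (le_abs_self C) (by positivity)

theorem sa_int {V : ℝ → ℝ} (hK : Ker (fun ξ => ‖uu V ξ‖)) (n : ℕ) : Integrable (fun ξ => ‖uu V ξ‖ * (1 + |ξ|) ^ n) := by
  have := hK.mom n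
  refine this.congr (Eventually.of_forall fun ξ => ?_)
  simp only
  ring

/-- composition -/
theorem sa_comp (hF : S_F) (V : ℝ → ℝ) (hV : Tst V) {T : ℝ} (hT : Real.exp 7 ≤ T) {B : ℕ}
    {g : ℝ → ℂ} (hg : PG B g) (t : ℝ) :
    Aop (fun x => V x ^ 2) T g t = ∫ ξ, uu V ξ * Aop V T g (t - hh T * ξ) := by
  obtain ⟨huc, hK, -, -, -, -, hconv, -, -⟩ := hF V hV
  obtain ⟨h0, h1⟩ := sa_hh hT
  set h := hh T with hh_def
  obtain ⟨C, hC0, hC⟩ := sa_pg hg
  have hgc := hg.1
  have e1 : Aop (fun x => V x ^ 2) T g t = ∫ η, ∫ ξ, uu V ξ * uu V (η - ξ) * g (t - h * η) := by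
    unfold Aop
    apply integral_congr_ae
    refine Eventually.of_forall fun η => ?_
    simp only
    rw [hconv, integral_mul_const]
  have e2 : ∫ ξ, uu V ξ * Aop V T g (t - h * ξ) = ∫ ξ, ∫ η, uu V ξ * uu V (η - ξ) * g (t - h * η) := by
    apply integral_congr_ae
    refine Eventually.of_forall fun ξ => ?_
    simp only
    unfold Aop
    rw [← integral_const_mul, ← integral_sub_right_eq_self (fun ζ => uu V ξ * (uu V ζ * g (t - h * ξ - hh T * ζ))) ξ]
    apply integral_congr_ae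
    refine Eventually.of_forall fun η => ?_
    simp only
    have e3 : t - h * ξ - hh T * (η - ξ) = t - h * η := by rw [← hh_def]; ring
    rw [e3]
    ring
  rw [e1, e2]
  apply integral_integral_swap
  -- integrability on the product
  have hI := sa_int hK B
  have hM := Integrable.convolution_integrand (ContinuousLinearMap.mul ℝ ℝ) hI hI
  have hM2 := hM.const_mul (C * (1 + |t|) ^ B)
  refine hM2.mono' ?_ ?_
  · apply Continuous.aestronglyMeasurable
    unfold Function.uncurry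
    fun_prop
  · refine Eventually.of_forall fun p => ?_
    obtain ⟨η, ξ⟩ := p
    simp only [Function.uncurry, norm_mul, ContinuousLinearMap.mul_apply']
    have h2 : ‖g (t - h * η)‖ ≤ C * ((1 + |t|) ^ B * (1 + |η|) ^ B) := by
      refine (hC _).trans (mul_le_mul_of_nonneg_left ?_ hC0)
      have := sa_shift h0 h1 t η (-(h * η)) (by rw [abs_neg, abs_mul, abs_of_nonneg h0]) B
      rwa [← sub_eq_add_neg] at this
    have h3 : (1 + |η|) ^ B ≤ (1 + |ξ|) ^ B * (1 + |η - ξ|) ^ B := by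
      rw [← mul_pow]
      apply pow_le_pow_left₀ (by positivity)
      have h4 : |η| ≤ |ξ| + |η - ξ| := by
        have := abs_add_le ξ (η - ξ)
        rwa [add_sub_cancel] at this
      have h5 : 0 ≤ |ξ| * |η - ξ| := by positivity
      nlinarith
    have h6 : 0 ≤ ‖uu V ξ‖ * ‖uu V (η - ξ)‖ := by positivity
    calc ‖uu V ξ‖ * ‖uu V (η - ξ)‖ * ‖g (t - h * η)‖
        ≤ ‖uu V ξ‖ * ‖uu V (η - ξ)‖ * (C * ((1 + |t|) ^ B * ((1 + |ξ|) ^ B * (1 + |η - ξ|) ^ B))) := by
          apply mul_le_mul_of_nonneg_left _ h6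
          refine h2.trans (mul_le_mul_of_nonneg_left ?_ hC0)
          exact mul_le_mul_of_nonneg_left h3 (by positivity)
      _ = C * (1 + |t|) ^ B * (‖uu V ξ‖ * (1 + |ξ|) ^ B * (‖uu V (η - ξ)‖ * (1 + |η - ξ|) ^ B)) := by ring

/-- the weights -/
theorem sa_w {w : ℝ → ℝ} (hw : Wt w) : Continuous w ∧ HasCompactSupport w ∧ ∃ b L : ℝ, 0 ≤ b ∧ 0 ≤ L ∧
    (∀ x y, |w x - w y| ≤ L * |x - y|) ∧ (∀ x, w x ≠ 0 → |x| ≤ b) := by
  obtain ⟨a, b, ha, hab, hs⟩ := hw.supp
  have hc : HasCompactSupport w := HasCompactSupport.intro isCompact_Icc hs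
  obtain ⟨L, hL⟩ := ContDiff.lipschitzWith_of_hasCompactSupport (𝕂 := ℝ) hc hw.smooth (by norm_num)
  refine ⟨hw.smooth.continuous, hc, b, L, by linarith, L.2, ?_, ?_⟩
  · intro x y
    have := hL.dist_le_mul x y
    rwa [Real.dist_eq, Real.dist_eq] at this
  · intro x hx
    by_contra hcon
    apply hx
    apply hs
    intro h
    rw [mem_Icc] at h
    rw [not_le, lt_abs] at hcon
    rcases hcon with h1 | h1 <;> linarith [h.1, h.2]

theorem sa_om_pos (m : ℕ) {T : ℝ} (hT : 1 ≤ T) (t : ℝ) : 0 < om m T t := by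
  unfold om
  positivity

theorem sa_om_cont (m : ℕ) {T : ℝ} (hT : 1 ≤ T) : Continuous (om m T) := by
  unfold om
  apply Continuous.inv₀
  · fun_prop
  · intro t
    positivity

/-- translation of the weight -/
theorem sa_om_shift (m : ℕ) {T : ℝ} (hT : 1 ≤ T) (t δ : ℝ) : om m T t ≤ (1 + |δ|) ^ m * om m T (t + δ) := by
  have hT0 : 0 < T := by linarith
  unfold om
  rw [← div_eq_mul_inv, inv_eq_one_div, div_le_div_iff₀ (by positivity) (by positivity), one_mul, ← mul_pow]
  apply pow_le_pow_left₀ (by positivity)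
  have h1 : |t + δ| / T ≤ |t| / T + |δ| / T := by
    rw [← add_div]
    exact div_le_div_of_nonneg_right (abs_add_le t δ) hT0.le
  have h2 : |δ| / T ≤ |δ| := div_le_self (abs_nonneg _) hT
  have h3 : 0 ≤ |δ| * (|t| / T) := by positivity
  nlinarith

/-- the change of the weight under a translation -/
theorem sa_w_shift {w : ℝ → ℝ} {b L : ℝ} (hb : 0 ≤ b) (hL : 0 ≤ L) (h1 : ∀ x y, |w x - w y| ≤ L * |x - y|)
    (h2 : ∀ x, w x ≠ 0 → |x| ≤ b) (m : ℕ) {T : ℝ} (hT : 1 ≤ T) (t δ : ℝ) :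
    |w (t / T) - w ((t + δ) / T)| ≤ L * (1 + b) ^ m / T * (|δ| * (1 + |δ|) ^ m) * om m T t := by
  have hT0 : 0 < T := by linarith
  have hom := sa_om_pos m hT t
  by_cases h0 : w (t / T) = 0 ∧ w ((t + δ) / T) = 0
  · rw [h0.1, h0.2, sub_zero, abs_zero]
    positivity
  · have h3 : |t| / T ≤ b + |δ| := by
      have h4 : |δ| / T ≤ |δ| := div_le_self (abs_nonneg _) hT
      by_cases h5 : w (t / T) = 0
      · have h6 : w ((t + δ) / T) ≠ 0 := fun h => h0 ⟨h5, h⟩
        have h7 := h2 _ h6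
        rw [abs_div, abs_of_pos hT0] at h7
        have h8 : |t| ≤ |t + δ| + |δ| := by
          have := abs_sub (t + δ) δ
          rwa [add_sub_cancel_right] at this
        have h9 : |t| / T ≤ |t + δ| / T + |δ| / T := by
          rw [← add_div]
          exact div_le_div_of_nonneg_right h8 hT0.le
        linarith
      · have h7 := h2 _ h5
        rw [abs_div, abs_of_pos hT0] at h7
        have := abs_nonneg δ
        linarith
    have h4 : 1 ≤ (1 + b) ^ m * (1 + |δ|) ^ m * om m T t := by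
      unfold om
      rw [← div_eq_mul_inv, one_le_div (by positivity), ← mul_pow]
      apply pow_le_pow_left₀ (by positivity)
      have : 0 ≤ b * |δ| := by positivity
      nlinarith
    have h5 := h1 (t / T) ((t + δ) / T)
    have h6 : |t / T - (t + δ) / T| = |δ| / T := by
      rw [← sub_div, abs_div, abs_of_pos hT0]
      congr 1
      rw [sub_add_cancel_left, abs_neg]
    rw [h6] at h5
    calc |w (t / T) - w ((t + δ) / T)| ≤ L * (|δ| / T) * 1 := by rw [mul_one]; exact h5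
      _ ≤ L * (|δ| / T) * ((1 + b) ^ m * (1 + |δ|) ^ m * om m T t) :=
          mul_le_mul_of_nonneg_left h4 (by positivity)
      _ = _ := by ring

/-- **CG-SA** -/
theorem t_SA (hF : S_F) (hKB : S_KB) (hAB : S_AB) : S_SA := by
  intro m B hmB w hw V hV
  obtain ⟨huc, hK, -, -, hconj, -, -, -, -⟩ := hF V hV
  obtain ⟨K1, hK1, hKB1⟩ := hKB m B hmB _ hK
  obtain ⟨hwc, hws, b, L, hb, hL, hw1, hw2⟩ := sa_w hw
  set u := uu V with hu
  -- the constant
  set A0 : ℝ := ∫ ξ, ‖u ξ‖ * (1 + |ξ|) ^ (2 * m + 1) with hA0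
  have hA0i := sa_int hK (2 * m + 1)
  have hA0n : 0 ≤ A0 := integral_nonneg fun ξ => by positivity
  refine ⟨L * (1 + b) ^ m * (K1 + 1) * A0, by positivity, ?_⟩
  intro T hT g hg
  have hT1 := sa_one hT
  have hT0 : 0 < T := by linarith
  obtain ⟨h0, h1⟩ := sa_hh hT
  set h := hh T with hh_def
  set G := Aop V T g with hG
  obtain ⟨hGi, hGle, hGpg⟩ := hAB V hV B T hT g hg
  rw [← hG] at hGpg
  obtain ⟨hKi, hKc, -, hgI, hKI, hKle⟩ := hKB1 T hT g hg
  set N2 := ∫ t, ‖g t‖ ^ 2 * om m T t with hN2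
  have hgc := hg.1
  have hGc := hGpg.1
  have homc := sa_om_cont m hT1
  have hN2n : 0 ≤ N2 := integral_nonneg fun t => by
    have := sa_om_pos m hT1 t
    positivity
  obtain ⟨Cg, hCg0, hCg⟩ := sa_pg hg
  obtain ⟨CG, hCG0, hCG⟩ := sa_pg hGpg
  have hwTc : Continuous (fun t : ℝ => w (t / T)) := by fun_prop
  have hwTs : HasCompactSupport (fun t : ℝ => w (t / T)) := by
    refine HasCompactSupport.intro (isCompact_Icc (a := -(b * T)) (b := b * T)) ?_
    intro t ht
    by_contra hcon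
    apply ht
    have h2 := hw2 _ hcon
    rw [abs_div, abs_of_pos hT0, div_le_iff₀ hT0, abs_le] at h2
    exact h2
  have hwTc' : Continuous (fun t : ℝ => ((w (t / T) : ℝ) : ℂ)) := by fun_prop
  have hwTs' : HasCompactSupport (fun t : ℝ => ((w (t / T) : ℝ) : ℂ)) :=
    hwTs.comp_left (g := fun x : ℝ => (x : ℂ)) (by simp)
  have habsw : ∀ t : ℝ, ‖((w (t / T) : ℝ) : ℂ)‖ = |w (t / T)| := fun t => by
    rw [Complex.norm_real, Real.norm_eq_abs]
  set H1 : ℝ → ℝ → ℂ := fun t ξ => u ξ * G (t - h * ξ) * (starRingEnd ℂ) (g t) * ((w (t / T) : ℝ) : ℂ) with hH1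
  set H2 : ℝ → ℝ → ℂ := fun t ξ => u ξ * G t * (starRingEnd ℂ) (g (t + h * ξ)) * ((w (t / T) : ℝ) : ℂ) with hH2
  have hstar : Continuous (fun z : ℂ => (starRingEnd ℂ) z) := Complex.continuous_conj
  -- product integrability
  have hI := sa_int hK B
  have hP1 : Integrable (Function.uncurry H1) (volume.prod volume) := by
    have hf1 : Integrable (fun t : ℝ => CG * (1 + |t|) ^ B * ‖g t‖ * |w (t / T)|) := by
      apply Continuous.integrable_of_hasCompactSupport (by fun_prop)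
      exact HasCompactSupport.mul_left (hwTs.comp_left (g := fun x : ℝ => |x|) (by simp))
    refine (hf1.mul_prod hI).mono' ?_ ?_
    · apply Continuous.aestronglyMeasurable
      unfold Function.uncurry
      simp only [hH1]
      fun_prop
    · refine Eventually.of_forall fun p => ?_
      obtain ⟨t, ξ⟩ := p
      simp only [Function.uncurry, hH1, norm_mul, RCLike.norm_conj, habsw]
      have h2 : ‖G (t - h * ξ)‖ ≤ CG * ((1 + |t|) ^ B * (1 + |ξ|) ^ B) := by
        refine (hCG _).trans (mul_le_mul_of_nonneg_left ?_ hCG0)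
        have := sa_shift h0 h1 t ξ (-(h * ξ)) (by rw [abs_neg, abs_mul, abs_of_nonneg h0]) B
        rwa [← sub_eq_add_neg] at this
      calc ‖u ξ‖ * ‖G (t - h * ξ)‖ * ‖g t‖ * |w (t / T)|
          ≤ ‖u ξ‖ * (CG * ((1 + |t|) ^ B * (1 + |ξ|) ^ B)) * ‖g t‖ * |w (t / T)| := by gcongr
        _ = _ := by ring
  have hP2 : Integrable (Function.uncurry H2) (volume.prod volume) := by
    have hf1 : Integrable (fun t : ℝ => Cg * (1 + |t|) ^ B * ‖G t‖ * |w (t / T)|) := by
      apply Continuous.integrable_of_hasCompactSupport (by fun_prop)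
      exact HasCompactSupport.mul_left (hwTs.comp_left (g := fun x : ℝ => |x|) (by simp))
    refine (hf1.mul_prod hI).mono' ?_ ?_
    · apply Continuous.aestronglyMeasurable
      unfold Function.uncurry
      simp only [hH2]
      fun_prop
    · refine Eventually.of_forall fun p => ?_
      obtain ⟨t, ξ⟩ := p
      simp only [Function.uncurry, hH2, norm_mul, RCLike.norm_conj, habsw]
      have h2 : ‖g (t + h * ξ)‖ ≤ Cg * ((1 + |t|) ^ B * (1 + |ξ|) ^ B) := by
        refine (hCg _).trans (mul_le_mul_of_nonneg_left ?_ hCg0)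
        exact sa_shift h0 h1 t ξ (h * ξ) (by rw [abs_mul, abs_of_nonneg h0]) B
      calc ‖u ξ‖ * ‖G t‖ * ‖g (t + h * ξ)‖ * |w (t / T)|
          ≤ ‖u ξ‖ * ‖G t‖ * (Cg * ((1 + |t|) ^ B * (1 + |ξ|) ^ B)) * |w (t / T)| := by gcongr
        _ = _ := by ring
  -- the two integrals
  have hGconj : ∀ t, (starRingEnd ℂ) (G t) = ∫ ξ, u ξ * (starRingEnd ℂ) (g (t + h * ξ)) := by
    intro t
    have e1 : (starRingEnd ℂ) (G t) = ∫ ξ, (starRingEnd ℂ) (u ξ * g (t - h * ξ)) := by
      rw [integral_conj]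
      rfl
    rw [e1, ← integral_neg_eq_self (fun ξ => u ξ * (starRingEnd ℂ) (g (t + h * ξ)))]
    apply integral_congr_ae
    refine Eventually.of_forall fun ξ => ?_
    simp only
    rw [map_mul, hconj]
    congr 3
    ring
  have hA : ((∫ t, ‖G t‖ ^ 2 * w (t / T) : ℝ) : ℂ) = ∫ t, ∫ ξ, H2 t ξ := by
    rw [← integral_complex_ofReal]
    apply integral_congr_ae
    refine Eventually.of_forall fun t => ?_
    simp only [hH2]
    have e1 : ∫ ξ, u ξ * G t * (starRingEnd ℂ) (g (t + h * ξ)) * ((w (t / T) : ℝ) : ℂ) =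
        G t * (∫ ξ, u ξ * (starRingEnd ℂ) (g (t + h * ξ))) * ((w (t / T) : ℝ) : ℂ) := by
      rw [← integral_const_mul, ← integral_mul_const]
      apply integral_congr_ae
      refine Eventually.of_forall fun ξ => ?_
      simp only
      ring
    rw [e1, ← hGconj, Complex.mul_conj']
    push_cast
    ring
  have hB : ∫ t, Aop (fun x => V x ^ 2) T g t * (starRingEnd ℂ) (g t) * (w (t / T) : ℂ) = ∫ t, ∫ ξ, H1 t ξ := by
    apply integral_congr_ae
    refine Eventually.of_forall fun t => ?_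
    simp only [hH1]
    rw [sa_comp hF V hV hT hg t, ← integral_mul_const, ← integral_mul_const]
  have hC1 : ∫ t, ∫ ξ, H1 t ξ = ∫ ξ, ∫ t, H1 (t + h * ξ) ξ := by
    rw [integral_integral_swap hP1]
    apply integral_congr_ae
    refine Eventually.of_forall fun ξ => ?_
    simp only
    rw [integral_add_right_eq_self (fun t => H1 t ξ) (h * ξ)]
  have hC2 : ∫ t, ∫ ξ, H2 t ξ = ∫ ξ, ∫ t, H2 t ξ := integral_integral_swap hP2
  have hi1 : Integrable (fun ξ => ∫ t, H1 (t + h * ξ) ξ) := by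
    have h2 := hP1.integral_prod_right
    refine h2.congr (Eventually.of_forall fun ξ => ?_)
    simp only [Function.uncurry]
    rw [integral_add_right_eq_self (fun t => H1 t ξ) (h * ξ)]
  have hi2 : Integrable (fun ξ => ∫ t, H2 t ξ) := hP2.integral_prod_right
  rw [hA, hB, hC1, hC2, ← integral_sub hi2 hi1]
  -- integrability of the majorant
  have hGI : Integrable (fun t => ‖G t‖ ^ 2 * om m T t) := by
    refine hKI.mono' (by apply Continuous.aestronglyMeasurable; fun_prop) (Eventually.of_forall fun t => ?_)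
    have h2 := sa_om_pos m hT1 t
    rw [Real.norm_eq_abs, abs_of_nonneg (by positivity)]
    apply mul_le_mul_of_nonneg_right _ h2.le
    exact pow_le_pow_left₀ (norm_nonneg _) (hGle t) 2
  have hGN : ∫ t, ‖G t‖ ^ 2 * om m T t ≤ K1 * N2 := by
    refine le_trans ?_ hKle
    apply integral_mono hGI hKI
    intro t
    have h2 := sa_om_pos m hT1 t
    apply mul_le_mul_of_nonneg_right _ h2.le
    exact pow_le_pow_left₀ (norm_nonneg _) (hGle t) 2
  have hbd : ∀ ξ, ‖(∫ t, H2 t ξ) - ∫ t, H1 (t + h * ξ) ξ‖ ≤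
      L * (1 + b) ^ m * (K1 + 1) / T * N2 * (‖u ξ‖ * (1 + |ξ|) ^ (2 * m + 1)) := by
    intro ξ
    set δ := h * ξ with hδ
    have hδξ : |δ| ≤ |ξ| := by
      rw [hδ, abs_mul, abs_of_nonneg h0]
      have := abs_nonneg ξ
      nlinarith
    have hJ2 : Integrable (fun t => H2 t ξ) := by
      simp only [hH2]
      apply Continuous.integrable_of_hasCompactSupport (by fun_prop)
      exact hwTs'.mul_left
    have hJ1 : Integrable (fun t => H1 (t + δ) ξ) := by
      have h2 : Integrable (fun t => H1 t ξ) := by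
        simp only [hH1]
        apply Continuous.integrable_of_hasCompactSupport (by fun_prop)
        exact hwTs'.mul_left
      exact h2.comp_add_right δ
    rw [← integral_sub hJ2 hJ1]
    set c1 : ℝ := ‖u ξ‖ * (L * (1 + b) ^ m / T * (|δ| * (1 + |δ|) ^ m)) with hc1
    have hc10 : 0 ≤ c1 := by positivity
    have hgs : Integrable (fun t => ‖g (t + δ)‖ ^ 2 * om m T (t + δ)) := hgI.comp_add_right δ
    have hQ : Integrable (fun t => c1 * (‖G t‖ ^ 2 * om m T t + (1 + |δ|) ^ m * (‖g (t + δ)‖ ^ 2 * om m T (t + δ)))) :=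
      (hGI.add (hgs.const_mul _)).const_mul _
    have hle : ∀ t, ‖H2 t ξ - H1 (t + δ) ξ‖ ≤
        c1 * (‖G t‖ ^ 2 * om m T t + (1 + |δ|) ^ m * (‖g (t + δ)‖ ^ 2 * om m T (t + δ))) := by
      intro t
      have e1 : H2 t ξ - H1 (t + δ) ξ = u ξ * G t * (starRingEnd ℂ) (g (t + δ)) *
          ((w (t / T) - w ((t + δ) / T) : ℝ) : ℂ) := by
        simp only [hH1, hH2]
        rw [← hδ, add_sub_cancel_right]
        push_cast
        ring
      rw [e1, norm_mul, norm_mul, norm_mul, RCLike.norm_conj, Complex.norm_real, Real.norm_eq_abs]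
      have h2 := sa_w_shift hb hL hw1 hw2 m hT1 t δ
      have h3 := sa_om_shift m hT1 t δ
      have h4 := sa_om_pos m hT1 t
      have h5 : ‖G t‖ * ‖g (t + δ)‖ ≤ ‖G t‖ ^ 2 + ‖g (t + δ)‖ ^ 2 := by
        nlinarith [sq_nonneg (‖G t‖ - ‖g (t + δ)‖), sq_nonneg ‖G t‖, sq_nonneg ‖g (t + δ)‖]
      calc ‖u ξ‖ * ‖G t‖ * ‖g (t + δ)‖ * |w (t / T) - w ((t + δ) / T)|
          ≤ ‖u ξ‖ * ‖G t‖ * ‖g (t + δ)‖ * (L * (1 + b) ^ m / T * (|δ| * (1 + |δ|) ^ m) * om m T t) :=
            mul_le_mul_of_nonneg_left h2 (by positivity)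
        _ = c1 * (‖G t‖ * ‖g (t + δ)‖ * om m T t) := by rw [hc1]; ring
        _ ≤ c1 * ((‖G t‖ ^ 2 + ‖g (t + δ)‖ ^ 2) * om m T t) := by
            apply mul_le_mul_of_nonneg_left _ hc10
            exact mul_le_mul_of_nonneg_right h5 h4.le
        _ = c1 * (‖G t‖ ^ 2 * om m T t + ‖g (t + δ)‖ ^ 2 * om m T t) := by ring
        _ ≤ c1 * (‖G t‖ ^ 2 * om m T t + ‖g (t + δ)‖ ^ 2 * ((1 + |δ|) ^ m * om m T (t + δ))) := by
            apply mul_le_mul_of_nonneg_left _ hc10
            have := mul_le_mul_of_nonneg_left h3 (sq_nonneg ‖g (t + δ)‖)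
            linarith
        _ = _ := by ring
    refine (norm_integral_le_of_norm_le hQ (Eventually.of_forall hle)).trans ?_
    rw [integral_const_mul, integral_add hGI (hgs.const_mul _), integral_const_mul,
      integral_add_right_eq_self (fun t => ‖g t‖ ^ 2 * om m T t) δ, ← hN2]
    have hP1 : (1 : ℝ) ≤ (1 + |ξ|) ^ m := one_le_pow₀ (by linarith [abs_nonneg ξ])
    have hP2 : (1 + |δ|) ^ m ≤ (1 + |ξ|) ^ m := pow_le_pow_left₀ (by positivity) (by linarith) m
    have h6 : (∫ t, ‖G t‖ ^ 2 * om m T t) + (1 + |δ|) ^ m * N2 ≤ (K1 + 1) * (1 + |ξ|) ^ m * N2 := by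
      have h7 : (1 + |δ|) ^ m * N2 ≤ (1 + |ξ|) ^ m * N2 := mul_le_mul_of_nonneg_right hP2 hN2n
      have h8 : K1 * N2 * 1 ≤ K1 * N2 * (1 + |ξ|) ^ m := mul_le_mul_of_nonneg_left hP1 (by positivity)
      linarith
    have h7 : c1 ≤ ‖u ξ‖ * (L * (1 + b) ^ m / T * ((1 + |ξ|) * (1 + |ξ|) ^ m)) := by
      rw [hc1]
      apply mul_le_mul_of_nonneg_left _ (norm_nonneg _)
      apply mul_le_mul_of_nonneg_left _ (by positivity)
      apply mul_le_mul (by linarith [abs_nonneg ξ]) hP2 (by positivity) (by positivity)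
    have h8 : (0 : ℝ) ≤ (K1 + 1) * (1 + |ξ|) ^ m * N2 := by positivity
    refine (mul_le_mul_of_nonneg_left h6 hc10).trans ((mul_le_mul_of_nonneg_right h7 h8).trans (le_of_eq ?_))
    have h9 : (1 + |ξ|) ^ (2 * m + 1) = (1 + |ξ|) * (1 + |ξ|) ^ m * (1 + |ξ|) ^ m := by
      rw [pow_add, pow_one, two_mul, pow_add]
      ring
    rw [h9]
    ring
  have hfin := norm_integral_le_of_norm_le (hA0i.const_mul (L * (1 + b) ^ m * (K1 + 1) / T * N2)) (Eventually.of_forall hbd)
  refine hfin.trans (le_of_eq ?_)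
  rw [integral_const_mul, ← hA0]
  ring

end SA

end Pool.Agent.J6H39.CG
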