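import Pool.Agent.J6H39.CG.Fin5
import Pool.Agent.J6H39.CG.SA

/-! Project CG: the final statement in explicit form. -/

set_option autoImplicit false

open MeasureTheory Set Filter Topology Complex
open scoped FourierTransform ContDiff

namespace Pool.Agent.J6H39.CG

open Pool.Agent.J6H39.KV (dv)

theorem wt_of {w : ℝ → ℝ} (h1 : ContDiff ℝ 1 w) (h2 : ∃ a b : ℝ, 0 < a ∧ ∀ x, x ∉ Set.Icc a b → w x = 0) : Wt w := by
  obtain ⟨a, b, ha, h⟩ := h2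
  refine ⟨h1, a, max a b, ha, le_max_left _ _, fun x hx => h x fun hx' => hx ⟨hx'.1, hx'.2.trans (le_max_right _ _)⟩⟩

theorem to_wt {w : ℝ → ℝ} (h : Wt w) : ContDiff ℝ 1 w ∧ ∃ a b : ℝ, 0 < a ∧ ∀ x, x ∉ Set.Icc a b → w x = 0 := by
  obtain ⟨a, b, ha, -, h2⟩ := h.supp
  exact ⟨h.smooth, a, b, ha, h2⟩

/-- the sum of the two mean squares -/
theorem sum_int {V W w : ℝ → ℝ} (hV : Tst V) (hW : Tst W) (hw : Wt w) (k : ℕ) {T : ℝ} (hT : 1 < T) :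
    ∫ t, (‖Dp k V T t‖ ^ 2 + ‖Dp k W T t‖ ^ 2) * w (t / T) =
      (∫ t, ‖Dp k V T t‖ ^ 2 * w (t / T)) + ∫ t, ‖Dp k W T t‖ ^ 2 * w (t / T) := by
  have hT0 : 0 < T := by linarith
  have i1 : Integrable (fun t => ‖Dp k V T t‖ ^ 2 * w (t / T)) := wt_int hw hT0 ((Dp_cont hV hT k).norm.pow 2)
  have i2 : Integrable (fun t => ‖Dp k W T t‖ ^ 2 * w (t / T)) := wt_int hw hT0 ((Dp_cont hW hT k).norm.pow 2)
  rw [← integral_add i1 i2]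
  refine integral_congr_ae (Eventually.of_forall fun t => ?_)
  simp only
  ring

theorem final {k : ℕ} (hk : 1 ≤ k) {V W : ℝ → ℝ} (hV : Tst V) (hW : Tst W)
    (h : ∀ x : ℝ, 0 ≤ x → x ≤ k → V x ^ 2 + W (k - x) ^ 2 = 1) :
    (∃ m₀ : ℕ, ∀ m : ℕ, m₀ ≤ m → ∀ w : ℝ → ℝ,
      (ContDiff ℝ 1 w ∧ ∃ a b : ℝ, 0 < a ∧ ∀ x, x ∉ Set.Icc a b → w x = 0) → ∀ ε : ℝ, 0 < ε → ∀ᶠ T : ℝ in atTop,
        |(∫ t : ℝ, ‖riemannZeta (1 / 2 + (t : ℂ) * I)‖ ^ (2 * k) * w (t / T)) -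
          ∫ t : ℝ, (‖Dp k V T t‖ ^ 2 + ‖Dp k W T t‖ ^ 2) * w (t / T)| ≤
        ε * ((∫ t : ℝ, ‖riemannZeta (1 / 2 + (t : ℂ) * I)‖ ^ (2 * k) / (1 + |t| / T) ^ m) +
          T * Real.log T ^ (k ^ 2))) ∧
      (∀ γ : ℝ,
        Tendsto (fun T : ℝ => (T⁻¹ * ∫ t in (0 : ℝ)..T, ‖riemannZeta (1 / 2 + (t : ℂ) * I)‖ ^ (2 * k)) /
          Real.log T ^ (k ^ 2)) atTop (𝓝 γ) ↔
        ∀ w : ℝ → ℝ, (ContDiff ℝ 1 w ∧ ∃ a b : ℝ, 0 < a ∧ ∀ x, x ∉ Set.Icc a b → w x = 0) → Tendsto (fun T : ℝ =>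
          (T⁻¹ * ∫ t : ℝ, (‖Dp k V T t‖ ^ 2 + ‖Dp k W T t‖ ^ 2) * w (t / T)) /
            Real.log T ^ (k ^ 2)) atTop (𝓝 (γ * ∫ x, w x))) := by
  obtain ⟨m₀, hm⟩ := main_id' (t_SA t_F t_KB t_AB) hk hV hW h
  constructor
  · refine ⟨m₀, fun m hmm w hw ε hε => ?_⟩
    obtain ⟨T₀, hT₀⟩ := hm m hmm (wt_of hw.1 hw.2) ε hε
    filter_upwards [eventually_ge_atTop T₀, eventually_gt_atTop 1] with T h1 h2
    have h3 := hT₀ T h1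
    rw [sum_int hV hW (wt_of hw.1 hw.2) k h2]
    exact h3
  · intro γ
    have he := fin_equiv (k := k) t_UB t_TB t_GR ⟨m₀, hm⟩ γ
    have e1 : ∀ (X Y Z : ℝ), (X⁻¹ * Y) / Z = Y / (X * Z) := by
      intro X Y Z
      rw [div_eq_mul_inv, div_eq_mul_inv, mul_inv]
      ring
    simp only [e1]
    refine he.trans ?_
    constructor
    · intro h1 w hw
      refine (h1 w (wt_of hw.1 hw.2)).congr' ?_
      filter_upwards [eventually_gt_atTop 1] with T hT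
      rw [sum_int hV hW (wt_of hw.1 hw.2) k hT]
    · intro h1 w hw
      refine (h1 w (to_wt hw)).congr' ?_
      filter_upwards [eventually_gt_atTop 1] with T hT
      rw [sum_int hV hW hw k hT]

end Pool.Agent.J6H39.CG
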