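import Pool.Agent.J6H39.CG.Base

/-! Project CG: growth of zeta, the weight, and the majorant operator (`S_ZG`, `S_KB`, `S_AB`). -/

set_option autoImplicit false

open MeasureTheory Set Filter Topology Complex
open scoped FourierTransform ContDiff SchwartzMap

namespace Pool.Agent.J6H39.CG

/-! ### zeta -/

/-- growth in the strip -/
theorem zeta_growth {s : ℂ} (h1 : 1 / 8 ≤ s.re) (h2 : s.re ≤ 7 / 8) :
    ‖riemannZeta s‖ ≤ 16 * (1 + |s.im|) := by
  have h0 : 0 < s.re := by linarith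
  have hs1 : s ≠ 1 := by
    rintro rfl
    simp at h2
    linarith
  have h3 := Pool.Agent.H437R2.Hf_norm_le h0
  have h4 : 1 / s.re ≤ 8 := by
    rw [div_le_iff₀ h0]; linarith
  have h5 : 1 / 8 ≤ ‖s - 1‖ := by
    have := Complex.abs_re_le_norm (s - 1)
    rw [Complex.sub_re, Complex.one_re] at this
    have h6 := neg_le_abs (s.re - 1)
    linarith
  have h50 : 0 < ‖s - 1‖ := by linarith
  have h7 : ‖s‖ ≤ 1 + |s.im| := by
    refine (Complex.norm_le_abs_re_add_abs_im s).trans ?_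
    rw [abs_of_pos h0]
    linarith
  rw [riemannZeta_eq_inv_sub_mul hs1, norm_mul, norm_inv, Pool.Agent.H437R2.z1_eq h0]
  have h8 : ‖Pool.Agent.H437R2.Zt s‖ ≤ ‖s‖ + ‖s‖ * ‖s - 1‖ * 8 := by
    unfold Pool.Agent.H437R2.Zt
    refine (norm_sub_le _ _).trans ?_
    rw [norm_mul, norm_mul]
    gcongr
    exact h3.trans h4
  have h9 : ‖s - 1‖⁻¹ ≤ 8 := by
    rw [inv_le_comm₀ h50 (by norm_num)]
    linarith
  calc ‖s - 1‖⁻¹ * ‖Pool.Agent.H437R2.Zt s‖ ≤ ‖s - 1‖⁻¹ * (‖s‖ + ‖s‖ * ‖s - 1‖ * 8) := by gcongr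
    _ = ‖s - 1‖⁻¹ * ‖s‖ + 8 * ‖s‖ := by
        field_simp
    _ ≤ 8 * ‖s‖ + 8 * ‖s‖ := by gcongr
    _ ≤ 16 * (1 + |s.im|) := by linarith

theorem zline_ne (t : ℝ) : (1 / 2 + (t : ℂ) * I) ≠ 1 := by
  intro h
  have := congrArg Complex.re h
  norm_num at this

theorem zh_bound (t : ℝ) : ‖zh t‖ ≤ 16 * (1 + |t|) := by
  have := zeta_growth (s := 1 / 2 + (t : ℂ) * I) (by norm_num) (by norm_num)
  simpa [zh] using this

theorem zh_cont : Continuous zh := by
  unfold zh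
  refine continuous_iff_continuousAt.2 fun t => ?_
  have h := (differentiableAt_riemannZeta (zline_ne t)).continuousAt
  exact ContinuousAt.comp (f := fun t : ℝ => (1 / 2 + (t : ℂ) * I)) h (by fun_prop)

theorem t_ZG : S_ZG := by
  intro k
  refine ⟨zh_cont.pow k, 16 ^ k, fun t => ?_⟩
  rw [norm_pow, ← mul_pow]
  exact pow_le_pow_left₀ (norm_nonneg _) (zh_bound t) k

/-! ### the weight -/

theorem om_base {T : ℝ} (hT : 0 < T) (t : ℝ) : 1 ≤ 1 + |t| / T := by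
  have : 0 ≤ |t| / T := by positivity
  linarith

theorem om_pos (m : ℕ) {T : ℝ} (hT : 0 < T) (t : ℝ) : 0 < om m T t := by
  have := om_base hT t
  unfold om
  positivity

theorem om_le_one (m : ℕ) {T : ℝ} (hT : 0 < T) (t : ℝ) : om m T t ≤ 1 :=
  inv_le_one_of_one_le₀ (one_le_pow₀ (om_base hT t))

theorem om_cont (m : ℕ) {T : ℝ} (hT : 0 < T) : Continuous (om m T) := by
  unfold om
  refine Continuous.inv₀ (by fun_prop) fun t => ?_
  have := om_base hT t
  positivity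

theorem om_shift (m : ℕ) {T : ℝ} (hT : 1 ≤ T) (t δ : ℝ) : om m T (t + δ) ≤ (1 + |δ|) ^ m * om m T t := by
  have hT0 : 0 < T := by linarith
  have h1 := om_base hT0 t
  have h2 := om_base hT0 (t + δ)
  have h3 : |δ| / T ≤ |δ| := div_le_self (abs_nonneg _) hT
  have h4 : 1 + |t| / T ≤ (1 + |δ|) * (1 + |t + δ| / T) := by
    have h5 : |t| ≤ |t + δ| + |δ| := by
      have := abs_sub_abs_le_abs_sub (t + δ) δ
      have h6 := abs_sub (t + δ) δ
      rw [add_sub_cancel_right] at h6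
      exact h6
    have h7 : |t| / T ≤ |t + δ| / T + |δ| / T := by
      rw [← add_div]
      gcongr
    have h8 : 0 ≤ |δ| * (|t + δ| / T) := by positivity
    nlinarith
  unfold om
  rw [← div_eq_mul_inv, inv_eq_one_div, div_le_div_iff₀ (by positivity) (by positivity), one_mul, ← mul_pow]
  exact pow_le_pow_left₀ (by positivity) h4 m

/-- bound of the weight by `(1+t²)^(-1)` -/
theorem om_bound {m B : ℕ} (hm : 2 * B + 2 ≤ m) {T : ℝ} (hT : 1 ≤ T) (t : ℝ) :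
    (1 + |t|) ^ (2 * B) * om m T t ≤ T ^ m * (1 + t ^ 2)⁻¹ := by
  have hT0 : 0 < T := by linarith
  have h1 : (1 + |t|) / T ≤ 1 + |t| / T := by
    rw [add_div]
    have : 1 / T ≤ 1 := by rw [div_le_one hT0]; exact hT
    linarith
  have h2 : om m T t ≤ T ^ m * ((1 + |t|) ^ m)⁻¹ := by
    unfold om
    calc ((1 + |t| / T) ^ m)⁻¹ ≤ (((1 + |t|) / T) ^ m)⁻¹ := by gcongr
      _ = T ^ m * ((1 + |t|) ^ m)⁻¹ := by rw [div_pow, inv_div, div_eq_mul_inv]
  obtain ⟨j, rfl⟩ := Nat.exists_eq_add_of_le hm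
  have h0 : 1 ≤ 1 + |t| := by linarith [abs_nonneg t]
  calc (1 + |t|) ^ (2 * B) * om (2 * B + 2 + j) T t
      ≤ (1 + |t|) ^ (2 * B) * (T ^ (2 * B + 2 + j) * ((1 + |t|) ^ (2 * B + 2 + j))⁻¹) := by gcongr
    _ = T ^ (2 * B + 2 + j) * (((1 + |t|) ^ 2)⁻¹ * ((1 + |t|) ^ j)⁻¹) := by
        rw [pow_add (1 + |t|), pow_add (1 + |t|)]
        field_simp
    _ ≤ T ^ (2 * B + 2 + j) * ((1 + t ^ 2)⁻¹ * 1) := by
        have h3 : 1 + t ^ 2 ≤ (1 + |t|) ^ 2 := by
          have := sq_abs t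
          nlinarith [abs_nonneg t]
        have h4 : ((1 + |t|) ^ j)⁻¹ ≤ 1 := inv_le_one_of_one_le₀ (one_le_pow₀ h0)
        gcongr
    _ = _ := by rw [mul_one]

theorem pg_int {m B : ℕ} (hm : 2 * B + 2 ≤ m) {T : ℝ} (hT : 1 ≤ T) {φ : ℝ → ℝ} (hφ : Continuous φ) {C : ℝ}
    (hC : ∀ t, |φ t| ≤ C * (1 + |t|) ^ (2 * B)) : Integrable (fun t => φ t * om m T t) := by
  have hT0 : 0 < T := by linarith
  have hC0 : 0 ≤ C := by
    have := (abs_nonneg _).trans (hC 0)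
    simpa using this
  have h1 : Integrable (fun t : ℝ => C * (T ^ m * (1 + t ^ 2)⁻¹)) :=
    (integrable_inv_one_add_sq.const_mul _).const_mul _
  refine h1.mono' (hφ.mul (om_cont m hT0)).aestronglyMeasurable (Eventually.of_forall fun t => ?_)
  rw [Real.norm_eq_abs, abs_mul, abs_of_pos (om_pos m hT0 t)]
  calc |φ t| * om m T t ≤ C * (1 + |t|) ^ (2 * B) * om m T t :=
        mul_le_mul_of_nonneg_right (hC t) (om_pos m hT0 t).le
    _ = C * ((1 + |t|) ^ (2 * B) * om m T t) := by ring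
    _ ≤ _ := mul_le_mul_of_nonneg_left (om_bound hm hT t) hC0

theorem pg_sq_int {m B : ℕ} (hm : 2 * B + 2 ≤ m) {T : ℝ} (hT : 1 ≤ T) {g : ℝ → ℂ} (hg : PG B g) :
    Integrable (fun t => ‖g t‖ ^ 2 * om m T t) := by
  obtain ⟨hc, C, hC⟩ := hg
  refine pg_int hm hT (hc.norm.pow 2) (C := C ^ 2) fun t => ?_
  rw [abs_of_nonneg (by positivity), mul_comm 2 B, pow_mul, ← mul_pow]
  exact pow_le_pow_left₀ (norm_nonneg _) (hC t) 2

/-- translation in the weighted space -/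
theorem shift_int {m : ℕ} {T : ℝ} (hT : 1 ≤ T) {φ : ℝ → ℝ} (h0 : ∀ t, 0 ≤ φ t)
    (hφ : Continuous φ) (hi : Integrable (fun t => φ t * om m T t)) (δ : ℝ) :
    Integrable (fun t => φ (t - δ) * om m T t) ∧
      ∫ t, φ (t - δ) * om m T t ≤ (1 + |δ|) ^ m * ∫ t, φ t * om m T t := by
  have hT0 : 0 < T := by linarith
  have h1 : Integrable (fun t => φ t * om m T (t + δ)) := by
    refine (hi.const_mul ((1 + |δ|) ^ m)).mono' ?_ (Eventually.of_forall fun t => ?_)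
    · exact (hφ.mul ((om_cont m hT0).comp (by fun_prop))).aestronglyMeasurable
    · rw [Real.norm_of_nonneg (mul_nonneg (h0 t) (om_pos m hT0 _).le)]
      have := om_shift m hT t δ
      calc φ t * om m T (t + δ) ≤ φ t * ((1 + |δ|) ^ m * om m T t) := by
            gcongr
            exact h0 t
        _ = _ := by ring
  have e : (fun t => φ (t - δ) * om m T t) = fun t => (fun s => φ s * om m T (s + δ)) (t - δ) := by
    funext t
    simp
  constructor
  · rw [e]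
    exact h1.comp_sub_right δ
  · rw [e, integral_sub_right_eq_self (fun s => φ s * om m T (s + δ)) δ, ← integral_const_mul]
    refine integral_mono h1 (hi.const_mul _) fun t => ?_
    have := om_shift m hT t δ
    calc φ t * om m T (t + δ) ≤ φ t * ((1 + |δ|) ^ m * om m T t) := by
          gcongr
          exact h0 t
      _ = _ := by ring

theorem hh_pos {T : ℝ} (hT : Real.exp 7 ≤ T) : 0 < hh T ∧ hh T ≤ 1 := by
  have h0 : 0 < T := (Real.exp_pos _).trans_le hT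
  have h1 : 7 ≤ Real.log T := by
    rw [← Real.log_exp 7]
    exact Real.log_le_log (Real.exp_pos _) hT
  constructor
  · unfold hh
    have := Real.pi_pos
    positivity
  · unfold hh
    rw [div_le_one (by linarith)]
    have := Real.pi_lt_d2
    linarith

theorem exp7 : (1 : ℝ) ≤ Real.exp 7 := Real.one_le_exp (by norm_num)

/-- Cauchy-Schwarz for weighted integrals -/
theorem cs_int {κ a : ℝ → ℝ} (h0 : ∀ x, 0 ≤ κ x) (h1 : Integrable κ) (h2 : Integrable (fun x => κ x * a x))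
    (h3 : Integrable (fun x => κ x * a x ^ 2)) :
    (∫ x, κ x * a x) ^ 2 ≤ (∫ x, κ x) * ∫ x, κ x * a x ^ 2 := by
  have key : ∀ l : ℝ, 0 ≤ (∫ x, κ x) * (l * l) + (-(2 * ∫ x, κ x * a x)) * l + ∫ x, κ x * a x ^ 2 := by
    intro l
    have e : (∫ x, κ x) * (l * l) + (-(2 * ∫ x, κ x * a x)) * l + ∫ x, κ x * a x ^ 2 =
        ∫ x, κ x * (a x - l) ^ 2 := by
      have e1 : (fun x => κ x * (a x - l) ^ 2) =
          fun x => (κ x * (l * l) + (κ x * a x) * (-(2 * l))) + κ x * a x ^ 2 := by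
        funext x; ring
      have i1 : Integrable (fun x => κ x * (l * l)) := h1.mul_const _
      have i2 : Integrable (fun x => (κ x * a x) * (-(2 * l))) := h2.mul_const _
      have i12 : Integrable (fun x => κ x * (l * l) + (κ x * a x) * (-(2 * l))) := i1.add i2
      rw [e1, integral_add i12 h3, integral_add i1 i2, integral_mul_const, integral_mul_const]
      ring
    rw [e]
    exact integral_nonneg fun x => mul_nonneg (h0 x) (sq_nonneg _)
  have := discrim_le_zero key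
  unfold discrim at this
  nlinarith

/-! ### the majorant -/

theorem kop_pt {κ : ℝ → ℝ} (hκ : Ker κ) {B : ℕ} {T : ℝ} (hT : Real.exp 7 ≤ T) {g : ℝ → ℂ} {C : ℝ}
    (hC : ∀ t, ‖g t‖ ≤ C * (1 + |t|) ^ B) (t ξ : ℝ) :
    κ ξ * ‖g (t - hh T * ξ)‖ ≤ C * (1 + |t|) ^ B * ((1 + |ξ|) ^ B * κ ξ) := by
  have h1 := hh_pos hT
  have hC0 : 0 ≤ C := by
    have := (norm_nonneg _).trans (hC 0)
    simpa using this
  have h2 : 1 + |t - hh T * ξ| ≤ (1 + |t|) * (1 + |ξ|) := by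
    have h3 : |t - hh T * ξ| ≤ |t| + |ξ| := by
      refine (abs_sub _ _).trans ?_
      rw [abs_mul, abs_of_pos h1.1]
      have : hh T * |ξ| ≤ 1 * |ξ| := by gcongr; exact h1.2
      linarith
    nlinarith [abs_nonneg t, abs_nonneg ξ, mul_nonneg (abs_nonneg t) (abs_nonneg ξ)]
  calc κ ξ * ‖g (t - hh T * ξ)‖ ≤ κ ξ * (C * (1 + |t - hh T * ξ|) ^ B) := by
        gcongr
        · exact hκ.nonneg ξ
        · exact hC _
    _ ≤ κ ξ * (C * ((1 + |t|) * (1 + |ξ|)) ^ B) := by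
        gcongr
        exact hκ.nonneg ξ
    _ = _ := by rw [mul_pow]; ring

theorem kop_int {κ : ℝ → ℝ} (hκ : Ker κ) {B : ℕ} {T : ℝ} (hT : Real.exp 7 ≤ T) {g : ℝ → ℂ} (hg : PG B g) (t : ℝ) :
    Integrable (fun ξ => κ ξ * ‖g (t - hh T * ξ)‖) := by
  obtain ⟨hc, C, hC⟩ := hg
  refine ((hκ.mom B).const_mul (C * (1 + |t|) ^ B)).mono' ?_ (Eventually.of_forall fun ξ => ?_)
  · exact (hκ.cont.mul (hc.comp (by fun_prop)).norm).aestronglyMeasurable
  · rw [Real.norm_of_nonneg (mul_nonneg (hκ.nonneg ξ) (norm_nonneg _))]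
    exact kop_pt hκ hT hC t ξ

theorem kop_cont {κ : ℝ → ℝ} (hκ : Ker κ) {B : ℕ} {T : ℝ} (hT : Real.exp 7 ≤ T) {g : ℝ → ℂ} (hg : PG B g) :
    Continuous (Kop κ T g) := by
  obtain ⟨hc, C, hC⟩ := hg
  have hC0 : 0 ≤ C := by
    have := (norm_nonneg _).trans (hC 0)
    simpa using this
  refine continuous_iff_continuousAt.2 fun t₀ => ?_
  unfold Kop
  refine continuousAt_of_dominated (bound := fun ξ => C * (2 + |t₀|) ^ B * ((1 + |ξ|) ^ B * κ ξ)) ?_ ?_
    ((hκ.mom B).const_mul _) ?_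
  · exact Eventually.of_forall fun t => (hκ.cont.mul (hc.comp (by fun_prop)).norm).aestronglyMeasurable
  · have h1 : ∀ᶠ t in 𝓝 t₀, |t| ≤ 1 + |t₀| := by
      filter_upwards [Metric.ball_mem_nhds t₀ one_pos] with t ht
      rw [Metric.mem_ball, Real.dist_eq] at ht
      have := abs_sub_abs_le_abs_sub t t₀
      linarith
    filter_upwards [h1] with t ht
    refine Eventually.of_forall fun ξ => ?_
    rw [Real.norm_of_nonneg (mul_nonneg (hκ.nonneg ξ) (norm_nonneg _))]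
    refine (kop_pt hκ hT hC t ξ).trans ?_
    have h3 := hκ.nonneg ξ
    have h4 : 1 + |t| ≤ 2 + |t₀| := by linarith
    gcongr
  · refine Eventually.of_forall fun ξ => ?_
    fun_prop

theorem kop_bound {κ : ℝ → ℝ} (hκ : Ker κ) {B : ℕ} {T : ℝ} (hT : Real.exp 7 ≤ T) {g : ℝ → ℂ} (hg : PG B g) :
    ∃ C : ℝ, ∀ t, Kop κ T g t ≤ C * (1 + |t|) ^ B := by
  obtain ⟨hc, C, hC⟩ := hg
  refine ⟨C * ∫ ξ, (1 + |ξ|) ^ B * κ ξ, fun t => ?_⟩
  unfold Kop
  calc ∫ ξ, κ ξ * ‖g (t - hh T * ξ)‖ ≤ ∫ ξ, C * (1 + |t|) ^ B * ((1 + |ξ|) ^ B * κ ξ) :=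
        integral_mono (kop_int hκ hT ⟨hc, C, hC⟩ t) ((hκ.mom B).const_mul _) fun ξ => kop_pt hκ hT hC t ξ
    _ = _ := by rw [integral_const_mul]; ring

theorem ker_int {κ : ℝ → ℝ} (hκ : Ker κ) : Integrable κ := by
  have := hκ.mom 0
  simpa using this

theorem kop_nonneg {κ : ℝ → ℝ} (hκ : Ker κ) (T : ℝ) (g : ℝ → ℂ) (t : ℝ) : 0 ≤ Kop κ T g t :=
  integral_nonneg fun ξ => mul_nonneg (hκ.nonneg ξ) (norm_nonneg _)

theorem t_KB : S_KB := by
  intro m B hm κ hκ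
  have hA0 : 0 ≤ ∫ ξ, κ ξ := integral_nonneg hκ.nonneg
  have hM0 : 0 ≤ ∫ ξ, (1 + |ξ|) ^ m * κ ξ :=
    integral_nonneg fun ξ => mul_nonneg (by positivity) (hκ.nonneg ξ)
  refine ⟨(∫ ξ, κ ξ) * ∫ ξ, (1 + |ξ|) ^ m * κ ξ, mul_nonneg hA0 hM0, fun T hT g hg => ?_⟩
  have hT1 : 1 ≤ T := exp7.trans hT
  have hT0 : 0 < T := by linarith
  have hh1 := hh_pos hT
  have hgi := pg_sq_int hm hT1 hg
  have hkc := kop_cont hκ hT hg
  obtain ⟨CK, hCK⟩ := kop_bound hκ hT hg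
  have hki : Integrable (fun t => Kop κ T g t ^ 2 * om m T t) := by
    refine pg_int hm hT1 (hkc.pow 2) (C := CK ^ 2) fun t => ?_
    rw [abs_of_nonneg (by positivity), mul_comm 2 B, pow_mul, ← mul_pow]
    exact pow_le_pow_left₀ (kop_nonneg hκ T g t) (hCK t) 2
  refine ⟨kop_int hκ hT hg, hkc, ⟨CK, hCK⟩, hgi, hki, ?_⟩
  -- the function `F(t, ξ)`
  have hg2 : PG (2 * B) (fun t => g t ^ 2) := by
    obtain ⟨hc, C, hC⟩ := hg
    refine ⟨hc.pow 2, C ^ 2, fun t => ?_⟩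
    rw [norm_pow, mul_comm 2 B, pow_mul, ← mul_pow]
    exact pow_le_pow_left₀ (norm_nonneg _) (hC t) 2
  have h2i : ∀ t, Integrable (fun ξ => κ ξ * ‖g (t - hh T * ξ)‖ ^ 2) := by
    intro t
    have := kop_int hκ hT hg2 t
    simpa [norm_pow] using this
  have hmeas : AEStronglyMeasurable (fun p : ℝ × ℝ => κ p.1 * ‖g (p.2 - hh T * p.1)‖ ^ 2 * om m T p.2)
      (volume.prod volume) := by
    have := om_cont m hT0
    have := hκ.cont
    have := hg.1
    apply Continuous.aestronglyMeasurable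
    fun_prop
  have hsl : ∀ ξ : ℝ, Integrable (fun t => ‖g (t - hh T * ξ)‖ ^ 2 * om m T t) ∧
      ∫ t, ‖g (t - hh T * ξ)‖ ^ 2 * om m T t ≤ (1 + |ξ|) ^ m * ∫ t, ‖g t‖ ^ 2 * om m T t := by
    intro ξ
    have h1 := shift_int (m := m) hT1 (φ := fun t => ‖g t‖ ^ 2) (fun _ => by positivity)
      (hg.1.norm.pow 2) hgi (hh T * ξ)
    refine ⟨h1.1, h1.2.trans ?_⟩
    have h2 : |hh T * ξ| ≤ |ξ| := by
      rw [abs_mul, abs_of_pos hh1.1]
      exact mul_le_of_le_one_left (abs_nonneg _) hh1.2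
    have h3 : 0 ≤ ∫ t, ‖g t‖ ^ 2 * om m T t :=
      integral_nonneg fun t => mul_nonneg (by positivity) (om_pos m hT0 t).le
    gcongr
  have hprod : Integrable (fun p : ℝ × ℝ => κ p.1 * ‖g (p.2 - hh T * p.1)‖ ^ 2 * om m T p.2)
      (volume.prod volume) := by
    rw [integrable_prod_iff hmeas]
    constructor
    · refine Eventually.of_forall fun ξ => ?_
      have := (hsl ξ).1.const_mul (κ ξ)
      simpa only [mul_assoc] using this
    · have e : ∀ ξ : ℝ, ∫ t, ‖κ ξ * ‖g (t - hh T * ξ)‖ ^ 2 * om m T t‖ =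
          κ ξ * ∫ t, ‖g (t - hh T * ξ)‖ ^ 2 * om m T t := by
        intro ξ
        rw [← integral_const_mul]
        refine integral_congr_ae (Eventually.of_forall fun t => ?_)
        simp only
        rw [Real.norm_of_nonneg (mul_nonneg (mul_nonneg (hκ.nonneg ξ) (by positivity)) (om_pos m hT0 t).le)]
        ring
      refine ((hκ.mom m).mul_const (∫ t, ‖g t‖ ^ 2 * om m T t)).mono' ?_ (Eventually.of_forall fun ξ => ?_)
      · exact hmeas.norm.integral_prod_right'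
      · simp only
        rw [e ξ, Real.norm_of_nonneg (mul_nonneg (hκ.nonneg ξ)
          (integral_nonneg fun t => mul_nonneg (by positivity) (om_pos m hT0 t).le))]
        calc κ ξ * ∫ t, ‖g (t - hh T * ξ)‖ ^ 2 * om m T t
            ≤ κ ξ * ((1 + |ξ|) ^ m * ∫ t, ‖g t‖ ^ 2 * om m T t) :=
              mul_le_mul_of_nonneg_left (hsl ξ).2 (hκ.nonneg ξ)
          _ = _ := by ring
  have hpt : ∀ t, Kop κ T g t ^ 2 * om m T t ≤
      (∫ ξ, κ ξ) * ∫ ξ, κ ξ * ‖g (t - hh T * ξ)‖ ^ 2 * om m T t := by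
    intro t
    rw [integral_mul_const, ← mul_assoc]
    refine mul_le_mul_of_nonneg_right ?_ (om_pos m hT0 t).le
    exact cs_int hκ.nonneg (ker_int hκ) (kop_int hκ hT hg t) (h2i t)
  have hsw := integral_integral_swap (f := fun ξ t => κ ξ * ‖g (t - hh T * ξ)‖ ^ 2 * om m T t) hprod
  have hint2 : Integrable (fun t => ∫ ξ, κ ξ * ‖g (t - hh T * ξ)‖ ^ 2 * om m T t) :=
    hprod.integral_prod_right
  calc ∫ t, Kop κ T g t ^ 2 * om m T t
      ≤ ∫ t, (∫ ξ, κ ξ) * ∫ ξ, κ ξ * ‖g (t - hh T * ξ)‖ ^ 2 * om m T t :=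
        integral_mono hki (hint2.const_mul _) hpt
    _ = (∫ ξ, κ ξ) * ∫ ξ, ∫ t, κ ξ * ‖g (t - hh T * ξ)‖ ^ 2 * om m T t := by
        rw [integral_const_mul, hsw]
    _ ≤ (∫ ξ, κ ξ) * ∫ ξ, (1 + |ξ|) ^ m * κ ξ * ∫ t, ‖g t‖ ^ 2 * om m T t := by
        refine mul_le_mul_of_nonneg_left ?_ hA0
        refine integral_mono hprod.integral_prod_left ((hκ.mom m).mul_const _) fun ξ => ?_
        simp only
        have e : ∫ t, κ ξ * ‖g (t - hh T * ξ)‖ ^ 2 * om m T t =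
            κ ξ * ∫ t, ‖g (t - hh T * ξ)‖ ^ 2 * om m T t := by
          rw [← integral_const_mul]
          refine integral_congr_ae (Eventually.of_forall fun t => ?_)
          simp only
          ring
        rw [e]
        calc κ ξ * ∫ t, ‖g (t - hh T * ξ)‖ ^ 2 * om m T t
            ≤ κ ξ * ((1 + |ξ|) ^ m * ∫ t, ‖g t‖ ^ 2 * om m T t) :=
              mul_le_mul_of_nonneg_left (hsl ξ).2 (hκ.nonneg ξ)
          _ = _ := by ring
    _ = _ := by rw [integral_mul_const]; ring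

/-! ### the operator -/

theorem aop_int {V : ℝ → ℝ} (hV : Tst V) {B : ℕ} {T : ℝ} (hT : Real.exp 7 ≤ T) {g : ℝ → ℂ} (hg : PG B g) (t : ℝ) :
    Integrable (fun ξ => uu V ξ * g (t - hh T * ξ)) := by
  refine (kop_int (uu_ker hV) hT hg t).mono' ?_ (Eventually.of_forall fun ξ => ?_)
  · exact ((uu_cont hV).mul (hg.1.comp (by fun_prop))).aestronglyMeasurable
  · rw [norm_mul]

theorem aop_le {V : ℝ → ℝ} (hV : Tst V) {B : ℕ} {T : ℝ} (hT : Real.exp 7 ≤ T) {g : ℝ → ℂ} (hg : PG B g) (t : ℝ) :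
    ‖Aop V T g t‖ ≤ Kop (fun ξ => ‖uu V ξ‖) T g t := by
  unfold Aop Kop
  refine (norm_integral_le_integral_norm _).trans (le_of_eq ?_)
  refine integral_congr_ae (Eventually.of_forall fun ξ => ?_)
  simp only
  rw [norm_mul]

theorem aop_cont {V : ℝ → ℝ} (hV : Tst V) {B : ℕ} {T : ℝ} (hT : Real.exp 7 ≤ T) {g : ℝ → ℂ} (hg : PG B g) :
    Continuous (Aop V T g) := by
  obtain ⟨hc, C, hC⟩ := hg
  have hκ := uu_ker hV
  have hC0 : 0 ≤ C := by
    have := (norm_nonneg _).trans (hC 0)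
    simpa using this
  refine continuous_iff_continuousAt.2 fun t₀ => ?_
  unfold Aop
  refine continuousAt_of_dominated (bound := fun ξ => C * (2 + |t₀|) ^ B * ((1 + |ξ|) ^ B * ‖uu V ξ‖)) ?_ ?_
    ((hκ.mom B).const_mul _) ?_
  · exact Eventually.of_forall fun t => ((uu_cont hV).mul (hc.comp (by fun_prop))).aestronglyMeasurable
  · have h1 : ∀ᶠ t in 𝓝 t₀, |t| ≤ 1 + |t₀| := by
      filter_upwards [Metric.ball_mem_nhds t₀ one_pos] with t ht
      rw [Metric.mem_ball, Real.dist_eq] at ht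
      have := abs_sub_abs_le_abs_sub t t₀
      linarith
    filter_upwards [h1] with t ht
    refine Eventually.of_forall fun ξ => ?_
    rw [norm_mul]
    refine (kop_pt hκ hT hC t ξ).trans ?_
    have h4 : 1 + |t| ≤ 2 + |t₀| := by linarith
    gcongr
  · refine Eventually.of_forall fun ξ => ?_
    fun_prop

theorem t_AB : S_AB := by
  intro V hV B T hT g hg
  refine ⟨aop_int hV hT hg, aop_le hV hT hg, aop_cont hV hT hg, ?_⟩
  obtain ⟨C, hC⟩ := kop_bound (uu_ker hV) hT hg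
  exact ⟨C, fun t => (aop_le hV hT hg t).trans (hC t)⟩

end Pool.Agent.J6H39.CG
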