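import Pool.Agent.J6H39.CG.Stm
import Pool.Agent.H437R2.A1
import Pool.Agent.HopfPinch.AnS1

/-!
# CG-RB, part 1: growth of `ζ` in the strip, the weight
-/

set_option autoImplicit false

open MeasureTheory Set Filter Topology Complex

namespace Pool.Agent.J6H39.CG.RBx

/-! ### growth -/

theorem ne_one_of_re {s : ℂ} (h : s.re ≤ 7 / 8) : s ≠ 1 := by
  rintro rfl
  simp at h
  linarith

theorem zeta_growth : ∃ C : ℝ, 1 ≤ C ∧ ∀ s : ℂ, 1 / 8 ≤ s.re → s.re ≤ 7 / 8 →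
    ‖riemannZeta s‖ ≤ C * (1 + |s.im|) ^ 2 := by
  refine ⟨1000, by norm_num, fun s h1 h2 => ?_⟩
  have h0 : 0 < s.re := by linarith
  have hne := ne_one_of_re h2
  have e1 : riemannZeta₁ s = (s - 1) * riemannZeta s := Pool.Agent.H437R2.z1_of_ne hne
  have hs : ‖s‖ ≤ 1 + |s.im| := by
    refine (Complex.norm_le_abs_re_add_abs_im s).trans ?_
    rw [abs_of_pos h0]
    linarith
  have h3 := Pool.Agent.H437R2.Hf_norm_le h0
  have h4 : 1 / s.re ≤ 8 := by
    rw [div_le_iff₀ h0]; linarith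
  have h5 : ‖s - 1‖ ≤ ‖s‖ + 1 := by
    have := norm_sub_le s 1
    rwa [norm_one] at this
  have h6 : ‖riemannZeta₁ s‖ ≤ 9 * (‖s‖ + 1) ^ 2 := by
    rw [Pool.Agent.H437R2.z1_eq h0]
    unfold Pool.Agent.H437R2.Zt
    calc ‖s - s * (s - 1) * Pool.Agent.H437R2.Hf s‖ ≤ ‖s‖ + ‖s * (s - 1) * Pool.Agent.H437R2.Hf s‖ :=
          norm_sub_le _ _
      _ = ‖s‖ + ‖s‖ * ‖s - 1‖ * ‖Pool.Agent.H437R2.Hf s‖ := by rw [norm_mul, norm_mul]
      _ ≤ ‖s‖ + ‖s‖ * (‖s‖ + 1) * 8 := by gcongr; exact h3.trans h4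
      _ ≤ 9 * (‖s‖ + 1) ^ 2 := by nlinarith [norm_nonneg s]
  have h7 : 1 / 8 ≤ ‖s - 1‖ := by
    have h8 := Complex.abs_re_le_norm (s - 1)
    rw [sub_re, one_re] at h8
    have h9 := neg_le_abs (s.re - 1)
    linarith
  have h8 : ‖s - 1‖ * ‖riemannZeta s‖ ≤ 9 * (‖s‖ + 1) ^ 2 := by
    rw [← norm_mul, ← e1]
    exact h6
  have h9 : 1 / 8 * ‖riemannZeta s‖ ≤ 9 * (‖s‖ + 1) ^ 2 :=
    (mul_le_mul_of_nonneg_right h7 (norm_nonneg _)).trans h8
  have h10 : (‖s‖ + 1) ^ 2 ≤ (2 * (1 + |s.im|)) ^ 2 := by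
    have := abs_nonneg s.im
    gcongr
    linarith
  nlinarith [sq_nonneg (1 + |s.im|)]

/-- the point `1/2 + x + i t` -/
noncomputable def pt (x t : ℝ) : ℂ := 1 / 2 + (x : ℂ) + (t : ℂ) * I

@[simp] theorem pt_re (x t : ℝ) : (pt x t).re = 1 / 2 + x := by simp [pt]
@[simp] theorem pt_im (x t : ℝ) : (pt x t).im = t := by simp [pt]

theorem pt_zero (t : ℝ) : pt 0 t = 1 / 2 + (t : ℂ) * I := by simp [pt]

theorem pt_ne {x : ℝ} (hx : x ≤ 3 / 8) (t : ℝ) : pt x t ≠ 1 := by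
  apply ne_one_of_re
  rw [pt_re]
  linarith

theorem zeta_pt_cont {x : ℝ} (hx : x ≤ 3 / 8) : Continuous (fun t : ℝ => riemannZeta (pt x t)) := by
  rw [continuous_iff_continuousAt]
  intro t
  have h1 : ContinuousAt riemannZeta (pt x t) := (differentiableAt_riemannZeta (pt_ne hx t)).continuousAt
  have h2 : ContinuousAt (fun t : ℝ => pt x t) t := by
    unfold pt
    fun_prop
  exact ContinuousAt.comp (f := fun t : ℝ => pt x t) h1 h2

/-! ### the weight -/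

theorem om_nonneg (m : ℕ) {T : ℝ} (hT : 0 < T) (t : ℝ) : 0 ≤ om m T t := by
  unfold om
  positivity

theorem om_pos (m : ℕ) {T : ℝ} (hT : 0 < T) (t : ℝ) : 0 < om m T t := by
  unfold om
  positivity

theorem om_cont (m : ℕ) {T : ℝ} (hT : 0 < T) : Continuous (om m T) := by
  unfold om
  refine Continuous.inv₀ (by fun_prop) fun t => ?_
  positivity

theorem om_shift (m : ℕ) {T : ℝ} (hT : 1 ≤ T) (t u : ℝ) :
    ((1 + |u|) ^ m)⁻¹ * om m T t ≤ om m T (t + u) := by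
  have hT0 : 0 < T := by linarith
  unfold om
  rw [← mul_inv, ← mul_pow]
  have h1 : |t + u| / T ≤ |t| / T + |u| := by
    calc |t + u| / T ≤ (|t| + |u|) / T := by gcongr; exact abs_add_le _ _
      _ = |t| / T + |u| / T := add_div _ _ _
      _ ≤ |t| / T + |u| := by
        gcongr
        exact div_le_self (abs_nonneg _) hT
  have h2 : 0 ≤ |t| / T := by positivity
  have h3 : 0 ≤ |u| := abs_nonneg u
  have h4 : 0 ≤ |t + u| / T := by positivity
  gcongr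
  nlinarith

theorem om_shift' (m : ℕ) {T : ℝ} (hT : 1 ≤ T) (t u : ℝ) :
    om m T (t + u) ≤ (1 + |u|) ^ m * om m T t := by
  have h := om_shift m hT (t + u) (-u)
  rw [abs_neg, add_neg_cancel_right] at h
  have h1 : 0 < (1 + |u|) ^ m := by positivity
  rwa [inv_mul_le_iff₀ h1] at h

theorem om_le (m : ℕ) {T : ℝ} (hT : 1 ≤ T) (t : ℝ) : om m T t ≤ T ^ m * ((1 + |t|) ^ m)⁻¹ := by
  have hT0 : 0 < T := by linarith
  unfold om
  rw [← inv_inv (T ^ m), ← mul_inv, ← inv_pow T, ← mul_pow]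
  have h1 : 0 < T⁻¹ * (1 + |t|) := by positivity
  have h2 : T⁻¹ * (1 + |t|) ≤ 1 + |t| / T := by
    have : T⁻¹ ≤ 1 := inv_le_one_of_one_le₀ hT
    rw [mul_add, mul_one, div_eq_inv_mul]
    linarith
  gcongr

/-- `(1+|t|)^B om m T t` is integrable if `m ≥ B + 2`. -/
theorem integrable_om {m B : ℕ} (hm : B + 2 ≤ m) {T : ℝ} (hT : 1 ≤ T) :
    Integrable (fun t : ℝ => (1 + |t|) ^ B * om m T t) := by
  have hT0 : 0 < T := by linarith
  have hc : Integrable (fun t : ℝ => T ^ m * (1 + ‖t‖) ^ (-(2 : ℝ))) :=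
    (integrable_one_add_norm (by simp)).const_mul _
  refine hc.mono' ?_ (Eventually.of_forall fun t => ?_)
  · exact (Continuous.mul (by fun_prop) (om_cont m hT0)).aestronglyMeasurable
  · have h0 : 0 ≤ om m T t := om_nonneg m hT0 t
    have h1 : 0 < 1 + |t| := by positivity
    rw [Real.norm_of_nonneg (by positivity)]
    calc (1 + |t|) ^ B * om m T t ≤ (1 + |t|) ^ B * (T ^ m * ((1 + |t|) ^ m)⁻¹) := by
          gcongr; exact om_le m hT t
      _ = T ^ m * ((1 + |t|) ^ B * ((1 + |t|) ^ m)⁻¹) := by ring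
      _ ≤ T ^ m * (1 + ‖t‖) ^ (-(2 : ℝ)) := by
          gcongr
          rw [Real.norm_eq_abs, Real.rpow_neg h1.le]
          have e : (1 + |t|) ^ (2 : ℝ) = (1 + |t|) ^ 2 := by norm_cast
          rw [e]
          have h2 : (1 + |t|) ^ B * (1 + |t|) ^ 2 ≤ (1 + |t|) ^ m := by
            rw [← pow_add]
            exact pow_le_pow_right₀ (by linarith [abs_nonneg t]) hm
          have h3 : 0 < (1 + |t|) ^ m := by positivity
          have h4 : 0 < (1 + |t|) ^ 2 := by positivity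
          rw [← div_eq_mul_inv, div_le_iff₀ h3, ← div_eq_inv_mul, le_div_iff₀ h4]
          exact h2

/-- the integral of `(1+|t|/T)^B om m T t` is at most a constant times `T`. -/
theorem integral_om {m B : ℕ} (hm : B + 2 ≤ m) : ∃ K : ℝ, 0 ≤ K ∧ ∀ T : ℝ, 1 ≤ T →
    Integrable (fun t : ℝ => (1 + |t| / T) ^ B * om m T t) ∧
    ∫ t : ℝ, (1 + |t| / T) ^ B * om m T t ≤ K * T := by
  refine ⟨∫ t : ℝ, (1 + |t|) ^ B * ((1 + |t|) ^ m)⁻¹, integral_nonneg fun t => by positivity, fun T hT => ?_⟩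
  have hT0 : 0 < T := by linarith
  have e : (fun t : ℝ => (1 + |t| / T) ^ B * om m T t) =
      fun t => (fun v : ℝ => (1 + |v|) ^ B * ((1 + |v|) ^ m)⁻¹) (T⁻¹ * t) := by
    funext t
    simp only
    unfold om
    rw [abs_mul, abs_of_pos (inv_pos.2 hT0), div_eq_inv_mul]
  have hi := integrable_om hm (le_refl (1 : ℝ))
  have e1 : (fun t : ℝ => (1 + |t|) ^ B * om m 1 t) = fun v : ℝ => (1 + |v|) ^ B * ((1 + |v|) ^ m)⁻¹ := by
    funext t
    unfold om
    rw [div_one]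
  rw [e1] at hi
  rw [e]
  constructor
  · exact hi.comp_mul_left' (inv_ne_zero hT0.ne')
  · rw [Measure.integral_comp_inv_mul_left (fun v : ℝ => (1 + |v|) ^ B * ((1 + |v|) ^ m)⁻¹) T,
      abs_of_pos hT0, smul_eq_mul, mul_comm]

end Pool.Agent.J6H39.CG.RBx
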