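import Pool.Agent.J6H39.CG.RBa

/-!
# CG-RB, part 2: the three lines theorem for the local moments
-/

set_option autoImplicit false

open MeasureTheory Set Filter Topology Complex

namespace Pool.Agent.J6H39.CG.RBx

/-- the local moment on the line `Re s = 1/2 + x` around `τ` -/
noncomputable def JJ (k : ℕ) (x τ : ℝ) : ℝ :=
  ∫ t : ℝ, ‖riemannZeta (pt x t)‖ ^ (2 * k) * Real.exp (-(2 * (t - τ) ^ 2))

theorem gauss_int_poly (n : ℕ) : Integrable (fun u : ℝ => (1 + |u|) ^ n * Real.exp (-(2 * u ^ 2))) := by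
  have h1 : Integrable (fun u : ℝ => (n.factorial * Real.exp (3 + 1 / (4 * 1))) * Real.exp (-1 * u ^ 2)) :=
    (integrable_exp_neg_mul_sq one_pos).const_mul _
  refine h1.mono' (by fun_prop) (Eventually.of_forall fun u => ?_)
  rw [Real.norm_of_nonneg (by positivity)]
  have h2 := Pool.Agent.J6H39.KV.poly_gauss n (δ := 1) one_pos u
  have h3 : (1 + |u|) ^ n ≤ (3 + |u|) ^ n := by gcongr; norm_num
  have e : Real.exp (-(2 * u ^ 2)) = Real.exp (-(1 * u ^ 2)) * Real.exp (-1 * u ^ 2) := by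
    rw [← Real.exp_add]; congr 1; ring
  rw [e, ← mul_assoc]
  have h4 : (1 + |u|) ^ n * Real.exp (-(1 * u ^ 2)) ≤ (3 + |u|) ^ n * Real.exp (-(1 * u ^ 2)) := by gcongr
  exact mul_le_mul_of_nonneg_right (h4.trans h2) (Real.exp_pos _).le

/-- translated polynomial Gaussians -/
theorem one_add_le (t τ : ℝ) : 1 + |t| ≤ (1 + |τ|) * (1 + |t - τ|) := by
  have h1 : |t| ≤ |t - τ| + |τ| := by
    have := abs_add_le (t - τ) τ
    rwa [sub_add_cancel] at this
  nlinarith [abs_nonneg τ, abs_nonneg (t - τ)]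

theorem gauss_int_shift (n : ℕ) (τ : ℝ) :
    Integrable (fun t : ℝ => (1 + |t|) ^ n * Real.exp (-(2 * (t - τ) ^ 2))) := by
  have h1 := ((gauss_int_poly n).comp_sub_right τ).const_mul ((1 + |τ|) ^ n)
  refine h1.mono' (by fun_prop) (Eventually.of_forall fun t => ?_)
  rw [Real.norm_of_nonneg (by positivity)]
  calc (1 + |t|) ^ n * Real.exp (-(2 * (t - τ) ^ 2)) ≤
        ((1 + |τ|) * (1 + |t - τ|)) ^ n * Real.exp (-(2 * (t - τ) ^ 2)) := by
          gcongr; exact one_add_le t τ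
    _ = _ := by rw [mul_pow]; ring

theorem gauss_le (n : ℕ) : ∃ K : ℝ, 0 ≤ K ∧ ∀ τ : ℝ,
    ∫ t : ℝ, (1 + |t|) ^ n * Real.exp (-(2 * (t - τ) ^ 2)) ≤ K * (1 + |τ|) ^ n := by
  refine ⟨∫ u : ℝ, (1 + |u|) ^ n * Real.exp (-(2 * u ^ 2)), integral_nonneg fun u => by positivity,
    fun τ => ?_⟩
  have h1 := ((gauss_int_poly n).comp_sub_right τ).const_mul ((1 + |τ|) ^ n)
  have h2 : ∫ t : ℝ, (1 + |t|) ^ n * Real.exp (-(2 * (t - τ) ^ 2)) ≤
      ∫ t : ℝ, (1 + |τ|) ^ n * ((1 + |t - τ|) ^ n * Real.exp (-(2 * (t - τ) ^ 2))) := by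
    refine integral_mono (gauss_int_shift n τ) h1 fun t => ?_
    calc (1 + |t|) ^ n * Real.exp (-(2 * (t - τ) ^ 2)) ≤
        ((1 + |τ|) * (1 + |t - τ|)) ^ n * Real.exp (-(2 * (t - τ) ^ 2)) := by
          gcongr; exact one_add_le t τ
      _ = _ := by rw [mul_pow]; ring
  refine h2.trans ?_
  rw [integral_const_mul, integral_sub_right_eq_self (fun u : ℝ => (1 + |u|) ^ n * Real.exp (-(2 * u ^ 2))) τ,
    mul_comm]

theorem JJ_int (k : ℕ) {x : ℝ} (h1 : -(3 / 8) ≤ x) (h2 : x ≤ 3 / 8) (τ : ℝ) :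
    Integrable (fun t : ℝ => ‖riemannZeta (pt x t)‖ ^ (2 * k) * Real.exp (-(2 * (t - τ) ^ 2))) := by
  obtain ⟨C, hC, hg⟩ := zeta_growth
  refine ((gauss_int_shift (4 * k) τ).const_mul (C ^ (2 * k))).mono' ?_ (Eventually.of_forall fun t => ?_)
  · exact (Continuous.mul ((zeta_pt_cont h2).norm.pow _) (by fun_prop)).aestronglyMeasurable
  · rw [Real.norm_of_nonneg (by positivity)]
    have h3 := hg (pt x t) (by rw [pt_re]; linarith) (by rw [pt_re]; linarith)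
    rw [pt_im] at h3
    calc ‖riemannZeta (pt x t)‖ ^ (2 * k) * Real.exp (-(2 * (t - τ) ^ 2)) ≤
        (C * (1 + |t|) ^ 2) ^ (2 * k) * Real.exp (-(2 * (t - τ) ^ 2)) := by gcongr
      _ = _ := by rw [mul_pow, ← pow_mul]; ring_nf

theorem JJ_le (k : ℕ) : ∃ K : ℝ, 1 ≤ K ∧ ∀ x : ℝ, -(3 / 8) ≤ x → x ≤ 3 / 8 → ∀ τ : ℝ,
    JJ k x τ ≤ K * (1 + |τ|) ^ (4 * k) := by
  obtain ⟨C, hC, hg⟩ := zeta_growth
  obtain ⟨K, hK, hk⟩ := gauss_le (4 * k)
  refine ⟨C ^ (2 * k) * K + 1, by nlinarith [pow_pos (by linarith : 0 < C) (2 * k)], fun x h1 h2 τ => ?_⟩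
  have h3 : JJ k x τ ≤ ∫ t : ℝ, C ^ (2 * k) * ((1 + |t|) ^ (4 * k) * Real.exp (-(2 * (t - τ) ^ 2))) := by
    refine integral_mono (JJ_int k h1 h2 τ) ((gauss_int_shift (4 * k) τ).const_mul _) fun t => ?_
    have h3 := hg (pt x t) (by rw [pt_re]; linarith) (by rw [pt_re]; linarith)
    rw [pt_im] at h3
    calc ‖riemannZeta (pt x t)‖ ^ (2 * k) * Real.exp (-(2 * (t - τ) ^ 2)) ≤
        (C * (1 + |t|) ^ 2) ^ (2 * k) * Real.exp (-(2 * (t - τ) ^ 2)) := by gcongr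
      _ = _ := by rw [mul_pow, ← pow_mul]; ring_nf
  rw [integral_const_mul] at h3
  have h4 := hk τ
  have h5 : 0 ≤ C ^ (2 * k) := by positivity
  have h6 : 0 ≤ (1 + |τ|) ^ (4 * k) := by positivity
  calc JJ k x τ ≤ C ^ (2 * k) * (K * (1 + |τ|) ^ (4 * k)) := h3.trans (mul_le_mul_of_nonneg_left h4 h5)
    _ ≤ _ := by nlinarith

theorem JJ_nonneg (k : ℕ) (x τ : ℝ) : 0 ≤ JJ k x τ := integral_nonneg fun t => by positivity

/-- the analytic function of the three lines theorem -/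
noncomputable def Phi (k : ℕ) (τ : ℝ) (t : ℝ) (z : ℂ) : ℂ :=
  cexp (2 * (z - 1 / 2) ^ 2) * (riemannZeta (z + t * I) ^ k * riemannZeta (z - t * I) ^ k *
    (Real.exp (-(2 * (t - τ) ^ 2)) : ℂ))

noncomputable def HH (k : ℕ) (τ : ℝ) (z : ℂ) : ℂ := ∫ t : ℝ, Phi k τ t z

theorem norm_exp_sq (z : ℂ) : ‖cexp (2 * (z - 1 / 2) ^ 2)‖ = Real.exp (2 * (z.re - 1 / 2) ^ 2 - 2 * z.im ^ 2) := by
  rw [Complex.norm_exp]
  congr 1
  have : ((2 : ℂ) * (z - 1 / 2) ^ 2).re = 2 * ((z - 1 / 2) ^ 2).re := by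
    simp
  rw [this, pow_two, mul_re]
  simp
  ring

theorem Phi_norm (k : ℕ) (τ t : ℝ) (z : ℂ) : ‖Phi k τ t z‖ =
    Real.exp (2 * (z.re - 1 / 2) ^ 2) * ((‖riemannZeta (z + t * I)‖ ^ k * Real.exp (-(t + z.im - τ) ^ 2)) *
      (‖riemannZeta (z - t * I)‖ ^ k * Real.exp (-(t - z.im - τ) ^ 2))) := by
  unfold Phi
  rw [norm_mul, norm_exp_sq, norm_mul, norm_mul, norm_pow, norm_pow, Complex.norm_real,
    Real.norm_of_nonneg (Real.exp_pos _).le]
  have e : Real.exp (2 * (z.re - 1 / 2) ^ 2 - 2 * z.im ^ 2) * Real.exp (-(2 * (t - τ) ^ 2)) =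
      Real.exp (2 * (z.re - 1 / 2) ^ 2) * (Real.exp (-(t + z.im - τ) ^ 2) * Real.exp (-(t - z.im - τ) ^ 2)) := by
    rw [← Real.exp_add, ← Real.exp_add, ← Real.exp_add]
    congr 1
    ring
  calc _ = (‖riemannZeta (z + t * I)‖ ^ k * ‖riemannZeta (z - t * I)‖ ^ k) *
        (Real.exp (2 * (z.re - 1 / 2) ^ 2 - 2 * z.im ^ 2) * Real.exp (-(2 * (t - τ) ^ 2))) := by ring
    _ = _ := by rw [e]; ring

theorem zeta_norm_sub (z : ℂ) (t : ℝ) :
    ‖riemannZeta (z - t * I)‖ = ‖riemannZeta (pt (z.re - 1 / 2) (t - z.im))‖ := by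
  have e : pt (z.re - 1 / 2) (t - z.im) = (starRingEnd ℂ) (z - t * I) := by
    apply Complex.ext
    · simp [pt]
    · simp [pt]
      ring
  rw [e, riemannZeta_conj, Complex.norm_conj]

theorem zeta_norm_add (z : ℂ) (t : ℝ) :
    ‖riemannZeta (z + t * I)‖ = ‖riemannZeta (pt (z.re - 1 / 2) (t + z.im))‖ := by
  have e : pt (z.re - 1 / 2) (t + z.im) = z + t * I := by
    apply Complex.ext
    · simp [pt]
    · simp [pt]
      ring
  rw [e]

theorem HH_le (k : ℕ) (τ : ℝ) {z : ℂ} (h1 : 1 / 8 ≤ z.re) (h2 : z.re ≤ 7 / 8) :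
    ‖HH k τ z‖ ≤ Real.exp (2 * (z.re - 1 / 2) ^ 2) * JJ k (z.re - 1 / 2) τ := by
  have hx1 : -(3 / 8) ≤ z.re - 1 / 2 := by linarith
  have hx2 : z.re - 1 / 2 ≤ 3 / 8 := by linarith
  set x := z.re - 1 / 2 with hx
  set φ : ℝ → ℝ := fun t => ‖riemannZeta (pt x t)‖ ^ (2 * k) * Real.exp (-(2 * (t - τ) ^ 2)) with hφ
  have hφi : Integrable φ := JJ_int k hx1 hx2 τ
  have hi1 : Integrable (fun t => φ (t + z.im)) := hφi.comp_add_right _
  have hi2 : Integrable (fun t => φ (t - z.im)) := hφi.comp_sub_right _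
  have key : ∀ t : ℝ, ‖Phi k τ t z‖ ≤ Real.exp (2 * x ^ 2) * ((φ (t + z.im) + φ (t - z.im)) / 2) := by
    intro t
    rw [Phi_norm, zeta_norm_sub, zeta_norm_add]
    have e1 : φ (t + z.im) = (‖riemannZeta (pt x (t + z.im))‖ ^ k * Real.exp (-(t + z.im - τ) ^ 2)) ^ 2 := by
      simp only [hφ]
      rw [mul_pow, ← pow_mul, mul_comm k 2, ← Real.exp_nat_mul]
      congr 2
      push_cast
      ring
    have e2 : φ (t - z.im) = (‖riemannZeta (pt x (t - z.im))‖ ^ k * Real.exp (-(t - z.im - τ) ^ 2)) ^ 2 := by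
      simp only [hφ]
      rw [mul_pow, ← pow_mul, mul_comm k 2, ← Real.exp_nat_mul]
      congr 2
      push_cast
      ring
    rw [e1, e2]
    gcongr
    nlinarith [sq_nonneg (‖riemannZeta (pt x (t + z.im))‖ ^ k * Real.exp (-(t + z.im - τ) ^ 2) -
      ‖riemannZeta (pt x (t - z.im))‖ ^ k * Real.exp (-(t - z.im - τ) ^ 2))]
  unfold HH
  refine (norm_integral_le_of_norm_le (((hi1.add hi2).div_const 2).const_mul _)
    (Eventually.of_forall key)).trans ?_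
  rw [integral_const_mul]
  gcongr
  have e3 : ∫ t, (φ (t + z.im) + φ (t - z.im)) / 2 = JJ k x τ := by
    rw [integral_div, integral_add hi1 hi2, integral_add_right_eq_self φ, integral_sub_right_eq_self φ]
    unfold JJ
    ring
  exact e3.le

theorem HH_real (k : ℕ) (τ x : ℝ) : HH k τ ((1 / 2 + x : ℝ) : ℂ) =
    ((Real.exp (2 * x ^ 2) * JJ k x τ : ℝ) : ℂ) := by
  unfold HH JJ
  rw [← integral_const_mul, ← integral_complex_ofReal]
  refine integral_congr_ae (Eventually.of_forall fun t => ?_)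
  simp only
  unfold Phi
  have e1 : (((1 / 2 + x : ℝ) : ℂ) + t * I) = pt x t := by
    simp [pt]
  have e2 : (((1 / 2 + x : ℝ) : ℂ) - t * I) = (starRingEnd ℂ) (pt x t) := by
    apply Complex.ext <;> simp [pt]
  rw [e1, e2, riemannZeta_conj]
  have e3 : riemannZeta (pt x t) ^ k * (starRingEnd ℂ) (riemannZeta (pt x t)) ^ k =
      ((‖riemannZeta (pt x t)‖ ^ (2 * k) : ℝ) : ℂ) := by
    rw [← mul_pow, Complex.mul_conj, Complex.normSq_eq_norm_sq, pow_mul]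
    push_cast
    rfl
  rw [e3]
  push_cast
  rw [show (1 / 2 + (x : ℂ) - 1 / 2) = x by ring]

theorem Phi_diff (k : ℕ) (τ t : ℝ) : DifferentiableOn ℂ (Phi k τ t) {z : ℂ | 1 / 8 < z.re ∧ z.re < 7 / 8} := by
  intro z hz
  have h1 : z + t * I ≠ 1 := ne_one_of_re (by simp; linarith [hz.2])
  have h2 : z - t * I ≠ 1 := ne_one_of_re (by simp; linarith [hz.2])
  have d1 : DifferentiableAt ℂ (fun z : ℂ => riemannZeta (z + t * I)) z :=
    DifferentiableAt.comp (f := fun z : ℂ => z + t * I) z (differentiableAt_riemannZeta h1) (by fun_prop)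
  have d2 : DifferentiableAt ℂ (fun z : ℂ => riemannZeta (z - t * I)) z :=
    DifferentiableAt.comp (f := fun z : ℂ => z - t * I) z (differentiableAt_riemannZeta h2) (by fun_prop)
  have h : DifferentiableAt ℂ (Phi k τ t) z := by
    unfold Phi
    exact DifferentiableAt.mul (by fun_prop) (((d1.pow k).mul (d2.pow k)).mul (by fun_prop))
  exact h.differentiableWithinAt

end Pool.Agent.J6H39.CG.RBx
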