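import Pool.Agent.J6H39.CG.RBb

/-!
# CG-RB, part 3: the local bound off the line
-/

set_option autoImplicit false

open MeasureTheory Set Filter Topology Complex

namespace Pool.Agent.J6H39.CG.RBx

theorem HH_diff (k : ℕ) (τ : ℝ) {z₀ : ℂ} (h1 : 1 / 8 < z₀.re) (h2 : z₀.re < 7 / 8) :
    DifferentiableAt ℂ (HH k τ) z₀ := by
  obtain ⟨C, hC, hg⟩ := zeta_growth
  set R : ℝ := |z₀.im| + 1 with hR
  have hR0 : 0 < R := by positivity
  set O : Set ℂ := {z : ℂ | 1 / 8 < z.re ∧ z.re < 7 / 8} ∩ {z : ℂ | |z.im| < R} with hO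
  have hop : IsOpen O := by
    refine IsOpen.inter (IsOpen.inter ?_ ?_) ?_
    · exact isOpen_lt continuous_const Complex.continuous_re
    · exact isOpen_lt Complex.continuous_re continuous_const
    · exact isOpen_lt Complex.continuous_im.abs continuous_const
  have hz0 : z₀ ∈ O := ⟨⟨h1, h2⟩, by
    show |z₀.im| < R
    rw [hR]
    linarith⟩
  have hd := Pool.Agent.HP.differentiableOn_integral (volume : Measure ℝ) (Phi k τ) O hop (by
      intro z hz
      have hc1 : Continuous (fun t : ℝ => riemannZeta (z + t * I)) := by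
        rw [continuous_iff_continuousAt]
        intro t
        have hne : z + t * I ≠ 1 := ne_one_of_re (by simp; linarith [hz.1.2])
        exact ContinuousAt.comp (f := fun t : ℝ => z + t * I) (differentiableAt_riemannZeta hne).continuousAt
          (by fun_prop)
      have hc2 : Continuous (fun t : ℝ => riemannZeta (z - t * I)) := by
        rw [continuous_iff_continuousAt]
        intro t
        have hne : z - t * I ≠ 1 := ne_one_of_re (by simp; linarith [hz.1.2])
        exact ContinuousAt.comp (f := fun t : ℝ => z - t * I) (differentiableAt_riemannZeta hne).continuousAt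
          (by fun_prop)
      have hc : Continuous (fun t : ℝ => Phi k τ t z) := by
        unfold Phi
        exact Continuous.mul continuous_const (((hc1.pow k).mul (hc2.pow k)).mul (by fun_prop))
      exact hc.aestronglyMeasurable)
    (fun t => (Phi_diff k τ t).mono inter_subset_left)
    (fun t => Real.exp 1 * (C ^ (2 * k) * (1 + R) ^ (4 * k)) * ((1 + |t|) ^ (4 * k) * Real.exp (-(2 * (t - τ) ^ 2))))
    ((gauss_int_shift (4 * k) τ).const_mul _) (by
      intro t z hz
      have hz1 : 1 / 8 ≤ z.re := hz.1.1.le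
      have hz2 : z.re ≤ 7 / 8 := hz.1.2.le
      have hz3 : |z.im| < R := hz.2
      have g1 := hg (z + t * I) (by simpa using hz1) (by simpa using hz2)
      have g2 := hg (z - t * I) (by simpa using hz1) (by simpa using hz2)
      have i1 : (z + t * I).im = z.im + t := by simp
      have i2 : (z - t * I).im = z.im - t := by simp
      rw [i1] at g1
      rw [i2] at g2
      have b1 : 1 + |z.im + t| ≤ (1 + R) * (1 + |t|) := by
        have := abs_add_le z.im t
        nlinarith [abs_nonneg t]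
      have b2 : 1 + |z.im - t| ≤ (1 + R) * (1 + |t|) := by
        have := abs_sub z.im t
        nlinarith [abs_nonneg t]
      have f1 : ‖riemannZeta (z + t * I)‖ ≤ C * ((1 + R) * (1 + |t|)) ^ 2 := by
        refine g1.trans ?_
        gcongr
      have f2 : ‖riemannZeta (z - t * I)‖ ≤ C * ((1 + R) * (1 + |t|)) ^ 2 := by
        refine g2.trans ?_
        gcongr
      rw [Phi_norm]
      have e : Real.exp (-(t + z.im - τ) ^ 2) * Real.exp (-(t - z.im - τ) ^ 2) ≤
          Real.exp (-(2 * (t - τ) ^ 2)) := by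
        rw [← Real.exp_add]
        apply Real.exp_le_exp.2
        nlinarith [sq_nonneg z.im]
      have e2 : Real.exp (2 * (z.re - 1 / 2) ^ 2) ≤ Real.exp 1 := by
        apply Real.exp_le_exp.2
        nlinarith
      calc Real.exp (2 * (z.re - 1 / 2) ^ 2) * ((‖riemannZeta (z + t * I)‖ ^ k * Real.exp (-(t + z.im - τ) ^ 2)) *
            (‖riemannZeta (z - t * I)‖ ^ k * Real.exp (-(t - z.im - τ) ^ 2))) =
          Real.exp (2 * (z.re - 1 / 2) ^ 2) * ((‖riemannZeta (z + t * I)‖ ^ k * ‖riemannZeta (z - t * I)‖ ^ k) *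
            (Real.exp (-(t + z.im - τ) ^ 2) * Real.exp (-(t - z.im - τ) ^ 2))) := by ring
        _ ≤ Real.exp 1 * (((C * ((1 + R) * (1 + |t|)) ^ 2) ^ k * (C * ((1 + R) * (1 + |t|)) ^ 2) ^ k) *
            Real.exp (-(2 * (t - τ) ^ 2))) := by gcongr
        _ = _ := by
          have e5 : ∀ X : ℝ, (C * X ^ 2) ^ k * (C * X ^ 2) ^ k = C ^ (2 * k) * X ^ (4 * k) := by
            intro X
            rw [mul_pow, ← pow_mul]
            ring
          rw [e5, mul_pow]
          ring)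
  exact hd.differentiableAt (hop.mem_nhds hz0)

open Complex.HadamardThreeLines in
theorem three_lines (k : ℕ) : ∃ K : ℝ, 1 ≤ K ∧ ∀ x τ : ℝ, |x| ≤ 1 / 4 →
    JJ k x τ ≤ JJ k 0 τ ^ (1 - 4 * |x|) * (K * (1 + |τ|) ^ (4 * k)) ^ (4 * |x|) := by
  obtain ⟨K, hK1, hK⟩ := JJ_le k
  refine ⟨Real.exp 1 * K, ?_, fun x τ hx => ?_⟩
  · have : (1 : ℝ) ≤ Real.exp 1 := Real.one_le_exp (by norm_num)
    nlinarith
  obtain ⟨e, he, hex⟩ : ∃ e : ℝ, (e = 1 ∨ e = -1) ∧ x = e * |x| := by
    rcases le_total 0 x with h | h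
    · exact ⟨1, Or.inl rfl, by rw [abs_of_nonneg h, one_mul]⟩
    · exact ⟨-1, Or.inr rfl, by rw [abs_of_nonpos h]; ring⟩
  have he2 : e ^ 2 = 1 := by rcases he with rfl | rfl <;> norm_num
  have heabs : |e| = 1 := by rcases he with rfl | rfl <;> norm_num
  set G : ℂ → ℂ := fun w => HH k τ (1 / 2 + ((e / 4 : ℝ) : ℂ) * w) with hG
  have hre : ∀ w : ℂ, ((1 / 2 : ℂ) + ((e / 4 : ℝ) : ℂ) * w).re = 1 / 2 + e / 4 * w.re := by
    intro w
    rw [add_re, re_ofReal_mul]
    norm_num
  have hstrip : ∀ w : ℂ, w ∈ verticalClosedStrip 0 1 → |e / 4 * w.re| ≤ 1 / 4 := by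
    intro w hw
    have hw' : w.re ∈ Icc (0 : ℝ) 1 := hw
    rw [abs_mul, abs_div, heabs, abs_of_nonneg hw'.1, abs_of_pos (by norm_num : (0:ℝ) < 4)]
    have := hw'.2
    linarith
  have hdiff : ∀ w : ℂ, w ∈ verticalClosedStrip 0 1 → DifferentiableAt ℂ G w := by
    intro w hw
    have h3 := abs_le.1 (hstrip w hw)
    refine DifferentiableAt.comp (f := fun w : ℂ => (1 / 2 : ℂ) + ((e / 4 : ℝ) : ℂ) * w) w (HH_diff k τ ?_ ?_)
      (by fun_prop)
    · rw [hre]; linarith [h3.1]
    · rw [hre]; linarith [h3.2]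
  have hbd : ∀ w : ℂ, w ∈ verticalClosedStrip 0 1 → ‖G w‖ ≤ Real.exp 1 * K * (1 + |τ|) ^ (4 * k) := by
    intro w hw
    have h3 := abs_le.1 (hstrip w hw)
    have h4 := HH_le k τ (z := (1 / 2 : ℂ) + ((e / 4 : ℝ) : ℂ) * w) (by rw [hre]; linarith [h3.1])
      (by rw [hre]; linarith [h3.2])
    rw [hre, add_sub_cancel_left] at h4
    have h5 := hK (e / 4 * w.re) (by linarith [h3.1]) (by linarith [h3.2]) τ
    have h6 : Real.exp (2 * (e / 4 * w.re) ^ 2) ≤ Real.exp 1 := by
      apply Real.exp_le_exp.2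
      nlinarith
    calc ‖G w‖ ≤ Real.exp (2 * (e / 4 * w.re) ^ 2) * JJ k (e / 4 * w.re) τ := h4
      _ ≤ Real.exp 1 * (K * (1 + |τ|) ^ (4 * k)) := by
        have := JJ_nonneg k (e / 4 * w.re) τ
        gcongr
      _ = _ := by ring
  have hcl : closure (verticalStrip 0 1) ⊆ verticalClosedStrip 0 1 := by
    refine closure_minimal ?_ ?_
    · intro z hz
      exact ⟨hz.1.le, hz.2.le⟩
    · exact isClosed_Icc.preimage Complex.continuous_re
  have hw0 : ((4 * |x| : ℝ) : ℂ) ∈ verticalClosedStrip 0 1 := by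
    show ((4 * |x| : ℝ) : ℂ).re ∈ Icc (0 : ℝ) 1
    rw [ofReal_re]
    exact ⟨by positivity, by linarith⟩
  have h := norm_le_interp_of_mem_verticalClosedStrip₀₁' G hw0
    (DifferentiableOn.diffContOnCl fun w hw => (hdiff w (hcl hw)).differentiableWithinAt)
    ⟨Real.exp 1 * K * (1 + |τ|) ^ (4 * k), by
      rintro _ ⟨w, hw, rfl⟩
      exact hbd w hw⟩
    (a := JJ k 0 τ) (b := Real.exp 1 * K * (1 + |τ|) ^ (4 * k)) (by
      intro w hw
      have hw' : w.re = 0 := hw
      have h4 := HH_le k τ (z := (1 / 2 : ℂ) + ((e / 4 : ℝ) : ℂ) * w) (by rw [hre, hw']; norm_num)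
        (by rw [hre, hw']; norm_num)
      rw [hre, add_sub_cancel_left, hw', mul_zero] at h4
      refine h4.trans (le_of_eq ?_)
      simp) (by
      intro w hw
      have hw' : w.re = 1 := hw
      refine hbd w ?_
      show w.re ∈ Icc (0 : ℝ) 1
      rw [hw']
      exact ⟨zero_le_one, le_rfl⟩)
  rw [ofReal_re] at h
  refine le_trans ?_ h
  have e1 : (1 / 2 : ℂ) + ((e / 4 : ℝ) : ℂ) * ((4 * |x| : ℝ) : ℂ) = ((1 / 2 + x : ℝ) : ℂ) := by
    rw [hex, ← hex]
    conv_rhs => rw [hex]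
    push_cast
    ring
  simp only [hG]
  rw [e1, HH_real, Complex.norm_real, Real.norm_of_nonneg (mul_nonneg (Real.exp_pos _).le (JJ_nonneg _ _ _))]
  have h7 : 1 ≤ Real.exp (2 * x ^ 2) := Real.one_le_exp (by positivity)
  exact le_mul_of_one_le_left (JJ_nonneg _ _ _) h7

/-- **The local bound.** -/
theorem local_bound (k : ℕ) : ∃ K : ℝ, 0 ≤ K ∧ ∀ T : ℝ, Real.exp 7 ≤ T → ∀ x : ℝ, |x| ≤ 1 / Real.log T →
    ∀ τ : ℝ, JJ k x τ ≤ K * (JJ k 0 τ + (1 + |τ| / T) ^ (4 * k)) := by
  obtain ⟨K, hK1, hK⟩ := three_lines k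
  refine ⟨Real.exp (16 * k) * K, by positivity, fun T hT x hx τ => ?_⟩
  have hT0 : 0 < T := (Real.exp_pos 7).trans_le hT
  have hT1 : 1 ≤ T := (Real.one_le_exp (by norm_num)).trans hT
  have hL : 7 ≤ Real.log T := (Real.le_log_iff_exp_le hT0).2 hT
  have hL0 : 0 < Real.log T := by linarith
  have hx4 : |x| ≤ 1 / 4 := by
    refine hx.trans ?_
    rw [div_le_div_iff₀ hL0 (by norm_num)]
    linarith
  set θ := 4 * |x| with hθ
  have hθ0 : 0 ≤ θ := by positivity
  have hθ1 : θ ≤ 1 := by rw [hθ]; linarith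
  set lam : ℝ := T ^ (4 * k) with hlam
  have hlam0 : 0 < lam := by positivity
  set a := JJ k 0 τ with ha
  have ha0 : 0 ≤ a := JJ_nonneg _ _ _
  set b := K * (1 + |τ|) ^ (4 * k) with hb
  have hb0 : 0 ≤ b := by positivity
  have h1 := hK x τ hx4
  have h2 : b ^ θ = lam ^ θ * (b / lam) ^ θ := by
    rw [← Real.mul_rpow hlam0.le (by positivity)]
    congr 1
    field_simp
  have h3 := Real.geom_mean_le_arith_mean2_weighted (w₁ := 1 - θ) (w₂ := θ) (p₁ := a) (p₂ := b / lam)
    (by linarith) hθ0 ha0 (by positivity) (by ring)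
  have h4 : lam ^ θ ≤ Real.exp (16 * k) := by
    rw [Real.rpow_def_of_pos hlam0]
    apply Real.exp_le_exp.2
    rw [hlam, Real.log_pow, hθ]
    push_cast
    have h5 : Real.log T * |x| ≤ 1 := by
      rw [le_div_iff₀ hL0] at hx
      linarith
    have h6 : (0 : ℝ) ≤ k := Nat.cast_nonneg k
    nlinarith
  have h5 : b / lam ≤ K * (1 + |τ| / T) ^ (4 * k) := by
    rw [hb, hlam, mul_div_assoc, ← div_pow]
    gcongr
    rw [add_div]
    have : 1 / T ≤ 1 := by
      rw [div_le_one hT0]; exact hT1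
    linarith
  have h6 : 0 ≤ (1 + |τ| / T) ^ (4 * k) := by positivity
  calc JJ k x τ ≤ a ^ (1 - θ) * b ^ θ := h1
    _ = lam ^ θ * (a ^ (1 - θ) * (b / lam) ^ θ) := by rw [h2]; ring
    _ ≤ Real.exp (16 * k) * ((1 - θ) * a + θ * (b / lam)) := by
        have : 0 ≤ a ^ (1 - θ) * (b / lam) ^ θ := by positivity
        gcongr
    _ ≤ Real.exp (16 * k) * (K * (a + (1 + |τ| / T) ^ (4 * k))) := by
        gcongr
        have h7 : 0 ≤ b / lam := by positivity
        have h8 : (1 - θ) * a ≤ K * a := by nlinarith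
        have h9 : θ * (b / lam) ≤ K * (1 + |τ| / T) ^ (4 * k) := by nlinarith
        linarith
    _ = _ := by ring

end Pool.Agent.J6H39.CG.RBx
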