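import Pool.Agent.J6H39.CG.RBc

/-!
# CG-RB, part 4: local and global moments
-/

set_option autoImplicit false

open MeasureTheory Set Filter Topology Complex

namespace Pool.Agent.J6H39.CG.RBx

/-- the constants -/
noncomputable def c1 (m : ℕ) : ℝ := ∫ u : ℝ, ((1 + |u|) ^ m)⁻¹ * Real.exp (-(2 * u ^ 2))
noncomputable def c2 (m : ℕ) : ℝ := ∫ u : ℝ, (1 + |u|) ^ m * Real.exp (-(2 * u ^ 2))

theorem c1_int (m : ℕ) : Integrable (fun u : ℝ => ((1 + |u|) ^ m)⁻¹ * Real.exp (-(2 * u ^ 2))) := by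
  refine (gauss_int_poly 0).mono' ?_ (Eventually.of_forall fun u => ?_)
  · refine Continuous.aestronglyMeasurable (Continuous.mul (Continuous.inv₀ (by fun_prop) fun u => ?_) (by fun_prop))
    positivity
  · rw [Real.norm_of_nonneg (by positivity), pow_zero]
    gcongr
    apply inv_le_one_of_one_le₀
    exact one_le_pow₀ (by linarith [abs_nonneg u])

theorem c1_pos (m : ℕ) : 0 < c1 m := by
  unfold c1
  rw [integral_pos_iff_support_of_nonneg (fun u => by positivity) (c1_int m)]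
  have : Function.support (fun u : ℝ => ((1 + |u|) ^ m)⁻¹ * Real.exp (-(2 * u ^ 2))) = univ := by
    ext u
    simp only [Function.mem_support, mem_univ, iff_true]
    positivity
  rw [this]
  simp

theorem conv_facts {φ : ℝ → ℝ} (hc : Continuous φ) (h0 : ∀ t, 0 ≤ φ t) {B m : ℕ} {C : ℝ} (hC : 0 ≤ C)
    (hφ : ∀ t, φ t ≤ C * (1 + |t|) ^ B) (hm : B + 2 ≤ m) {T : ℝ} (hT : 1 ≤ T) :
    Integrable (fun t => φ t * om m T t) ∧
    Integrable (fun τ => om m T τ * ∫ t, φ t * Real.exp (-(2 * (t - τ) ^ 2))) ∧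
    c1 m * ∫ t, φ t * om m T t ≤ ∫ τ, om m T τ * ∫ t, φ t * Real.exp (-(2 * (t - τ) ^ 2)) ∧
    ∫ τ, om m T τ * ∫ t, φ t * Real.exp (-(2 * (t - τ) ^ 2)) ≤ c2 m * ∫ t, φ t * om m T t := by
  have hT0 : 0 < T := by linarith
  have hint : Integrable (fun t => φ t * om m T t) := by
    refine ((integrable_om hm hT).const_mul C).mono' ?_ (Eventually.of_forall fun t => ?_)
    · exact (hc.mul (om_cont m hT0)).aestronglyMeasurable
    · rw [Real.norm_of_nonneg (mul_nonneg (h0 t) (om_nonneg m hT0 t)), ← mul_assoc]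
      exact mul_le_mul_of_nonneg_right (hφ t) (om_nonneg m hT0 t)
  set P : ℝ → ℝ → ℝ := fun τ u => om m T τ * (φ (τ + u) * Real.exp (-(2 * u ^ 2))) with hP
  have hPi : Integrable (Function.uncurry P) ((volume : Measure ℝ).prod (volume : Measure ℝ)) := by
    have h1 := ((integrable_om hm hT).mul_prod (gauss_int_poly B)).const_mul C
    refine h1.mono' ?_ (Eventually.of_forall fun z => ?_)
    · have hcont : Continuous (Function.uncurry P) := by
        simp only [hP, Function.uncurry_def]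
        exact Continuous.mul ((om_cont m hT0).comp continuous_fst)
          ((hc.comp (continuous_fst.add continuous_snd)).mul (by fun_prop))
      exact hcont.aestronglyMeasurable
    · obtain ⟨τ, u⟩ := z
      simp only [hP, Function.uncurry_apply_pair]
      have ho := om_nonneg m hT0 τ
      rw [Real.norm_of_nonneg (mul_nonneg ho (mul_nonneg (h0 _) (Real.exp_pos _).le))]
      have h2 : φ (τ + u) ≤ C * ((1 + |τ|) * (1 + |u|)) ^ B := by
        refine (hφ _).trans ?_
        have h3 := one_add_le (τ + u) τ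
        rw [add_sub_cancel_left] at h3
        gcongr
      calc om m T τ * (φ (τ + u) * Real.exp (-(2 * u ^ 2))) ≤
          om m T τ * ((C * ((1 + |τ|) * (1 + |u|)) ^ B) * Real.exp (-(2 * u ^ 2))) := by gcongr
        _ = _ := by rw [mul_pow]; ring
  have hI : ∀ τ : ℝ, ∫ t, φ t * Real.exp (-(2 * (t - τ) ^ 2)) = ∫ u, φ (τ + u) * Real.exp (-(2 * u ^ 2)) := by
    intro τ
    rw [← integral_add_left_eq_self (fun t => φ t * Real.exp (-(2 * (t - τ) ^ 2))) τ]
    simp only [add_sub_cancel_left]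
  have hI2 : ∀ τ : ℝ, om m T τ * ∫ t, φ t * Real.exp (-(2 * (t - τ) ^ 2)) = ∫ u, P τ u := by
    intro τ
    rw [hI, ← integral_const_mul]
  have hI3 : ∀ u : ℝ, ∫ τ, P τ u = Real.exp (-(2 * u ^ 2)) * ∫ t, om m T (t - u) * φ t := by
    intro u
    rw [← integral_const_mul, ← integral_add_right_eq_self (fun t => Real.exp (-(2 * u ^ 2)) *
      (om m T (t - u) * φ t)) u]
    refine integral_congr_ae (Eventually.of_forall fun t => ?_)
    simp only [hP, add_sub_cancel_right]
    ring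
  have hswap : ∫ τ, ∫ u, P τ u = ∫ u, ∫ τ, P τ u := integral_integral_swap hPi
  have hint2 : ∀ u : ℝ, Integrable (fun t => om m T (t - u) * φ t) := by
    intro u
    refine (hint.const_mul ((1 + |u|) ^ m)).mono' ?_ (Eventually.of_forall fun t => ?_)
    · exact (((om_cont m hT0).comp (by fun_prop : Continuous fun t : ℝ => t - u)).mul hc).aestronglyMeasurable
    · rw [Real.norm_of_nonneg (mul_nonneg (om_nonneg m hT0 _) (h0 t))]
      have h1 := om_shift' m hT t (-u)
      rw [abs_neg, ← sub_eq_add_neg] at h1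
      calc om m T (t - u) * φ t ≤ ((1 + |u|) ^ m * om m T t) * φ t :=
            mul_le_mul_of_nonneg_right h1 (h0 t)
        _ = _ := by ring
  set N := ∫ t, φ t * om m T t with hN
  have hlow : ∀ u : ℝ, ((1 + |u|) ^ m)⁻¹ * N ≤ ∫ t, om m T (t - u) * φ t := by
    intro u
    rw [hN, ← integral_const_mul]
    refine integral_mono (hint.const_mul _) (hint2 u) fun t => ?_
    have h1 := om_shift m hT t (-u)
    rw [abs_neg, ← sub_eq_add_neg] at h1
    calc ((1 + |u|) ^ m)⁻¹ * (φ t * om m T t) = (((1 + |u|) ^ m)⁻¹ * om m T t) * φ t := by ring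
      _ ≤ om m T (t - u) * φ t := mul_le_mul_of_nonneg_right h1 (h0 t)
  have hup : ∀ u : ℝ, ∫ t, om m T (t - u) * φ t ≤ (1 + |u|) ^ m * N := by
    intro u
    rw [hN, ← integral_const_mul]
    refine integral_mono (hint2 u) (hint.const_mul _) fun t => ?_
    have h1 := om_shift' m hT t (-u)
    rw [abs_neg, ← sub_eq_add_neg] at h1
    calc om m T (t - u) * φ t ≤ ((1 + |u|) ^ m * om m T t) * φ t :=
            mul_le_mul_of_nonneg_right h1 (h0 t)
      _ = _ := by ring
  have hR : Integrable (fun u => ∫ τ, P τ u) := hPi.integral_prod_right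
  have hL : Integrable (fun τ => ∫ u, P τ u) := hPi.integral_prod_left
  simp_rw [hI2]
  refine ⟨hint, hL, ?_, ?_⟩
  · rw [hswap]
    unfold c1
    rw [← integral_mul_const]
    refine integral_mono ((c1_int m).mul_const _) hR fun u => ?_
    simp only
    rw [hI3]
    calc ((1 + |u|) ^ m)⁻¹ * Real.exp (-(2 * u ^ 2)) * N = Real.exp (-(2 * u ^ 2)) * (((1 + |u|) ^ m)⁻¹ * N) := by
          ring
      _ ≤ _ := mul_le_mul_of_nonneg_left (hlow u) (Real.exp_pos _).le
  · rw [hswap]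
    unfold c2
    rw [← integral_mul_const]
    refine integral_mono hR ((gauss_int_poly m).mul_const _) fun u => ?_
    simp only
    rw [hI3]
    calc Real.exp (-(2 * u ^ 2)) * ∫ t, om m T (t - u) * φ t ≤ Real.exp (-(2 * u ^ 2)) * ((1 + |u|) ^ m * N) :=
          mul_le_mul_of_nonneg_left (hup u) (Real.exp_pos _).le
      _ = _ := by ring

/-- **The moments slightly off the critical line.** -/
theorem off_line (k : ℕ) {m : ℕ} (hm : 4 * k + 2 ≤ m) : ∃ K : ℝ, 0 ≤ K ∧ ∀ T : ℝ, Real.exp 7 ≤ T →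
    ∀ x : ℝ, |x| ≤ 1 / Real.log T →
    Integrable (fun t : ℝ => ‖riemannZeta (pt x t)‖ ^ (2 * k) * om m T t) ∧
    ∫ t : ℝ, ‖riemannZeta (pt x t)‖ ^ (2 * k) * om m T t ≤ K * (NN k m T + T) := by
  obtain ⟨C, hC, hg⟩ := zeta_growth
  obtain ⟨K, hK, hloc⟩ := local_bound k
  obtain ⟨K3, hK3, hom⟩ := integral_om hm
  have hc1 := c1_pos m
  have hc2 : 0 ≤ c2 m := integral_nonneg fun u => by positivity
  refine ⟨(c1 m)⁻¹ * (K * (c2 m + K3)), by positivity, fun T hT x hx => ?_⟩
  have hT0 : 0 < T := (Real.exp_pos 7).trans_le hT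
  have hT1 : 1 ≤ T := (Real.one_le_exp (by norm_num)).trans hT
  have hL : 7 ≤ Real.log T := (Real.le_log_iff_exp_le hT0).2 hT
  have hL0 : 0 < Real.log T := by linarith
  have hx4 : |x| ≤ 1 / 4 := by
    refine hx.trans ?_
    rw [div_le_div_iff₀ hL0 (by norm_num)]
    linarith
  have hx5 := abs_le.1 hx4
  have hbd : ∀ y : ℝ, -(3 / 8) ≤ y → y ≤ 3 / 8 → ∀ t : ℝ,
      ‖riemannZeta (pt y t)‖ ^ (2 * k) ≤ C ^ (2 * k) * (1 + |t|) ^ (4 * k) := by
    intro y h1 h2 t
    have h3 := hg (pt y t) (by rw [pt_re]; linarith) (by rw [pt_re]; linarith)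
    rw [pt_im] at h3
    calc ‖riemannZeta (pt y t)‖ ^ (2 * k) ≤ (C * (1 + |t|) ^ 2) ^ (2 * k) := by gcongr
      _ = _ := by rw [mul_pow, ← pow_mul]; ring_nf
  have hC0 : 0 ≤ C ^ (2 * k) := by positivity
  obtain ⟨a1, a2, a3, -⟩ := conv_facts (φ := fun t => ‖riemannZeta (pt x t)‖ ^ (2 * k))
    ((zeta_pt_cont (by linarith)).norm.pow _) (fun t => by positivity) hC0
    (hbd x (by linarith) (by linarith)) hm hT1
  obtain ⟨b1, b2, -, b4⟩ := conv_facts (φ := fun t => ‖riemannZeta (pt 0 t)‖ ^ (2 * k))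
    ((zeta_pt_cont (by norm_num)).norm.pow _) (fun t => by positivity) hC0
    (hbd 0 (by norm_num) (by norm_num)) hm hT1
  refine ⟨a1, ?_⟩
  have hNN : ∫ t, ‖riemannZeta (pt 0 t)‖ ^ (2 * k) * om m T t = NN k m T := by
    unfold NN zh
    simp only [pt_zero]
  obtain ⟨d1, d2⟩ := hom T hT1
  have hmid : ∫ τ, om m T τ * JJ k x τ ≤ ∫ τ, K * (om m T τ * JJ k 0 τ + (1 + |τ| / T) ^ (4 * k) * om m T τ) := by
    refine integral_mono a2 ((b2.add d1).const_mul K) fun τ => ?_
    have h1 := hloc T hT x hx τ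
    have h2 := om_nonneg m hT0 τ
    calc om m T τ * JJ k x τ ≤ om m T τ * (K * (JJ k 0 τ + (1 + |τ| / T) ^ (4 * k))) :=
          mul_le_mul_of_nonneg_left h1 h2
      _ = _ := by ring
  have hsum : ∫ τ, K * (om m T τ * JJ k 0 τ + (1 + |τ| / T) ^ (4 * k) * om m T τ) =
      K * ((∫ τ, om m T τ * JJ k 0 τ) + ∫ τ, (1 + |τ| / T) ^ (4 * k) * om m T τ) := by
    have b2' : Integrable (fun τ => om m T τ * JJ k 0 τ) := b2
    rw [integral_const_mul, integral_add b2' d1]
  have hN0 : 0 ≤ NN k m T := by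
    rw [← hNN]
    exact integral_nonneg fun t => mul_nonneg (by positivity) (om_nonneg m hT0 t)
  rw [hNN] at b4
  have h5 : c1 m * ∫ t, ‖riemannZeta (pt x t)‖ ^ (2 * k) * om m T t ≤ K * (c2 m * NN k m T + K3 * T) := by
    refine a3.trans (hmid.trans ?_)
    rw [hsum]
    exact mul_le_mul_of_nonneg_left (add_le_add b4 d2) hK
  have h6 : K * (c2 m * NN k m T + K3 * T) ≤ K * (c2 m + K3) * (NN k m T + T) := by
    have h7 : c2 m * NN k m T + K3 * T ≤ (c2 m + K3) * (NN k m T + T) := by nlinarith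
    calc _ ≤ K * ((c2 m + K3) * (NN k m T + T)) := mul_le_mul_of_nonneg_left h7 hK
      _ = _ := by ring
  calc ∫ t, ‖riemannZeta (pt x t)‖ ^ (2 * k) * om m T t =
      (c1 m)⁻¹ * (c1 m * ∫ t, ‖riemannZeta (pt x t)‖ ^ (2 * k) * om m T t) := by
        rw [inv_mul_cancel_left₀ hc1.ne']
    _ ≤ (c1 m)⁻¹ * (K * (c2 m + K3) * (NN k m T + T)) := by
        exact mul_le_mul_of_nonneg_left (h5.trans h6) (inv_pos.2 hc1).le
    _ = _ := by ring

end Pool.Agent.J6H39.CG.RBx
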