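import Pool.Agent.J6H39.KV.C
import Pool.Agent.H345R2.Chi

/-!
# Project CG (MP_80d0cf_nt): a smoothed Conrey-Gonek identity for all moments of zeta. Statements.

`f(t) = ζ(1/2+it)^k = zh t ^ k`, `L = log T`, `h = hh T = 2π/L`. For `V` smooth with compact support
`uu V = 𝓕 V`, `Aop V T g (t) = ∫ (𝓕 V)(ξ) g(t - h ξ) dξ` (a Fourier multiplier at the scale `1/L`), and
`Dp k V T t = ∑_n d_k(n) n^(-1/2-it) V(log n / log T)`.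

The aim: if `V(x)² + W(k-x)² = 1` on `[0,k]` then
`∫ |ζ|^(2k) w(t/T) dt = ∫ (|D_V|² + |D_W|²) w(t/T) dt + o(NN k m T)`,
`NN k m T = ∫ |ζ(1/2+it)|^(2k) (1 + |t|/T)^(-m) dt`.

Every statement is a `Prop` with its proof in the docstring. A module proves one of them, possibly from
others as hypotheses.
-/

set_option autoImplicit false

open MeasureTheory Set Filter Topology Complex
open scoped FourierTransform ContDiff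

namespace Pool.Agent.J6H39.CG

open Pool.Agent.J6H39.KV (dv)
open H345 (XX)

/-- `ζ(1/2+it)` -/
noncomputable def zh (t : ℝ) : ℂ := riemannZeta (1 / 2 + (t : ℂ) * I)

/-- the weight `(1+|t|/T)^(-m)` -/
noncomputable def om (m : ℕ) (T t : ℝ) : ℝ := ((1 + |t| / T) ^ m)⁻¹

/-- the weighted moment -/
noncomputable def NN (k m : ℕ) (T : ℝ) : ℝ := ∫ t, ‖zh t‖ ^ (2 * k) * om m T t

/-- test functions -/
structure Tst (V : ℝ → ℝ) : Prop where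
  smooth : ContDiff ℝ ∞ V
  cpt : HasCompactSupport V

/-- weights `w`, to be used as `w(t/T)` -/
structure Wt (w : ℝ → ℝ) : Prop where
  smooth : ContDiff ℝ 1 w
  supp : ∃ a b : ℝ, 0 < a ∧ a ≤ b ∧ ∀ x, x ∉ Icc a b → w x = 0

/-- the Fourier transform of a real function -/
noncomputable def uu (V : ℝ → ℝ) : ℝ → ℂ := 𝓕 (fun x : ℝ => (V x : ℂ))

/-- continuous functions of polynomial growth -/
def PG (B : ℕ) (g : ℝ → ℂ) : Prop := Continuous g ∧ ∃ C : ℝ, ∀ t, ‖g t‖ ≤ C * (1 + |t|) ^ B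

/-- `2π/log T` -/
noncomputable def hh (T : ℝ) : ℝ := 2 * Real.pi / Real.log T

/-- the multiplier operator -/
noncomputable def Aop (V : ℝ → ℝ) (T : ℝ) (g : ℝ → ℂ) (t : ℝ) : ℂ := ∫ ξ, uu V ξ * g (t - hh T * ξ)

/-- the majorant operator -/
noncomputable def Kop (κ : ℝ → ℝ) (T : ℝ) (g : ℝ → ℂ) (t : ℝ) : ℝ := ∫ ξ, κ ξ * ‖g (t - hh T * ξ)‖

/-- the Dirichlet polynomial -/
noncomputable def Dp (k : ℕ) (V : ℝ → ℝ) (T t : ℝ) : ℂ :=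
  ∑' n : ℕ, (dv k n : ℂ) * (n : ℂ) ^ (-(1 / 2 + (t : ℂ) * I)) * (V (Real.log n / Real.log T) : ℂ)

/-- kernels: continuous, nonnegative, with all moments -/
structure Ker (κ : ℝ → ℝ) : Prop where
  cont : Continuous κ
  nonneg : ∀ ξ, 0 ≤ κ ξ
  mom : ∀ n : ℕ, Integrable (fun ξ => (1 + |ξ|) ^ n * κ ξ)

/-- **CG-F** (base, helper39): facts on `uu`. -/
def S_F : Prop :=
  (∀ V, Tst V → Continuous (uu V) ∧ Ker (fun ξ => ‖uu V ξ‖) ∧ Ker (fun ξ => ‖uu V ξ‖ * (1 + ξ ^ 2)) ∧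
    (∀ x : ℝ, ∫ ξ : ℝ, uu V ξ * cexp (2 * Real.pi * I * x * ξ) = V x) ∧
    (∀ ξ, (starRingEnd ℂ) (uu V ξ) = uu V (-ξ)) ∧
    Tst (fun x => V x ^ 2) ∧
    (∀ η : ℝ, uu (fun x => V x ^ 2) η = ∫ ξ, uu V ξ * uu V (η - ξ)) ∧
    (∀ a : ℝ, Tst (fun x => V (a - x)) ∧
      ∀ ξ : ℝ, uu (fun x => V (a - x)) ξ = cexp (-(2 * Real.pi * I * a * ξ)) * (starRingEnd ℂ) (uu V ξ)) ∧
    (∀ M : ℝ, 0 < M → Tst (fun x => V (x / M)) ∧ ∀ ξ : ℝ, uu (fun x => V (x / M)) ξ = M * uu V (M * ξ)))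

/-- **CG-ZG** (base, helper39): `ζ(1/2+it)^k` is continuous and `O((1+|t|)^k)`. -/
def S_ZG : Prop := ∀ k : ℕ, PG k (fun t => zh t ^ k)

/-- **CG-KB** (base, helper39): the majorant operator in the weighted `L²`. -/
def S_KB : Prop := ∀ m B : ℕ, 2 * B + 2 ≤ m → ∀ κ : ℝ → ℝ, Ker κ → ∃ K : ℝ, 0 ≤ K ∧
  ∀ T : ℝ, Real.exp 7 ≤ T → ∀ g : ℝ → ℂ, PG B g →
    (∀ t, Integrable (fun ξ => κ ξ * ‖g (t - hh T * ξ)‖)) ∧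
    Continuous (Kop κ T g) ∧
    (∃ C : ℝ, ∀ t, Kop κ T g t ≤ C * (1 + |t|) ^ B) ∧
    Integrable (fun t => ‖g t‖ ^ 2 * om m T t) ∧
    Integrable (fun t => Kop κ T g t ^ 2 * om m T t) ∧
    ∫ t, Kop κ T g t ^ 2 * om m T t ≤ K * ∫ t, ‖g t‖ ^ 2 * om m T t

/-- **CG-AB** (base, helper39): `Aop` is dominated by `Kop` and preserves `PG B`. -/
def S_AB : Prop := ∀ V, Tst V → ∀ (B : ℕ) (T : ℝ), Real.exp 7 ≤ T → ∀ g : ℝ → ℂ, PG B g →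
  (∀ t, Integrable (fun ξ => uu V ξ * g (t - hh T * ξ))) ∧
  (∀ t, ‖Aop V T g t‖ ≤ Kop (fun ξ => ‖uu V ξ‖) T g t) ∧ PG B (Aop V T g)

/-- **CG-RB**: moments slightly off the critical line, and the derivative. There is an exponent `m₀` such
that for all `m ≥ m₀` the moment of `|ζ(1/2+x+it)|^(2k)`, `|x| ≤ 1/log T`, is bounded by the one on the
line, and `∫ |f'|² ≪ L² (NN + T)`.

Proof. (1) `|ζ(σ+it)| ≤ C (1+|t|)` for `1/8 ≤ σ ≤ 7/8` (e.g. `Pool.Agent.H437R2`/`KV.B.EE_growth` uses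
such a bound; or `riemannZeta` near the real axis is bounded by compactness and for `|t| ≥ 1` there are
bounds in the libraries). (2) For `τ ∈ ℝ` put `J_τ(σ) = ∫ |ζ(σ+it)|^(2k) e^(-2(t-τ)²) dt` and
`H_τ(z) = e^(2(z-1/2)²) ∫ ζ(z+it)^k ζ(z-it)^k e^(-2(t-τ)²) dt`. `H_τ` is analytic on `1/8 < Re z < 7/8`
(`Pool.Agent.HP.differentiableOn_integral`, file `HopfPinch/AnS1.lean`), `H_τ(σ) = e^(2(σ-1/2)²) J_τ(σ)`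
for real `σ` (`ζ(σ-it)` is the conjugate of `ζ(σ+it)`), and
`|H_τ(σ+iy)| ≤ e^(2(σ-1/2)² - 2y²) ∫ |ζ(σ+i(t+y))|^k |ζ(σ+i(t-y))|^k e^(-2(t-τ)²) dt ≤ e^(2(σ-1/2)²) J_τ(σ)`
because `2y² + 2(t-τ)² = (t+y-τ)² + (t-y-τ)²` and by Cauchy-Schwarz (or `ab ≤ (a²+b²)/2` and translation).
(3) Three lines (`Complex.HadamardThreeLines.norm_le_interp_of_mem_verticalClosedStrip'`) on `[1/2, 3/4]`
and on `[1/4, 1/2]`: with `θ = 4|x|`, `J_τ(1/2+x) ≤ J_τ(1/2)^(1-θ) (C (1+|τ|)^(2k))^θ` (up to constants).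
Weighted AM-GM with `λ = T^(2k)`: `J^(1-θ) D^θ = λ^θ J^(1-θ) (D/λ)^θ ≤ λ^θ (J + D/λ)`, and `λ^θ ≤ e^(8k)` for
`|x| ≤ 1/log T`; `D/λ ≤ C (1+|τ|/T)^(2k)` for `T ≥ 1`. (4) Integrate against `om m T τ dτ`, `m ≥ 2k+2`:
`(1+|t-τ|)^(-m) om m T t ≤ om m T τ ≤ (1+|t-τ|)^m om m T t`, so `∫ e^(-2(t-τ)²) om m T τ dτ` is between two
positive constants times `om m T t`. This gives the first bound. (5) Cauchy's formula on the circle of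
radius `r = 1/log T` about `1/2+it`: `|f'(t)|² ≤ r^(-2) (1/2π) ∫_0^(2π) |ζ(1/2+r e^(iθ)+it)|^(2k) dθ`;
integrate against `om`, use the first bound and `om m T (t+δ) ≤ 2^m om m T t` for `|δ| ≤ 1`. `f'` is
continuous and of polynomial growth by Cauchy's formula with radius `1/8`. -/
def S_RB : Prop := ∀ k : ℕ, ∃ m₀ : ℕ, ∀ m : ℕ, m₀ ≤ m → ∃ K T₀ : ℝ, 0 ≤ K ∧ ∀ T : ℝ, T₀ ≤ T →
  (∀ x : ℝ, |x| ≤ 1 / Real.log T →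
    Integrable (fun t : ℝ => ‖riemannZeta (1 / 2 + (x : ℂ) + (t : ℂ) * I)‖ ^ (2 * k) * om m T t) ∧
    ∫ t : ℝ, ‖riemannZeta (1 / 2 + (x : ℂ) + (t : ℂ) * I)‖ ^ (2 * k) * om m T t ≤ K * (NN k m T + T)) ∧
  (Differentiable ℝ (fun t => zh t ^ k)) ∧
  (∃ B : ℕ, PG B (deriv (fun t => zh t ^ k))) ∧
  Integrable (fun t => ‖deriv (fun t => zh t ^ k) t‖ ^ 2 * om m T t) ∧
  ∫ t, ‖deriv (fun t => zh t ^ k) t‖ ^ 2 * om m T t ≤ K * Real.log T ^ 2 * (NN k m T + T)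

/-- **CG-DA**: the Dirichlet polynomial is the multiplier applied to `ζ^k`, up to `O(1)`, for `t ≍ T`.

Proof. Let `u = uu V`, `h = hh T`, `supp V ⊆ [-a, a]`. Principal part of `ζ^k` at `1`: `ζ(s)^k = P(s) + E(s)`,
`P(s) = ∑_{p<k} c_p (s-1)^(-p-1)`, `E` entire (as in `KV/B.lean`, which does `ζ^k/s`; here the iterated
`dslope` at `1` of `riemannZeta₁ ^ k`), `E(s) = O((1+|Im s|)^B)` for `1/4 ≤ Re s ≤ 3`.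
(1) For `Re s > 1`: `∑_n d_k(n) n^(-s) V(log n/L) = ∫ u(ξ) ζ(s - i h ξ)^k dξ` (inversion `S_F`, `KV.dv_series`,
absolute convergence). (2) For `Re s > 1`: `∫ u(ξ) P(s - ihξ) dξ = ∑ c_p ∫_0^∞ x^p/p! e^(-(s-1)x) V(x/L) dx =: G(s)`
(`KV.pow_laplace`, Fubini). (3) `D(s) := ∑_n d_k(n) n^(-s) V(log n/L)` (a finite sum), `G(s)` and
`∫ u(ξ) E(s - ihξ) dξ` are analytic on `1/4 < Re s < 3` (`Pool.Agent.HP.differentiableOn_integral`), so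
`D(s) = G(s) + ∫ u(ξ) E(s - ihξ) dξ` there, in particular at `s = 1/2+it`. (4) At `s = 1/2+it`, with `Re w < 0`:
`1/w^(p+1) = -∫_{-∞}^0 x^p/p! e^(-wx) dx`, so `Aop V T f t = ∫ u(ξ) E(s-ihξ) dξ - ∑ c_p ∫_{-∞}^0 x^p/p! e^(-(s-1)x) V(x/L) dx`.
Hence `Dp - Aop = ∑ c_p ∫_ℝ x^p/p! V(x/L) e^(-(s-1)x) dx`. (5) `x = L y`: the integral is
`L^(p+1) ∫ g(y) e^(-w L y) dy`, `g(y) = y^p V(y)/p!`, `w = -1/2+it`; integrating by parts `N` times it is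
`L^(p+1) (wL)^(-N) ∫ g^(N)(y) e^(-wLy) dy = O(L^(p+1) T^(a/2) (cT)^(-N))`: bounded for `N ≥ a/2 + 1`. -/
def S_DA : Prop := ∀ (k : ℕ) (V : ℝ → ℝ), Tst V → ∀ c C : ℝ, 0 < c → c ≤ C → ∃ K T₀ : ℝ, 0 ≤ K ∧
  ∀ T : ℝ, T₀ ≤ T → ∀ t : ℝ, c * T ≤ t → t ≤ C * T →
    ‖Dp k V T t - Aop V T (fun t => zh t ^ k) t‖ ≤ K

/-- **CG-D1**: the exact formula, steps (1)-(4) of `S_DA`. -/
def S_D1 : Prop := ∀ k : ℕ, ∃ c : ℕ → ℂ, ∀ V, Tst V → ∀ T : ℝ, Real.exp 7 ≤ T → ∀ t : ℝ,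
  Dp k V T t - Aop V T (fun t => zh t ^ k) t =
    ∑ p ∈ Finset.range k, c p * ∫ x : ℝ, (x : ℂ) ^ p * (V (x / Real.log T) : ℂ) * cexp ((1 / 2 - (t : ℂ) * I) * x)

/-- **CG-D2**: the rapid decay, step (5) of `S_DA`. -/
def S_D2 : Prop := ∀ (p : ℕ) (V : ℝ → ℝ), Tst V → ∀ c C : ℝ, 0 < c → c ≤ C → ∃ K T₀ : ℝ, 0 ≤ K ∧
  ∀ T : ℝ, T₀ ≤ T → ∀ t : ℝ, c * T ≤ t → t ≤ C * T →
    ‖∫ x : ℝ, (x : ℂ) ^ p * (V (x / Real.log T) : ℂ) * cexp ((1 / 2 - (t : ℂ) * I) * x)‖ ≤ K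

/-- **CG-PH**: the functional equation for the multiplier.

Proof. `X(t) = XX(1/2+it)`, `|X(t)| = 1` (`H345.Chi.norm_XX_half`), and the functional equation (`H345.zeta_fe`)
at `s = 1/2+it` says `conj (zh t) = X(t) zh t`, so `f(t) = conj(X(t))^k conj(f(t))`. With `S_F`,
`uu (W(k-·))(ξ) = e^(-2πikξ) conj (uu W ξ)`, hence
`Aop (W(k-·)) T f t - conj(X t)^k conj(Aop W T f t) = ∫ conj(uu W ξ) conj(f(t-hξ)) (e^(-2πikξ) conj(X(t-hξ))^k - conj(X t)^k) dξ`.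
The bracket is, up to conjugation and a factor of modulus one, `a^k - b^k` with `|a| = |b| = 1`,
`a = e^(2πiξ) X(t-hξ)`, `b = X(t)`, so `≤ k |a - b|`. By `H345.XX_local` (base point `t ≥ cT`, `|hξ| ≤ t/2`)
`|X(t-hξ) - X(t) e^(-ihξ log(t/2π))| ≤ C (1+h²ξ²)/t`; for `|hξ| > t/2` it is `≤ 2 ≤ 8 h²ξ²/t²`. Finally
`|e^(-ihξ log(t/2π)) e^(2πiξ) - 1| ≤ |2πξ (1 - log(t/2π)/L)| ≤ C |ξ|/L` for `cT ≤ t ≤ CT`. In total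
`|a - b| ≤ K (1+ξ²)/L`. -/
def S_PH : Prop := ∀ (k : ℕ) (W : ℝ → ℝ), Tst W → ∀ c C : ℝ, 0 < c → c ≤ C → ∃ K T₀ : ℝ, 0 ≤ K ∧
  ∀ T : ℝ, T₀ ≤ T → ∀ t : ℝ, c * T ≤ t → t ≤ C * T →
    ‖Aop (fun x => W (k - x)) T (fun t => zh t ^ k) t -
      (starRingEnd ℂ) (XX (1 / 2 + (t : ℂ) * I)) ^ k * (starRingEnd ℂ) (Aop W T (fun t => zh t ^ k) t)‖ ≤
    K / Real.log T * Kop (fun ξ => ‖uu W ξ‖ * (1 + ξ ^ 2)) T (fun t => zh t ^ k) t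

/-- **CG-RP**: reproduction. Proof (from `S_F`, `S_RB`). `uu (V(·/M)) ξ = M uu V (Mξ)`, `∫ uu V = V 0 = 1` (inversion
at `0`), so with `u = uu V`: `Aop (V(·/M)) T f t - f t = ∫ u(η) (f(t - hη/M) - f(t)) dη`, and
`|f(t-δ) - f(t)|² ≤ δ² ∫_0^1 |f'(t-sδ)|² ds`. Cauchy-Schwarz with the measure `|u(η)| |η| dη`:
`|Aop.. - f|² ≤ (h/M)² (∫ |u||η|) ∫ |u(η)||η| ∫_0^1 |f'(t - s h η/M)|² ds dη`; integrate against `om m T t`, with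
`om m T (t+δ) ≤ (1+|δ|)^m om m T t` (`T ≥ 1`), `h ≤ 1`, `M ≥ 1`: `≤ C (h/M)² ∫ |f'|² om ≤ K/M² (NN + T)`. -/
def S_RP : Prop := ∀ k : ℕ, ∃ m₀ : ℕ, ∀ m : ℕ, m₀ ≤ m → ∀ V : ℝ → ℝ, Tst V → V 0 = 1 → ∃ K T₀ : ℝ, 0 ≤ K ∧
  ∀ M T : ℝ, 1 ≤ M → T₀ ≤ T →
    ∫ t, ‖Aop (fun x => V (x / M)) T (fun t => zh t ^ k) t - zh t ^ k‖ ^ 2 * om m T t ≤
      K / M ^ 2 * (NN k m T + T)

/-- **CG-SA**: composition and self-adjointness. Proof (from `S_F`, `S_KB`, `S_AB`). Let `u = uu V`, `G = Aop V T g` (again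
`PG B`), `w_T(t) = w(t/T)`. `Aop (V²) T g t = ∫ u(ξ) G(t - hξ) dξ` (`uu (V²) = u * u`, Fubini). So
`∫ Aop (V²) T g t conj(g t) w_T(t) dt = ∫ u(ξ) ∫ G(t) conj(g(t+hξ)) w_T(t+hξ) dt dξ` (Fubini, translation), and
`∫ |G|² w_T = ∫ G(t) conj(G(t)) w_T(t) dt = ∫ u(ξ) ∫ G(t) conj(g(t+hξ)) w_T(t) dt dξ` because `conj (u ξ) = u(-ξ)`.
`|w_T(t+δ) - w_T(t)| ≤ C (|δ|/T) (1+|δ|)^m om m T t` for `T ≥ 1` (`w` is Lipschitz; if `w_T(t+δ)` or `w_T(t)` is not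
zero then `|t|/T ≤ b + |δ|`). So the difference is at most
`(C/T) ∫ |u(ξ)| |ξ| (1+|ξ|)^m ∫ |G(t)| |g(t+hξ)| om m T t dt dξ ≤ (K/T) ∫ |g|² om` by `ab ≤ (a²+b²)/2`, `S_KB` for `G` and
`∫ |g(t+δ)|² om m T t dt ≤ (1+|δ|)^m ∫ |g|² om`. -/
def S_SA : Prop := ∀ m B : ℕ, 2 * B + 2 ≤ m → ∀ w, Wt w → ∀ V, Tst V → ∃ K : ℝ, 0 ≤ K ∧
  ∀ T : ℝ, Real.exp 7 ≤ T → ∀ g : ℝ → ℂ, PG B g →
    ‖((∫ t, ‖Aop V T g t‖ ^ 2 * w (t / T) : ℝ) : ℂ) -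
      ∫ t, Aop (fun x => V x ^ 2) T g t * (starRingEnd ℂ) (g t) * (w (t / T) : ℂ)‖ ≤
    K / T * ∫ t, ‖g t‖ ^ 2 * om m T t

/-- **CG-UB**: an upper bound on `[0,T]` for all `T` gives the weighted one. Proof. By evenness twice the integral over
`[0,∞)`; on `[0,T]` use `om ≤ 1`; on `[2^j T, 2^(j+1) T]` use `om ≤ 2^(-jm)` and
`∫_0^(2^(j+1)T) φ ≤ C₀ 2^(j+1) T (log T + (j+1))^p ≤ C₀ 2^(j+1) T (log T)^p (j+2)^p` (`log T ≥ 1`); the series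
`∑ 2^(j+1-jm) (j+2)^p` converges for `m ≥ 2`. -/
def S_UB : Prop := ∀ (φ : ℝ → ℝ), Continuous φ → (∀ t, 0 ≤ φ t) → (∀ t, φ (-t) = φ t) → ∀ (p m : ℕ), 2 ≤ m →
  ∀ C₀ : ℝ, (∀ T : ℝ, 2 ≤ T → ∫ t in (0:ℝ)..T, φ t ≤ C₀ * (T * Real.log T ^ p)) →
  ∃ K : ℝ, 0 ≤ K ∧ ∀ T : ℝ, 3 ≤ T → Integrable (fun t => φ t * om m T t) ∧
    ∫ t, φ t * om m T t ≤ K * (T * Real.log T ^ p)

/-- **CG-TB**: sharp and smooth cutoffs. `φ` continuous, nonnegative with `∫_0^T φ ≤ C₀ T (log T)^p` for `T ≥ 2`. Then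
`∫_0^T φ ∼ γ T (log T)^p` iff `∫ φ(t) w(t/T) dt / (T (log T)^p) → γ ∫ w` for all `w` in `Wt`. Proof. `→`: with
`Φ(T) = ∫_0^T φ`, `∫ φ(t) w(t/T) dt = -∫ Φ(Ts) w'(s) ds` (integration by parts; `w` has compact support in `(0,∞)`),
`Φ(Ts)/(T (log T)^p) → γ s` boundedly for `s ∈ [a,b]`, and `-γ ∫ s w'(s) ds = γ ∫ w`; dominated convergence. `←`: for small
`ε` take `w₁, w₂` with `0 ≤ w₁ ≤ 1_[ε,1] ≤ w₂`, `w₁ = 1` on `[2ε, 1-ε]`, `w₂ ≤ 1` supported in `[ε/2, 1+ε]` (e.g. from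
`Real.smoothTransition`); the part `t ≤ εT` is at most `C₀ ε T (log T)^p`. -/
def S_TB : Prop := ∀ (φ : ℝ → ℝ), Continuous φ → (∀ t, 0 ≤ φ t) → ∀ (p : ℕ) (C₀ : ℝ),
  (∀ T : ℝ, 2 ≤ T → ∫ t in (0:ℝ)..T, φ t ≤ C₀ * (T * Real.log T ^ p)) → ∀ γ : ℝ,
  (Tendsto (fun T : ℝ => (∫ t in (0:ℝ)..T, φ t) / (T * Real.log T ^ p)) atTop (𝓝 γ) ↔
    ∀ w, Wt w → Tendsto (fun T : ℝ => (∫ t, φ t * w (t / T)) / (T * Real.log T ^ p)) atTop (𝓝 (γ * ∫ x, w x)))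

end Pool.Agent.J6H39.CG
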